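import Pool.Agent.Lib.RU.GeV

set_option autoImplicit false

namespace Pool.Agent.Lib.RU

/-- from `GeVStmt`: the last condition of `FamI` is left out -/
theorem tGeU : GeUStmt := by
  intro K C hK
  obtain ⟨δ, M0, hδ, h⟩ := tGeV K C hK
  refine ⟨δ, M0, hδ, fun M hM => ?_⟩
  obtain ⟨⟨H1, h1, h1'⟩, ⟨H2, h2, h2'⟩⟩ := h M hM
  exact ⟨⟨H1, h1, fun h hh => ⟨(h1' h hh).1, (h1' h hh).2.1, (h1' h hh).2.2.1⟩⟩,
    ⟨H2, h2, fun h hh => ⟨(h2' h hh).1, (h2' h hh).2.1, (h2' h hh).2.2.1⟩⟩⟩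

end Pool.Agent.Lib.RU
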