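import Pool.Agent.Lib.RU.Spec

/-!
PROJECT RU, module WiU: one window.
-/

set_option autoImplicit false

namespace Pool.Agent.Lib.RU

open Finset
open Pool.Agent.Lib.MP_9f2731_nt.GP Pool.Agent.Lib.MP_9f2731_nt.GP.Sv Pool.Agent.Lib.MP_9f2731_nt.QL
  Pool.Agent.Lib.MP_9f2731_nt.QL.Sw Pool.Agent.Lib.MP_9f2731_nt.CG Pool.Agent.Lib.MP_9f2731_nt.CG.Ma
  Pool.Agent.Lib.MP_9f2731_nt.CG.Mf Pool.Agent.Lib.BE

/-- the number of primes in the window -/
private theorem WiU_count (K M N r : ℕ) (h : Fin K → ℕ) (hh : StrictMono h)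
    (h1 : ∀ j, 1 ≤ h j ∧ h j ≤ M)
    (h3 : r + 2 ≤ (univ.filter (fun j => (N + h j).Prime)).card) :
    Nat.nth Nat.Prime (Nat.primeCounting N + (r + 1)) ≤ N + M := by
  have hinf : (Set.ofPred Nat.Prime).Infinite := Nat.infinite_setOfPred_prime
  have hcount : Nat.primeCounting N + (r + 1) < Nat.count Nat.Prime (N + M + 1) := by
    have e1 : N + M + 1 = (N + 1) + M := by ring
    have e2 : Nat.count Nat.Prime (N + M + 1) =
        Nat.primeCounting N + Nat.count (fun k => Nat.Prime (N + 1 + k)) M := by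
      rw [e1, Nat.count_add]
      rfl
    have e3 : (univ.filter (fun j : Fin K => (N + h j).Prime)).card ≤
        Nat.count (fun k => Nat.Prime (N + 1 + k)) M := by
      rw [Nat.count_eq_card_filter_range]
      refine Finset.card_le_card_of_injOn (fun j => h j - 1) ?_ ?_
      · intro j hj
        rw [Finset.mem_coe, Finset.mem_filter] at hj
        rw [Finset.mem_coe, Finset.mem_filter, Finset.mem_range]
        have h4 := h1 j
        have e5 : h j - 1 < M := by omega
        have e4 : N + 1 + (h j - 1) = N + h j := by omega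
        refine ⟨e5, ?_⟩
        show Nat.Prime (N + 1 + (h j - 1))
        rw [e4]
        exact hj.2
      · intro j _ j' _ hjj
        have h4 := h1 j
        have h5 := h1 j'
        simp only at hjj
        exact hh.injective (by omega)
    omega
  have h6 := (Nat.lt_nth_iff_count_lt hinf).1 hcount
  omega

theorem tWiU : WiUStmt := by
  intro K M N r Rel h hh h1 h2 h3 h4
  have hinf : (Set.ofPred Nat.Prime).Infinite := Nat.infinite_setOfPred_prime
  obtain ⟨P, hP⟩ : ∃ P : ℕ → ℕ, P = fun i => Nat.nth Nat.Prime (Nat.primeCounting N + i) :=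
    ⟨_, rfl⟩
  have hPi : ∀ i, Nat.nth Nat.Prime (Nat.primeCounting N + i) = P i := fun i => by rw [hP]
  have hmono : StrictMono P := by
    intro i j hij
    rw [← hPi i, ← hPi j]
    exact Nat.nth_strictMono hinf (by omega)
  have hlow : N < P 0 := by
    have h5 : N + 1 ≤ Nat.nth Nat.Prime (Nat.count Nat.Prime (N + 1)) :=
      (Nat.count_le_iff_le_nth hinf).1 le_rfl
    rw [← hPi 0, Nat.add_zero]
    exact h5
  have hup : P (r + 1) ≤ N + M := by
    rw [← hPi (r + 1)]
    exact WiU_count K M N r h hh h1 h3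
  have hprime : ∀ i, (P i).Prime := by
    intro i
    rw [← hPi i]
    exact Nat.nth_mem_of_infinite hinf _
  have hex : ∀ i, i ≤ r + 1 → ∃ j, N + h j = P i := by
    intro i hi
    have h5 : P 0 ≤ P i := hmono.monotone (Nat.zero_le i)
    have h6 : P i ≤ P (r + 1) := hmono.monotone hi
    obtain ⟨j, hj⟩ := h4 (P i - N) (by omega) (by omega) (by
      have e : N + (P i - N) = P i := by omega
      rw [e]
      exact hprime i)
    exact ⟨j, by omega⟩
  have hgp : ∀ i, gp (Nat.primeCounting N + i) = P (i + 1) - P i := by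
    intro i
    unfold gp
    rw [hPi i, add_assoc, hPi (i + 1)]
  have h0r : P 0 ≤ P (r + 1) := hmono.monotone (Nat.zero_le _)
  refine ⟨?_, ?_, ?_, ?_⟩
  · have := hPi 0
    rw [Nat.add_zero] at this
    rw [this]
    exact hlow
  · have := hPi 0
    rw [Nat.add_zero] at this
    rw [this]
    omega
  · intro i hi
    obtain ⟨a, ha⟩ := hex i (by omega)
    obtain ⟨b, hb⟩ := hex (i + 1) (by omega)
    obtain ⟨c, hc⟩ := hex (i + 2) (by omega)
    have hab0 : P i < P (i + 1) := hmono (by omega)
    have hbc0 : P (i + 1) < P (i + 2) := hmono (by omega)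
    have hab : a < b := hh.lt_iff_lt.1 (by omega)
    have hbc : b < c := hh.lt_iff_lt.1 (by omega)
    have h5 := h2 a b c hab hbc
    have e1 : ((gp (Nat.primeCounting N + i) : ℕ) : ℝ) = (h b : ℝ) - h a := by
      rw [hgp i, ← ha, ← hb]
      have h6 : N + h b - (N + h a) = h b - h a := by omega
      rw [h6, Nat.cast_sub (by omega)]
    have e2 : ((gp (Nat.primeCounting N + i + 1) : ℕ) : ℝ) = (h c : ℝ) - h b := by
      rw [add_assoc, hgp (i + 1)]
      have h7 : i + 1 + 1 = i + 2 := by omega
      rw [h7, ← hb, ← hc]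
      have h6 : N + h c - (N + h b) = h c - h b := by omega
      rw [h6, Nat.cast_sub (by omega)]
    rw [e1, e2]
    exact h5
  · have e1 : ∑ i ∈ range (r + 1), gp (Nat.primeCounting N + i) =
        ∑ i ∈ range (r + 1), (P (i + 1) - P i) :=
      Finset.sum_congr rfl fun i _ => hgp i
    rw [e1, Finset.sum_range_tsub hmono.monotone]
    omega

end Pool.Agent.Lib.RU
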