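import Pool.Agent.Lib.RU.Spec

/-!
Module AlU: a lower bound for the number of admissible classes. For a prime `p ≤ K` only one class is excluded, for
`p > K` at most `K`; the product of the factors `1 - K^2/p^2` is at least `exp (-(K+1)^2 K^2 ∑ 1/n^2)`.
-/

set_option autoImplicit false

namespace Pool.Agent.Lib.RU

open Finset

/-- Bernoulli -/
private theorem AlU_one (x : ℝ) (K : ℕ) (h0 : 0 ≤ x) (h1 : x ≤ 1) : (1 - x) ^ K * (1 + K * x) ≤ 1 := by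
  have h2 : 1 + (K : ℝ) * x ≤ (1 + x) ^ K := one_add_mul_le_pow (by linarith) K
  have h3 : (0 : ℝ) ≤ (1 - x) ^ K := pow_nonneg (by linarith) K
  calc (1 - x) ^ K * (1 + K * x) ≤ (1 - x) ^ K * (1 + x) ^ K := mul_le_mul_of_nonneg_left h2 h3
    _ = ((1 - x) * (1 + x)) ^ K := (mul_pow _ _ _).symm
    _ ≤ 1 := pow_le_one₀ (by nlinarith) (by nlinarith)

/-- the exponential below `1 - K^2/p^2` -/
private theorem AlU_exp (K p : ℕ) (hp : K < p) :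
    Real.exp (-((((K : ℝ) + 1) ^ 2 * (K : ℝ) ^ 2) * (1 / (p : ℝ) ^ 2))) ≤ 1 - (K : ℝ) ^ 2 / (p : ℝ) ^ 2 := by
  have hpK : (K : ℝ) + 1 ≤ p := by exact_mod_cast hp
  have hK : (0 : ℝ) ≤ K := Nat.cast_nonneg K
  have hp0 : (0 : ℝ) < p := by linarith
  have hp2 : (0 : ℝ) < (p : ℝ) ^ 2 := by positivity
  set y : ℝ := (((K : ℝ) + 1) ^ 2 * (K : ℝ) ^ 2) * (1 / (p : ℝ) ^ 2) with hy
  have hy0 : 0 ≤ y := by positivity
  have h1 : 1 + y ≤ Real.exp y := by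
    have := Real.add_one_le_exp y
    linarith
  have h2 : Real.exp (-y) * (1 + y) ≤ 1 := by
    calc Real.exp (-y) * (1 + y) ≤ Real.exp (-y) * Real.exp y :=
          mul_le_mul_of_nonneg_left h1 (Real.exp_pos _).le
      _ = 1 := by rw [← Real.exp_add]; simp
  have h3 : 1 ≤ (1 - (K : ℝ) ^ 2 / (p : ℝ) ^ 2) * (1 + y) := by
    have h4 : (1 - (K : ℝ) ^ 2 / (p : ℝ) ^ 2) * (1 + y) =
        (((p : ℝ) ^ 2 - (K : ℝ) ^ 2) * ((p : ℝ) ^ 2 + ((K : ℝ) + 1) ^ 2 * (K : ℝ) ^ 2)) / ((p : ℝ) ^ 2 * (p : ℝ) ^ 2) := by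
      rw [hy]
      field_simp
    rw [h4, one_le_div (by positivity)]
    have h5 : ((K : ℝ) + 1) ^ 2 ≤ (p : ℝ) ^ 2 := by nlinarith
    have h6 : (K : ℝ) ^ 2 * ((K : ℝ) + 1) ^ 2 + (K : ℝ) ^ 2 * (K : ℝ) ^ 2 * 0 ≤ (K : ℝ) ^ 2 * (p : ℝ) ^ 2 := by nlinarith [sq_nonneg (K : ℝ)]
    -- (P - k)(P + a k) - P P = k ((a - 1) P - a k), a = (K+1)^2, k = K^2, P ≥ a
    have h7 : 0 ≤ (((K : ℝ) + 1) ^ 2 - 1) * (p : ℝ) ^ 2 - ((K : ℝ) + 1) ^ 2 * (K : ℝ) ^ 2 := by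
      have h8 : (0 : ℝ) ≤ ((K : ℝ) + 1) ^ 2 - 1 := by nlinarith
      have h9 : (((K : ℝ) + 1) ^ 2 - 1) * ((K : ℝ) + 1) ^ 2 ≤ (((K : ℝ) + 1) ^ 2 - 1) * (p : ℝ) ^ 2 :=
        mul_le_mul_of_nonneg_left h5 h8
      nlinarith [sq_nonneg ((K : ℝ) + 1)]
    nlinarith [mul_nonneg (sq_nonneg (K : ℝ)) h7]
  have h10 : 0 < 1 + y := by linarith
  exact le_of_mul_le_mul_right (h2.trans h3) h10

/-- one prime -/
private theorem AlU_prime (K p : ℕ) (hK : 1 ≤ K) (hp : p.Prime) (h : Fin K → ℕ) (hh : ∀ j, K.factorial ∣ h j) :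
    Real.exp (-((((K : ℝ) + 1) ^ 2 * (K : ℝ) ^ 2) * (1 / (p : ℝ) ^ 2))) * (p * (1 - (p : ℝ)⁻¹) ^ K) ≤
      (((range p).filter (fun ν => ∀ j, ¬ p ∣ ν + h j)).card : ℝ) := by
  have hp0 : (0 : ℝ) < p := by exact_mod_cast hp.pos
  have hp1 : (1 : ℝ) ≤ p := by exact_mod_cast hp.one_le
  have hi : (p : ℝ)⁻¹ ≤ 1 := inv_le_one_of_one_le₀ hp1
  have hi0 : 0 ≤ (p : ℝ)⁻¹ := by positivity
  have h0 : (0 : ℝ) ≤ 1 - (p : ℝ)⁻¹ := by linarith
  rcases le_or_gt p K with hpK | hpK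
  · have h1 : Real.exp (-((((K : ℝ) + 1) ^ 2 * (K : ℝ) ^ 2) * (1 / (p : ℝ) ^ 2))) ≤ 1 := by
      rw [Real.exp_le_one_iff]
      have : 0 ≤ (((K : ℝ) + 1) ^ 2 * (K : ℝ) ^ 2) * (1 / (p : ℝ) ^ 2) := by positivity
      linarith
    have h2 : (1 - (p : ℝ)⁻¹) ^ K ≤ 1 - (p : ℝ)⁻¹ := by
      calc (1 - (p : ℝ)⁻¹) ^ K ≤ (1 - (p : ℝ)⁻¹) ^ 1 := pow_le_pow_of_le_one h0 (by linarith) hK
        _ = 1 - (p : ℝ)⁻¹ := pow_one _
    have h3 : (p - 1 : ℕ) ≤ ((range p).filter (fun ν => ∀ j, ¬ p ∣ ν + h j)).card := by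
      have : ((range p).erase 0).card = p - 1 := by
        rw [card_erase_of_mem (mem_range.mpr hp.pos), card_range]
      rw [← this]
      apply card_le_card
      intro ν hν
      rw [mem_erase, mem_range] at hν
      rw [mem_filter, mem_range]
      refine ⟨hν.2, fun j hj => ?_⟩
      have h4 : p ∣ h j := (hp.dvd_factorial.mpr hpK).trans (hh j)
      have h5 : p ∣ ν := (Nat.dvd_add_left h4).mp hj
      exact absurd (Nat.le_of_dvd (Nat.pos_of_ne_zero hν.1) h5) (not_le.mpr hν.2)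
    have h4 : ((p : ℝ) - 1) ≤ (((range p).filter (fun ν => ∀ j, ¬ p ∣ ν + h j)).card : ℝ) := by
      have : ((p - 1 : ℕ) : ℝ) ≤ (((range p).filter (fun ν => ∀ j, ¬ p ∣ ν + h j)).card : ℝ) := by exact_mod_cast h3
      rwa [Nat.cast_sub hp.one_le, Nat.cast_one] at this
    calc Real.exp (-((((K : ℝ) + 1) ^ 2 * (K : ℝ) ^ 2) * (1 / (p : ℝ) ^ 2))) * (p * (1 - (p : ℝ)⁻¹) ^ K)
        ≤ 1 * (p * (1 - (p : ℝ)⁻¹)) := by
          apply mul_le_mul h1 (mul_le_mul_of_nonneg_left h2 hp0.le) (by positivity) zero_le_one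
      _ = (p : ℝ) - 1 := by rw [one_mul, mul_sub, mul_one, mul_inv_cancel₀ hp0.ne']
      _ ≤ _ := h4
  · have h1 := AlU_exp K p hpK
    have h2 := AlU_one (p : ℝ)⁻¹ K hi0 hi
    have h3 : ((range p).filter (fun ν => ¬ ∀ j, ¬ p ∣ ν + h j)).card ≤ K := by
      have hsub : (range p).filter (fun ν => ¬ ∀ j, ¬ p ∣ ν + h j) ⊆
          (univ : Finset (Fin K)).biUnion (fun j => (range p).filter (fun ν => p ∣ ν + h j)) := by
        intro ν hν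
        rw [mem_filter] at hν
        have h4 : ∃ j, p ∣ ν + h j := by
          by_contra hc
          exact hν.2 (fun j hj => hc ⟨j, hj⟩)
        obtain ⟨j, hj⟩ := h4
        rw [mem_biUnion]
        exact ⟨j, mem_univ j, mem_filter.mpr ⟨hν.1, hj⟩⟩
      refine (card_le_card hsub).trans ((card_biUnion_le).trans ?_)
      have h5 : ∀ j ∈ (univ : Finset (Fin K)), ((range p).filter (fun ν => p ∣ ν + h j)).card ≤ 1 := by
        intro j _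
        rw [card_le_one]
        intro a ha b hb
        rw [mem_filter, mem_range] at ha hb
        have h6 : a + h j ≡ b + h j [MOD p] :=
          ((Nat.modEq_zero_iff_dvd).mpr ha.2).trans ((Nat.modEq_zero_iff_dvd).mpr hb.2).symm
        have h7 : a ≡ b [MOD p] := Nat.ModEq.add_right_cancel' (h j) h6
        exact Nat.ModEq.eq_of_lt_of_lt h7 ha.1 hb.1
      calc ∑ j ∈ (univ : Finset (Fin K)), ((range p).filter (fun ν => p ∣ ν + h j)).card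
          ≤ ∑ j ∈ (univ : Finset (Fin K)), 1 := sum_le_sum h5
        _ = K := by simp
    have h4 : ((range p).filter (fun ν => ∀ j, ¬ p ∣ ν + h j)).card +
        ((range p).filter (fun ν => ¬ ∀ j, ¬ p ∣ ν + h j)).card = p := by
      rw [card_filter_add_card_filter_not, card_range]
    have h5 : (p : ℝ) - K ≤ (((range p).filter (fun ν => ∀ j, ¬ p ∣ ν + h j)).card : ℝ) := by
      have h6 : p ≤ ((range p).filter (fun ν => ∀ j, ¬ p ∣ ν + h j)).card + K := by omega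
      have h7 : (p : ℝ) ≤ (((range p).filter (fun ν => ∀ j, ¬ p ∣ ν + h j)).card : ℝ) + K := by exact_mod_cast h6
      linarith
    have hKp : (K : ℝ) ≤ p := by exact_mod_cast hpK.le
    have h6 : (1 - (K : ℝ) ^ 2 / (p : ℝ) ^ 2) * (p * (1 - (p : ℝ)⁻¹) ^ K) =
        ((1 - (p : ℝ)⁻¹) ^ K * (1 + K * (p : ℝ)⁻¹)) * ((p : ℝ) - K) := by
      field_simp
      ring
    calc Real.exp (-((((K : ℝ) + 1) ^ 2 * (K : ℝ) ^ 2) * (1 / (p : ℝ) ^ 2))) * (p * (1 - (p : ℝ)⁻¹) ^ K)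
        ≤ (1 - (K : ℝ) ^ 2 / (p : ℝ) ^ 2) * (p * (1 - (p : ℝ)⁻¹) ^ K) :=
          mul_le_mul_of_nonneg_right h1 (by positivity)
      _ = ((1 - (p : ℝ)⁻¹) ^ K * (1 + K * (p : ℝ)⁻¹)) * ((p : ℝ) - K) := h6
      _ ≤ 1 * ((p : ℝ) - K) := mul_le_mul_of_nonneg_right h2 (by linarith)
      _ = (p : ℝ) - K := one_mul _
      _ ≤ _ := h5

/-- the main factor as a product over the primes -/
private theorem AlU_tot (K V : ℕ) (hV : Squarefree V) :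
    (V : ℝ) * ((V.totient : ℝ) / V) ^ K = ∏ p ∈ V.primeFactors, ((p : ℝ) * (1 - (p : ℝ)⁻¹) ^ K) := by
  have hV0 : (V : ℝ) ≠ 0 := by exact_mod_cast hV.ne_zero
  have h1 : (V.totient : ℝ) = V * ∏ p ∈ V.primeFactors, (1 - (p : ℝ)⁻¹) := by
    have h3 : ((V.totient : ℚ) : ℝ) = ((V * ∏ p ∈ V.primeFactors, (1 - (p : ℚ)⁻¹) : ℚ) : ℝ) := by
      rw [Nat.totient_eq_mul_prod_factors V]
    push_cast at h3
    exact h3
  have h2 : (V : ℝ) = ∏ p ∈ V.primeFactors, (p : ℝ) := by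
    rw [← Nat.cast_prod, Nat.prod_primeFactors_of_squarefree hV]
  rw [h1, mul_div_cancel_left₀ _ hV0, prod_mul_distrib, prod_pow, ← h2]

private theorem AlU_main (h1 : ∀ (k V : ℕ) (h : Fin k → ℕ), Squarefree V →
  ((range V).filter (fun ν => ∀ j, (ν + h j).Coprime V)).card =
    ∏ p ∈ V.primeFactors, ((range p).filter (fun ν => ∀ j, ¬ p ∣ ν + h j)).card) :
  ∀ K : ℕ, 1 ≤ K → ∃ c0 : ℝ, 0 < c0 ∧ ∀ (V : ℕ) (h : Fin K → ℕ), Squarefree V →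
  (∀ j, K.factorial ∣ h j) →
  c0 * (V * ((V.totient : ℝ) / V) ^ K) ≤ (((range V).filter (fun ν => ∀ j, (ν + h j).Coprime V)).card : ℝ) := by
  intro K hK
  have hsum : Summable (fun n : ℕ => 1 / (n : ℝ) ^ 2) := Real.summable_one_div_nat_pow.mpr one_lt_two
  refine ⟨Real.exp (-((((K : ℝ) + 1) ^ 2 * (K : ℝ) ^ 2) * ∑' n : ℕ, 1 / (n : ℝ) ^ 2)), Real.exp_pos _, ?_⟩
  intro V h hV hh
  rw [h1 K V h hV, AlU_tot K V hV, Nat.cast_prod]
  have h2 : Real.exp (-((((K : ℝ) + 1) ^ 2 * (K : ℝ) ^ 2) * ∑' n : ℕ, 1 / (n : ℝ) ^ 2)) ≤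
      ∏ p ∈ V.primeFactors, Real.exp (-((((K : ℝ) + 1) ^ 2 * (K : ℝ) ^ 2) * (1 / (p : ℝ) ^ 2))) := by
    rw [← Real.exp_sum, Real.exp_le_exp, sum_neg_distrib, ← mul_sum, neg_le_neg_iff]
    exact mul_le_mul_of_nonneg_left (hsum.sum_le_tsum _ (fun n _ => by positivity)) (by positivity)
  have hnn : ∀ p ∈ V.primeFactors, (0 : ℝ) ≤ (p : ℝ) * (1 - (p : ℝ)⁻¹) ^ K := by
    intro p hp
    have hp1 : (1 : ℝ) ≤ p := by exact_mod_cast (Nat.prime_of_mem_primeFactors hp).one_le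
    have : (p : ℝ)⁻¹ ≤ 1 := inv_le_one_of_one_le₀ hp1
    have h0 : (0 : ℝ) ≤ 1 - (p : ℝ)⁻¹ := by linarith
    positivity
  calc Real.exp (-((((K : ℝ) + 1) ^ 2 * (K : ℝ) ^ 2) * ∑' n : ℕ, 1 / (n : ℝ) ^ 2)) *
        ∏ p ∈ V.primeFactors, ((p : ℝ) * (1 - (p : ℝ)⁻¹) ^ K)
      ≤ (∏ p ∈ V.primeFactors, Real.exp (-((((K : ℝ) + 1) ^ 2 * (K : ℝ) ^ 2) * (1 / (p : ℝ) ^ 2)))) *
        ∏ p ∈ V.primeFactors, ((p : ℝ) * (1 - (p : ℝ)⁻¹) ^ K) :=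
        mul_le_mul_of_nonneg_right h2 (prod_nonneg hnn)
    _ = ∏ p ∈ V.primeFactors, (Real.exp (-((((K : ℝ) + 1) ^ 2 * (K : ℝ) ^ 2) * (1 / (p : ℝ) ^ 2))) *
        ((p : ℝ) * (1 - (p : ℝ)⁻¹) ^ K)) := prod_mul_distrib.symm
    _ ≤ ∏ p ∈ V.primeFactors, (((range p).filter (fun ν => ∀ j, ¬ p ∣ ν + h j)).card : ℝ) := by
        apply prod_le_prod
        · intro p hp
          exact mul_nonneg (Real.exp_pos _).le (hnn p hp)
        · intro p hp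
          exact AlU_prime K p hK (Nat.prime_of_mem_primeFactors hp) h hh

theorem tAlU (h1 : ApUStmt) : AlUStmt := AlU_main h1

end Pool.Agent.Lib.RU
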