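import Pool.Agent.Lib.RU.SpecK

/-!
PROJECT KO, module PgA (helper20): windows with any number of gaps before the boundary of the second rich group.
-/

set_option autoImplicit false

namespace Pool.Agent.Lib.RU

open Finset

/-- the elements of S below T are the first ones of the enumeration -/
private theorem PgA_lt {K : ℕ} (S : Finset (Fin K)) (T : ℕ) (j : Fin S.card) :
    ((S.orderEmbOfFin rfl j : Fin K) : ℕ) < T ↔ (j : ℕ) < (S.filter (fun x : Fin K => (x : ℕ) < T)).card := by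
  classical
  constructor
  · intro h
    have h1 : (Finset.Iic j).map (S.orderEmbOfFin rfl).toEmbedding ⊆ S.filter (fun x : Fin K => (x : ℕ) < T) := by
      intro x hx
      obtain ⟨i, hi, rfl⟩ := Finset.mem_map.1 hx
      rw [Finset.mem_Iic] at hi
      refine Finset.mem_filter.2 ⟨Finset.orderEmbOfFin_mem S rfl i, ?_⟩
      have h2 : S.orderEmbOfFin rfl i ≤ S.orderEmbOfFin rfl j := (S.orderEmbOfFin rfl).le_iff_le.2 hi
      have h3 : ((S.orderEmbOfFin rfl i : Fin K) : ℕ) ≤ (S.orderEmbOfFin rfl j : Fin K) := h2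
      exact lt_of_le_of_lt h3 h
    have h4 := Finset.card_le_card h1
    rw [Finset.card_map, Fin.card_Iic] at h4
    omega
  · intro h
    by_contra hcon
    have h1 : S.filter (fun x : Fin K => (x : ℕ) < T) ⊆ (Finset.Iio j).map (S.orderEmbOfFin rfl).toEmbedding := by
      intro x hx
      rw [Finset.mem_filter] at hx
      have h2 : x ∈ Set.range (S.orderEmbOfFin rfl) := by
        rw [Finset.range_orderEmbOfFin]
        exact hx.1
      obtain ⟨i, rfl⟩ := h2
      refine Finset.mem_map.2 ⟨i, ?_, rfl⟩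
      rw [Finset.mem_Iio]
      have h3 : S.orderEmbOfFin rfl i < S.orderEmbOfFin rfl j := by
        rw [Fin.lt_def]
        have := hx.2
        omega
      exact (S.orderEmbOfFin rfl).lt_iff_lt.1 h3
    have h4 := Finset.card_le_card h1
    rw [Finset.card_map, Fin.card_Iio] at h4
    omega

/-- the window with a + 1 elements before the second rich group and k - a elements in it -/
theorem winA (k a K W q1 q2 : ℕ) (S : Finset (Fin K)) (hk : a < k) (hR : RichK k W q1 q2 S) :
    ∃ s : Fin (k + 1) → Fin K, ConsK S s ∧ (∀ i : Fin (k + 1), (i : ℕ) ≤ a → (s i : ℕ) < W * q2) ∧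
      ∀ i : Fin (k + 1), a < (i : ℕ) → W * q2 ≤ (s i : ℕ) ∧ (s i : ℕ) < W * (q2 + 1) := by
  classical
  obtain ⟨hq, hR1, hR2⟩ := hR
  have hWW : W * (q1 + 1) ≤ W * q2 := Nat.mul_le_mul_left _ hq
  have hWs : W * q2 ≤ W * (q2 + 1) := Nat.mul_le_mul_left _ (by omega)
  obtain ⟨n1, hn1⟩ : ∃ n1 : ℕ, n1 = (S.filter (fun x : Fin K => (x : ℕ) < W * q2)).card := ⟨_, rfl⟩
  have h1 : k ≤ n1 := by
    rw [hn1]
    refine hR1.trans (Finset.card_le_card ?_)
    intro x hx
    rw [grp, Finset.mem_filter] at hx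
    refine Finset.mem_filter.2 ⟨hx.1, ?_⟩
    have := hx.2.2
    omega
  have h2 : n1 + k ≤ (S.filter (fun x : Fin K => (x : ℕ) < W * (q2 + 1))).card := by
    have hd : Disjoint (S.filter (fun x : Fin K => (x : ℕ) < W * q2)) (grp W q2 S) := by
      rw [Finset.disjoint_left]
      intro x hx hx'
      rw [Finset.mem_filter] at hx
      rw [grp, Finset.mem_filter] at hx'
      have := hx.2
      have := hx'.2.1
      omega
    have hc := Finset.card_union_of_disjoint hd
    have hs : S.filter (fun x : Fin K => (x : ℕ) < W * q2) ∪ grp W q2 S ⊆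
        S.filter (fun x : Fin K => (x : ℕ) < W * (q2 + 1)) := by
      intro x hx
      rw [Finset.mem_union] at hx
      rcases hx with hx | hx
      · rw [Finset.mem_filter] at hx
        refine Finset.mem_filter.2 ⟨hx.1, ?_⟩
        have := hx.2
        omega
      · rw [grp, Finset.mem_filter] at hx
        exact Finset.mem_filter.2 ⟨hx.1, hx.2.2⟩
    have hcc := Finset.card_le_card hs
    rw [hc, ← hn1] at hcc
    omega
  have h3 : (S.filter (fun x : Fin K => (x : ℕ) < W * (q2 + 1))).card ≤ S.card :=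
    Finset.card_le_card (Finset.filter_subset _ _)
  have hb : ∀ i : Fin (k + 1), n1 - (a + 1) + (i : ℕ) < S.card := by
    intro i
    have := i.2
    omega
  have hlow : ∀ i : Fin (k + 1), ((S.orderEmbOfFin rfl ⟨n1 - (a + 1) + (i : ℕ), hb i⟩ : Fin K) : ℕ) < W * q2 ↔
      n1 - (a + 1) + (i : ℕ) < n1 := by
    intro i
    have h := PgA_lt S (W * q2) ⟨n1 - (a + 1) + (i : ℕ), hb i⟩
    rw [← hn1] at h
    exact h
  refine ⟨fun i => S.orderEmbOfFin rfl ⟨n1 - (a + 1) + (i : ℕ), hb i⟩, ⟨?_, ?_, ?_⟩, ?_, ?_⟩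
  · intro i j hij
    refine (S.orderEmbOfFin rfl).lt_iff_lt.2 ?_
    rw [Fin.lt_def] at hij ⊢
    dsimp only
    omega
  · intro i
    exact Finset.orderEmbOfFin_mem S rfl _
  · intro x hx hx1 hx2
    have h4 : x ∈ Set.range (S.orderEmbOfFin rfl) := by
      rw [Finset.range_orderEmbOfFin]
      exact hx
    obtain ⟨j, rfl⟩ := h4
    have h5 := (S.orderEmbOfFin rfl).lt_iff_lt.1 hx1
    have h6 := (S.orderEmbOfFin rfl).lt_iff_lt.1 hx2
    rw [Fin.lt_def] at h5 h6
    dsimp only at h5 h6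
    rw [Fin.val_last] at h6
    refine ⟨⟨(j : ℕ) - (n1 - (a + 1)), by omega⟩, ?_⟩
    dsimp only
    refine congrArg _ (Fin.ext ?_)
    dsimp only
    omega
  · intro i hi
    exact (hlow i).2 (by omega)
  · intro i hi
    constructor
    · have h := (hlow i).not.2 (by omega)
      exact not_lt.1 h
    · have h := (PgA_lt S (W * (q2 + 1)) ⟨n1 - (a + 1) + (i : ℕ), hb i⟩).2 (by
        have := i.2
        dsimp only
        omega)
      exact h

/-- the pairs of gaps of the window whose ranks are ordered -/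
private def PgA_D (lo inc : Bool) (a x y : ℕ) : Prop :=
  (y = a ∧ x ≠ a) ∨ (inc = true ∧ a < x ∧ x < y) ∨ (inc = false ∧ a < y ∧ y < x) ∨
    (lo = true ∧ x < a ∧ a < y) ∨ (lo = false ∧ a < x ∧ y < a)

private theorem PgA_rel (lo inc : Bool) (k W q a : ℕ) (ρ u : ℕ → ℕ) (hG : Geo lo inc W q ρ)
    (hu : ∀ x, x < k → u x < u (x + 1)) (hmono : ∀ x y, x ≤ y → y ≤ k → u x ≤ u y)
    (h1 : ∀ i, i ≤ a → u i < W * q) (h2 : ∀ i, a < i → i ≤ k → W * q ≤ u i ∧ u i < W * (q + 1)) (hk : a < k)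
    (x y : ℕ) (hx : x < k) (hy : y < k) (hD : PgA_D lo inc a x y) :
    Rk ρ (u x) (u (x + 1)) (u y) (u (y + 1)) := by
  obtain ⟨G1, G2, G3, G4⟩ := hG
  have h11 := h1 a (le_refl a)
  have h22 := h2 (a + 1) (by omega) (by omega)
  rcases hD with ⟨e1, e2⟩ | ⟨e0, e1, e2⟩ | ⟨e0, e1, e2⟩ | ⟨e0, e1, e2⟩ | ⟨e0, e1, e2⟩
  · subst e1
    refine ⟨W * q - 1, by omega, by omega, fun z hz1 hz2 => ?_⟩
    rcases Nat.lt_or_ge x y with e3 | e3
    · have f1 := h1 (x + 1) (by omega)
      exact G1 z (by omega)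
    · have f1 := h2 x (by omega) (by omega)
      have f2 := h2 (x + 1) (by omega) (by omega)
      exact G2 z (by omega) (by omega)
  · have f0 := hu y hy
    have f1 := h2 x (by omega) (by omega)
    have f2 := h2 (y + 1) (by omega) (by omega)
    have f3 := hmono (x + 1) y (by omega) (by omega)
    refine ⟨u (y + 1) - 1, by omega, by omega, fun z hz1 hz2 => ?_⟩
    exact (G4 z (u (y + 1) - 1) (by omega) (by omega) (by omega)).1 e0
  · have f0 := hu y hy
    have f1 := h2 y (by omega) (by omega)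
    have f2 := h2 (x + 1) (by omega) (by omega)
    have f3 := hmono (y + 1) x (by omega) (by omega)
    refine ⟨u y, le_refl _, f0, fun z hz1 hz2 => ?_⟩
    exact (G4 (u y) z (by omega) (by omega) (by omega)).2 e0
  · have f0 := hu y hy
    have f1 := h2 y (by omega) (by omega)
    have f2 := h2 (y + 1) (by omega) (by omega)
    have f3 := h1 (x + 1) (by omega)
    refine ⟨u y, le_refl _, f0, fun z hz1 hz2 => ?_⟩
    exact (G3 z (u y) (by omega) (by omega) (by omega)).1 e0
  · have f0 := hu y hy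
    have f1 := h2 x (by omega) (by omega)
    have f2 := h2 (x + 1) (by omega) (by omega)
    have f3 := h1 (y + 1) (by omega)
    refine ⟨u y, le_refl _, f0, fun z hz1 hz2 => ?_⟩
    exact (G3 (u y) z (by omega) (by omega) (by omega)).2 e0

private theorem PgA_gen (H2 : GoKStmt) (k a : ℕ) (hk : a < k) (lo inc : Bool) (v : Fin k → ℕ)
    (hv : ∀ i j : Fin k, v i < v j → PgA_D lo inc a (i : ℕ) (j : ℕ)) : ForcK k v := by
  intro K W G hW hK
  obtain ⟨ρ, hρ⟩ := H2 K W G lo inc hW hK
  refine ⟨ρ, fun q1 q2 S hq hr => ?_⟩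
  obtain ⟨s, hs, hs1, hs2⟩ := winA k a K W q1 q2 S hk hr
  have hq1 : 1 ≤ q2 := by
    have := hr.1
    omega
  have hG := hρ q2 hq1 hq
  obtain ⟨u, hu⟩ : ∃ u : ℕ → ℕ, ∀ x (h : x < k + 1), u x = (s ⟨x, h⟩ : ℕ) := by
    refine ⟨fun x => if h : x < k + 1 then (s ⟨x, h⟩ : ℕ) else 0, fun x h => ?_⟩
    dsimp only
    rw [dif_pos h]
  have hu1 : ∀ x, x < k → u x < u (x + 1) := by
    intro x hx
    rw [hu x (by omega), hu (x + 1) (by omega)]
    have h : (⟨x, by omega⟩ : Fin (k + 1)) < ⟨x + 1, by omega⟩ := by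
      rw [Fin.lt_def]
      dsimp only
      omega
    exact hs.1 h
  have hu2 : ∀ x y, x ≤ y → y ≤ k → u x ≤ u y := by
    intro x y hxy hy
    rw [hu x (by omega), hu y (by omega)]
    have h : (⟨x, by omega⟩ : Fin (k + 1)) ≤ ⟨y, by omega⟩ := by
      rw [Fin.le_def]
      exact hxy
    exact hs.1.monotone h
  have hu3 : ∀ i, i ≤ a → u i < W * q2 := by
    intro i hi
    rw [hu i (by omega)]
    exact hs1 ⟨i, by omega⟩ hi
  have hu4 : ∀ i, a < i → i ≤ k → W * q2 ≤ u i ∧ u i < W * (q2 + 1) := by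
    intro i hi hi2
    rw [hu i (by omega)]
    exact hs2 ⟨i, by omega⟩ hi
  refine ⟨s, hs, ?_⟩
  intro i j hij
  have hi := i.2
  have hj := j.2
  have h := PgA_rel lo inc k W q2 a ρ u hG hu1 hu2 hu3 hu4 hk (i : ℕ) (j : ℕ) hi hj (hv i j hij)
  have a1 : u (i : ℕ) = (s i.castSucc : ℕ) := hu _ _
  have a2 : u ((i : ℕ) + 1) = (s i.succ : ℕ) := hu _ _
  have b1 : u (j : ℕ) = (s j.castSucc : ℕ) := hu _ _
  have b2 : u ((j : ℕ) + 1) = (s j.succ : ℕ) := hu _ _
  rw [a1, a2, b1, b2] at h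
  exact h

/-- 1 … 1 (a times), b+2, 2 3 … b+1 -/
def pA (a b : ℕ) (i : Fin (a + 1 + b)) : ℕ :=
  if (i : ℕ) < a then 1 else if (i : ℕ) = a then b + 2 else i - a + 1
/-- 1 … 1 (a times), b+2, b+1 b … 2 -/
def pB (a b : ℕ) (i : Fin (a + 1 + b)) : ℕ :=
  if (i : ℕ) < a then 1 else if (i : ℕ) = a then b + 2 else a + b + 2 - i
/-- b+1 … b+1 (a times), b+2, 1 2 … b -/
def pC (a b : ℕ) (i : Fin (a + 1 + b)) : ℕ :=
  if (i : ℕ) < a then b + 1 else if (i : ℕ) = a then b + 2 else i - a
/-- b+1 … b+1 (a times), b+2, b b-1 … 1 -/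
def pD (a b : ℕ) (i : Fin (a + 1 + b)) : ℕ :=
  if (i : ℕ) < a then b + 1 else if (i : ℕ) = a then b + 2 else a + b + 1 - i

theorem tPgA (H2 : GoKStmt) (a b : ℕ) : ForcK (a + 1 + b) (pA a b) ∧ ForcK (a + 1 + b) (pB a b) ∧
    ForcK (a + 1 + b) (pC a b) ∧ ForcK (a + 1 + b) (pD a b) := by
  refine ⟨?_, ?_, ?_, ?_⟩
  · refine PgA_gen H2 (a + 1 + b) a (by omega) true true _ (fun i j h => ?_)
    have hi := i.2
    have hj := j.2
    unfold pA at h
    unfold PgA_D
    simp only [true_and, Bool.true_eq_false, false_and, false_or, or_false]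
    split_ifs at h <;> omega
  · refine PgA_gen H2 (a + 1 + b) a (by omega) true false _ (fun i j h => ?_)
    have hi := i.2
    have hj := j.2
    unfold pB at h
    unfold PgA_D
    simp only [true_and, Bool.false_eq_true, Bool.true_eq_false, false_and, false_or, or_false]
    split_ifs at h <;> omega
  · refine PgA_gen H2 (a + 1 + b) a (by omega) false true _ (fun i j h => ?_)
    have hi := i.2
    have hj := j.2
    unfold pC at h
    unfold PgA_D
    simp only [true_and, Bool.false_eq_true, Bool.true_eq_false, false_and, false_or, or_false]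
    split_ifs at h <;> omega
  · refine PgA_gen H2 (a + 1 + b) a (by omega) false false _ (fun i j h => ?_)
    have hi := i.2
    have hj := j.2
    unfold pD at h
    unfold PgA_D
    simp only [true_and, Bool.false_eq_true, Bool.true_eq_false, false_and, false_or, or_false]
    split_ifs at h <;> omega

end Pool.Agent.Lib.RU
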