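import Pool.Agent.Lib.RU.AllK
import Pool.Agent.Lib.RU.PgA

/-!
PROJECT KO, extension (helper20, helper82): composition, a gaps before and b monotone gaps after a large gap.
-/

set_option autoImplicit false

namespace Pool.Agent.Lib.RU.T

theorem allA (a b : ℕ) (v : Fin (a + 1 + b) → ℕ)
    (h : v = pA a b ∨ v = pB a b ∨ v = pC a b ∨ v = pD a b) : ForcK (a + 1 + b) v := by
  obtain ⟨h1, h2, h3, h4⟩ := tPgA tGoK a b
  rcases h with h | h | h | h <;> subst h <;> assumption

/-- the large gap after a other gaps and before b monotone gaps -/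
theorem frontA (a b : ℕ) (v : Fin (a + 1 + b) → ℕ)
    (h : v = pA a b ∨ v = pB a b ∨ v = pC a b ∨ v = pD a b) : OrdK (a + 1 + b) v :=
  zToK (a + 1 + b) v (by omega) (allA a b v h)

/-- the mirror images -/
theorem backA (a b : ℕ) (v : Fin (a + 1 + b) → ℕ)
    (h : v = pA a b ∨ v = pB a b ∨ v = pC a b ∨ v = pD a b) :
    OrdK (a + 1 + b) (fun i => v (Fin.rev i)) :=
  zToK (a + 1 + b) _ (by omega) (tMiK (a + 1 + b) v (allA a b v h))

end Pool.Agent.Lib.RU.T
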