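import Pool.Agent.Lib.RU.SpecK

/-!
PROJECT KO, module GoK: the four geometries.
-/

set_option autoImplicit false

namespace Pool.Agent.Lib.RU

open Finset

/-- the rank as a function of the group b and the place r in the group -/
private def GoK_R (lo inc : Bool) (K W G b r : ℕ) : ℕ :=
  if r = W - 1 then (if lo then (W + 1) * (b + 1) + W else K + W + 1 + b)
  else (if lo then (W + 1) * b else W * (G - b)) + (if inc then r else W - 1 - r)

private theorem GoK_left (W q p : ℕ) (hW : 1 ≤ W) (hp : p + 1 < W * q) :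
    p / W < q ∧ (p % W = W - 1 → p / W + 1 < q) := by
  have h1 := Nat.div_add_mod p W
  have h2 := Nat.mod_lt p (by omega : W > 0)
  obtain ⟨b, hb⟩ : ∃ b, b = p / W := ⟨_, rfl⟩
  obtain ⟨r, hr⟩ : ∃ r, r = p % W := ⟨_, rfl⟩
  rw [← hb, ← hr] at h1
  rw [← hr] at h2
  rw [← hb, ← hr]
  have h3 : W * b < W * q := by omega
  have h4 : b < q := Nat.lt_of_mul_lt_mul_left h3
  refine ⟨h4, fun h5 => ?_⟩
  have h6 : W * (b + 1) = W * b + W := by ring
  have h7 : W * (b + 1) < W * q := by omega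
  exact Nat.lt_of_mul_lt_mul_left h7

private theorem GoK_in (W q p : ℕ) (hW : 1 ≤ W) (hp : W * q ≤ p) (hp2 : p + 1 < W * (q + 1)) :
    p / W = q ∧ p % W + W * q = p ∧ p % W < W - 1 := by
  have h0 : W * (q + 1) = W * q + W := by ring
  obtain ⟨r, hr⟩ : ∃ r, r = p - W * q := ⟨_, rfl⟩
  have h1 : p = W * q + r := by omega
  have h2 : r < W := by omega
  have h3 : p / W = q := by
    rw [h1, Nat.mul_add_div (by omega), Nat.div_eq_of_lt h2]
    rfl
  have h4 : p % W = r := by
    rw [h1, Nat.mul_add_mod, Nat.mod_eq_of_lt h2]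
  refine ⟨h3, ?_, ?_⟩
  · rw [h4]
    omega
  · rw [h4]
    omega

private theorem GoK_bd (W q : ℕ) (hW : 1 ≤ W) (hq : 1 ≤ q) :
    (W * q - 1) / W = q - 1 ∧ (W * q - 1) % W = W - 1 := by
  obtain ⟨c, rfl⟩ : ∃ c, q = c + 1 := ⟨q - 1, by omega⟩
  have h0 : W * (c + 1) = W * c + W := by ring
  have h1 : W * (c + 1) - 1 = W * c + (W - 1) := by omega
  have h2 : W - 1 < W := by omega
  constructor
  · rw [h1, Nat.mul_add_div (by omega), Nat.div_eq_of_lt h2]
    rfl
  · rw [h1, Nat.mul_add_mod, Nat.mod_eq_of_lt h2]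

theorem tGoK : GoKStmt := by
  intro K W G lo inc hW hK
  refine ⟨fun p => GoK_R lo inc K W G (p / W) (p % W), fun q hq1 hqG => ?_⟩
  obtain ⟨d1, d2⟩ := GoK_bd W q hW hq1
  have hf : ∀ r : ℕ, (if inc then r else W - 1 - r) ≤ r + (W - 1 - r) := by
    intro r
    split_ifs <;> omega
  have hGq : ∀ b, b < q → W * (G - q) + W ≤ W * (G - b) ∧ W * (G - b) ≤ K := by
    intro b hb
    have h1 : G - q + 1 ≤ G - b := by omega
    have h2 := Nat.mul_le_mul_left W h1
    have h3 : W * (G - q + 1) = W * (G - q) + W := by ring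
    have h4 : W * (G - b) ≤ W * G := Nat.mul_le_mul_left W (by omega)
    constructor <;> omega
  have hGq' : W * (G - q) ≤ K := by
    have h4 : W * (G - q) ≤ W * G := Nat.mul_le_mul_left W (by omega)
    omega
  have hlow : ∀ b, b < q → (W + 1) * b + (W + 1) ≤ (W + 1) * q := by
    intro b hb
    have h1 : (W + 1) * (b + 1) ≤ (W + 1) * q := Nat.mul_le_mul_left _ hb
    have h2 : (W + 1) * (b + 1) = (W + 1) * b + (W + 1) := by ring
    omega
  have hq' : q - 1 + 1 = q := by omega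
  refine ⟨?_, ?_, ?_, ?_⟩
  · intro p hp
    obtain ⟨e1, e2⟩ := GoK_left W q p hW hp
    have e3 := Nat.mod_lt p (by omega : W > 0)
    simp only [d1, d2]
    obtain ⟨b, hb⟩ : ∃ b, b = p / W := ⟨_, rfl⟩
    obtain ⟨r, hr⟩ : ∃ r, r = p % W := ⟨_, rfl⟩
    rw [← hb] at e1 e2 ⊢
    rw [← hr] at e2 e3 ⊢
    unfold GoK_R
    have h1 := hf r
    obtain ⟨f, hfd⟩ : ∃ f, f = (if inc then r else W - 1 - r) := ⟨_, rfl⟩
    rw [← hfd] at h1 ⊢
    cases lo
    · simp only [Bool.false_eq_true, if_false, if_true]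
      split_ifs with h
      · have := e2 h
        omega
      · have := hGq b e1
        omega
    · simp only [if_true]
      rw [hq']
      split_ifs with h
      · have h2 := hlow (b + 1) (e2 h)
        omega
      · have h2 := hlow b e1
        omega
  · intro p hp hp2
    obtain ⟨e1, e2, e3⟩ := GoK_in W q p hW hp hp2
    simp only [d1, d2, e1]
    obtain ⟨r, hr⟩ : ∃ r, r = p % W := ⟨_, rfl⟩
    rw [← hr] at e3 ⊢
    unfold GoK_R
    have h1 := hf r
    obtain ⟨f, hfd⟩ : ∃ f, f = (if inc then r else W - 1 - r) := ⟨_, rfl⟩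
    rw [← hfd] at h1 ⊢
    rw [if_neg (by omega : ¬ r = W - 1), if_pos rfl, hq']
    cases lo
    · simp only [Bool.false_eq_true, if_false]
      omega
    · simp only [if_true]
      omega
  · intro p p' hp hp1 hp2
    obtain ⟨e1, e2⟩ := GoK_left W q p hW hp
    have e3 := Nat.mod_lt p (by omega : W > 0)
    obtain ⟨g1, g2, g3⟩ := GoK_in W q p' hW hp1 hp2
    simp only [g1]
    obtain ⟨b, hb⟩ : ∃ b, b = p / W := ⟨_, rfl⟩
    obtain ⟨r, hr⟩ : ∃ r, r = p % W := ⟨_, rfl⟩
    obtain ⟨r', hr'⟩ : ∃ r', r' = p' % W := ⟨_, rfl⟩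
    rw [← hb] at e1 e2 ⊢
    rw [← hr] at e2 e3 ⊢
    rw [← hr'] at g3 ⊢
    unfold GoK_R
    have h1 := hf r
    have h1' := hf r'
    obtain ⟨f, hfd⟩ : ∃ f, f = (if inc then r else W - 1 - r) := ⟨_, rfl⟩
    obtain ⟨f', hfd'⟩ : ∃ f', f' = (if inc then r' else W - 1 - r') := ⟨_, rfl⟩
    rw [← hfd] at h1 ⊢
    rw [← hfd'] at h1' ⊢
    rw [if_neg (by omega : ¬ r' = W - 1)]
    constructor
    · intro hl
      subst hl
      simp only [if_true]
      split_ifs with h
      · have h2 := hlow (b + 1) (e2 h)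
        omega
      · have h2 := hlow b e1
        omega
    · intro hl
      subst hl
      simp only [Bool.false_eq_true, if_false]
      split_ifs with h
      · omega
      · have := hGq b e1
        omega
  · intro p p' hp hpp hp2
    obtain ⟨e1, e2, e3⟩ := GoK_in W q p hW hp (by omega)
    obtain ⟨g1, g2, g3⟩ := GoK_in W q p' hW (by omega) hp2
    simp only [e1, g1]
    obtain ⟨r, hr⟩ : ∃ r, r = p % W := ⟨_, rfl⟩
    obtain ⟨r', hr'⟩ : ∃ r', r' = p' % W := ⟨_, rfl⟩
    rw [← hr] at e2 e3 ⊢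
    rw [← hr'] at g2 g3 ⊢
    unfold GoK_R
    rw [if_neg (by omega : ¬ r = W - 1), if_neg (by omega : ¬ r' = W - 1)]
    constructor
    · intro hl
      subst hl
      simp only [if_true]
      omega
    · intro hl
      subst hl
      simp only [Bool.false_eq_true, if_false]
      omega

end Pool.Agent.Lib.RU
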