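import Pool.Agent.Lib.RU.SpecK

/-!
Project KO, module MiK: mirror image (helper7).
-/

set_option autoImplicit false

namespace Pool.Agent.Lib.RU

open Finset

private theorem MiK_card {K W G q : ℕ} (S : Finset (Fin K)) (hK : K = W * G) (hq : q < G) :
    (grp W q S).card ≤ (grp W (G - 1 - q) (S.image Fin.rev)).card := by
  unfold grp
  rw [← Finset.card_image_of_injective _ (Fin.rev_injective (n := K))]
  apply Finset.card_le_card
  intro x hx
  rw [Finset.mem_image] at hx
  obtain ⟨y, hy, rfl⟩ := hx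
  rw [Finset.mem_filter] at hy ⊢
  obtain ⟨hyS, h1, h2⟩ := hy
  have h3 : W * q + W * (G - 1 - q) + W = W * G := by
    have : q + (G - 1 - q) + 1 = G := by omega
    calc W * q + W * (G - 1 - q) + W = W * (q + (G - 1 - q) + 1) := by ring
      _ = W * G := by rw [this]
  have h4 : W * (q + 1) = W * q + W := by ring
  have h5 : W * (G - 1 - q + 1) = W * (G - 1 - q) + W := by ring
  refine ⟨Finset.mem_image_of_mem _ hyS, ?_, ?_⟩
  · rw [Fin.val_rev]
    omega
  · rw [Fin.val_rev]
    have := y.2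
    omega

theorem tMiK : MiKStmt := by
  intro k v hv K W G hW hK
  obtain ⟨ρ, hρ⟩ := hv K W G hW hK
  refine ⟨fun x => ρ (K - 2 - x), ?_⟩
  intro q1 q2 S hq2 hR
  obtain ⟨h12, hR1, hR2⟩ := hR
  have hR' : RichK k W (G - 1 - q2) (G - 1 - q1) (S.image Fin.rev) :=
    ⟨by omega, hR2.trans (MiK_card S hK hq2), hR1.trans (MiK_card S hK (by omega))⟩
  obtain ⟨s, ⟨hs1, hs2, hs3⟩, hs4⟩ := hρ (G - 1 - q2) (G - 1 - q1) (S.image Fin.rev) (by omega) hR'
  have hmem : ∀ x : Fin K, x.rev ∈ S.image Fin.rev → x ∈ S := by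
    intro x hx
    rw [Finset.mem_image] at hx
    obtain ⟨y, hy, hyx⟩ := hx
    rwa [← Fin.rev_injective hyx]
  refine ⟨fun i => (s i.rev).rev, ⟨?_, ?_, ?_⟩, ?_⟩
  · intro i j hij
    show (s i.rev).rev < (s j.rev).rev
    rw [Fin.rev_lt_rev]
    exact hs1 (Fin.rev_lt_rev.2 hij)
  · intro i
    apply hmem
    rw [Fin.rev_rev]
    exact hs2 _
  · intro x hx h0 hl
    have h0' : (s (Fin.last k)).rev < x := by simpa [Fin.rev_zero] using h0
    have hl' : x < (s 0).rev := by simpa [Fin.rev_last] using hl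
    have h1 : x.rev < s (Fin.last k) := by
      rw [← Fin.rev_rev (s (Fin.last k)), Fin.rev_lt_rev]
      exact h0'
    have h2 : s 0 < x.rev := by
      rw [← Fin.rev_rev (s 0), Fin.rev_lt_rev]
      exact hl'
    obtain ⟨i, hi⟩ := hs3 x.rev (Finset.mem_image_of_mem _ hx) h2 h1
    refine ⟨i.rev, ?_⟩
    show x = (s i.rev.rev).rev
    rw [Fin.rev_rev, ← hi, Fin.rev_rev]
  · intro i j hij
    obtain ⟨y, hy1, hy2, hy3⟩ := hs4 i.rev j.rev hij
    have e1 : ∀ i : Fin k, (i.castSucc).rev = (i.rev).succ := by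
      intro i
      ext
      simp [Fin.val_rev]
      omega
    have e2 : ∀ i : Fin k, (i.succ).rev = (i.rev).castSucc := by
      intro i
      ext
      simp [Fin.val_rev]
    have f1 : ∀ i : Fin k, (((s (i.castSucc).rev).rev : Fin K) : ℕ) = K - (s (i.rev).succ + 1) := by
      intro i
      rw [e1, Fin.val_rev]
    have f2 : ∀ i : Fin k, (((s (i.succ).rev).rev : Fin K) : ℕ) = K - (s (i.rev).castSucc + 1) := by
      intro i
      rw [e2, Fin.val_rev]
    show Rk (fun x => ρ (K - 2 - x)) ((s (i.castSucc).rev).rev : Fin K) ((s (i.succ).rev).rev : Fin K)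
      ((s (j.castSucc).rev).rev : Fin K) ((s (j.succ).rev).rev : Fin K)
    rw [f1, f2, f1, f2]
    have g1 := (s (i.rev).succ).2
    have g2 := (s (i.rev).castSucc).2
    have g3 := (s (j.rev).succ).2
    have g4 := (s (j.rev).castSucc).2
    refine ⟨K - 2 - y, by omega, by omega, ?_⟩
    intro x hx1 hx2
    have h5 : K - 2 - (K - 2 - y) = y := by omega
    show ρ (K - 2 - x) < ρ (K - 2 - (K - 2 - y))
    rw [h5]
    exact hy3 _ (by omega) (by omega)

end Pool.Agent.Lib.RU
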