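import Pool.Agent.Lib.RU.SpecK

/-!
PROJECT KO, module PeK: the six entry orders.
-/

set_option autoImplicit false

namespace Pool.Agent.Lib.RU

open Finset

/-- the pairs of gaps of the entry window whose ranks are ordered -/
private def PeK_D (lo inc : Bool) (a b : ℕ) : Prop :=
  (b = 1 ∧ a ≠ 1) ∨ (inc = true ∧ 2 ≤ a ∧ a < b) ∨ (inc = false ∧ 2 ≤ b ∧ b < a) ∨
    (lo = true ∧ a = 0 ∧ 2 ≤ b) ∨ (lo = false ∧ 2 ≤ a ∧ b = 0)

private theorem PeK_rel (lo inc : Bool) (k W q : ℕ) (ρ u : ℕ → ℕ) (hG : Geo lo inc W q ρ)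
    (hu : ∀ a, a ≤ k → u a < u (a + 1)) (hmono : ∀ a b, a ≤ b → b ≤ k + 1 → u a ≤ u b)
    (h1 : u 1 < W * q) (h2 : ∀ i, 2 ≤ i → i ≤ k + 1 → W * q ≤ u i ∧ u i < W * (q + 1)) (hk : 1 ≤ k)
    (a b : ℕ) (ha : a ≤ k) (hb : b ≤ k) (hD : PeK_D lo inc a b) :
    Rk ρ (u a) (u (a + 1)) (u b) (u (b + 1)) := by
  obtain ⟨G1, G2, G3, G4⟩ := hG
  have h22 := h2 2 (le_refl 2) (by omega)
  rcases hD with ⟨e1, e2⟩ | ⟨e0, e1, e2⟩ | ⟨e0, e1, e2⟩ | ⟨e0, e1, e2⟩ | ⟨e0, e1, e2⟩
  · subst e1
    refine ⟨W * q - 1, by omega, ?_, fun x hx1 hx2 => ?_⟩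
    · have e : u (1 + 1) = u 2 := rfl
      rw [e]
      omega
    · rcases Nat.eq_zero_or_pos a with e3 | e3
      · subst e3
        rw [Nat.zero_add] at hx2
        exact G1 x (by omega)
      · have f1 := h2 a (by omega) (by omega)
        have f2 := h2 (a + 1) (by omega) (by omega)
        exact G2 x (by omega) (by omega)
  · have f0 := hu b hb
    have f1 := h2 a (by omega) (by omega)
    have f2 := h2 (b + 1) (by omega) (by omega)
    have f3 := hmono (a + 1) b (by omega) (by omega)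
    refine ⟨u (b + 1) - 1, by omega, by omega, fun x hx1 hx2 => ?_⟩
    exact (G4 x (u (b + 1) - 1) (by omega) (by omega) (by omega)).1 e0
  · have f0 := hu b hb
    have f1 := h2 b (by omega) (by omega)
    have f2 := h2 (a + 1) (by omega) (by omega)
    have f3 := hmono (b + 1) a (by omega) (by omega)
    refine ⟨u b, le_refl _, f0, fun x hx1 hx2 => ?_⟩
    exact (G4 (u b) x (by omega) (by omega) (by omega)).2 e0
  · subst e1
    have f0 := hu b hb
    have f1 := h2 b (by omega) (by omega)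
    have f2 := h2 (b + 1) (by omega) (by omega)
    refine ⟨u b, le_refl _, f0, fun x hx1 hx2 => ?_⟩
    rw [Nat.zero_add] at hx2
    exact (G3 x (u b) (by omega) (by omega) (by omega)).1 e0
  · subst e2
    have f0 := hu 0 (by omega)
    have f1 := h2 a (by omega) (by omega)
    have f2 := h2 (a + 1) (by omega) (by omega)
    rw [Nat.zero_add] at f0
    refine ⟨u 0, le_refl _, by rw [Nat.zero_add]; exact f0, fun x hx1 hx2 => ?_⟩
    exact (G3 (u 0) x (by omega) (by omega) (by omega)).2 e0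

private theorem PeK_gen (H1 : WnKStmt) (H2 : GoKStmt) (k : ℕ) (hk : 2 ≤ k) (lo inc : Bool) (o : ℕ)
    (ho : o ≤ 1) (v : Fin k → ℕ)
    (hv : ∀ i j : Fin k, v i < v j → PeK_D lo inc ((i : ℕ) + o) ((j : ℕ) + o)) : ForcK k v := by
  intro K W G hW hK
  obtain ⟨ρ, hρ⟩ := H2 K W G lo inc hW hK
  refine ⟨ρ, fun q1 q2 S hq hr => ?_⟩
  obtain ⟨s, ⟨hs, hS, hc⟩, hs1, hs2⟩ := H1 k K W q1 q2 S hk hr
  have hq1 : 1 ≤ q2 := by
    have := hr.1
    omega
  have hG := hρ q2 hq1 hq
  obtain ⟨u, hu⟩ : ∃ u : ℕ → ℕ, ∀ a (h : a < k + 1 + 1), u a = (s ⟨a, h⟩ : ℕ) := by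
    refine ⟨fun a => if h : a < k + 1 + 1 then (s ⟨a, h⟩ : ℕ) else 0, fun a h => ?_⟩
    dsimp only
    rw [dif_pos h]
  have hu1 : ∀ a, a ≤ k → u a < u (a + 1) := by
    intro a ha
    rw [hu a (by omega), hu (a + 1) (by omega)]
    have h : (⟨a, by omega⟩ : Fin (k + 1 + 1)) < ⟨a + 1, by omega⟩ := by
      rw [Fin.lt_def]
      dsimp only
      omega
    exact hs h
  have hu2 : ∀ a b, a ≤ b → b ≤ k + 1 → u a ≤ u b := by
    intro a b hab hb
    rw [hu a (by omega), hu b (by omega)]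
    have h : (⟨a, by omega⟩ : Fin (k + 1 + 1)) ≤ ⟨b, by omega⟩ := by
      rw [Fin.le_def]
      exact hab
    exact hs.monotone h
  have hu3 : u 1 < W * q2 := by
    rw [hu 1 (by omega)]
    have e : (⟨1, by omega⟩ : Fin (k + 1 + 1)) = 1 := by
      apply Fin.ext
      rw [Fin.val_one]
    rw [e]
    exact hs1
  have hu4 : ∀ i, 2 ≤ i → i ≤ k + 1 → W * q2 ≤ u i ∧ u i < W * (q2 + 1) := by
    intro i hi hi2
    rw [hu i (by omega)]
    exact hs2 ⟨i, by omega⟩ hi
  refine ⟨fun i => s ⟨(i : ℕ) + o, by have := i.2; omega⟩, ⟨?_, ?_, ?_⟩, ?_⟩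
  · intro i j hij
    apply hs
    rw [Fin.lt_def] at hij ⊢
    dsimp only
    omega
  · intro i
    exact hS _
  · intro x hx hx1 hx2
    dsimp only at hx1 hx2
    have e0 : s 0 ≤ s ⟨((0 : Fin (k + 1)) : ℕ) + o, by have := (0 : Fin (k + 1)).2; omega⟩ :=
      hs.monotone (Fin.zero_le _)
    have e1 : s ⟨((Fin.last k : Fin (k + 1)) : ℕ) + o, by have := (Fin.last k).2; omega⟩ ≤
        s (Fin.last (k + 1)) := hs.monotone (Fin.le_last _)
    obtain ⟨l, hl⟩ := hc x hx (lt_of_le_of_lt e0 hx1) (lt_of_lt_of_le hx2 e1)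
    rw [hl] at hx1 hx2
    have g1 := Fin.lt_def.1 (hs.lt_iff_lt.1 hx1)
    have g2 := Fin.lt_def.1 (hs.lt_iff_lt.1 hx2)
    dsimp only at g1 g2
    rw [Fin.val_last] at g2
    refine ⟨⟨(l : ℕ) - o, by omega⟩, ?_⟩
    rw [hl]
    dsimp only
    apply congrArg
    apply Fin.ext
    dsimp only
    omega
  · intro i j hij
    have hi := i.2
    have hj := j.2
    have h := PeK_rel lo inc k W q2 ρ u hG hu1 hu2 hu3 hu4 (by omega) ((i : ℕ) + o) ((j : ℕ) + o)
      (by omega) (by omega) (hv i j hij)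
    have a1 : u ((i : ℕ) + o) = (s ⟨(i.castSucc : ℕ) + o, by
        have := i.castSucc.2; omega⟩ : ℕ) := hu _ _
    have a2 : u ((i : ℕ) + o + 1) = (s ⟨(i.succ : ℕ) + o, by
        have := i.succ.2; omega⟩ : ℕ) := by
      rw [hu _ (by omega)]
      have e : (⟨(i : ℕ) + o + 1, by omega⟩ : Fin (k + 1 + 1)) =
          ⟨(i.succ : ℕ) + o, by have := i.succ.2; omega⟩ := by
        apply Fin.ext
        dsimp only
        rw [Fin.val_succ]
        omega
      rw [e]
    have b1 : u ((j : ℕ) + o) = (s ⟨(j.castSucc : ℕ) + o, by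
        have := j.castSucc.2; omega⟩ : ℕ) := hu _ _
    have b2 : u ((j : ℕ) + o + 1) = (s ⟨(j.succ : ℕ) + o, by
        have := j.succ.2; omega⟩ : ℕ) := by
      rw [hu _ (by omega)]
      have e : (⟨(j : ℕ) + o + 1, by omega⟩ : Fin (k + 1 + 1)) =
          ⟨(j.succ : ℕ) + o, by have := j.succ.2; omega⟩ := by
        apply Fin.ext
        dsimp only
        rw [Fin.val_succ]
        omega
      rw [e]
    rw [a1, a2, b1, b2] at h
    exact h

theorem tPeK (H1 : WnKStmt) (H2 : GoKStmt) : PeKStmt := by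
  intro k hk
  refine ⟨?_, ?_, ?_, ?_, ?_, ?_⟩
  · refine PeK_gen H1 H2 k (by omega) true true 1 (by omega) _ (fun i j h => ?_)
    have hi := i.2
    have hj := j.2
    unfold oA at h
    unfold PeK_D
    simp only [true_and, Bool.true_eq_false, false_and, false_or, or_false]
    split_ifs at h <;> omega
  · refine PeK_gen H1 H2 k (by omega) true false 1 (by omega) _ (fun i j h => ?_)
    have hi := i.2
    have hj := j.2
    unfold oB at h
    unfold PeK_D
    simp only [true_and, Bool.false_eq_true, false_and, false_or]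
    omega
  · refine PeK_gen H1 H2 k (by omega) true true 0 (by omega) _ (fun i j h => ?_)
    have hi := i.2
    have hj := j.2
    unfold oC at h
    unfold PeK_D
    simp only [true_and, Bool.true_eq_false, false_and, false_or, or_false]
    split_ifs at h <;> omega
  · refine PeK_gen H1 H2 k (by omega) true false 0 (by omega) _ (fun i j h => ?_)
    have hi := i.2
    have hj := j.2
    unfold oD at h
    unfold PeK_D
    simp only [true_and, Bool.false_eq_true, Bool.true_eq_false, false_and, false_or, or_false]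
    split_ifs at h <;> omega
  · refine PeK_gen H1 H2 k (by omega) false true 0 (by omega) _ (fun i j h => ?_)
    have hi := i.2
    have hj := j.2
    unfold oE at h
    unfold PeK_D
    simp only [true_and, Bool.false_eq_true, Bool.true_eq_false, false_and, false_or, or_false]
    split_ifs at h <;> omega
  · refine PeK_gen H1 H2 k (by omega) false false 0 (by omega) _ (fun i j h => ?_)
    have hi := i.2
    have hj := j.2
    unfold oF at h
    unfold PeK_D
    simp only [true_and, Bool.false_eq_true, Bool.true_eq_false, false_and, false_or, or_false]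
    split_ifs at h <;> omega

end Pool.Agent.Lib.RU
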