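import Pool.Agent.Lib.RU.SpecK

/-!
Project KO, module RcK: two rich groups with k elements each (helper7; after RcW by helper6).
-/

set_option autoImplicit false

namespace Pool.Agent.Lib.RU

open Finset

private theorem RcK_card {g n q k : ℕ} {S : Finset (Fin (g * g * n))} {H : Finset (Fin (g * g))}
    (hg : 0 < g) (hH : ∀ i ∈ H, (i : ℕ) / g = q ∧ ∃ t : Fin n, finProdFinEquiv (i, t) ∈ S)
    (hc : k ≤ H.card) :
    k ≤ (grp (g * n) q S).card := by
  classical
  unfold grp
  refine hc.trans (le_trans (Finset.card_le_card ?_) (Finset.card_image_le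
    (f := fun x : Fin (g * g * n) => (finProdFinEquiv.symm x).1)))
  intro i hi
  obtain ⟨h1, t, ht⟩ := hH i hi
  rw [Finset.mem_image]
  refine ⟨finProdFinEquiv (i, t), ?_, by rw [Equiv.symm_apply_apply]⟩
  rw [Finset.mem_filter]
  refine ⟨ht, ?_, ?_⟩
  · have h2 : g * q ≤ (i : ℕ) := by
      rw [← h1]
      exact Nat.mul_div_le _ _
    have h3 := Nat.mul_le_mul_left n h2
    rw [finProdFinEquiv_apply_val]
    dsimp only
    have h4 : g * n * q = n * (g * q) := by ring
    omega
  · have h2 : (i : ℕ) + 1 ≤ g * (q + 1) := by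
      rw [← h1]
      exact Nat.lt_mul_div_succ _ hg
    have h3 := Nat.mul_le_mul_left n h2
    rw [finProdFinEquiv_apply_val]
    dsimp only
    have h4 : g * n * (q + 1) = n * (g * (q + 1)) := by ring
    have h5 := t.2
    rw [Nat.mul_add, Nat.mul_one] at h3
    omega

private theorem RcK_gen {g n k : ℕ} {S : Finset (Fin (g * g * n))} {H : Finset (Fin (g * g))}
    (hg1 : 1 < g) (hH : ∀ i ∈ H, ∃ t : Fin n, finProdFinEquiv (i, t) ∈ S)
    (hc : k * g < H.card) :
    ∃ q1 q2 : ℕ, q2 < g ∧ RichK k (g * n) q1 q2 S := by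
  classical
  have hg : 0 < g := by omega
  have hmap : ∀ i ∈ H, (i : ℕ) / g ∈ Finset.range g := fun i _ => by
    rw [Finset.mem_range]
    exact Nat.div_lt_of_lt_mul i.2
  have hsum := Finset.card_eq_sum_card_fiberwise hmap
  have hle : ∀ q, (H.filter fun i : Fin (g * g) => (i : ℕ) / g = q).card ≤ g := by
    intro q
    have h1 : ((H.filter fun i : Fin (g * g) => (i : ℕ) / g = q).image fun i : Fin (g * g) => (i : ℕ)) ⊆
        Finset.Ico (g * q) (g * q + g) := by
      intro x hx
      obtain ⟨i, hi, rfl⟩ := Finset.mem_image.1 hx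
      have h2 := (Finset.mem_filter.1 hi).2
      rw [Finset.mem_Ico, ← h2]
      constructor
      · exact Nat.mul_div_le _ _
      · have := Nat.lt_mul_div_succ (i : ℕ) hg
        rw [Nat.mul_add, Nat.mul_one] at this
        exact this
    have h3 := Finset.card_le_card h1
    rw [Finset.card_image_of_injective _ Fin.val_injective, Nat.card_Ico] at h3
    omega
  set R := (Finset.range g).filter fun q => k ≤ (H.filter fun i : Fin (g * g) => (i : ℕ) / g = q).card with hR
  have hRc : 1 < R.card := by
    by_contra hcon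
    have h1 : ∑ q ∈ Finset.range g, (H.filter fun i : Fin (g * g) => (i : ℕ) / g = q).card ≤
        ∑ q ∈ Finset.range g, ((k - 1) + if q ∈ R then g else 0) := by
      refine Finset.sum_le_sum fun q hq => ?_
      by_cases hqR : q ∈ R
      · rw [if_pos hqR]
        have := hle q
        omega
      · rw [if_neg hqR]
        have h2 : ¬ k ≤ (H.filter fun i : Fin (g * g) => (i : ℕ) / g = q).card := fun h =>
          hqR (by rw [hR]; exact Finset.mem_filter.2 ⟨hq, h⟩)
        omega
    have h3 : ∑ q ∈ Finset.range g, ((k - 1) + if q ∈ R then g else 0) = g * (k - 1) + R.card * g := by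
      rw [Finset.sum_add_distrib, Finset.sum_const, Finset.card_range, smul_eq_mul,
        Finset.sum_ite_mem, Finset.sum_const, smul_eq_mul]
      have h4 : Finset.range g ∩ R = R := by
        rw [hR]
        exact Finset.inter_eq_right.2 (Finset.filter_subset _ _)
      rw [h4]
    have h5 : R.card * g ≤ 1 * g := Nat.mul_le_mul_right g (by omega)
    rcases Nat.eq_zero_or_pos k with hk | hk
    · subst hk
      have hRg : R = Finset.range g := by
        rw [hR]
        exact Finset.filter_true_of_mem (fun _ _ => Nat.zero_le _)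
      have h6 : R.card = g := by rw [hRg, Finset.card_range]
      omega
    · have h6 : g * (k - 1) + g = k * g := by
        have : k = (k - 1) + 1 := by omega
        calc g * (k - 1) + g = ((k - 1) + 1) * g := by ring
          _ = k * g := by rw [← this]
      omega
  obtain ⟨a, ha, b, hb, hab⟩ := Finset.one_lt_card.1 hRc
  have hrich : ∀ q ∈ R, k ≤ (grp (g * n) q S).card := by
    intro q hq
    rw [hR, Finset.mem_filter] at hq
    exact RcK_card hg (fun i hi => ⟨(Finset.mem_filter.1 hi).2, hH i (Finset.mem_filter.1 hi).1⟩) hq.2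
  have hlt : ∀ q ∈ R, q < g := fun q hq => by
    rw [hR, Finset.mem_filter, Finset.mem_range] at hq
    exact hq.1
  rcases Nat.lt_or_gt_of_ne hab with h | h
  · exact ⟨a, b, hlt b hb, h, hrich _ ha, hrich _ hb⟩
  · exact ⟨b, a, hlt a ha, h, hrich _ hb, hrich _ ha⟩

theorem tRcK : RcKStmt := by
  intro k n S _ _ hh
  have hg : 1 < gK k := by unfold gK; omega
  unfold Hits at hh
  refine RcK_gen (H := Finset.univ.filter fun i : Fin (gK k * gK k) =>
    ∃ t : Fin n, finProdFinEquiv (i, t) ∈ S) hg (fun i hi => (Finset.mem_filter.1 hi).2) ?_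
  have h1 : ((gK k * gK k : ℕ) : ℝ) / 10 ^ 6 = (((k + 1) * gK k : ℕ) : ℝ) := by
    have : (gK k : ℝ) = ((k : ℝ) + 1) * 10 ^ 6 := by
      unfold gK
      push_cast
      norm_num
    push_cast
    rw [this]
    ring
  rw [h1] at hh
  have h2 : (k + 1) * gK k ≤ (Finset.univ.filter fun i : Fin (gK k * gK k) =>
      ∃ t : Fin n, finProdFinEquiv (i, t) ∈ S).card := by exact_mod_cast hh
  have h3 : (k + 1) * gK k = k * gK k + gK k := by ring
  omega

end Pool.Agent.Lib.RU
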