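import Pool.Agent.Lib.RU.SpecK

/-!
PROJECT KO, module ToK: assembly for one order (adapted from ToX, SoU).
-/

set_option autoImplicit false

namespace Pool.Agent.Lib.RU

open Finset

theorem tToK (h1 : BkUStmt) (h2 : LwQStmt) (h3 : CoQStmt) (h4 : GePStmt) (h5 : RcKStmt)
    (h6 : FrKStmt) : ToKStmt := by
  intro k v hk hv C ε hε
  obtain ⟨g, hgd⟩ : ∃ g, g = gK k := ⟨_, rfl⟩
  have h5' := h5 k
  rw [← hgd] at h5'
  have hg : 1 ≤ g := by
    rw [hgd]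
    unfold gK
    omega
  have hgg : 1 ≤ g * g := Nat.one_le_iff_ne_zero.mpr (Nat.mul_ne_zero (by omega) (by omega))
  obtain ⟨n, hn, hMk⟩ := h1 (g * g) hgg
  have hK : 1 ≤ g * g * n :=
    Nat.one_le_iff_ne_zero.mpr (Nat.mul_ne_zero (by omega) (by omega))
  have hW : 1 ≤ g * n := Nat.one_le_iff_ne_zero.mpr (Nat.mul_ne_zero (by omega) (by omega))
  have hKW : g * g * n = g * n * g := by ring
  obtain ⟨ρ, hρ⟩ := hv (g * g * n) (g * n) g hW hKW
  have hCo := h3 (g * g * n) (Hits (g * g) n) hK (h2 _ _ hK hMk)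
  refine h6 k (g * g * n) (Hits (g * g) n) v ρ C ε hK hε hCo (h4 _ C ρ hK) ?_
  intro S hS
  obtain ⟨q1, q2, hq2, hr⟩ := h5' n S hk hn hS
  exact hρ q1 q2 S hq2 hr

end Pool.Agent.Lib.RU
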