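import Pool.Agent.Lib.RU.SpecK

/-!
PROJECT KO, module WiK: one window, k + 1 consecutive primes.
-/

set_option autoImplicit false

namespace Pool.Agent.Lib.RU

open Finset
open Pool.Agent.Lib.MP_9f2731_nt.GP Pool.Agent.Lib.MP_9f2731_nt.GP.Sv Pool.Agent.Lib.MP_9f2731_nt.QL
  Pool.Agent.Lib.MP_9f2731_nt.QL.Sw Pool.Agent.Lib.MP_9f2731_nt.CG Pool.Agent.Lib.MP_9f2731_nt.CG.Ma
  Pool.Agent.Lib.MP_9f2731_nt.CG.Mf Pool.Agent.Lib.BE

/-- the index of the next prime -/
private theorem WiK_next (a b : ℕ) (ha : a.Prime) (hab : a < b)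
    (hno : ∀ c, a < c → c < b → ¬ c.Prime) :
    Nat.count Nat.Prime b = Nat.count Nat.Prime a + 1 := by
  have h1 : Nat.count Nat.Prime (a + 1) = Nat.count Nat.Prime a + 1 := by
    rw [Nat.count_succ, if_pos ha]
  have h2 : ∀ d, a + 1 + d ≤ b → Nat.count Nat.Prime (a + 1 + d) = Nat.count Nat.Prime a + 1 := by
    intro d
    induction d with
    | zero =>
      intro _
      exact h1
    | succ d ih =>
      intro hd
      have h3 := ih (by omega)
      have h4 : a + 1 + (d + 1) = a + 1 + d + 1 := by omega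
      rw [h4, Nat.count_succ, if_neg (hno (a + 1 + d) (by omega) (by omega)), h3]
  have h5 := h2 (b - (a + 1)) (by omega)
  have h6 : a + 1 + (b - (a + 1)) = b := by omega
  rw [h6] at h5
  exact h5

theorem tWiK : WiKStmt := by
  intro k K M N h s hh h1 h2 hC
  obtain ⟨hs, hS, hcons⟩ := hC
  have hp : ∀ i : Fin (k + 1), (N + h (s i)).Prime := fun i => (Finset.mem_filter.1 (hS i)).2
  have hno : ∀ i : Fin k, ∀ c, N + h (s i.castSucc) < c → c < N + h (s i.succ) →
      ¬ c.Prime := by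
    intro i c hc1 hc2 hcp
    have h3 := (h1 (s i.succ)).2
    obtain ⟨j, hj⟩ := h2 (c - N) (by omega) (by omega) (by
      have e : N + (c - N) = c := by omega
      rw [e]
      exact hcp)
    have hjN : N + h j = c := by omega
    have hj1 : s i.castSucc < j := hh.lt_iff_lt.1 (by omega)
    have hj2 : j < s i.succ := hh.lt_iff_lt.1 (by omega)
    have hjS : j ∈ univ.filter (fun j : Fin K => (N + h j).Prime) := by
      rw [Finset.mem_filter]
      refine ⟨Finset.mem_univ _, ?_⟩
      rw [hjN]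
      exact hcp
    have h0 : s 0 ≤ s i.castSucc := hs.monotone (Fin.zero_le _)
    have h3' : s i.succ ≤ s (Fin.last k) := hs.monotone (Fin.le_last _)
    obtain ⟨l, hl⟩ := hcons j hjS (lt_of_le_of_lt h0 hj1) (lt_of_lt_of_le hj2 h3')
    rw [hl] at hj1 hj2
    have a1 := Fin.lt_def.1 (hs.lt_iff_lt.1 hj1)
    have a2 := Fin.lt_def.1 (hs.lt_iff_lt.1 hj2)
    rw [Fin.val_castSucc] at a1
    rw [Fin.val_succ] at a2
    omega
  have hlt : ∀ i : Fin k, N + h (s i.castSucc) < N + h (s i.succ) := by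
    intro i
    have h3 := hh (hs (Fin.castSucc_lt_succ (i := i)))
    omega
  have key : ∀ i : Fin k, Nat.count Nat.Prime (N + h (s i.succ)) =
      Nat.count Nat.Prime (N + h (s i.castSucc)) + 1 := fun i =>
    WiK_next _ _ (hp _) (hlt i) (hno i)
  obtain ⟨n, hn⟩ : ∃ n, n = Nat.count Nat.Prime (N + h (s 0)) := ⟨_, rfl⟩
  have hcnt : ∀ i : ℕ, ∀ hi : i < k + 1, Nat.count Nat.Prime (N + h (s ⟨i, hi⟩)) = n + i := by
    intro i
    induction i with
    | zero =>
      intro hi
      rw [hn]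
      rfl
    | succ i ih =>
      intro hi
      have e1 := ih (by omega)
      have e2 := key ⟨i, by omega⟩
      have e3 : (⟨i, by omega⟩ : Fin k).succ = (⟨i + 1, hi⟩ : Fin (k + 1)) := rfl
      have e4 : (⟨i, by omega⟩ : Fin k).castSucc = (⟨i, by omega⟩ : Fin (k + 1)) := rfl
      rw [e3, e4, e1] at e2
      rw [e2]
      omega
  have hnth : ∀ i : ℕ, ∀ hi : i < k + 1, Nat.nth Nat.Prime (n + i) = N + h (s ⟨i, hi⟩) := by
    intro i hi
    rw [← hcnt i hi]
    exact Nat.nth_count (hp _)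
  have hgp : ∀ i : ℕ, ∀ hi : i < k, gp (n + i) + h (s ⟨i, by omega⟩) = h (s ⟨i + 1, by omega⟩) := by
    intro i hi
    have e1 := hnth i (by omega)
    have e2 := hnth (i + 1) (by omega)
    have e3 := hlt ⟨i, hi⟩
    have e4 : N + h (s ⟨i, by omega⟩) < N + h (s ⟨i + 1, by omega⟩) := e3
    unfold gp
    rw [add_assoc, e1, e2]
    omega
  have hsum : ∀ i : ℕ, ∀ hi : i < k + 1, ∑ l ∈ range i, gp (n + l) + h (s 0) = h (s ⟨i, hi⟩) := by
    intro i
    induction i with
    | zero =>
      intro hi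
      rw [Finset.sum_range_zero, Nat.zero_add]
      rfl
    | succ i ih =>
      intro hi
      have e1 := ih (by omega)
      have e2 := hgp i (by omega)
      rw [Finset.sum_range_succ]
      omega
  have b0 := h1 (s 0)
  have g0 : Nat.nth Nat.Prime n = N + h (s 0) := hnth 0 (by omega)
  refine ⟨n, by omega, by omega, ?_, ?_⟩
  · intro i
    have e1 := hgp i i.2
    have e2 : (⟨(i : ℕ), by omega⟩ : Fin (k + 1)) = i.castSucc := rfl
    have e3 : (⟨(i : ℕ) + 1, by omega⟩ : Fin (k + 1)) = i.succ := rfl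
    rw [e2, e3] at e1
    rw [← e1]
    push_cast
    ring
  · have e1 := hsum k (by omega)
    have e2 := h1 (s ⟨k, by omega⟩)
    omega

end Pool.Agent.Lib.RU
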