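import Pool.Agent.Lib.RU.SpecK

/-!
PROJECT KO, module WnK (helper49): the window of k + 2 consecutive elements at the beginning of the second rich group.
-/

set_option autoImplicit false

namespace Pool.Agent.Lib.RU

open Finset

/-- the elements of S below T are the first ones of the enumeration -/
private theorem WnK_lt {K : ℕ} (S : Finset (Fin K)) (T : ℕ) (j : Fin S.card) :
    ((S.orderEmbOfFin rfl j : Fin K) : ℕ) < T ↔ (j : ℕ) < (S.filter (fun x : Fin K => (x : ℕ) < T)).card := by
  classical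
  constructor
  · intro h
    have h1 : (Finset.Iic j).map (S.orderEmbOfFin rfl).toEmbedding ⊆ S.filter (fun x : Fin K => (x : ℕ) < T) := by
      intro x hx
      obtain ⟨i, hi, rfl⟩ := Finset.mem_map.1 hx
      rw [Finset.mem_Iic] at hi
      refine Finset.mem_filter.2 ⟨Finset.orderEmbOfFin_mem S rfl i, ?_⟩
      have h2 : S.orderEmbOfFin rfl i ≤ S.orderEmbOfFin rfl j := (S.orderEmbOfFin rfl).le_iff_le.2 hi
      have h3 : ((S.orderEmbOfFin rfl i : Fin K) : ℕ) ≤ (S.orderEmbOfFin rfl j : Fin K) := h2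
      exact lt_of_le_of_lt h3 h
    have h4 := Finset.card_le_card h1
    rw [Finset.card_map, Fin.card_Iic] at h4
    omega
  · intro h
    by_contra hcon
    have h1 : S.filter (fun x : Fin K => (x : ℕ) < T) ⊆ (Finset.Iio j).map (S.orderEmbOfFin rfl).toEmbedding := by
      intro x hx
      rw [Finset.mem_filter] at hx
      have h2 : x ∈ Set.range (S.orderEmbOfFin rfl) := by
        rw [Finset.range_orderEmbOfFin]
        exact hx.1
      obtain ⟨i, rfl⟩ := h2
      refine Finset.mem_map.2 ⟨i, ?_, rfl⟩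
      rw [Finset.mem_Iio]
      have h3 : S.orderEmbOfFin rfl i < S.orderEmbOfFin rfl j := by
        rw [Fin.lt_def]
        have := hx.2
        omega
      exact (S.orderEmbOfFin rfl).lt_iff_lt.1 h3
    have h4 := Finset.card_le_card h1
    rw [Finset.card_map, Fin.card_Iio] at h4
    omega

theorem tWnK : WnKStmt := by
  classical
  intro k K W q1 q2 S hk hR
  obtain ⟨hq, hR1, hR2⟩ := hR
  have hWW : W * (q1 + 1) ≤ W * q2 := Nat.mul_le_mul_left _ hq
  have hWs : W * q2 ≤ W * (q2 + 1) := Nat.mul_le_mul_left _ (by omega)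
  obtain ⟨n1, hn1⟩ : ∃ n1 : ℕ, n1 = (S.filter (fun x : Fin K => (x : ℕ) < W * q2)).card := ⟨_, rfl⟩
  have h1 : k ≤ n1 := by
    rw [hn1]
    refine hR1.trans (Finset.card_le_card ?_)
    intro x hx
    rw [grp, Finset.mem_filter] at hx
    refine Finset.mem_filter.2 ⟨hx.1, ?_⟩
    have := hx.2.2
    omega
  have h2 : n1 + k ≤ (S.filter (fun x : Fin K => (x : ℕ) < W * (q2 + 1))).card := by
    have hd : Disjoint (S.filter (fun x : Fin K => (x : ℕ) < W * q2)) (grp W q2 S) := by
      rw [Finset.disjoint_left]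
      intro x hx hx'
      rw [Finset.mem_filter] at hx
      rw [grp, Finset.mem_filter] at hx'
      have := hx.2
      have := hx'.2.1
      omega
    have hc := Finset.card_union_of_disjoint hd
    have hs : S.filter (fun x : Fin K => (x : ℕ) < W * q2) ∪ grp W q2 S ⊆
        S.filter (fun x : Fin K => (x : ℕ) < W * (q2 + 1)) := by
      intro x hx
      rw [Finset.mem_union] at hx
      rcases hx with hx | hx
      · rw [Finset.mem_filter] at hx
        refine Finset.mem_filter.2 ⟨hx.1, ?_⟩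
        have := hx.2
        omega
      · rw [grp, Finset.mem_filter] at hx
        exact Finset.mem_filter.2 ⟨hx.1, hx.2.2⟩
    have hcc := Finset.card_le_card hs
    rw [hc, ← hn1] at hcc
    omega
  have h3 : (S.filter (fun x : Fin K => (x : ℕ) < W * (q2 + 1))).card ≤ S.card :=
    Finset.card_le_card (Finset.filter_subset _ _)
  have hb : ∀ i : Fin (k + 1 + 1), n1 - 2 + (i : ℕ) < S.card := by
    intro i
    have := i.2
    omega
  have hlow : ∀ i : Fin (k + 1 + 1), ((S.orderEmbOfFin rfl ⟨n1 - 2 + (i : ℕ), hb i⟩ : Fin K) : ℕ) < W * q2 ↔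
      n1 - 2 + (i : ℕ) < n1 := by
    intro i
    have h := WnK_lt S (W * q2) ⟨n1 - 2 + (i : ℕ), hb i⟩
    rw [← hn1] at h
    exact h
  refine ⟨fun i => S.orderEmbOfFin rfl ⟨n1 - 2 + (i : ℕ), hb i⟩, ⟨?_, ?_, ?_⟩, ?_, ?_⟩
  · intro i j hij
    refine (S.orderEmbOfFin rfl).lt_iff_lt.2 ?_
    rw [Fin.lt_def] at hij ⊢
    dsimp only
    omega
  · intro i
    exact Finset.orderEmbOfFin_mem S rfl _
  · intro x hx hx1 hx2
    have h4 : x ∈ Set.range (S.orderEmbOfFin rfl) := by
      rw [Finset.range_orderEmbOfFin]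
      exact hx
    obtain ⟨j, rfl⟩ := h4
    have h5 := (S.orderEmbOfFin rfl).lt_iff_lt.1 hx1
    have h6 := (S.orderEmbOfFin rfl).lt_iff_lt.1 hx2
    rw [Fin.lt_def] at h5 h6
    dsimp only at h5 h6
    rw [Fin.val_last] at h6
    refine ⟨⟨(j : ℕ) - (n1 - 2), by omega⟩, ?_⟩
    dsimp only
    refine congrArg _ (Fin.ext ?_)
    dsimp only
    omega
  · have h := (hlow 1).2 (by
      rw [Fin.val_one]
      omega)
    exact h
  · intro i hi
    constructor
    · have h := (hlow i).not.2 (by omega)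
      exact not_lt.1 h
    · have h := (WnK_lt S (W * (q2 + 1)) ⟨n1 - 2 + (i : ℕ), hb i⟩).2 (by
        have := i.2
        dsimp only
        omega)
      exact h

end Pool.Agent.Lib.RU
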