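import Pool.Agent.Lib.RU.AllT
import Pool.Agent.Lib.RU.RcK
import Pool.Agent.Lib.RU.WnK
import Pool.Agent.Lib.RU.GoK
import Pool.Agent.Lib.RU.PeK
import Pool.Agent.Lib.RU.MiK
import Pool.Agent.Lib.RU.WiK
import Pool.Agent.Lib.RU.FrK
import Pool.Agent.Lib.RU.ToK

/-!
PROJECT KO (helper81, helper82, helper7, helper49): composition, the twelve orders of k consecutive gaps.
-/

set_option autoImplicit false

namespace Pool.Agent.Lib.RU.T

theorem zToK : ToKStmt := tToK zBkU zLwQ zCoQ tGeP tRcK (tFrK tWiK)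

theorem allK (k : ℕ) (hk : 3 ≤ k) (v : Fin k → ℕ)
    (h : v = oA k ∨ v = oB k ∨ v = oC k ∨ v = oD k ∨ v = oE k ∨ v = oF k) : ForcK k v := by
  obtain ⟨h1, h2, h3, h4, h5, h6⟩ := tPeK tWnK tGoK k hk
  rcases h with h | h | h | h | h | h <;> subst h <;> assumption

/-- the six orders with the largest gap at the first or second place -/
theorem front (k : ℕ) (hk : 3 ≤ k) (v : Fin k → ℕ)
    (h : v = oA k ∨ v = oB k ∨ v = oC k ∨ v = oD k ∨ v = oE k ∨ v = oF k) : OrdK k v :=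
  zToK k v (by omega) (allK k hk v h)

/-- the mirror images -/
theorem back (k : ℕ) (hk : 3 ≤ k) (v : Fin k → ℕ)
    (h : v = oA k ∨ v = oB k ∨ v = oC k ∨ v = oD k ∨ v = oE k ∨ v = oF k) :
    OrdK k (fun i => v (Fin.rev i)) :=
  zToK k _ (by omega) (tMiK k v (allK k hk v h))

end Pool.Agent.Lib.RU.T
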