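import Pool.Agent.Lib.RU.SpecQ

/-!
PROJECT SO, module BkU: Maynard-Tao in bins with rough values of all forms, the number of the b (port of BE/R/CmR.lean and
of the end of RU/MkU.lean).
-/

set_option autoImplicit false

namespace Pool.Agent.Lib.RU

open Finset
open Pool.Agent.Lib.MP_9f2731_nt.GP
open Pool.Agent.Lib.MP_9f2731_nt.GP.Sv
open Pool.Agent.Lib.MP_9f2731_nt.QL
open Pool.Agent.Lib.MP_9f2731_nt.QL.Sw
open Pool.Agent.Lib.MP_9f2731_nt.CG
open Pool.Agent.Lib.MP_9f2731_nt.CG.Ma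
open Pool.Agent.Lib.MP_9f2731_nt.CG.Mf
open Pool.Agent.Lib.BE

private theorem BkU_big (ε : ℝ) (hε : 0 < ε) : ∃ X0 : ℝ, ∀ X : ℕ, X0 ≤ X →
    (0 : ℝ) < X ∧ 1 ≤ Real.log (RR X) ∧ 8 / ε ≤ Real.log (RR X) ∧
    (X : ℝ) ^ ((3 : ℝ) / 5) ≤ X * ε / 8 := by
  refine ⟨Real.exp (5 * max 1 (8 / ε)), fun X hX => ?_⟩
  have hX0 : (0 : ℝ) < X := lt_of_lt_of_le (Real.exp_pos _) hX
  have hlog : 5 * max 1 (8 / ε) ≤ Real.log X := by
    rw [← Real.log_exp (5 * max 1 (8 / ε))]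
    exact Real.log_le_log (Real.exp_pos _) hX
  have hRlog : Real.log (RR X) = Real.log X / 5 := by
    unfold RR
    rw [Real.log_rpow hX0]
    ring
  have hm1 := le_max_left (1 : ℝ) (8 / ε)
  have hm2 := le_max_right (1 : ℝ) (8 / ε)
  refine ⟨hX0, by rw [hRlog]; linarith, by rw [hRlog]; linarith, ?_⟩
  have h25 : 8 / ε ≤ (X : ℝ) ^ ((2 : ℝ) / 5) := by
    rw [Real.rpow_def_of_pos hX0]
    have h := Real.add_one_le_exp (Real.log X * (2 / 5))
    linarith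
  have h35 : (X : ℝ) ^ ((3 : ℝ) / 5) * (X : ℝ) ^ ((2 : ℝ) / 5) = X := by
    rw [← Real.rpow_add hX0]
    norm_num
  have h4 := mul_le_mul_of_nonneg_left h25 (Real.rpow_nonneg hX0.le ((3 : ℝ) / 5))
  rw [h35] at h4
  have h5 : (X : ℝ) ^ ((3 : ℝ) / 5) = (X : ℝ) ^ ((3 : ℝ) / 5) * (8 / ε) * ε / 8 := by
    field_simp
  rw [h5]
  have h6 := mul_le_mul_of_nonneg_right h4 hε.le
  linarith

private theorem BkU_G {W X K : ℕ} {M : ℝ} (hW : 1 ≤ W) (hK : 1 ≤ K)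
    (h1 : 1 ≤ Real.log (RR X)) (hM : M ≤ Real.log (RR X)) :
    1 ≤ GG W X ^ K ∧ M ≤ GG W X ^ K := by
  have hd0 : 0 < dlV W := dlV_pos hW
  have hd1 : dlV W ≤ 1 := dlV_le_one W
  have hG : Real.log (RR X) ≤ GG W X := by
    unfold GG
    rw [le_div_iff₀ hd0]
    have h3 : Real.log (RR X) ≤ Real.log (RR X) ^ 3 := le_self_pow₀ h1 (by norm_num)
    have h4 : Real.log (RR X) * dlV W ≤ Real.log (RR X) * 1 :=
      mul_le_mul_of_nonneg_left hd1 (by linarith)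
    linarith
  have hG1 : 1 ≤ GG W X := h1.trans hG
  have h2 : GG W X ≤ GG W X ^ K := le_self_pow₀ hG1 (by omega)
  exact ⟨hG1.trans h2, (hM.trans hG).trans h2⟩

private theorem BkU_one {S D J η ε A Z x : ℝ} (hZ : 0 < Z) (hε : 0 < ε) (hη0 : 0 < η)
    (hη1 : η ≤ ε / 8) (hη2 : η ≤ A / 4) (hD1 : Z / 50 ≤ D) (hD2 : D ≤ 3 * Z) (hJ1 : A / 2 ≤ J)
    (hJ2 : J ≤ A) (hx : x ≤ Z * ε / 8) (h : |S - D * J| ≤ D * η + x) :
    Z * (A / 100 - ε) ≤ S ∧ S ≤ Z * (3 * A + ε) := by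
  obtain ⟨h1, h2⟩ := abs_le.1 h
  have hD0 : 0 ≤ D := by linarith
  have hZε : 0 < Z * ε := mul_pos hZ hε
  have p3 : 0 ≤ Z * (ε / 8 - η) := mul_nonneg hZ.le (by linarith)
  constructor
  · have p1 : 0 ≤ D * (J - A / 2) := mul_nonneg hD0 (by linarith)
    have p2 : 0 ≤ (D - Z / 50) * (A / 2 - η) := mul_nonneg (by linarith) (by linarith)
    nlinarith
  · have p1 : 0 ≤ D * (A - J) := mul_nonneg hD0 (by linarith)
    have p2 : 0 ≤ (3 * Z - D) * (A + η) := mul_nonneg (by linarith) (by linarith)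
    nlinarith

private theorem BkU_two {S D Q η ε A Z x : ℝ} (hZ : 0 < Z) (hε : 0 < ε) (hη0 : 0 < η)
    (hη1 : η ≤ ε / 8) (hA : 0 ≤ A) (hD0 : 0 ≤ D) (hD2 : D ≤ 3 * Z) (hQ : Q ≤ A)
    (hx : x ≤ Z * ε / 8) (h : S ≤ D * (8 / 3 * Q + η) + x) :
    S ≤ Z * (8 * A + ε) := by
  have hZε : 0 < Z * ε := mul_pos hZ hε
  have p3 : 0 ≤ Z * (ε / 8 - η) := mul_nonneg hZ.le (by linarith)
  have p1 : 0 ≤ D * (A - Q) := mul_nonneg hD0 (by linarith)
  have p2 : 0 ≤ (3 * Z - D) * (8 / 3 * A + η) := mul_nonneg (by linarith) (by linarith)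
  nlinarith

private theorem BkU_dlV_pos {V : ℕ} (hV : 1 ≤ V) : 0 < dlV V := by
  unfold dlV
  have h1 : 0 < V.totient := Nat.totient_pos.2 hV
  have h2 : (0 : ℝ) < V := by exact_mod_cast hV
  have h3 : (0 : ℝ) < V.totient := by exact_mod_cast h1
  positivity

private theorem BkU_dlV_le_one {V : ℕ} (hV : 1 ≤ V) : dlV V ≤ 1 := by
  unfold dlV
  have h2 : (0 : ℝ) < V := by exact_mod_cast hV
  rw [div_le_one h2]
  exact_mod_cast Nat.totient_le V

private theorem BkU_dlV_mul_le {V p : ℕ} (hV : 1 ≤ V) (hp : p.Prime) (h : ¬ p ∣ V) :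
    dlV (V * p) ≤ dlV V := by
  unfold dlV
  have hc : V.Coprime p := ((Nat.Prime.coprime_iff_not_dvd hp).2 h).symm
  rw [Nat.totient_mul hc, Nat.totient_prime hp]
  have h2 : (0 : ℝ) < V := by exact_mod_cast hV
  have h3 : (0 : ℝ) < p := by exact_mod_cast hp.pos
  push_cast
  rw [div_le_div_iff₀ (by positivity) h2]
  have h4 : ((p - 1 : ℕ) : ℝ) ≤ p := by
    have : p - 1 ≤ p := Nat.sub_le p 1
    exact_mod_cast this
  have h5 : (0 : ℝ) ≤ V.totient := Nat.cast_nonneg _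
  nlinarith [mul_le_mul_of_nonneg_left h4 h5, mul_nonneg h5 h2.le]

private theorem BkU_fin_step (L : ℕ) (I C3 q X lR G Z cd : ℝ) (hI : 0 < I)
    (hC : 0 < C3) (hX : 0 < X) (hl : 0 < lR) (hq : 0 ≤ q) (hb : q * lR ^ 4 ≤ G)
    (hZ : Z = X * G ^ L) (hc : Z * I ≤ C3 * lR ^ (4 * L) * cd) :
    I / C3 * q ^ L * X ≤ cd := by
  have h1 : (q * lR ^ 4) ^ L ≤ G ^ L := pow_le_pow_left₀ (by positivity) hb L
  have hpos : 0 < C3 * lR ^ (4 * L) := by positivity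
  refine le_of_mul_le_mul_left ?_ hpos
  refine le_trans ?_ hc
  have h2 : C3 * lR ^ (4 * L) * (I / C3 * q ^ L * X) = X * I * (q * lR ^ 4) ^ L := by
    rw [mul_pow, ← pow_mul]
    field_simp
  rw [h2, hZ]
  have h3 := mul_le_mul_of_nonneg_left h1 (show 0 ≤ X * I by positivity)
  linarith

theorem tBkU (h1 : TnCStmt) (h2 : BkCStmt) (h3 : MaCStmt) (h4 : MbCStmt) (h5 : MhCStmt)
    (h6 : UpCStmt) (h7 : PrCStmt) (h8 : MgRStmt) (h9 : MeUStmt) : BkUStmt := by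
  classical
  intro m hm
  obtain ⟨n, r, P, bd, 𝒜, α, T, hn, hD⟩ := h1 m hm
  have hT := hD.Tp
  have hα := hD.ap
  have hmr : (1 : ℝ) ≤ m := by exact_mod_cast hm
  have hnr : (1 : ℝ) ≤ n := by exact_mod_cast hn
  obtain ⟨ε, hεd⟩ : ∃ ε : ℝ, ε = T / (10 ^ 4 * (m * n ^ 2)) := ⟨_, rfl⟩
  have hε : 0 < ε := by
    rw [hεd]
    positivity
  have hαT : 0 < α * T := mul_pos hα hT
  obtain ⟨η, hη0, hη1, hη2⟩ : ∃ η : ℝ, 0 < η ∧ η ≤ ε / 8 ∧ η ≤ α * T / 4 :=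
    ⟨min (ε / 8) (α * T / 4), lt_min (by linarith) (by linarith), min_le_left _ _,
      min_le_right _ _⟩
  obtain ⟨XA, hA⟩ := h3 (m * n) r P bd 𝒜 hD.vda η hη0
  obtain ⟨XB, hB⟩ := h4 (m * n) r P bd 𝒜 hD.vda η hη0
  obtain ⟨XH, hH⟩ := h5
  obtain ⟨XU, hU⟩ := h6
  obtain ⟨XP, hP⟩ := h7 (m * n) r P bd 𝒜 hD.vda hD.half hD.ipn hD.imp η hη0
  obtain ⟨κ, w1, XM, hκ, hM⟩ := h8 (m * n) r P bd 𝒜 hD.vda (T / 10 ^ 8) (by positivity)
  obtain ⟨C3, XE, hC3, hEb⟩ := h9 (m * n) r P bd 𝒜 hD.vda κ hκ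
  obtain ⟨XG, hG⟩ := BkU_big ε hε
  refine ⟨n, hn, κ, T / 10 ^ 7 / C3, w1,
    max (max (max XA XB) (max XH XU)) (max (max XP XM) (max XG XE)), hκ, by positivity,
    fun X w V p0 a c hX hw1 hS hBv hcop hac => ?_⟩
  simp only [max_le_iff] at hX
  obtain ⟨⟨⟨hXA, hXB⟩, hXH, hXU⟩, ⟨hXP, hXM⟩, hXG, hXE⟩ := hX
  obtain ⟨hX0, hL1, hL2, hX35⟩ := hG X hXG
  have hK : 1 ≤ m * n := Nat.mul_pos hm hn
  have hW : 1 ≤ V * p0 := Nat.mul_pos hS.hV hS.hp.pos
  obtain ⟨hG1, hG2⟩ := BkU_G hW hK hL1 hL2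
  have hZ : 0 < (X : ℝ) * GG (V * p0) X ^ (m * n) := mul_pos hX0 (by linarith)
  have hXZ : (X : ℝ) ≤ (X : ℝ) * GG (V * p0) X ^ (m * n) * ε / 8 := by
    have h8 : 1 ≤ GG (V * p0) X ^ (m * n) * ε / 8 := by
      rw [div_le_iff₀ hε] at hG2
      linarith
    have h9 := mul_le_mul_of_nonneg_left h8 hX0.le
    linarith
  have hDl : ∀ l, (X : ℝ) * GG (V * p0) X ^ (m * n) / 50 ≤
      ((BpC X (a l) (c l)).card : ℝ) * (Real.log (RR X) ^ 4 * GG (V * p0) X ^ (m * n - 1)) ∧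
      ((BpC X (a l) (c l)).card : ℝ) * (Real.log (RR X) ^ 4 * GG (V * p0) X ^ (m * n - 1)) ≤
        3 * ((X : ℝ) * GG (V * p0) X ^ (m * n)) := by
    intro l
    refine ⟨?_, hU X w V p0 (m * n) a c l hXU hS⟩
    have h8 := hH X w V p0 (m * n) a c l hXH hS (hBv l)
    linarith
  obtain ⟨𝓡, h𝓡⟩ : ∃ 𝓡 : Finset ℕ,
      𝓡 = (Icc 1 X).filter (fun b => ∀ l, Rgh ((X : ℝ) ^ κ) (a l * b + c l)) := ⟨_, rfl⟩
  have hsub : 𝓡 ⊆ Icc 1 X := by
    rw [h𝓡]
    exact Finset.filter_subset _ _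
  have hsd : Icc 1 X \ 𝓡 =
      (Icc 1 X).filter (fun b => ¬ ∀ l, Rgh ((X : ℝ) ^ κ) (a l * b + c l)) := by
    rw [h𝓡]
    exact (Finset.filter_not _ _).symm
  suffices hmain : (X : ℝ) * GG (V * p0) X ^ (m * n) * T / 10 ^ 7 ≤
      ∑ b ∈ 𝓡.filter (fun b => (m : ℝ) / 10 ^ 6 ≤ ((univ.filter (fun i : Fin m => ∃ t : Fin n,
        b ∈ BpC X (a (finProdFinEquiv (i, t))) (c (finProdFinEquiv (i, t))))).card : ℝ)),
        WWC (V * p0) X P 𝒜 a c b ^ 2 by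
    set lR := Real.log (RR X) with hlRd
    set G := GG (V * p0) X with hGd
    have hlogR : lR = Real.log X / 5 := by
      rw [hlRd]
      unfold RR
      rw [Real.log_rpow hX0]
      ring
    have hlX : 0 < Real.log X := by linarith
    have hVp : 1 ≤ V * p0 := hW
    have hd := BkU_dlV_pos hVp
    have hdV := BkU_dlV_pos hS.hV
    have hdle := BkU_dlV_mul_le hS.hV hS.hp hS.hpV
    have hbase : ((V : ℝ) / V.totient) / Real.log X * lR ^ 4 ≤ G := by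
      have e1 : ((V : ℝ) / V.totient) = 1 / dlV V := by
        unfold dlV
        rw [one_div_div]
      have e2 : 1 / dlV V ≤ 1 / dlV (V * p0) := one_div_le_one_div_of_le hd hdle
      have e3 : lR / Real.log X ≤ 1 := by
        rw [div_le_one hlX, hlogR]
        linarith
      have e4 : ((V : ℝ) / V.totient) / Real.log X * lR ^ 4 =
          (1 / dlV V) * lR ^ 3 * (lR / Real.log X) := by
        rw [e1]
        ring
      rw [e4]
      have hlR0 : 0 < lR := by linarith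
      calc (1 / dlV V) * lR ^ 3 * (lR / Real.log X) ≤ (1 / dlV V) * lR ^ 3 * 1 :=
            mul_le_mul_of_nonneg_left e3 (by positivity)
        _ = (1 / dlV V) * lR ^ 3 := mul_one _
        _ ≤ (1 / dlV (V * p0)) * lR ^ 3 := mul_le_mul_of_nonneg_right e2 (by positivity)
        _ = G := by
          rw [hGd]
          unfold GG
          ring
    set 𝓢 : Finset ℕ := (Icc 1 X).filter (fun b => (∀ j, Rgh ((X : ℝ) ^ κ) (a j * b + c j)) ∧
      Hits m n (univ.filter (fun j : Fin (m * n) => (a j * b + c j).Prime))) with h𝓢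
    have hsub2 : 𝓡.filter (fun b => (m : ℝ) / 10 ^ 6 ≤ ((univ.filter (fun i : Fin m =>
        ∃ t : Fin n, b ∈ BpC X (a (finProdFinEquiv (i, t)))
          (c (finProdFinEquiv (i, t))))).card : ℝ)) ⊆ 𝓢 := by
      intro b hb
      rw [Finset.mem_filter] at hb
      obtain ⟨hb1, hb2⟩ := hb
      rw [h𝓡, Finset.mem_filter] at hb1
      rw [h𝓢, Finset.mem_filter]
      refine ⟨hb1.1, hb1.2, ?_⟩
      unfold Hits
      refine hb2.trans ?_
      have hle : (univ.filter (fun i : Fin m => ∃ t : Fin n, b ∈ BpC X (a (finProdFinEquiv (i, t)))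
          (c (finProdFinEquiv (i, t))))).card ≤ (univ.filter (fun i : Fin m => ∃ t : Fin n,
          finProdFinEquiv (i, t) ∈ univ.filter (fun j : Fin (m * n) =>
            (a j * b + c j).Prime))).card := by
        apply Finset.card_le_card
        intro i hi
        rw [Finset.mem_filter] at hi ⊢
        obtain ⟨hi1, t, ht⟩ := hi
        refine ⟨hi1, t, ?_⟩
        unfold BpC at ht
        rw [Finset.mem_filter] at ht
        rw [Finset.mem_filter]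
        exact ⟨Finset.mem_univ _, ht.2.2⟩
      exact_mod_cast hle
    have hsum : (X : ℝ) * G ^ (m * n) * T / 10 ^ 7 ≤
        C3 * lR ^ (4 * (m * n)) * (𝓢.card : ℝ) := by
      refine hmain.trans ?_
      refine (Finset.sum_le_sum (g := fun _ => C3 * lR ^ (4 * (m * n))) ?_).trans ?_
      · intro b hb
        have hb3 := hsub2 hb
        rw [h𝓢, Finset.mem_filter] at hb3
        exact hEb X V p0 b a c hXE hac hb3.1 hb3.2.1
      · rw [Finset.sum_const, nsmul_eq_mul, mul_comm]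
        refine mul_le_mul_of_nonneg_left ?_ (by positivity)
        exact_mod_cast Finset.card_le_card hsub2
    have hfin := BkU_fin_step (m * n) (T / 10 ^ 7) C3 (((V : ℝ) / V.totient) / Real.log X) X lR G
      ((X : ℝ) * G ^ (m * n)) (𝓢.card : ℝ) (by positivity) hC3 hX0 (by linarith)
      (by positivity) hbase rfl (by
        refine le_trans (le_of_eq ?_) hsum
        ring)
    exact hfin
  refine h2 m n (Icc 1 X) 𝓡 (fun b => WWC (V * p0) X P 𝒜 a c b ^ 2)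
    (fun i t => BpC X (a (finProdFinEquiv (i, t))) (c (finProdFinEquiv (i, t))))
    ((X : ℝ) * GG (V * p0) X ^ (m * n)) T α ε hm hn hZ hT hα (fun b => sq_nonneg _) hsub
    (fun i t => Finset.filter_subset _ _) hD.lo hD.hi hεd ?_ ?_ ?_ ?_
  · have h8 := (abs_le.1 (hA X w V p0 a c hXA hS)).2
    have h9 : (X : ℝ) * GG (V * p0) X ^ (m * n) * Iq P 𝒜 ≤
        (X : ℝ) * GG (V * p0) X ^ (m * n) * T := mul_le_mul_of_nonneg_left hD.I1 hZ.le
    have h10 : (X : ℝ) * GG (V * p0) X ^ (m * n) * η ≤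
        (X : ℝ) * GG (V * p0) X ^ (m * n) * (ε / 8) := mul_le_mul_of_nonneg_left hη1 hZ.le
    have h11 : (X : ℝ) * ε ≤ (X : ℝ) * GG (V * p0) X ^ (m * n) * ε := by
      have h12 := mul_le_mul_of_nonneg_left hG1 hX0.le
      have h13 := mul_le_mul_of_nonneg_right h12 hε.le
      linarith
    have h14 : 0 < (X : ℝ) * ε := mul_pos hX0 hε
    show ∑ b ∈ Icc 1 X, WWC (V * p0) X P 𝒜 a c b ^ 2 ≤ _
    nlinarith
  · have h8 := hM X w V p0 a c hXM hw1 hS hcop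
    show ∑ b ∈ Icc 1 X \ 𝓡, WWC (V * p0) X P 𝒜 a c b ^ 2 ≤ _
    rw [hsd, mul_assoc]
    refine le_trans (le_of_eq ?_) h8
    exact Finset.sum_congr (Finset.filter_congr_decidable _ _ _) (fun _ _ => rfl)
  · intro i t
    obtain ⟨hJ1, hJ2⟩ := hD.J1 (finProdFinEquiv (i, t))
    obtain ⟨hD1, hD2⟩ := hDl (finProdFinEquiv (i, t))
    have h8 := hB X w V p0 a c (finProdFinEquiv (i, t)) hXB hS (hBv _)
    have h9 : |∑ b ∈ BpC X (a (finProdFinEquiv (i, t))) (c (finProdFinEquiv (i, t))),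
        WWC (V * p0) X P 𝒜 a c b ^ 2 -
        ((BpC X (a (finProdFinEquiv (i, t))) (c (finProdFinEquiv (i, t)))).card : ℝ) *
          (Real.log (RR X) ^ 4 * GG (V * p0) X ^ (m * n - 1)) *
            Jq P 𝒜 (finProdFinEquiv (i, t))| ≤
        ((BpC X (a (finProdFinEquiv (i, t))) (c (finProdFinEquiv (i, t)))).card : ℝ) *
          (Real.log (RR X) ^ 4 * GG (V * p0) X ^ (m * n - 1)) * η + X := by
      simpa only [mul_assoc] using h8
    have h10 := BkU_one hZ hε hη0 hη1 hη2 hD1 hD2 hJ1 hJ2 hXZ h9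
    exact ⟨h10.1, by rw [show 3 * α * T = 3 * (α * T) by ring]; exact h10.2⟩
  · intro i t t' htt
    have hne : (finProdFinEquiv (i, t) : Fin (m * n)) ≠ finProdFinEquiv (i, t') := by
      intro h
      have h8 := finProdFinEquiv.injective h
      exact htt (by simpa using h8)
    obtain ⟨hD1, hD2⟩ := hDl (finProdFinEquiv (i, t))
    have h8 := hP X w V p0 a c (finProdFinEquiv (i, t)) (finProdFinEquiv (i, t')) hXP hS
      (hBv _) hne
    have h9 : ∑ b ∈ BpC X (a (finProdFinEquiv (i, t))) (c (finProdFinEquiv (i, t))) ∩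
          BpC X (a (finProdFinEquiv (i, t'))) (c (finProdFinEquiv (i, t'))),
        WWC (V * p0) X P 𝒜 a c b ^ 2 ≤
        ((BpC X (a (finProdFinEquiv (i, t))) (c (finProdFinEquiv (i, t)))).card : ℝ) *
          (Real.log (RR X) ^ 4 * GG (V * p0) X ^ (m * n - 1)) *
            (8 / 3 * Jq2 P 𝒜 (finProdFinEquiv (i, t)) (finProdFinEquiv (i, t')) + η) + X := by
      simpa only [mul_assoc] using h8
    have h10 := BkU_two hZ hε hη0 hη1 (by positivity) (by linarith) hD2 (hD.J2 _ _ hne) hXZ h9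
    rw [show 8 * α ^ 2 * T = 8 * (α ^ 2 * T) by ring]
    exact h10

end Pool.Agent.Lib.RU
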