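import Pool.Agent.Lib.RU.SpecQ

/-!
PROJECT SO, module CoQ: most windows contain no other primes.
-/

set_option autoImplicit false

namespace Pool.Agent.Lib.RU

open Finset
open Pool.Agent.Lib.MP_9f2731_nt.GP Pool.Agent.Lib.MP_9f2731_nt.GP.Sv Pool.Agent.Lib.MP_9f2731_nt.QL Pool.Agent.Lib.MP_9f2731_nt.QL.Sw Pool.Agent.Lib.MP_9f2731_nt.CG Pool.Agent.Lib.MP_9f2731_nt.CG.Ma Pool.Agent.Lib.MP_9f2731_nt.CG.Mf Pool.Agent.Lib.BE

/-- membership in a filtered set, for any decidability instance -/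
private theorem CoQ_mf {α : Type} {p : α → Prop} {i : DecidablePred p} {s : Finset α} {a : α} :
    a ∈ @Finset.filter α p i s ↔ a ∈ s ∧ p a := @Finset.mem_filter α p i s a

private def CoQ_A {K : ℕ} (R : ℕ → ℕ → Prop) (P : (Fin K → ℕ) → ℕ → Prop) (h : Fin K → ℕ) (N : ℕ) :
    Prop := (∀ j, R N (h j)) ∧ P h N

private def CoQ_V {K : ℕ} (R : ℕ → ℕ → Prop) (h : Fin K → ℕ) (N : ℕ) : Prop := ∀ j, R N (h j)

private def CoQ_G {K : ℕ} (R : ℕ → ℕ → Prop) (P : (Fin K → ℕ) → ℕ → Prop) (M : ℕ) (h : Fin K → ℕ)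
    (N : ℕ) : Prop := P h N ∧ (∀ j, R N (h j)) ∧ ∀ t, 1 ≤ t → t ≤ M → R N t → ∃ j, h j = t

open Classical in
private theorem CoQ_count (K M n : ℕ) (R : ℕ → ℕ → Prop) (P : (Fin K → ℕ) → ℕ → Prop)
    (𝓗 : Finset (Fin K → ℕ)) (L S : ℝ) (U : (Fin (K + 1) → ℕ) → ℝ)
    (hinj : ∀ h ∈ 𝓗, Function.Injective h ∧ ∀ j, 1 ≤ h j ∧ h j ≤ M)
    (himg : ∀ h ∈ 𝓗, ∀ h' ∈ 𝓗, univ.image h = univ.image h' → h = h')
    (hA : ∀ h ∈ 𝓗, L ≤ (((Icc 1 n).filter (CoQ_A R P h)).card : ℝ))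
    (hU : ∀ h' : Fin (K + 1) → ℕ, Function.Injective h' → (∀ j, 1 ≤ h' j ∧ h' j ≤ M) →
      (((Icc 1 n).filter (CoQ_V R h')).card : ℝ) ≤ U h')
    (hS : ∑ h ∈ (Fintype.piFinset (fun _ : Fin (K + 1) => Icc 1 M)).filter
      (fun h => Function.Injective h), U h ≤ S) :
    (𝓗.card : ℝ) * L - S ≤ (((Icc 1 n).filter (fun N => ∃ h ∈ 𝓗, CoQ_G R P M h N)).card : ℝ) := by
  let A : (Fin K → ℕ) → Finset ℕ := fun h => (Icc 1 n).filter (CoQ_A R P h)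
  let T : (Fin K → ℕ) → Finset ℕ := fun h => (Icc 1 M).filter (fun t => ∀ j, h j ≠ t)
  let V : (Fin (K + 1) → ℕ) → Finset ℕ := fun h' => (Icc 1 n).filter (CoQ_V R h')
  let G : (Fin K → ℕ) → Finset ℕ := fun h => (Icc 1 n).filter (CoQ_G R P M h)
  have s1 : ∀ h, A h ⊆ G h ∪ (T h).biUnion (fun t => V (Fin.cons t h)) := by
    intro h N hN
    obtain ⟨hN1, hN2, hN3⟩ := CoQ_mf.mp hN
    by_cases hc : ∀ t, 1 ≤ t → t ≤ M → R N t → ∃ j, h j = t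
    · exact Finset.mem_union_left _ (CoQ_mf.mpr ⟨hN1, hN3, hN2, hc⟩)
    · obtain ⟨t, ht1, ht2, ht3, ht4⟩ : ∃ t, 1 ≤ t ∧ t ≤ M ∧ R N t ∧ ∀ j, h j ≠ t := by
        by_contra hne
        refine hc (fun t ht1 ht2 ht3 => ?_)
        by_contra hj
        exact hne ⟨t, ht1, ht2, ht3, fun j hj' => hj ⟨j, hj'⟩⟩
      refine Finset.mem_union_right _ (Finset.mem_biUnion.mpr ⟨t, ?_, ?_⟩)
      · exact CoQ_mf.mpr ⟨Finset.mem_Icc.mpr ⟨ht1, ht2⟩, ht4⟩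
      · refine CoQ_mf.mpr ⟨hN1, fun j => ?_⟩
        refine Fin.cases ?_ (fun i => ?_) j
        · exact ht3
        · exact hN2 i
  have s2 : ∀ h, (A h).card ≤ (G h).card + ∑ t ∈ T h, (V (Fin.cons t h)).card := by
    intro h
    calc (A h).card ≤ (G h ∪ (T h).biUnion (fun t => V (Fin.cons t h))).card :=
          Finset.card_le_card (s1 h)
      _ ≤ (G h).card + ((T h).biUnion (fun t => V (Fin.cons t h))).card := Finset.card_union_le _ _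
      _ ≤ (G h).card + ∑ t ∈ T h, (V (Fin.cons t h)).card :=
          Nat.add_le_add_left Finset.card_biUnion_le _
  have s3 : (𝓗.card : ℝ) * L ≤ ∑ h ∈ 𝓗, ((G h).card : ℝ) +
      ∑ h ∈ 𝓗, ∑ t ∈ T h, ((V (Fin.cons t h)).card : ℝ) := by
    calc (𝓗.card : ℝ) * L = ∑ _h ∈ 𝓗, L := by rw [Finset.sum_const, nsmul_eq_mul]
      _ ≤ ∑ h ∈ 𝓗, ((A h).card : ℝ) := Finset.sum_le_sum hA
      _ ≤ ∑ h ∈ 𝓗, (((G h).card : ℝ) + ∑ t ∈ T h, ((V (Fin.cons t h)).card : ℝ)) :=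
          Finset.sum_le_sum (fun h _ => by exact_mod_cast s2 h)
      _ = _ := Finset.sum_add_distrib
  have s4 : ∑ h ∈ 𝓗, ∑ t ∈ T h, ((V (Fin.cons t h)).card : ℝ) ≤ S := by
    let g : (Σ _ : Fin K → ℕ, ℕ) → (Fin (K + 1) → ℕ) := fun x => Fin.cons x.2 x.1
    have hmem : ∀ x ∈ 𝓗.sigma T, Function.Injective (g x) ∧ ∀ j, 1 ≤ g x j ∧ g x j ≤ M := by
      rintro ⟨h, t⟩ hx
      obtain ⟨hx1, hx2⟩ := Finset.mem_sigma.mp hx
      obtain ⟨hx3, hx4⟩ := CoQ_mf.mp hx2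
      obtain ⟨hi, hb⟩ := hinj h hx1
      refine ⟨?_, fun j => ?_⟩
      · refine Fin.cons_injective_iff.mpr ⟨?_, hi⟩
        rintro ⟨j, hj⟩
        exact hx4 j hj
      · refine Fin.cases ?_ (fun i => ?_) j
        · exact Finset.mem_Icc.mp hx3
        · exact hb i
    have hg : Set.InjOn g (𝓗.sigma T : Set (Σ _ : Fin K → ℕ, ℕ)) := by
      rintro ⟨h, t⟩ _ ⟨h', t'⟩ _ he
      have e := Fin.cons_inj.mp he
      obtain ⟨e1, e2⟩ := e
      simp only at e1 e2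
      subst e1
      subst e2
      rfl
    calc ∑ h ∈ 𝓗, ∑ t ∈ T h, ((V (Fin.cons t h)).card : ℝ)
        = ∑ x ∈ 𝓗.sigma T, ((V (g x)).card : ℝ) := by
          rw [Finset.sum_sigma]
      _ ≤ ∑ x ∈ 𝓗.sigma T, U (g x) :=
          Finset.sum_le_sum (fun x hx => hU (g x) (hmem x hx).1 (hmem x hx).2)
      _ = ∑ y ∈ (𝓗.sigma T).image g, U y := (Finset.sum_image hg).symm
      _ ≤ ∑ h ∈ (Fintype.piFinset (fun _ : Fin (K + 1) => Icc 1 M)).filter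
          (fun h => Function.Injective h), U h := by
          refine Finset.sum_le_sum_of_subset_of_nonneg ?_ ?_
          · intro y hy
            obtain ⟨x, hx, rfl⟩ := Finset.mem_image.mp hy
            refine CoQ_mf.mpr ⟨?_, (hmem x hx).1⟩
            exact Fintype.mem_piFinset.mpr (fun j => Finset.mem_Icc.mpr ((hmem x hx).2 j))
          · intro y hy _
            obtain ⟨hy1, hy2⟩ := CoQ_mf.mp hy
            have hy3 := hU y hy2 (fun j => Finset.mem_Icc.mp (Fintype.mem_piFinset.mp hy1 j))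
            exact le_trans (Nat.cast_nonneg _) hy3
      _ ≤ S := hS
  have s5 : ∑ h ∈ 𝓗, ((G h).card : ℝ) ≤
      (((Icc 1 n).filter (fun N => ∃ h ∈ 𝓗, CoQ_G R P M h N)).card : ℝ) := by
    have hd : ∀ h ∈ 𝓗, ∀ h' ∈ 𝓗, h ≠ h' → Disjoint (G h) (G h') := by
      intro h hh h' hh' hne
      rw [Finset.disjoint_left]
      intro N hN hN'
      apply hne
      apply himg h hh h' hh'
      obtain ⟨-, -, hR, hall⟩ := CoQ_mf.mp hN
      obtain ⟨-, -, hR', hall'⟩ := CoQ_mf.mp hN'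
      ext t
      simp only [Finset.mem_image, Finset.mem_univ, true_and]
      constructor
      · rintro ⟨j, rfl⟩
        exact hall' _ ((hinj h hh).2 j).1 ((hinj h hh).2 j).2 (hR j)
      · rintro ⟨j, rfl⟩
        exact hall _ ((hinj h' hh').2 j).1 ((hinj h' hh').2 j).2 (hR' j)
    have hc : (𝓗.biUnion G).card = ∑ h ∈ 𝓗, (G h).card := Finset.card_biUnion hd
    have hsub : 𝓗.biUnion G ⊆ (Icc 1 n).filter (fun N => ∃ h ∈ 𝓗, CoQ_G R P M h N) := by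
      intro N hN
      obtain ⟨h, hh, hN⟩ := Finset.mem_biUnion.mp hN
      obtain ⟨hN1, hN2⟩ := CoQ_mf.mp hN
      exact CoQ_mf.mpr ⟨hN1, h, hh, hN2⟩
    have := Finset.card_le_card hsub
    rw [hc] at this
    exact_mod_cast this
  linarith

/-- the numbers in the main inequality -/
private theorem CoQ_num (K M Y nH : ℕ) (δ c0 C l η : ℝ) (hδ : 0 < δ) (hc0 : 0 < c0) (hC : 0 < C)
    (hl : 0 < l) (hη : 0 < η) (h1 : η / 2 * l ≤ (M : ℝ)) (h2 : (M : ℝ) ≤ η * l)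
    (h3 : C * η ≤ δ * c0 / 2) (h4 : δ * (M : ℝ) ^ K ≤ (nH : ℝ)) :
    (δ * c0 / 2) * (η / 2) ^ K * Y ≤
      (nH : ℝ) * (c0 * (Y / l ^ K)) - C * (M : ℝ) ^ (K + 1) * (Y / l ^ (K + 1)) := by
  obtain ⟨ρ, hρ⟩ : ∃ ρ : ℝ, ρ = (M : ℝ) / l := ⟨_, rfl⟩
  have hM : (M : ℝ) = ρ * l := by
    rw [hρ, div_mul_cancel₀ _ hl.ne']
  have hρ1 : η / 2 ≤ ρ := by
    rw [hρ, le_div_iff₀ hl]
    exact h1
  have hρ2 : ρ ≤ η := by
    rw [hρ, div_le_iff₀ hl]
    exact h2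
  have hρ0 : 0 < ρ := lt_of_lt_of_le (by positivity) hρ1
  have hY0 : (0 : ℝ) ≤ (Y : ℝ) := Nat.cast_nonneg _
  have e1 : (nH : ℝ) * (c0 * (Y / l ^ K)) ≥ δ * c0 * ρ ^ K * Y := by
    have hq : 0 ≤ c0 * (Y / l ^ K) := by positivity
    calc δ * c0 * ρ ^ K * Y = δ * (M : ℝ) ^ K * (c0 * (Y / l ^ K)) := by
          rw [hM, mul_pow]
          field_simp
      _ ≤ (nH : ℝ) * (c0 * (Y / l ^ K)) := mul_le_mul_of_nonneg_right h4 hq
  have e2 : C * (M : ℝ) ^ (K + 1) * (Y / l ^ (K + 1)) ≤ δ * c0 / 2 * ρ ^ K * Y := by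
    calc C * (M : ℝ) ^ (K + 1) * (Y / l ^ (K + 1)) = C * ρ * (ρ ^ K * Y) := by
          rw [hM, mul_pow]
          field_simp
          ring
      _ ≤ C * η * (ρ ^ K * Y) := by
          refine mul_le_mul_of_nonneg_right ?_ (by positivity)
          exact mul_le_mul_of_nonneg_left hρ2 hC.le
      _ ≤ δ * c0 / 2 * (ρ ^ K * Y) := mul_le_mul_of_nonneg_right h3 (by positivity)
      _ = δ * c0 / 2 * ρ ^ K * Y := by ring
  have e3 : (η / 2) ^ K ≤ ρ ^ K := pow_le_pow_left₀ (by positivity) hρ1 K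
  have e4 : (δ * c0 / 2) * (η / 2) ^ K * Y ≤ (δ * c0 / 2) * ρ ^ K * Y := by
    refine mul_le_mul_of_nonneg_right ?_ hY0
    exact mul_le_mul_of_nonneg_left e3 (by positivity)
  linarith

/-- the numbers `N` below the sieving limit -/
private theorem CoQ_small (Y : ℕ) (κ c' : ℝ) (hκ5 : κ ≤ 1 / 5) (hc' : 0 < c')
    (hY1 : (1 : ℝ) ≤ Y) (hYc : (2 / c') ^ 2 ≤ (Y : ℝ)) : (Y : ℝ) ^ κ ≤ c' / 2 * Y := by
  have h1 : (Y : ℝ) ^ κ ≤ √(Y : ℝ) := by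
    rw [Real.sqrt_eq_rpow]
    exact Real.rpow_le_rpow_of_exponent_le hY1 (by linarith)
  have h2 : 2 / c' ≤ √(Y : ℝ) := Real.le_sqrt_of_sq_le hYc
  have h3 : √(Y : ℝ) * √(Y : ℝ) = Y := Real.mul_self_sqrt (by linarith)
  have h4 : 1 ≤ c' / 2 * √(Y : ℝ) := by
    have := mul_le_mul_of_nonneg_left h2 (by positivity : 0 ≤ c' / 2)
    have e : c' / 2 * (2 / c') = 1 := by
      field_simp
    linarith
  have h5 : 0 ≤ √(Y : ℝ) := Real.sqrt_nonneg _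
  calc (Y : ℝ) ^ κ ≤ √(Y : ℝ) := h1
    _ = 1 * √(Y : ℝ) := (one_mul _).symm
    _ ≤ c' / 2 * √(Y : ℝ) * √(Y : ℝ) := mul_le_mul_of_nonneg_right h4 h5
    _ = c' / 2 * Y := by rw [mul_assoc, h3]

open Classical in
theorem tCoQ (h1 : UpUStmt) (h2 : SgUStmt) : CoQStmt := by
  intro K Q hK hLwQ
  obtain ⟨κ, c0, Y1, hκ, hκ5, hc0, hLw⟩ := hLwQ
  intro δ hδ
  obtain ⟨C2, Y2, hC2, hUp⟩ := h1 (K + 1) κ (by omega) hκ hκ5
  obtain ⟨C4, hC4, hSg⟩ := h2 (K + 1) (K + 1)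
  have hCC : 0 < C2 * C4 := mul_pos hC2 hC4
  refine ⟨min 1 (δ * c0 / (2 * (C2 * C4))), lt_min one_pos (by positivity), ?_⟩
  intro η hη hηle
  have hη1 : η ≤ 1 := hηle.trans (min_le_left _ _)
  have hη2 : C2 * C4 * η ≤ δ * c0 / 2 := by
    have h := hηle.trans (min_le_right _ _)
    rw [le_div_iff₀ (by positivity)] at h
    linarith
  obtain ⟨c', hc'e⟩ : ∃ c' : ℝ, c' = (δ * c0 / 2) * (η / 2) ^ K := ⟨_, rfl⟩
  have hc' : 0 < c' := by
    rw [hc'e]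
    positivity
  refine ⟨c' / 2, max (max Y1 Y2) (max (Real.exp (2 / η)) ((2 / c') ^ 2)), by positivity, ?_⟩
  intro Y M 𝓗 hY hM hH himg hcard
  have hY1 : Y1 ≤ (Y : ℝ) := (le_max_left _ _).trans ((le_max_left _ _).trans hY)
  have hY2 : Y2 ≤ (Y : ℝ) := (le_max_right _ _).trans ((le_max_left _ _).trans hY)
  have hYe : Real.exp (2 / η) ≤ (Y : ℝ) := (le_max_left _ _).trans ((le_max_right _ _).trans hY)
  have hYc : (2 / c') ^ 2 ≤ (Y : ℝ) := (le_max_right _ _).trans ((le_max_right _ _).trans hY)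
  have hY0 : (0 : ℝ) < (Y : ℝ) := lt_of_lt_of_le (Real.exp_pos _) hYe
  have hYone : (1 : ℝ) ≤ (Y : ℝ) := (Real.one_le_exp (by positivity)).trans hYe
  have hlog : 2 / η ≤ Real.log Y := (Real.le_log_iff_exp_le hY0).mpr hYe
  have hl0 : 0 < Real.log Y := lt_of_lt_of_le (by positivity) hlog
  have hlog2 : 2 ≤ η * Real.log Y := by
    rw [div_le_iff₀ hη] at hlog
    linarith
  have hMle : (M : ℝ) ≤ η * Real.log Y := by
    rw [hM]
    exact Nat.floor_le (by positivity)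
  have hMge : η / 2 * Real.log Y ≤ (M : ℝ) := by
    have := Nat.lt_floor_add_one (η * Real.log Y)
    rw [← hM] at this
    linarith
  have hMlog : (M : ℝ) ≤ Real.log Y := by
    have : η * Real.log Y ≤ 1 * Real.log Y := mul_le_mul_of_nonneg_right hη1 hl0.le
    linarith
  have hA : ∀ h ∈ 𝓗, c0 * (Y / Real.log Y ^ K) ≤ (((Icc 1 (2 * Y)).filter
      (CoQ_A (fun N t => Rgh ((Y : ℝ) ^ κ) (N + t)) (fun (h : Fin K → ℕ) N =>
        Q (univ.filter (fun j : Fin K => (N + h j).Prime))) h)).card : ℝ) := by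
    intro h hh
    obtain ⟨hi, hb⟩ := hH h hh
    have hl := hLw Y h hY1 hi (fun j => ⟨(hb j).1,
      (Nat.cast_le.mpr (hb j).2.1).trans hMlog, (hb j).2.2⟩)
    refine hl.trans ?_
    have hsub := Finset.card_le_card (s := (Icc 1 (2 * Y)).filter (fun N =>
      (∀ j, Rgh ((Y : ℝ) ^ κ) (N + h j)) ∧
        Q (univ.filter (fun j : Fin K => (N + h j).Prime))))
      (t := (Icc 1 (2 * Y)).filter
        (CoQ_A (fun N t => Rgh ((Y : ℝ) ^ κ) (N + t)) (fun (h : Fin K → ℕ) N =>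
          Q (univ.filter (fun j : Fin K => (N + h j).Prime))) h))
      (fun N hN => CoQ_mf.mpr (CoQ_mf.mp hN))
    exact_mod_cast hsub
  have hU : ∀ h' : Fin (K + 1) → ℕ, Function.Injective h' → (∀ j, 1 ≤ h' j ∧ h' j ≤ M) →
      (((Icc 1 (2 * Y)).filter
        (CoQ_V (fun N t => Rgh ((Y : ℝ) ^ κ) (N + t)) h')).card : ℝ) ≤
        C2 * (((Del h' : ℝ) / (Del h').totient) ^ (K + 1) * (Y / Real.log Y ^ (K + 1))) := by
    intro h' hi hb
    refine le_trans ?_ (hUp Y h' hY2 hi (fun j => ⟨(hb j).1,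
      (Nat.cast_le.mpr (hb j).2).trans hMlog⟩))
    have hsub := Finset.card_le_card (s := (Icc 1 (2 * Y)).filter
        (CoQ_V (fun N t => Rgh ((Y : ℝ) ^ κ) (N + t)) h'))
      (t := (Icc 1 (2 * Y)).filter (fun N => ∀ j, Rgh ((Y : ℝ) ^ κ) (N + h' j)))
      (fun N hN => CoQ_mf.mpr (CoQ_mf.mp hN))
    exact_mod_cast hsub
  have hS : ∑ h ∈ (Fintype.piFinset (fun _ : Fin (K + 1) => Icc 1 M)).filter
      (fun h => Function.Injective h),
        C2 * (((Del h : ℝ) / (Del h).totient) ^ (K + 1) * (Y / Real.log Y ^ (K + 1))) ≤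
      C2 * C4 * (M : ℝ) ^ (K + 1) * (Y / Real.log Y ^ (K + 1)) := by
    have hs := hSg M
    have hq : 0 ≤ C2 * (Y / Real.log Y ^ (K + 1)) := by positivity
    calc ∑ h ∈ (Fintype.piFinset (fun _ : Fin (K + 1) => Icc 1 M)).filter
          (fun h => Function.Injective h),
          C2 * (((Del h : ℝ) / (Del h).totient) ^ (K + 1) * (Y / Real.log Y ^ (K + 1)))
        = C2 * (Y / Real.log Y ^ (K + 1)) *
          ∑ h ∈ (Fintype.piFinset (fun _ : Fin (K + 1) => Icc 1 M)).filter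
          (fun h => Function.Injective h), ((Del h : ℝ) / (Del h).totient) ^ (K + 1) := by
          rw [Finset.mul_sum]
          refine Finset.sum_congr rfl (fun h _ => ?_)
          ring
      _ ≤ C2 * (Y / Real.log Y ^ (K + 1)) * (C4 * (M : ℝ) ^ (K + 1)) :=
          mul_le_mul_of_nonneg_left hs hq
      _ = C2 * C4 * (M : ℝ) ^ (K + 1) * (Y / Real.log Y ^ (K + 1)) := by ring
  have key := CoQ_count K M (2 * Y) (fun N t => Rgh ((Y : ℝ) ^ κ) (N + t))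
    (fun (h : Fin K → ℕ) N => Q (univ.filter (fun j : Fin K => (N + h j).Prime))) 𝓗
    (c0 * (Y / Real.log Y ^ K)) (C2 * C4 * (M : ℝ) ^ (K + 1) * (Y / Real.log Y ^ (K + 1)))
    (fun h' => C2 * (((Del h' : ℝ) / (Del h').totient) ^ (K + 1) * (Y / Real.log Y ^ (K + 1))))
    (fun h hh => ⟨(hH h hh).1, fun j => ⟨((hH h hh).2 j).1, ((hH h hh).2 j).2.1⟩⟩) himg hA hU hS
  have hnum := CoQ_num K M Y 𝓗.card δ c0 (C2 * C4) (Real.log Y) η hδ hc0 hCC hl0 hη hMge hMle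
    hη2 hcard
  rw [← hc'e] at hnum
  have hsm := CoQ_small Y κ c' hκ5 hc' hYone hYc
  have hz0 : 0 ≤ (Y : ℝ) ^ κ := Real.rpow_nonneg hY0.le _
  have hfin : (Icc 1 (2 * Y)).filter (fun N => ∃ h ∈ 𝓗, CoQ_G
      (fun N t => Rgh ((Y : ℝ) ^ κ) (N + t)) (fun (h : Fin K → ℕ) N =>
        Q (univ.filter (fun j : Fin K => (N + h j).Prime))) M h N) ⊆
      Icc 1 ⌊(Y : ℝ) ^ κ⌋₊ ∪ (Icc 1 (2 * Y)).filter (fun N => ∃ h ∈ 𝓗,
        Q (univ.filter (fun j => (N + h j).Prime)) ∧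
        ∀ t, 1 ≤ t → t ≤ M → (N + t).Prime → ∃ j, h j = t) := by
    intro N hN
    obtain ⟨hN1, h, hh, hP, -, hall⟩ := CoQ_mf.mp hN
    by_cases hz : (N : ℝ) ≤ (Y : ℝ) ^ κ
    · refine Finset.mem_union_left _ (Finset.mem_Icc.mpr ⟨(Finset.mem_Icc.mp hN1).1, ?_⟩)
      exact Nat.le_floor hz
    · refine Finset.mem_union_right _ (CoQ_mf.mpr ⟨hN1, h, hh, hP, ?_⟩)
      intro t ht1 ht2 htp
      refine hall t ht1 ht2 ?_
      intro p hp hdvd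
      have hpe : p = N + t := (Nat.prime_dvd_prime_iff_eq hp htp).mp hdvd
      rw [hpe]
      push_cast
      have : (0 : ℝ) ≤ (t : ℝ) := Nat.cast_nonneg _
      linarith [not_le.mp hz]
  have hcf := (Finset.card_le_card hfin).trans (Finset.card_union_le _ _)
  rw [Nat.card_Icc, Nat.add_sub_cancel] at hcf
  have hcf' : (((Icc 1 (2 * Y)).filter (fun N => ∃ h ∈ 𝓗, CoQ_G
      (fun N t => Rgh ((Y : ℝ) ^ κ) (N + t)) (fun (h : Fin K → ℕ) N =>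
        Q (univ.filter (fun j : Fin K => (N + h j).Prime))) M h N)).card : ℝ) ≤
      (⌊(Y : ℝ) ^ κ⌋₊ : ℝ) + (((Icc 1 (2 * Y)).filter (fun N => ∃ h ∈ 𝓗,
        Q (univ.filter (fun j => (N + h j).Prime)) ∧
        ∀ t, 1 ≤ t → t ≤ M → (N + t).Prime → ∃ j, h j = t)).card : ℝ) := by
    exact_mod_cast hcf
  have hfl : (⌊(Y : ℝ) ^ κ⌋₊ : ℝ) ≤ (Y : ℝ) ^ κ := Nat.floor_le hz0
  have hres : c' / 2 * Y ≤ (((Icc 1 (2 * Y)).filter (fun N => ∃ h ∈ 𝓗,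
        Q (univ.filter (fun j => (N + h j).Prime)) ∧
        ∀ t, 1 ≤ t → t ≤ M → (N + t).Prime → ∃ j, h j = t)).card : ℝ) := by
    linarith
  exact hres

end Pool.Agent.Lib.RU
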