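import Pool.Agent.Lib.RU.SpecW

/-!
Project SO, part W: module FrW, from windows to indices, four gaps (port of FrU.lean).
-/

set_option autoImplicit false

namespace Pool.Agent.Lib.RU

open Finset
open Pool.Agent.Lib.MP_9f2731_nt.GP Pool.Agent.Lib.MP_9f2731_nt.GP.Sv Pool.Agent.Lib.MP_9f2731_nt.QL
  Pool.Agent.Lib.MP_9f2731_nt.QL.Sw Pool.Agent.Lib.MP_9f2731_nt.CG Pool.Agent.Lib.MP_9f2731_nt.CG.Ma
  Pool.Agent.Lib.MP_9f2731_nt.CG.Mf Pool.Agent.Lib.BE

/-- Chebyshev's upper bound with the constant `2` -/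
private theorem FrW_cheb : ∃ x0 : ℝ, ∀ x : ℝ, x0 ≤ x →
    (Nat.primeCounting ⌊x⌋₊ : ℝ) ≤ 2 * x / Real.log x := by
  have h4 : Real.log 4 < 2 := by
    have h : Real.log 4 = 2 * Real.log 2 := by
      rw [show (4 : ℝ) = 2 ^ 2 by norm_num, Real.log_pow]
      norm_num
    rw [h]
    have := Real.log_two_lt_d9
    linarith
  obtain ⟨x0, hx0⟩ := Filter.eventually_atTop.mp
    (Chebyshev.eventually_primeCounting_le (ε := 2 - Real.log 4) (by linarith))
  refine ⟨x0, fun x hx => ?_⟩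
  have := hx0 x hx
  have e : Real.log 4 + (2 - Real.log 4) = 2 := by ring
  rwa [e] at this

/-- the numbers -/
private theorem FrW_num (x0 Y0 η ε : ℝ) (M0 : ℕ) (hη : 0 < η) (hη1 : η ≤ 1) (hηε : η ≤ ε / 2)
    (hx0 : ∀ x : ℝ, x0 ≤ x → (Nat.primeCounting ⌊x⌋₊ : ℝ) ≤ 2 * x / Real.log x) :
    ∃ N0 : ℕ, ∀ N : ℕ, N0 ≤ N → ∃ Y : ℕ, Y0 ≤ Y ∧ Nat.primeCounting (3 * Y) < N ∧
      0 < Real.log N ∧ (N : ℝ) * Real.log N / 16 ≤ Y ∧ M0 ≤ ⌊η * Real.log Y⌋₊ ∧
      (⌊η * Real.log Y⌋₊ : ℝ) ≤ 2 * η * Real.log N ∧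
      (⌊η * Real.log Y⌋₊ : ℝ) ≤ ε * Real.log N ∧ ⌊η * Real.log Y⌋₊ ≤ Y := by
  refine ⟨⌈max x0 (max Y0 (Real.exp (16 + (M0 + 1) / η)))⌉₊, fun N hN => ?_⟩
  have hN' : max x0 (max Y0 (Real.exp (16 + (M0 + 1) / η))) ≤ (N : ℝ) :=
    (Nat.le_ceil _).trans (by exact_mod_cast hN)
  have a1 : x0 ≤ N := (le_max_left _ _).trans hN'
  have a2 : Y0 ≤ N := ((le_max_left _ _).trans (le_max_right _ _)).trans hN'
  have a3 : Real.exp (16 + (M0 + 1) / η) ≤ N :=
    ((le_max_right _ _).trans (le_max_right _ _)).trans hN'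
  have hNpos : (0 : ℝ) < N := (Real.exp_pos _).trans_le a3
  have hL : 16 + ((M0 : ℝ) + 1) / η ≤ Real.log N := (Real.le_log_iff_exp_le hNpos).mpr a3
  have hq : 0 < ((M0 : ℝ) + 1) / η := by positivity
  have hN1 : (1 : ℝ) ≤ N := by
    have : 0 < N := by exact_mod_cast hNpos
    exact_mod_cast this
  set L : ℝ := Real.log N with hLdef
  have hL16 : 16 ≤ L := by linarith
  have hLN : L ≤ N := by
    have := Real.log_le_sub_one_of_pos hNpos
    linarith
  have hprod : 16 * (N : ℝ) ≤ N * L := by nlinarith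
  set Y : ℕ := ⌊(N : ℝ) * L / 8⌋₊ with hY
  have b1 : (Y : ℝ) ≤ N * L / 8 := Nat.floor_le (by positivity)
  have b2 : (N : ℝ) * L / 8 < Y + 1 := Nat.lt_floor_add_one _
  have b3 : (N : ℝ) ≤ Y := by linarith
  have hYpos : (0 : ℝ) < Y := hNpos.trans_le b3
  have b4 : (N : ℝ) * L / 16 ≤ Y := by linarith
  have b5 : (Y : ℝ) ≤ (N : ℝ) ^ 2 := by nlinarith
  have c1 : L ≤ Real.log Y := Real.log_le_log hNpos b3
  have c2 : Real.log Y ≤ 2 * L := by
    have := Real.log_le_log hYpos b5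
    rwa [Real.log_pow, Nat.cast_ofNat] at this
  have c3 : (⌊η * Real.log Y⌋₊ : ℝ) ≤ η * Real.log Y :=
    Nat.floor_le (mul_nonneg hη.le (by linarith))
  have c4 : (⌊η * Real.log Y⌋₊ : ℝ) ≤ 2 * η * L := by
    have := mul_le_mul_of_nonneg_left c2 hη.le
    linarith
  refine ⟨Y, a2.trans b3, ?_, by linarith, b4, ?_, c4, ?_, ?_⟩
  · have d1 := hx0 (3 * Y : ℝ) (a1.trans (by linarith))
    have d2 : ⌊(3 * Y : ℝ)⌋₊ = 3 * Y := by
      have : (3 * Y : ℝ) = ((3 * Y : ℕ) : ℝ) := by push_cast; ring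
      rw [this, Nat.floor_natCast]
    rw [d2] at d1
    have d3 : L ≤ Real.log (3 * Y : ℝ) := Real.log_le_log hNpos (by linarith)
    have d4 : 2 * (3 * Y : ℝ) / Real.log (3 * Y : ℝ) ≤ 2 * (3 * (N * L / 8)) / L := by
      apply div_le_div₀ _ _ (by linarith) d3
      · positivity
      · linarith
    have d5 : 2 * (3 * ((N : ℝ) * L / 8)) / L = 3 * N / 4 := by
      have : L ≠ 0 := by linarith
      field_simp
      ring
    have d6 : (Nat.primeCounting (3 * Y) : ℝ) < N := by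
      rw [d5] at d4
      linarith
    exact_mod_cast d6
  · apply Nat.le_floor
    have e1 : η * (((M0 : ℝ) + 1) / η) = M0 + 1 := by field_simp
    have e2 : η * (((M0 : ℝ) + 1) / η) ≤ η * Real.log Y :=
      mul_le_mul_of_nonneg_left (by linarith) hη.le
    linarith
  · have : 2 * η * L ≤ ε * L := mul_le_mul_of_nonneg_right (by linarith) (by linarith)
    linarith
  · have g1 : Real.log Y ≤ Y := by
      have := Real.log_le_sub_one_of_pos hYpos
      linarith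
    have g2 : (⌊η * Real.log Y⌋₊ : ℝ) ≤ Y := by
      have h0 : 0 ≤ Real.log Y := by linarith
      nlinarith
    exact_mod_cast g2

theorem tFrW (h1 : WiWStmt) : FrWStmt := by
  classical
  intro K Q v ρ C ε hK hε hCo hfam hQ
  obtain ⟨δ, M0, hδ, hfam⟩ := hfam
  obtain ⟨η0, hη0, hco⟩ := hCo δ hδ
  have hη : 0 < min η0 (min (ε / 2) 1) := lt_min hη0 (lt_min (by linarith) one_pos)
  obtain ⟨c, Y0, hc, hco⟩ := hco (min η0 (min (ε / 2) 1)) hη (min_le_left _ _)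
  have hηε : min η0 (min (ε / 2) 1) ≤ ε / 2 := (min_le_right _ _).trans (min_le_left _ _)
  have hη1 : min η0 (min (ε / 2) 1) ≤ 1 := (min_le_right _ _).trans (min_le_right _ _)
  set η : ℝ := min η0 (min (ε / 2) 1) with hηdef
  obtain ⟨x0, hx0⟩ := FrW_cheb
  obtain ⟨N0, hN0⟩ := FrW_num x0 Y0 η ε M0 hη hη1 hηε hx0
  refine ⟨c / (32 * η), by positivity, N0, fun N hN => ?_⟩
  obtain ⟨Y, hYY, hpi, hL, hYN, hM0, hM1, hM2, hMY⟩ := hN0 N hN
  set M : ℕ := ⌊η * Real.log Y⌋₊ with hM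
  obtain ⟨𝓗, hcard, hH⟩ := hfam M hM0
  have hW := hco Y M 𝓗 hYY hM (fun h hh => ⟨(hH h hh).1.injective, (hH h hh).2.1⟩) (by
    intro h hh h' hh' him
    have e : Set.range h = Set.range h' := by
      have := congrArg (fun s : Finset ℕ => (s : Set ℕ)) him
      simpa [Finset.coe_image] using this
    exact ((hH h hh).1.range_inj (hH h' hh').1).mp e) hcard
  set W := (Icc 1 (2 * Y)).filter (fun N => ∃ h ∈ 𝓗,
    Q (univ.filter (fun j => (N + h j).Prime)) ∧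
    ∀ t, 1 ≤ t → t ≤ M → (N + t).Prime → ∃ j, h j = t) with hWdef
  have key : ∀ N' ∈ W, ∃ n : ℕ, N' < Nat.nth Nat.Prime n ∧
      Nat.nth Nat.Prime n ≤ N' + M ∧ n ∈ ord4 N C ε v := by
    intro N' hN'
    rw [hWdef, Finset.mem_filter] at hN'
    obtain ⟨hr, h, hh, hcnt, hpr⟩ := hN'
    obtain ⟨s, hs, hrk⟩ := hQ _ hcnt
    obtain ⟨n, k1, k2, k3, k4⟩ := h1 K M N' h s (hH h hh).1
      (fun j => ⟨((hH h hh).2.1 j).1, ((hH h hh).2.1 j).2.1⟩) hpr hs
    refine ⟨n, k1, k2, ?_⟩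
    unfold ord4
    rw [Finset.mem_filter, Finset.mem_range]
    refine ⟨?_, ?_, ?_⟩
    · refine lt_of_lt_of_le ?_ hpi.le
      have e1 : Nat.nth Nat.Prime n < 3 * Y + 1 := by
        have := (Finset.mem_Icc.mp hr).2
        omega
      exact (Nat.lt_nth_iff_count_lt Nat.infinite_setOfPred_prime).2 e1
    · intro i j hij
      rw [k3 i, k3 j]
      exact (hH h hh).2.2 _ _ _ _ (hs.1 Fin.castSucc_lt_succ) (hs.1 Fin.castSucc_lt_succ)
        (hrk i j hij)
    · refine le_trans ?_ hM2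
      exact_mod_cast k4
  choose! f hf using key
  have hle : W.card ≤ M * (W.image f).card := by
    refine Finset.card_le_mul_card_image W M fun n _ => ?_
    have hsub : (W.filter fun x => f x = n) ⊆
        Finset.Ico (Nat.nth Nat.Prime n - M) (Nat.nth Nat.Prime n) := by
      intro x hx
      rw [Finset.mem_filter] at hx
      obtain ⟨k1, k2, -⟩ := hf x hx.1
      rw [hx.2] at k1 k2
      rw [Finset.mem_Ico]
      omega
    refine (Finset.card_le_card hsub).trans ?_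
    rw [Nat.card_Ico]
    omega
  have himg : W.image f ⊆ ord4 N C ε v := by
    intro n hn
    rw [Finset.mem_image] at hn
    obtain ⟨x, hx, rfl⟩ := hn
    exact (hf x hx).2.2
  have hfin : (W.card : ℝ) ≤ M * ((ord4 N C ε v).card : ℝ) := by
    have : W.card ≤ M * (ord4 N C ε v).card :=
      hle.trans (Nat.mul_le_mul_left _ (Finset.card_le_card himg))
    exact_mod_cast this
  have hR : (0 : ℝ) ≤ ((ord4 N C ε v).card : ℝ) := Nat.cast_nonneg _
  have f1 : c * ((N : ℝ) * Real.log N / 16) ≤ 2 * η * Real.log N * ((ord4 N C ε v).card : ℝ) :=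
    calc c * ((N : ℝ) * Real.log N / 16) ≤ c * Y := mul_le_mul_of_nonneg_left hYN hc.le
      _ ≤ W.card := hW
      _ ≤ M * ((ord4 N C ε v).card : ℝ) := hfin
      _ ≤ 2 * η * Real.log N * ((ord4 N C ε v).card : ℝ) := mul_le_mul_of_nonneg_right hM1 hR
  have f2 : Real.log N * (c * N / 16) ≤ Real.log N * (2 * η * ((ord4 N C ε v).card : ℝ)) := by
    linarith
  have f3 : c * N / 16 ≤ 2 * η * ((ord4 N C ε v).card : ℝ) := le_of_mul_le_mul_left f2 hL
  rw [div_mul_eq_mul_div, div_le_iff₀ (by positivity)]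
  linarith

end Pool.Agent.Lib.RU
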