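import Pool.Agent.Lib.RU.SpecQ

set_option autoImplicit false

namespace Pool.Agent.Lib.RU

open Finset

/-- the skeleton of the tuples -/
private def GeP_A (D : ℕ) (ρ : ℕ → ℕ) (j : ℕ) : ℕ := D + ∑ x ∈ range j, D ^ (ρ x + 1)

private theorem GeP_split (D : ℕ) (ρ : ℕ → ℕ) (i j : ℕ) (hij : i ≤ j) :
    GeP_A D ρ j = GeP_A D ρ i + ∑ x ∈ Ico i j, D ^ (ρ x + 1) := by
  unfold GeP_A
  rw [add_assoc]
  congr 1
  rw [Finset.range_eq_Ico, Finset.range_eq_Ico]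
  exact (Finset.sum_Ico_consecutive _ (Nat.zero_le i) hij).symm

private theorem GeP_low (D : ℕ) (ρ : ℕ → ℕ) (k l y : ℕ) (h1 : k ≤ y) (h2 : y < l) :
    D ^ (ρ y + 1) ≤ ∑ x ∈ Ico k l, D ^ (ρ x + 1) :=
  Finset.single_le_sum (f := fun x => D ^ (ρ x + 1)) (fun _ _ => Nat.zero_le _)
    (Finset.mem_Ico.2 ⟨h1, h2⟩)

private theorem GeP_up (D K : ℕ) (hD : 1 ≤ D) (ρ : ℕ → ℕ) (i j R : ℕ) (hj : j ≤ K)
    (h : ∀ x, i ≤ x → x < j → ρ x < R) : ∑ x ∈ Ico i j, D ^ (ρ x + 1) ≤ K * D ^ R := by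
  calc ∑ x ∈ Ico i j, D ^ (ρ x + 1) ≤ ∑ _x ∈ Ico i j, D ^ R := by
        apply Finset.sum_le_sum
        intro x hx
        rw [Finset.mem_Ico] at hx
        exact Nat.pow_le_pow_right hD (h x hx.1 hx.2)
    _ = (j - i) * D ^ R := by rw [Finset.sum_const, Nat.card_Ico, smul_eq_mul]
    _ ≤ K * D ^ R := Nat.mul_le_mul_right _ (by omega)

private theorem GeP_mono (D : ℕ) (hD : 2 ≤ D) (ρ : ℕ → ℕ) (i j : ℕ) (hij : i < j) :
    GeP_A D ρ i + 2 ≤ GeP_A D ρ j := by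
  rw [GeP_split D ρ i j hij.le]
  have h1 := GeP_low D ρ i j i le_rfl hij
  have h2 : D ^ 1 ≤ D ^ (ρ i + 1) := Nat.pow_le_pow_right (by omega) (by omega)
  rw [pow_one] at h2
  omega

private theorem GeP_le (D : ℕ) (hD : 2 ≤ D) (ρ : ℕ → ℕ) (i j : ℕ) (hij : i ≤ j) :
    GeP_A D ρ i ≤ GeP_A D ρ j := by
  rw [GeP_split D ρ i j hij]
  omega

private theorem GeP_main (c K T : ℕ) (ρ : ℕ → ℕ) (t : Fin K → ℕ) (ht : ∀ j, t j < T) (i j k l : Fin K)
    (hij : i < j) (hkl : k < l) (hr : Rk ρ i j k l) :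
    c * (T * GeP_A (c * (K + 1) + 3) ρ j + t j) + (T * GeP_A (c * (K + 1) + 3) ρ k + t k) <
      (T * GeP_A (c * (K + 1) + 3) ρ l + t l) + c * (T * GeP_A (c * (K + 1) + 3) ρ i + t i) := by
  obtain ⟨y, hy1, hy2, hy⟩ := hr
  have hij' : (i : ℕ) < j := hij
  have hkl' : (k : ℕ) < l := hkl
  rw [GeP_split _ ρ i j hij'.le, GeP_split _ ρ k l hkl'.le]
  have h1 := GeP_low (c * (K + 1) + 3) ρ k l y hy1 hy2
  have h2 := GeP_up (c * (K + 1) + 3) K (by omega) ρ i j (ρ y) (by have := j.2; omega) hy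
  obtain ⟨S1, hS1⟩ : ∃ S1, S1 = ∑ x ∈ Ico (i : ℕ) j, (c * (K + 1) + 3) ^ (ρ x + 1) := ⟨_, rfl⟩
  obtain ⟨S2, hS2⟩ : ∃ S2, S2 = ∑ x ∈ Ico (k : ℕ) l, (c * (K + 1) + 3) ^ (ρ x + 1) := ⟨_, rfl⟩
  rw [← hS2] at h1
  rw [← hS1] at h2
  rw [← hS1, ← hS2]
  rw [pow_succ] at h1
  obtain ⟨P, hP⟩ : ∃ P, P = (c * (K + 1) + 3) ^ (ρ y) := ⟨_, rfl⟩
  rw [← hP] at h1 h2
  have hP1 : 1 ≤ P := by rw [hP]; exact Nat.one_le_pow _ _ (by omega)
  have h3 := ht j
  have h4 := ht k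
  obtain ⟨a, ha⟩ : ∃ a, a = GeP_A (c * (K + 1) + 3) ρ i := ⟨_, rfl⟩
  obtain ⟨b, hb⟩ : ∃ b, b = GeP_A (c * (K + 1) + 3) ρ k := ⟨_, rfl⟩
  rw [← ha, ← hb]
  have h5 : c * t j ≤ c * T := Nat.mul_le_mul_left _ h3.le
  have h6 : c * (T * S1) ≤ c * (T * (K * P)) :=
    Nat.mul_le_mul_left _ (Nat.mul_le_mul_left _ h2)
  have h7 : T * (P * (c * (K + 1) + 3)) ≤ T * S2 := Nat.mul_le_mul_left _ h1
  have h8 : T ≤ T * P := Nat.le_mul_of_pos_right T hP1
  have h9 : c * T ≤ c * (T * P) := Nat.mul_le_mul_left _ h8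
  have h10 : T * (P * (c * (K + 1) + 3)) = c * (T * (K * P)) + c * (T * P) + 3 * (T * P) := by ring
  have e1 : c * (T * (a + S1) + t j) = c * (T * a) + c * (T * S1) + c * t j := by ring
  have e2 : T * (b + S2) = T * b + T * S2 := by ring
  have e3 : c * (T * a + t i) = c * (T * a) + c * t i := by ring
  rw [e1, e2, e3]
  omega

private theorem GeP_half (M q : ℕ) (hq : 0 < q) (hM : q ≤ M) :
    (M : ℝ) / (2 * q) ≤ ((M / q : ℕ) : ℝ) := by
  have h1 : 1 ≤ M / q := (Nat.one_le_div_iff hq).2 hM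
  have h2 : M < q * (M / q + 1) := Nat.lt_mul_div_succ M hq
  have h3 : M ≤ 2 * q * (M / q) := by nlinarith
  have hq' : (0 : ℝ) < 2 * q := by positivity
  rw [div_le_iff₀ hq']
  have h4 : (M : ℝ) ≤ 2 * q * ((M / q : ℕ) : ℝ) := by exact_mod_cast h3
  linarith

theorem tGeP : GePStmt := by
  intro K C ρ hK
  obtain ⟨c, hc⟩ : ∃ c : ℕ, |C| ≤ c := exists_nat_ge _
  obtain ⟨F, hF⟩ : ∃ F, F = K.factorial := ⟨_, rfl⟩
  have hF1 : 0 < F := by rw [hF]; exact Nat.factorial_pos K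
  obtain ⟨D, hD⟩ : ∃ D, D = c * (K + 1) + 3 := ⟨_, rfl⟩
  have hD2 : 2 ≤ D := by omega
  obtain ⟨q, hq⟩ : ∃ q, q = F * (GeP_A D ρ K + 1) := ⟨_, rfl⟩
  have hq1 : 0 < q := by rw [hq]; positivity
  refine ⟨(1 / (2 * q)) ^ K, q, by positivity, fun M hM => ?_⟩
  obtain ⟨T, hT⟩ : ∃ T, T = M / q := ⟨_, rfl⟩
  have hT1 : 1 ≤ T := by rw [hT]; exact (Nat.one_le_div_iff hq1).2 hM
  have hqT : q * T ≤ M := by rw [hT]; exact Nat.mul_div_le M q
  have hcard : ((1 : ℝ) / (2 * q)) ^ K * (M : ℝ) ^ K ≤ (T : ℝ) ^ K := by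
    rw [← mul_pow]
    apply pow_le_pow_left₀ (by positivity)
    have := GeP_half M q hq1 hM
    rw [← hT] at this
    calc (1 : ℝ) / (2 * q) * M = M / (2 * q) := by ring
      _ ≤ T := this
  obtain ⟨S, hS⟩ : ∃ S : Finset (Fin K → ℕ), S = Fintype.piFinset (fun _ : Fin K => range T) :=
    ⟨_, rfl⟩
  have hSm : ∀ t ∈ S, ∀ j, t j < T := by
    intro t ht j
    rw [hS, Fintype.mem_piFinset] at ht
    exact Finset.mem_range.1 (ht j)
  have hSc : (S.card : ℝ) = (T : ℝ) ^ K := by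
    rw [hS, Fintype.card_piFinset_const, card_range]
    push_cast
    rfl
  obtain ⟨H, hH⟩ : ∃ H : (Fin K → ℕ) → (Fin K → ℕ), H = fun (t : Fin K → ℕ) (j : Fin K) =>
    F * (T * GeP_A D ρ j + t j) := ⟨_, rfl⟩
  have hv : ∀ t j, H t j = F * (T * GeP_A D ρ j + t j) := by intro t j; rw [hH]
  refine ⟨S.image H, ?_, ?_⟩
  · rw [Finset.card_image_of_injOn, hSc]
    · exact hcard
    · intro t ht t' ht' htt
      funext j
      have h1 := congrFun htt j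
      rw [hv, hv] at h1
      have h3 := Nat.eq_of_mul_eq_mul_left hF1 h1
      omega
  · intro h hh
    rw [Finset.mem_image] at hh
    obtain ⟨t, ht, rfl⟩ := hh
    have htT := hSm t ht
    have hmono : StrictMono (H t) := by
      intro i j hij
      rw [hv, hv]
      apply Nat.mul_lt_mul_of_pos_left _ hF1
      have h1 := GeP_mono D hD2 ρ i j hij
      have h2 := htT i
      have h3 : T * (GeP_A D ρ i + 2) ≤ T * GeP_A D ρ j := Nat.mul_le_mul_left _ h1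
      have h4 : T * (GeP_A D ρ i + 2) = T * GeP_A D ρ i + 2 * T := by ring
      omega
    refine ⟨hmono, ?_, ?_⟩
    · intro j
      rw [hv]
      have h1 : GeP_A D ρ j ≤ GeP_A D ρ K := GeP_le D hD2 ρ j K (by have := j.2; omega)
      have h2 : T * GeP_A D ρ j ≤ T * GeP_A D ρ K := Nat.mul_le_mul_left _ h1
      have h3 := htT j
      have h4 : 2 ≤ GeP_A D ρ j := by unfold GeP_A; omega
      have h5 : T * 2 ≤ T * GeP_A D ρ j := Nat.mul_le_mul_left _ h4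
      refine ⟨?_, ?_, ?_⟩
      · apply Nat.succ_le_of_lt
        apply Nat.mul_pos hF1
        omega
      · calc F * (T * GeP_A D ρ j + t j) ≤ F * (T * (GeP_A D ρ K + 1)) := by
              apply Nat.mul_le_mul_left
              have h6 : T * (GeP_A D ρ K + 1) = T * GeP_A D ρ K + T := by ring
              omega
          _ = q * T := by rw [hq]; ring
          _ ≤ M := hqT
      · rw [← hF]
        exact dvd_mul_right _ _
    · intro i j k l hij hkl hr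
      have h1 := GeP_main c K T ρ t htT i j k l hij hkl hr
      rw [← hD] at h1
      have h2 := Nat.mul_lt_mul_of_pos_left h1 hF1
      have h3 : c * H t j + H t k < H t l + c * H t i := by
        rw [hv, hv, hv, hv]
        calc c * (F * (T * GeP_A D ρ j + t j)) + F * (T * GeP_A D ρ k + t k)
            = F * (c * (T * GeP_A D ρ j + t j) + (T * GeP_A D ρ k + t k)) := by ring
          _ < F * ((T * GeP_A D ρ l + t l) + c * (T * GeP_A D ρ i + t i)) := h2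
          _ = _ := by ring
      have h4 : (c : ℝ) * H t j + H t k < H t l + c * H t i := by exact_mod_cast h3
      have h5 : (H t i : ℝ) < H t j := by exact_mod_cast hmono hij
      have h6 : C * ((H t j : ℝ) - H t i) ≤ c * ((H t j : ℝ) - H t i) :=
        mul_le_mul_of_nonneg_right (le_trans (le_abs_self C) hc) (by linarith)
      linarith

end Pool.Agent.Lib.RU
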