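import Pool.Agent.Lib.RU.SpecQ

/-!
# RU, module LwQ: many windows with a condition on the places of the primes
-/

set_option autoImplicit false

namespace Pool.Agent.Lib.RU

open Finset
open Pool.Agent.Lib.MP_9f2731_nt.GP Pool.Agent.Lib.MP_9f2731_nt.GP.Sv Pool.Agent.Lib.MP_9f2731_nt.QL
  Pool.Agent.Lib.MP_9f2731_nt.QL.Sw Pool.Agent.Lib.MP_9f2731_nt.CG Pool.Agent.Lib.MP_9f2731_nt.CG.Ma
  Pool.Agent.Lib.MP_9f2731_nt.CG.Mf Pool.Agent.Lib.BE

/-- the facts about X = Y / V -/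
private theorem LwQ_X (Y V : ℕ) (hV : 2 ≤ V) (h8 : 8 * V ^ 3 ≤ Y) :
    Y ≤ (Y / V) ^ 2 ∧ Y / V ≤ Y ∧ 2 * V ≤ Y / V ∧ V * (Y / V) ≤ Y ∧ Y ≤ 2 * (V * (Y / V)) ∧
      V ≤ Y := by
  have hV0 : 0 < V := by omega
  have hV3 : 2 * V * V ≤ 8 * V ^ 3 := by
    have h : V ^ 2 ≤ V ^ 3 := Nat.pow_le_pow_right hV0 (by norm_num)
    nlinarith
  have h1 : 2 * V ≤ Y / V := by
    rw [Nat.le_div_iff_mul_le hV0]
    exact hV3.trans h8
  have h2 : V * (Y / V) ≤ Y := Nat.mul_div_le Y V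
  have h3 : Y < V * (Y / V + 1) := Nat.lt_mul_div_succ Y hV0
  have h4 : Y / V ≤ Y := Nat.div_le_self Y V
  generalize Y / V = X at *
  refine ⟨?_, h4, h1, h2, ?_, by omega⟩
  · nlinarith
  · nlinarith

/-- the numerical inequality -/
private theorem LwQ_num (c1 c0 L M v f x y n s : ℝ) (K : ℕ) (hc1 : 0 < c1) (hc0 : 0 < c0)
    (hL : 0 < L) (hLM : L ≤ M) (hv : 0 < v) (hf : 0 < f) (hx : 0 < x) (hy : 0 ≤ y)
    (hyx : y ≤ 2 * (v * x)) (hn : c1 * (v * (f / v) ^ K) ≤ n)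
    (hs : n * (c0 * (v / f / L) ^ K * x) ≤ s) : c1 * c0 / 2 * (y / M ^ K) ≤ s := by
  refine le_trans ?_ hs
  have h1 : c1 * (v * (f / v) ^ K) * (c0 * (v / f / L) ^ K * x) ≤
      n * (c0 * (v / f / L) ^ K * x) :=
    mul_le_mul_of_nonneg_right hn (by positivity)
  refine le_trans ?_ h1
  have h2 : c1 * (v * (f / v) ^ K) * (c0 * (v / f / L) ^ K * x) =
      c1 * c0 * ((v * x) / L ^ K) := by
    have h3 : (f / v) ^ K * (v / f / L) ^ K = 1 / L ^ K := by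
      rw [← mul_pow]
      have h4 : f / v * (v / f / L) = 1 / L := by
        field_simp
      rw [h4, div_pow, one_pow]
    calc c1 * (v * (f / v) ^ K) * (c0 * (v / f / L) ^ K * x)
        = c1 * c0 * (v * x) * ((f / v) ^ K * (v / f / L) ^ K) := by ring
      _ = c1 * c0 * ((v * x) / L ^ K) := by rw [h3]; ring
  rw [h2]
  have h5 : y / M ^ K ≤ y / L ^ K := by
    apply div_le_div_of_nonneg_left hy (by positivity)
    exact pow_le_pow_left₀ hL.le hLM K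
  have h6 : y / L ^ K ≤ 2 * ((v * x) / L ^ K) := by
    have h7 : y / L ^ K ≤ (2 * (v * x)) / L ^ K :=
      div_le_div_of_nonneg_right hyx (by positivity)
    calc y / L ^ K ≤ (2 * (v * x)) / L ^ K := h7
      _ = 2 * ((v * x) / L ^ K) := by ring
  have h8 : y / M ^ K ≤ 2 * ((v * x) / L ^ K) := h5.trans h6
  have h9 : 0 < c1 * c0 / 2 := by positivity
  calc c1 * c0 / 2 * (y / M ^ K) ≤ c1 * c0 / 2 * (2 * ((v * x) / L ^ K)) :=
        mul_le_mul_of_nonneg_left h8 h9.le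
    _ = c1 * c0 * ((v * x) / L ^ K) := by ring

/-- the comparison of the levels of roughness -/
private theorem LwQ_rpow (X Y : ℕ) (κ κ' : ℝ) (hX : 1 ≤ X) (hYX : Y ≤ X ^ 2) (hκ : 0 < κ)
    (hκ' : 2 * κ ≤ κ') : (Y : ℝ) ^ κ ≤ (X : ℝ) ^ κ' := by
  have hX1 : (1 : ℝ) ≤ (X : ℝ) := by exact_mod_cast hX
  have h1 : (Y : ℝ) ≤ (X : ℝ) ^ (2 : ℝ) := by
    rw [Real.rpow_two]
    exact_mod_cast hYX
  calc (Y : ℝ) ^ κ ≤ ((X : ℝ) ^ (2 : ℝ)) ^ κ :=
        Real.rpow_le_rpow (Nat.cast_nonneg _) h1 hκ.le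
    _ = (X : ℝ) ^ (2 * κ) := by rw [← Real.rpow_mul (by linarith)]
    _ ≤ (X : ℝ) ^ κ' := Real.rpow_le_rpow_of_exponent_le hX1 hκ'

theorem tLwQ (h1 : BfUStmt) (h2 : VhUStmt) (h3 : AlUStmt) : LwQStmt := by
  classical
  rintro K Q hK ⟨κ', c0, w1, X1, hκ', hc0, hMk⟩
  obtain ⟨ε1, hε1, hBf⟩ := h1
  obtain ⟨Y1, hY1⟩ := hBf w1
  obtain ⟨Y2, hY2⟩ := h2 K ε1 hε1
  obtain ⟨c1, hc1, hAl⟩ := h3 K hK
  refine ⟨min (κ' / 2) (1 / 5), c1 * c0 / 2, max (max Y1 Y2) (X1 ^ 2), ?_, min_le_right _ _,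
    by positivity, ?_⟩
  · exact lt_min (by linarith) (by norm_num)
  intro Y h hY hinj hh
  have hYY1 : Y1 ≤ Y := le_trans (le_trans (le_max_left _ _) (le_max_left _ _)) hY
  have hYY2 : Y2 ≤ Y := le_trans (le_trans (le_max_right _ _) (le_max_left _ _)) hY
  have hYX1 : X1 ^ 2 ≤ Y := le_trans (le_max_right _ _) hY
  obtain ⟨p0, hp0, hwp0, hBv⟩ := hY1 Y hYY1
  obtain ⟨hV2, hVsq, hpV, hhV, -, hV8, hSt⟩ := hY2 Y p0 h hYY2 hp0 hinj
    (fun j => ⟨(hh j).1, (hh j).2.1⟩)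
  have hAlV := hAl (Vh (wx Y) p0 h) h hVsq (fun j => (hh j).2.2)
  generalize hVdef : Vh (wx Y) p0 h = V at *
  obtain ⟨hYX2, hXY, hVX, hVXY, hY2VX, hVY⟩ := LwQ_X Y V hV2 hV8
  generalize hXdef : Y / V = X at *
  obtain ⟨hlogV, hStX⟩ := hSt X hYX2 hXY
  have hX4 : 4 ≤ X := by omega
  have hX1X : X1 ≤ X := by
    by_contra hcon
    push Not at hcon
    have h5 : (X : ℝ) ^ 2 < X1 ^ 2 := pow_lt_pow_left₀ hcon (Nat.cast_nonneg _) (by norm_num)
    have h6 : (Y : ℝ) ≤ (X : ℝ) ^ 2 := by exact_mod_cast hYX2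
    linarith
  set 𝒱 : Finset ℕ := (range V).filter (fun ν => ∀ j, (ν + h j).Coprime V) with h𝒱
  set F : ℕ → Finset ℕ := fun ν => (Icc 1 X).filter
    (fun b => (∀ j, Rgh ((X : ℝ) ^ κ') (V * b + (ν + h j))) ∧
      Q (univ.filter (fun j : Fin K => (V * b + (ν + h j)).Prime))) with hF
  have hmk : ∀ ν ∈ 𝒱, c0 * (((V : ℝ) / V.totient) / Real.log X) ^ K * X ≤ ((F ν).card : ℝ) := by
    intro ν hν
    rw [h𝒱, Finset.mem_filter, Finset.mem_range] at hν
    obtain ⟨hνV, hνc⟩ := hν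
    exact hMk X (wx Y) V p0 (fun _ => V) (fun j => ν + h j) hX1X hwp0 (hStX ν)
      (fun l => hBv X hYX2 hXY V (ν + h l) (by omega) hpV hlogV
        (by have := (hh l).1; omega) (by have := hhV l; omega) (hνc l))
      (fun l => ⟨hνc l, hpV⟩)
      (fun j => ⟨by omega, by have := (hh j).1; show 1 ≤ ν + h j; omega,
        by have := hhV j; show ν + h j ≤ X; omega⟩)
  have hsum : (𝒱.card : ℝ) * (c0 * (((V : ℝ) / V.totient) / Real.log X) ^ K * X) ≤
      ((𝒱.sigma F).card : ℝ) := by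
    rw [Finset.card_sigma, ← nsmul_eq_mul]
    push_cast
    exact Finset.card_nsmul_le_sum _ _ _ hmk
  have hinj' : (𝒱.sigma F).card ≤ ((Icc 1 (2 * Y)).filter
      (fun N => (∀ j, Rgh ((Y : ℝ) ^ (min (κ' / 2) (1 / 5))) (N + h j)) ∧
        Q (univ.filter (fun j : Fin K => (N + h j).Prime)))).card := by
    refine Finset.card_le_card_of_injOn (fun x => V * x.2 + x.1) ?_ ?_
    · rintro ⟨ν, b⟩ hx
      rw [Finset.mem_coe, Finset.mem_sigma] at hx
      obtain ⟨hν, hb⟩ := hx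
      simp only [h𝒱, hF, Finset.mem_filter, Finset.mem_range, Finset.mem_Icc] at hν hb
      obtain ⟨hνV, -⟩ := hν
      obtain ⟨⟨hb1, hbX⟩, hbR, hbP⟩ := hb
      rw [Finset.mem_coe, Finset.mem_filter, Finset.mem_Icc]
      have h7 : V * b ≤ V * X := Nat.mul_le_mul_left V hbX
      have h8 : V * 1 ≤ V * b := Nat.mul_le_mul_left V hb1
      refine ⟨⟨?_, ?_⟩, ?_, ?_⟩
      · show 1 ≤ V * b + ν
        omega
      · show V * b + ν ≤ 2 * Y
        omega
      · intro j p hp hd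
        have h9 : V * b + ν + h j = V * b + (ν + h j) := by ring
        have h10 := hbR j p hp (by rw [← h9]; exact hd)
        refine lt_of_le_of_lt ?_ h10
        refine LwQ_rpow X Y _ κ' (by omega) hYX2 (lt_min (by linarith) (by norm_num)) ?_
        have := min_le_left (κ' / 2) (1 / 5 : ℝ)
        linarith
      · have h9 : ∀ j, V * b + ν + h j = V * b + (ν + h j) := fun j => by ring
        show Q (univ.filter (fun j : Fin K => (V * b + ν + h j).Prime))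
        simp only [h9]
        exact hbP
    · rintro ⟨ν, b⟩ hx ⟨ν', b'⟩ hx' heq
      rw [Finset.mem_coe, Finset.mem_sigma] at hx hx'
      have hν := (Finset.mem_range.1 (Finset.mem_filter.1 hx.1).1)
      have hν' := (Finset.mem_range.1 (Finset.mem_filter.1 hx'.1).1)
      simp only at hν hν' heq
      have hV0 : 0 < V := by omega
      have h11 : b = b' := by
        have h12 : (V * b + ν) / V = (V * b' + ν') / V := by rw [heq]
        rw [Nat.mul_add_div hV0, Nat.mul_add_div hV0, Nat.div_eq_of_lt hν,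
          Nat.div_eq_of_lt hν'] at h12
        omega
      subst h11
      have h13 : ν = ν' := by omega
      subst h13
      rfl
  have hXR : (1 : ℝ) < (X : ℝ) := by
    have : 1 < X := by omega
    exact_mod_cast this
  have hYR : (X : ℝ) ≤ (Y : ℝ) := by exact_mod_cast hXY
  refine LwQ_num c1 c0 (Real.log X) (Real.log Y) V V.totient X Y 𝒱.card _ K hc1 hc0
    (Real.log_pos hXR) (Real.log_le_log (by linarith) hYR) ?_ ?_ (by linarith)
    (Nat.cast_nonneg _) ?_ hAlV (hsum.trans ?_)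
  · have : 0 < V := by omega
    exact_mod_cast this
  · exact_mod_cast Nat.totient_pos.2 (by omega)
  · exact_mod_cast hY2VX
  · exact_mod_cast hinj'

end Pool.Agent.Lib.RU
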