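import Pool.Agent.Lib.RU.SpecW

/-!
PROJECT SO, module PbB: the order 4123 of four consecutive gaps.
-/

set_option autoImplicit false

namespace Pool.Agent.Lib.RU

open Finset

private def PbB_rho (K W : ℕ) (x : ℕ) : ℕ := if x % W = W - 1 then K + x / W else x % W

private theorem PbB_rho_in {K W q x : ℕ} (h1 : W * q ≤ x) (h2 : x + 1 < W * (q + 1)) :
    PbB_rho K W x = x - W * q := by
  have h3 : W * (q + 1) = W * q + W := by ring
  obtain ⟨r, hr⟩ : ∃ r, x = W * q + r := ⟨x - W * q, by omega⟩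
  have h4 : r + 1 < W := by omega
  have h5 : x % W = r := by
    rw [hr, Nat.mul_add_mod]
    exact Nat.mod_eq_of_lt (by omega)
  unfold PbB_rho
  rw [h5, if_neg (by omega)]
  omega

private theorem PbB_rho_end {K W q : ℕ} (hW : 1 ≤ W) (hq : 1 ≤ q) :
    K ≤ PbB_rho K W (W * q - 1) := by
  obtain ⟨p, rfl⟩ : ∃ p, q = p + 1 := ⟨q - 1, by omega⟩
  have h1 : W * (p + 1) - 1 = W * p + (W - 1) := by
    have : W * (p + 1) = W * p + W := by ring
    omega
  have h2 : (W * (p + 1) - 1) % W = W - 1 := by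
    rw [h1, Nat.mul_add_mod]
    exact Nat.mod_eq_of_lt (by omega)
  unfold PbB_rho
  rw [if_pos h2]
  exact Nat.le_add_right _ _

theorem tPbB (h1 : WnGStmt) : PbBStmt := by
  intro K W G hW hK
  refine ⟨PbB_rho K W, ?_⟩
  intro q1 q2 S hq2 hR
  obtain ⟨z', z, y0, y1, y2, y3, a1, a2, a3, a4, a5, b1, b2, b3, b4, b5, b6, hc, c1, c2, c3⟩ :=
    h1 K W q1 q2 S hR
  have hq : 1 ≤ q2 := by
    have := hR.1
    omega
  have hKW : W ≤ K := by
    rw [hK]
    exact Nat.le_mul_of_pos_right _ (by omega)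
  have e2 : (z : ℕ) < y0 := a2
  have e3 : (y0 : ℕ) < y1 := a3
  have e4 : (y1 : ℕ) < y2 := a4
  have e5 : (y2 : ℕ) < y3 := a5
  have hin : ∀ x : ℕ, (y0 : ℕ) ≤ x → x < y3 → PbB_rho K W x = x - W * q2 := fun x hx hx' =>
    PbB_rho_in (by omega) (by omega)
  have hend := PbB_rho_end (K := K) hW hq
  have h33 : W * (q2 + 1) = W * q2 + W := by ring
  have hbig : ∀ i j : ℕ, (y0 : ℕ) ≤ i → j ≤ (y3 : ℕ) → Rk (PbB_rho K W) i j z y0 := by
    intro i j hi hj
    refine ⟨W * q2 - 1, by omega, by omega, ?_⟩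
    intro x hx hx'
    rw [hin x (by omega) (by omega)]
    omega
  have hsm : ∀ i j k l : ℕ, (y0 : ℕ) ≤ i → j ≤ k → k < l → l ≤ (y3 : ℕ) →
      Rk (PbB_rho K W) i j k l := by
    intro i j k l hi hjk hkl hl
    refine ⟨l - 1, by omega, by omega, ?_⟩
    intro x hx hx'
    rw [hin x (by omega) (by omega), hin (l - 1) (by omega) (by omega)]
    omega
  refine ⟨![z, y0, y1, y2, y3], ⟨?_, ?_, ?_⟩, ?_⟩
  · rw [Fin.strictMono_iff_lt_succ]
    intro i
    fin_cases i
    · exact a2
    · exact a3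
    · exact a4
    · exact a5
  · intro i
    fin_cases i
    · exact b2
    · exact b3
    · exact b4
    · exact b5
    · exact b6
  · intro x hx h2 h3
    have h2' : z < x := h2
    have h3' : x < y3 := h3
    rcases hc x hx (a1.trans h2') h3' with h | h | h | h
    · exact absurd h h2'.ne'
    · exact Or.inl h
    · exact Or.inr (Or.inl h)
    · exact Or.inr (Or.inr h)
  · have k10 : Rk (PbB_rho K W) y0 y1 z y0 := hbig _ _ (by omega) (by omega)
    have k20 : Rk (PbB_rho K W) y1 y2 z y0 := hbig _ _ (by omega) (by omega)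
    have k30 : Rk (PbB_rho K W) y2 y3 z y0 := hbig _ _ (by omega) (by omega)
    have k12 : Rk (PbB_rho K W) y0 y1 y1 y2 :=
      hsm _ _ _ _ (by omega) (by omega) (by omega) (by omega)
    have k13 : Rk (PbB_rho K W) y0 y1 y2 y3 :=
      hsm _ _ _ _ (by omega) (by omega) (by omega) (by omega)
    have k23 : Rk (PbB_rho K W) y1 y2 y2 y3 :=
      hsm _ _ _ _ (by omega) (by omega) (by omega) (by omega)
    intro i j hij
    fin_cases i <;> fin_cases j <;>
      first
        | exact absurd hij (by decide)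
        | exact k10
        | exact k20
        | exact k30
        | exact k12
        | exact k13
        | exact k23

end Pool.Agent.Lib.RU
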