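import Pool.Agent.Lib.RU.SpecW

/-!
PROJECT SO, part W, module PbC: the orders 1243 and 2143 are forced.
-/

set_option autoImplicit false

namespace Pool.Agent.Lib.RU

open Finset

private theorem PbC_div {W q x : ℕ} (h1 : W * q ≤ x) (h2 : x < W * (q + 1)) : x / W = q := by
  have hW : 0 < W := by
    rcases Nat.eq_zero_or_pos W with h | h
    · subst h
      omega
    · exact h
  apply le_antisymm
  · have h3 : x / W < q + 1 := by
      rw [Nat.div_lt_iff_lt_mul hW]
      linarith [mul_comm W (q + 1)]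
    omega
  · rw [Nat.le_div_iff_mul_le hW]
    linarith [mul_comm W q]

private theorem PbC_cons {K : ℕ} {S : Finset (Fin K)} {c a' a b b' b'' : Fin K} (l0 : c < a')
    (l1 : a' < a) (l2 : a < b) (l3 : b < b') (l4 : b' < b'') (m1 : a' ∈ S) (m2 : a ∈ S)
    (m3 : b ∈ S) (m4 : b' ∈ S) (m5 : b'' ∈ S)
    (hc : ∀ x ∈ S, c < x → x < b'' → x = a' ∨ x = a ∨ x = b ∨ x = b') :
    Cons5 S ![a', a, b, b', b''] := by
  refine ⟨?_, ?_, ?_⟩
  · rw [Fin.strictMono_iff_lt_succ]
    intro i
    fin_cases i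
    · exact l1
    · exact l2
    · exact l3
    · exact l4
  · intro i
    fin_cases i
    · exact m1
    · exact m2
    · exact m3
    · exact m4
    · exact m5
  · intro x hx hx1 hx2
    have hx1' : a' < x := hx1
    have hx2' : x < b'' := hx2
    rcases hc x hx (lt_trans l0 hx1') hx2' with h | h | h | h
    · exact absurd h (ne_of_gt hx1')
    · left
      exact h
    · right
      left
      exact h
    · right
      right
      exact h

theorem tPbC (h1 : WnMStmt) : PbCStmt := by
  constructor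
  · -- 1243
    intro K W G hW hK
    obtain ⟨ρ, hρ⟩ : ∃ ρ : ℕ → ℕ, ∀ x, ρ x = if x % W = W - 1 then K + G - x / W else x :=
      ⟨_, fun _ => rfl⟩
    refine ⟨ρ, ?_⟩
    intro q1 q2 S hq2 hR
    obtain ⟨c, a', a, b, b', b'', l0, l1, l2, l3, l4, m0, m1, m2, m3, m4, m5, hc, e1, e2, e3⟩ :=
      h1 K W q1 q2 S hR
    have hq1 : q1 < q2 := hR.1
    have l0' : (c : ℕ) < a' := l0
    have l1' : (a' : ℕ) < a := l1
    have l2' : (a : ℕ) < b := l2
    have l3' : (b : ℕ) < b' := l3
    have l4' : (b' : ℕ) < b'' := l4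
    have hb'' : (b'' : ℕ) < K := b''.2
    have hmul : W * (q1 + 1) = W * q1 + W := by ring
    have A1 : ∀ x : ℕ, (a' : ℕ) ≤ x → x < b → ρ x = x := by
      intro x hx1 hx2
      have hd : x / W = q1 := PbC_div (by omega) (by omega)
      have hm : x % W ≠ W - 1 := by
        intro hm
        have h3 := Nat.div_add_mod x W
        rw [hd, hm] at h3
        omega
      rw [hρ, if_neg hm]
    have A2 : ρ (W * q1 + (W - 1)) = K + G - q1 := by
      have hm : (W * q1 + (W - 1)) % W = W - 1 := by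
        rw [Nat.mul_add_mod]
        exact Nat.mod_eq_of_lt (by omega)
      have hd : (W * q1 + (W - 1)) / W = q1 := PbC_div (by omega) (by omega)
      rw [hρ, if_pos hm, hd]
    have A3 : ∀ x : ℕ, (b' : ℕ) ≤ x → x < b'' → ρ x < K + G - q1 ∧ (b : ℕ) ≤ ρ x := by
      intro x hx1 hx2
      have h3 : q1 + 1 ≤ x / W := by
        rw [Nat.le_div_iff_mul_le (by omega)]
        linarith [mul_comm W (q1 + 1)]
      have h4 : x / W < G := by
        rw [Nat.div_lt_iff_lt_mul (by omega)]
        linarith [mul_comm W G]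
      rw [hρ]
      split_ifs
      · omega
      · omega
    have R01 : Rk ρ (a' : ℕ) (a : ℕ) (a : ℕ) (b : ℕ) := by
      refine ⟨(b : ℕ) - 1, by omega, by omega, fun x hx1 hx2 => ?_⟩
      rw [A1 x hx1 (by omega), A1 ((b : ℕ) - 1) (by omega) (by omega)]
      omega
    have R02 : Rk ρ (a' : ℕ) (a : ℕ) (b : ℕ) (b' : ℕ) := by
      refine ⟨W * q1 + (W - 1), by omega, by omega, fun x hx1 hx2 => ?_⟩
      rw [A1 x hx1 (by omega), A2]
      omega
    have R12 : Rk ρ (a : ℕ) (b : ℕ) (b : ℕ) (b' : ℕ) := by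
      refine ⟨W * q1 + (W - 1), by omega, by omega, fun x hx1 hx2 => ?_⟩
      rw [A1 x (by omega) (by omega), A2]
      omega
    have R03 : Rk ρ (a' : ℕ) (a : ℕ) (b' : ℕ) (b'' : ℕ) := by
      refine ⟨(b' : ℕ), le_rfl, l4', fun x hx1 hx2 => ?_⟩
      rw [A1 x hx1 (by omega)]
      have := (A3 b' le_rfl l4').2
      omega
    have R13 : Rk ρ (a : ℕ) (b : ℕ) (b' : ℕ) (b'' : ℕ) := by
      refine ⟨(b' : ℕ), le_rfl, l4', fun x hx1 hx2 => ?_⟩
      rw [A1 x (by omega) (by omega)]
      have := (A3 b' le_rfl l4').2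
      omega
    have R32 : Rk ρ (b' : ℕ) (b'' : ℕ) (b : ℕ) (b' : ℕ) := by
      refine ⟨W * q1 + (W - 1), by omega, by omega, fun x hx1 hx2 => ?_⟩
      rw [A2]
      exact (A3 x hx1 hx2).1
    refine ⟨![a', a, b, b', b''], PbC_cons l0 l1 l2 l3 l4 m1 m2 m3 m4 m5 hc, ?_⟩
    intro i j hv
    fin_cases i <;> fin_cases j
    · exact absurd hv (by decide)
    · exact R01
    · exact R02
    · exact R03
    · exact absurd hv (by decide)
    · exact absurd hv (by decide)
    · exact R12
    · exact R13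
    · exact absurd hv (by decide)
    · exact absurd hv (by decide)
    · exact absurd hv (by decide)
    · exact absurd hv (by decide)
    · exact absurd hv (by decide)
    · exact absurd hv (by decide)
    · exact R32
    · exact absurd hv (by decide)
  · -- 2143
    intro K W G hW hK
    obtain ⟨ρ, hρ⟩ : ∃ ρ : ℕ → ℕ, ∀ x, ρ x = if x % W = W - 1 then K + G - x / W else
        W * (x / W) + (W - 1 - x % W) := ⟨_, fun _ => rfl⟩
    refine ⟨ρ, ?_⟩
    intro q1 q2 S hq2 hR
    obtain ⟨c, a', a, b, b', b'', l0, l1, l2, l3, l4, m0, m1, m2, m3, m4, m5, hc, e1, e2, e3⟩ :=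
      h1 K W q1 q2 S hR
    have hq1 : q1 < q2 := hR.1
    have l0' : (c : ℕ) < a' := l0
    have l1' : (a' : ℕ) < a := l1
    have l2' : (a : ℕ) < b := l2
    have l3' : (b : ℕ) < b' := l3
    have l4' : (b' : ℕ) < b'' := l4
    have hb'' : (b'' : ℕ) < K := b''.2
    have hmul : W * (q1 + 1) = W * q1 + W := by ring
    have A1 : ∀ x : ℕ, (a' : ℕ) ≤ x → x < b → ρ x + x = 2 * (W * q1) + (W - 1) := by
      intro x hx1 hx2
      have hd : x / W = q1 := PbC_div (by omega) (by omega)
      have h3 := Nat.div_add_mod x W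
      have h4 := Nat.mod_lt x hW
      rw [hd] at h3
      have hm : x % W ≠ W - 1 := by
        intro hm
        omega
      rw [hρ, if_neg hm, hd]
      omega
    have A2 : ρ (W * q1 + (W - 1)) = K + G - q1 := by
      have hm : (W * q1 + (W - 1)) % W = W - 1 := by
        rw [Nat.mul_add_mod]
        exact Nat.mod_eq_of_lt (by omega)
      have hd : (W * q1 + (W - 1)) / W = q1 := PbC_div (by omega) (by omega)
      rw [hρ, if_pos hm, hd]
    have hqK : W * q1 + W ≤ K := by omega
    have A3 : ∀ x : ℕ, (b' : ℕ) ≤ x → x < b'' → ρ x < K + G - q1 ∧ W * q1 + W ≤ ρ x := by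
      intro x hx1 hx2
      have h3 : q1 + 1 ≤ x / W := by
        rw [Nat.le_div_iff_mul_le (by omega)]
        linarith [mul_comm W (q1 + 1)]
      have h4 : x / W < G := by
        rw [Nat.div_lt_iff_lt_mul (by omega)]
        linarith [mul_comm W G]
      have h5 : W * (q1 + 1) ≤ W * (x / W) := Nat.mul_le_mul_left W h3
      have h6 : W * (x / W) + W ≤ K := by
        have h7 : W * (x / W + 1) ≤ W * G := Nat.mul_le_mul_left W h4
        have h8 : W * (x / W + 1) = W * (x / W) + W := by ring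
        omega
      rw [hρ]
      split_ifs
      · omega
      · omega
    have R10 : Rk ρ (a : ℕ) (b : ℕ) (a' : ℕ) (a : ℕ) := by
      refine ⟨(a' : ℕ), le_rfl, l1', fun x hx1 hx2 => ?_⟩
      have h3 := A1 x (by omega) (by omega)
      have h4 := A1 (a' : ℕ) le_rfl (by omega)
      omega
    have R02 : Rk ρ (a' : ℕ) (a : ℕ) (b : ℕ) (b' : ℕ) := by
      refine ⟨W * q1 + (W - 1), by omega, by omega, fun x hx1 hx2 => ?_⟩
      have h3 := A1 x hx1 (by omega)
      rw [A2]
      omega
    have R12 : Rk ρ (a : ℕ) (b : ℕ) (b : ℕ) (b' : ℕ) := by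
      refine ⟨W * q1 + (W - 1), by omega, by omega, fun x hx1 hx2 => ?_⟩
      have h3 := A1 x (by omega) (by omega)
      rw [A2]
      omega
    have R03 : Rk ρ (a' : ℕ) (a : ℕ) (b' : ℕ) (b'' : ℕ) := by
      refine ⟨(b' : ℕ), le_rfl, l4', fun x hx1 hx2 => ?_⟩
      have h3 := A1 x hx1 (by omega)
      have h4 := (A3 b' le_rfl l4').2
      omega
    have R13 : Rk ρ (a : ℕ) (b : ℕ) (b' : ℕ) (b'' : ℕ) := by
      refine ⟨(b' : ℕ), le_rfl, l4', fun x hx1 hx2 => ?_⟩
      have h3 := A1 x (by omega) (by omega)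
      have h4 := (A3 b' le_rfl l4').2
      omega
    have R32 : Rk ρ (b' : ℕ) (b'' : ℕ) (b : ℕ) (b' : ℕ) := by
      refine ⟨W * q1 + (W - 1), by omega, by omega, fun x hx1 hx2 => ?_⟩
      rw [A2]
      exact (A3 x hx1 hx2).1
    refine ⟨![a', a, b, b', b''], PbC_cons l0 l1 l2 l3 l4 m1 m2 m3 m4 m5 hc, ?_⟩
    intro i j hv
    fin_cases i <;> fin_cases j
    · exact absurd hv (by decide)
    · exact absurd hv (by decide)
    · exact R02
    · exact R03
    · exact R10
    · exact absurd hv (by decide)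
    · exact R12
    · exact R13
    · exact absurd hv (by decide)
    · exact absurd hv (by decide)
    · exact absurd hv (by decide)
    · exact absurd hv (by decide)
    · exact absurd hv (by decide)
    · exact absurd hv (by decide)
    · exact R32
    · exact absurd hv (by decide)

end Pool.Agent.Lib.RU
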