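import Pool.Agent.Lib.RU.SpecW

/-!
PROJECT SO, part W, module PbD: the orders 3421 and 3412 are forced.
-/

set_option autoImplicit false

namespace Pool.Agent.Lib.RU

open Finset

private theorem PbD_div {W q x : ℕ} (h1 : W * q ≤ x) (h2 : x < W * (q + 1)) : x / W = q := by
  have hW : 0 < W := by
    rcases Nat.eq_zero_or_pos W with h | h
    · subst h
      omega
    · exact h
  apply le_antisymm
  · have h3 : x / W < q + 1 := by
      rw [Nat.div_lt_iff_lt_mul hW]
      linarith [mul_comm W (q + 1)]
    omega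
  · rw [Nat.le_div_iff_mul_le hW]
    linarith [mul_comm W q]

/-- The value at the last gap of a group. -/
private theorem PbD_last {W K q : ℕ} {ρ : ℕ → ℕ} (hW : 1 ≤ W)
    (hA : ∀ x, x % W = W - 1 → ρ x = K + W + 1 + x / W) (hq : 1 ≤ q) :
    ∃ y, y + 1 = W * q ∧ ρ y = K + W + q := by
  obtain ⟨r, rfl⟩ : ∃ r, q = r + 1 := ⟨q - 1, by omega⟩
  have hmul : W * (r + 1) = W * r + W := by ring
  refine ⟨W * r + (W - 1), by omega, ?_⟩
  have hm : (W * r + (W - 1)) % W = W - 1 := by
    rw [Nat.mul_add_mod]
    exact Nat.mod_eq_of_lt (by omega)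
  have hd : (W * r + (W - 1)) / W = r := PbD_div (by omega) (by omega)
  rw [hA _ hm, hd]
  omega

private theorem PbD_core {W K G q2 z' z y0 : ℕ} {ρ : ℕ → ℕ} (hW : 1 ≤ W) (hK : K = W * G)
    (hA : ∀ x, x % W = W - 1 → ρ x = K + W + 1 + x / W)
    (hB : ∀ x, x < K → x % W ≠ W - 1 → ρ x < K + W)
    (hC : ∀ x y, x / W < y / W → y < K → x % W ≠ W - 1 → y % W ≠ W - 1 → ρ y < ρ x)
    (hq : 1 ≤ q2) (hqG : q2 < G) (h1 : z' < z) (h2 : z < W * q2) (h3 : W * q2 ≤ y0) :
    Rk ρ z' z z y0 ∧ ∀ c d, y0 ≤ c → d < W * (q2 + 1) → Rk ρ c d z y0 ∧ Rk ρ c d z' z := by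
  have hmul : W * (q2 + 1) = W * q2 + W := by ring
  have hWG : W * (q2 + 1) ≤ K := by
    rw [hK]
    exact Nat.mul_le_mul_left W hqG
  obtain ⟨t, ht1, ht2⟩ := PbD_last (ρ := ρ) hW hA hq
  -- the points of the group of `q2`
  have hgr : ∀ c d x, y0 ≤ c → d < W * (q2 + 1) → c ≤ x → x < d →
      x / W = q2 ∧ x % W ≠ W - 1 ∧ x < K := by
    intro c d x hc hd hx1 hx2
    have hdv : x / W = q2 := PbD_div (by omega) (by omega)
    refine ⟨hdv, ?_, by omega⟩
    intro hm
    have h4 := Nat.div_add_mod x W
    rw [hdv, hm] at h4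
    omega
  refine ⟨⟨t, by omega, by omega, ?_⟩, ?_⟩
  · intro x hx1 hx2
    rw [ht2]
    by_cases hm : x % W = W - 1
    · rw [hA x hm]
      have h4 := Nat.div_add_mod x W
      rw [hm] at h4
      have h5 : W * (x / W + 1) < W * q2 := by
        have : W * (x / W + 1) = W * (x / W) + W := by ring
        omega
      have h6 : x / W + 1 < q2 := Nat.lt_of_mul_lt_mul_left h5
      omega
    · have := hB x (by omega) hm
      omega
  · intro c d hc hd
    refine ⟨⟨t, by omega, by omega, ?_⟩, ?_⟩
    · intro x hx1 hx2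
      obtain ⟨-, h5, h6⟩ := hgr c d x hc hd hx1 hx2
      have := hB x h6 h5
      rw [ht2]
      omega
    · have hzq : z / W < q2 := by
        rw [Nat.div_lt_iff_lt_mul (by omega)]
        linarith [mul_comm W q2]
      have hle : z' / W ≤ z / W := Nat.div_le_div_right h1.le
      by_cases he : z' / W = z / W
      · refine ⟨z', le_rfl, h1, ?_⟩
        intro x hx1 hx2
        obtain ⟨h4, h5, h6⟩ := hgr c d x hc hd hx1 hx2
        refine hC z' x (by omega) h6 ?_ h5
        intro hm
        have h7 := Nat.div_add_mod z' W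
        have h8 := Nat.div_add_mod z W
        have h9 : z % W < W := Nat.mod_lt _ (by omega)
        rw [hm, he] at h7
        omega
      · have hlt : z' / W < z / W := lt_of_le_of_ne hle he
        obtain ⟨y, hy1, hy2⟩ := PbD_last (ρ := ρ) (q := z / W) hW hA
          (Nat.succ_le_of_lt (lt_of_le_of_lt (Nat.zero_le _) hlt))
        have h7 : z' < W * (z / W) := by
          have := (Nat.div_lt_iff_lt_mul (k := W) (x := z') (y := z / W) (by omega)).1 hlt
          linarith [mul_comm W (z / W)]
        have h8 : W * (z / W) ≤ z := Nat.mul_div_le z W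
        refine ⟨y, by omega, by omega, ?_⟩
        intro x hx1 hx2
        obtain ⟨h4, h5, h6⟩ := hgr c d x hc hd hx1 hx2
        have := hB x h6 h5
        rw [hy2]
        exact lt_of_lt_of_le this (Nat.le_add_right _ _)

/-- The five elements of the window are consecutive. -/
private theorem PbD_cons {K : ℕ} {S : Finset (Fin K)} {z' z y0 y1 y2 y3 : Fin K} (l1 : z' < z)
    (l2 : z < y0) (l3 : y0 < y1) (l4 : y1 < y2) (l5 : y2 < y3) (m1 : z' ∈ S) (m2 : z ∈ S)
    (m3 : y0 ∈ S) (m4 : y1 ∈ S) (m5 : y2 ∈ S)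
    (hc : ∀ x ∈ S, z' < x → x < y3 → x = z ∨ x = y0 ∨ x = y1 ∨ x = y2) :
    Cons5 S ![z', z, y0, y1, y2] := by
  refine ⟨?_, ?_, ?_⟩
  · rw [Fin.strictMono_iff_lt_succ]
    intro i
    fin_cases i
    · exact l1
    · exact l2
    · exact l3
    · exact l4
  · intro i
    fin_cases i
    · exact m1
    · exact m2
    · exact m3
    · exact m4
    · exact m5
  · intro x hx hx1 hx2
    have hx1' : z' < x := hx1
    have hx2' : x < y2 := hx2
    rcases hc x hx hx1' (lt_trans hx2' l5) with h | h | h | h
    · exact Or.inl h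
    · exact Or.inr (Or.inl h)
    · exact Or.inr (Or.inr h)
    · exact absurd h (ne_of_lt hx2')

theorem tPbD (h1 : WnGStmt) : PbDStmt := by
  constructor
  · intro K W G hW hK
    refine ⟨fun x => if x % W = W - 1 then K + W + 1 + x / W else K - x, ?_⟩
    intro q1 q2 S hq2 hR
    obtain ⟨z', z, y0, y1, y2, y3, l1, l2, l3, l4, l5, m1, m2, m3, m4, m5, m6, hc, e1, e2, e3⟩ :=
      h1 K W q1 q2 S hR
    have hq1 : q1 < q2 := hR.1
    have l1' : (z' : ℕ) < z := l1
    have l2' : (z : ℕ) < y0 := l2
    have l3' : (y0 : ℕ) < y1 := l3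
    have l4' : (y1 : ℕ) < y2 := l4
    have l5' : (y2 : ℕ) < y3 := l5
    have hmul : W * (q2 + 1) = W * q2 + W := by ring
    have hWG : W * (q2 + 1) ≤ K := by
      rw [hK]
      exact Nat.mul_le_mul_left W hq2
    obtain ⟨R01, Rc⟩ := PbD_core (ρ := fun x => if x % W = W - 1 then K + W + 1 + x / W else K - x)
      hW hK (fun x hx => if_pos hx) (by
        intro x hx hm
        show (if x % W = W - 1 then K + W + 1 + x / W else K - x) < K + W
        rw [if_neg hm]
        omega) (by
        intro x y hxy hy hx hy'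
        show (if y % W = W - 1 then K + W + 1 + y / W else K - y) <
          (if x % W = W - 1 then K + W + 1 + x / W else K - x)
        rw [if_neg hx, if_neg hy']
        have hlt : x < y := by
          by_contra hcon
          have := Nat.div_le_div_right (c := W) (not_lt.1 hcon)
          omega
        omega) (by omega) hq2 l1' e1 e2
    obtain ⟨R21, R20⟩ := Rc y0 y1 le_rfl (by omega)
    obtain ⟨R31, R30⟩ := Rc y1 y2 (by omega) (by omega)
    have hnl : ∀ x : ℕ, (y0 : ℕ) ≤ x → x < y2 → x % W ≠ W - 1 := by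
      intro x hx1 hx2 hm
      have hdv : x / W = q2 := PbD_div (by omega) (by omega)
      have h4 := Nat.div_add_mod x W
      rw [hdv, hm] at h4
      omega
    have R32 : Rk (fun x => if x % W = W - 1 then K + W + 1 + x / W else K - x) (y1 : ℕ) (y2 : ℕ)
        (y0 : ℕ) (y1 : ℕ) := by
      refine ⟨(y0 : ℕ), le_rfl, l3', ?_⟩
      intro x hx1 hx2
      show (if x % W = W - 1 then K + W + 1 + x / W else K - x) <
        (if (y0 : ℕ) % W = W - 1 then K + W + 1 + (y0 : ℕ) / W else K - (y0 : ℕ))
      rw [if_neg (hnl x (by omega) hx2), if_neg (hnl y0 le_rfl (by omega))]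
      omega
    refine ⟨![z', z, y0, y1, y2], PbD_cons l1 l2 l3 l4 l5 m1 m2 m3 m4 m5 hc, ?_⟩
    intro i j hv
    fin_cases i <;> fin_cases j
    · exact absurd hv (by decide)
    · exact R01
    · exact absurd hv (by decide)
    · exact absurd hv (by decide)
    · exact absurd hv (by decide)
    · exact absurd hv (by decide)
    · exact absurd hv (by decide)
    · exact absurd hv (by decide)
    · exact R20
    · exact R21
    · exact absurd hv (by decide)
    · exact absurd hv (by decide)
    · exact R30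
    · exact R31
    · exact R32
    · exact absurd hv (by decide)
  · intro K W G hW hK
    refine ⟨fun x => if x % W = W - 1 then K + W + 1 + x / W else W * (G - x / W) + x % W, ?_⟩
    intro q1 q2 S hq2 hR
    obtain ⟨z', z, y0, y1, y2, y3, l1, l2, l3, l4, l5, m1, m2, m3, m4, m5, m6, hc, e1, e2, e3⟩ :=
      h1 K W q1 q2 S hR
    have hq1 : q1 < q2 := hR.1
    have l1' : (z' : ℕ) < z := l1
    have l2' : (z : ℕ) < y0 := l2
    have l3' : (y0 : ℕ) < y1 := l3
    have l4' : (y1 : ℕ) < y2 := l4
    have l5' : (y2 : ℕ) < y3 := l5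
    have hmul : W * (q2 + 1) = W * q2 + W := by ring
    have hWG : W * (q2 + 1) ≤ K := by
      rw [hK]
      exact Nat.mul_le_mul_left W hq2
    obtain ⟨R01, Rc⟩ := PbD_core
      (ρ := fun x => if x % W = W - 1 then K + W + 1 + x / W else W * (G - x / W) + x % W)
      hW hK (fun x hx => if_pos hx) (by
        intro x hx hm
        show (if x % W = W - 1 then K + W + 1 + x / W else W * (G - x / W) + x % W) < K + W
        rw [if_neg hm]
        have h4 : W * (G - x / W) ≤ K := by
          rw [hK]
          exact Nat.mul_le_mul_left W (Nat.sub_le _ _)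
        have h5 : x % W < W := Nat.mod_lt _ (by omega)
        omega) (by
        intro x y hxy hy hx hy'
        show (if y % W = W - 1 then K + W + 1 + y / W else W * (G - y / W) + y % W) <
          (if x % W = W - 1 then K + W + 1 + x / W else W * (G - x / W) + x % W)
        rw [if_neg hx, if_neg hy']
        have h5 : y % W < W := Nat.mod_lt _ (by omega)
        have h6 : y / W < G := by
          rw [Nat.div_lt_iff_lt_mul (by omega)]
          linarith [mul_comm W G]
        have h7 : W * (G - y / W + 1) ≤ W * (G - x / W) := Nat.mul_le_mul_left W (by omega)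
        have h8 : W * (G - y / W + 1) = W * (G - y / W) + W := by ring
        omega) (by omega) hq2 l1' e1 e2
    obtain ⟨R21, R20⟩ := Rc y0 y1 le_rfl (by omega)
    obtain ⟨R31, R30⟩ := Rc y1 y2 (by omega) (by omega)
    have hdv : ∀ x : ℕ, (y0 : ℕ) ≤ x → x < y2 → x / W = q2 := fun x hx1 hx2 =>
      PbD_div (by omega) (by omega)
    have hnl : ∀ x : ℕ, (y0 : ℕ) ≤ x → x < y2 → x % W ≠ W - 1 := by
      intro x hx1 hx2 hm
      have h4 := Nat.div_add_mod x W
      rw [hdv x hx1 hx2, hm] at h4
      omega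
    have R23 : Rk (fun x => if x % W = W - 1 then K + W + 1 + x / W else W * (G - x / W) + x % W)
        (y0 : ℕ) (y1 : ℕ) (y1 : ℕ) (y2 : ℕ) := by
      refine ⟨(y1 : ℕ), le_rfl, l4', ?_⟩
      intro x hx1 hx2
      show (if x % W = W - 1 then K + W + 1 + x / W else W * (G - x / W) + x % W) <
        (if (y1 : ℕ) % W = W - 1 then K + W + 1 + (y1 : ℕ) / W
          else W * (G - (y1 : ℕ) / W) + (y1 : ℕ) % W)
      rw [if_neg (hnl x (by omega) (by omega)), if_neg (hnl y1 (by omega) (by omega)),
        hdv x (by omega) (by omega), hdv y1 (by omega) (by omega)]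
      have h4 := Nat.div_add_mod x W
      have h5 := Nat.div_add_mod (y1 : ℕ) W
      rw [hdv x (by omega) (by omega)] at h4
      rw [hdv y1 (by omega) (by omega)] at h5
      omega
    refine ⟨![z', z, y0, y1, y2], PbD_cons l1 l2 l3 l4 l5 m1 m2 m3 m4 m5 hc, ?_⟩
    intro i j hv
    fin_cases i <;> fin_cases j
    · exact absurd hv (by decide)
    · exact R01
    · exact absurd hv (by decide)
    · exact absurd hv (by decide)
    · exact absurd hv (by decide)
    · exact absurd hv (by decide)
    · exact absurd hv (by decide)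
    · exact absurd hv (by decide)
    · exact R20
    · exact R21
    · exact absurd hv (by decide)
    · exact R23
    · exact R30
    · exact R31
    · exact absurd hv (by decide)
    · exact absurd hv (by decide)

end Pool.Agent.Lib.RU
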