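import Pool.Agent.Lib.RU.SpecX

/-!
PROJECT TO, module PbE: the orders 1423 and 1432 are forced.
-/

set_option autoImplicit false

namespace Pool.Agent.Lib.RU

open Finset

/-- the rank function, `f` on the inside of the groups -/
private def PbE_rho (W : ℕ) (f : ℕ → ℕ) (x : ℕ) : ℕ :=
  if x % W = W - 1 then (W + 1) * (x / W + 1) + W else (W + 1) * (x / W) + f (x % W)

private theorem PbE_div {W q x : ℕ} (h1 : W * q ≤ x) (h2 : x < W * (q + 1)) :
    x / W = q ∧ x % W = x - W * q := by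
  have hW : 0 < W := by
    rcases Nat.eq_zero_or_pos W with h | h
    · subst h
      omega
    · exact h
  have hd : x / W = q := by
    apply le_antisymm
    · have h3 : x / W < q + 1 := by
        rw [Nat.div_lt_iff_lt_mul hW]
        linarith [mul_comm W (q + 1)]
      omega
    · rw [Nat.le_div_iff_mul_le hW]
      linarith [mul_comm W q]
  refine ⟨hd, ?_⟩
  have h3 := Nat.div_add_mod x W
  rw [hd] at h3
  omega

/-- inside a group -/
private theorem PbE_in {W q x : ℕ} (f : ℕ → ℕ) (h1 : W * q ≤ x) (h2 : x + 1 < W * (q + 1)) :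
    PbE_rho W f x = (W + 1) * q + f (x - W * q) := by
  obtain ⟨h3, h4⟩ := PbE_div h1 (by omega : x < W * (q + 1))
  have h5 : W * (q + 1) = W * q + W := by ring
  have h6 : x % W ≠ W - 1 := by omega
  unfold PbE_rho
  rw [if_neg h6, h3, h4]

/-- the last gap before the group `q` -/
private theorem PbE_bd {W q : ℕ} (f : ℕ → ℕ) (hW : 1 ≤ W) (hq : 1 ≤ q) :
    PbE_rho W f (W * q - 1) = (W + 1) * q + W := by
  obtain ⟨r, rfl⟩ : ∃ r, q = r + 1 := ⟨q - 1, by omega⟩
  have h5 : W * (r + 1) = W * r + W := by ring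
  obtain ⟨h3, h4⟩ := PbE_div (W := W) (q := r) (x := W * (r + 1) - 1) (by omega) (by omega)
  have h6 : (W * (r + 1) - 1) % W = W - 1 := by omega
  unfold PbE_rho
  rw [if_pos h6, h3]

/-- earlier gaps -/
private theorem PbE_lo {W q x : ℕ} (f : ℕ → ℕ) (hW : 1 ≤ W) (hf : ∀ r, r < W → f r < W)
    (h : x + 1 < W * q) : PbE_rho W f x < (W + 1) * q := by
  have h1 := Nat.div_add_mod x W
  have h2 : x % W < W := Nat.mod_lt _ (by omega)
  obtain ⟨d, hd⟩ : ∃ d, d = x / W := ⟨_, rfl⟩
  obtain ⟨r, hr⟩ : ∃ r, r = x % W := ⟨_, rfl⟩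
  unfold PbE_rho
  rw [← hd, ← hr] at h1 ⊢
  rw [← hr] at h2
  split_ifs with h3
  · have h4 : d + 1 < q := by
      by_contra hc
      have h5 : W * q ≤ W * (d + 1) := Nat.mul_le_mul_left _ (by omega)
      have h6 : W * (d + 1) = W * d + W := by ring
      omega
    have h5 : (W + 1) * (d + 2) ≤ (W + 1) * q := Nat.mul_le_mul_left _ (by omega)
    have h6 : (W + 1) * (d + 2) = (W + 1) * (d + 1) + (W + 1) := by ring
    omega
  · have h4 : d < q := by
      by_contra hc
      have h5 : W * q ≤ W * d := Nat.mul_le_mul_left _ (by omega)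
      omega
    have h5 : (W + 1) * (d + 1) ≤ (W + 1) * q := Nat.mul_le_mul_left _ (by omega)
    have h6 : (W + 1) * (d + 1) = (W + 1) * d + (W + 1) := by ring
    have h7 := hf r h2
    omega

private theorem PbE_core (h1 : WnGStmt) (K W : ℕ) (f : ℕ → ℕ) (hW : 1 ≤ W)
    (hf : ∀ r, r < W → f r < W) (q1 q2 : ℕ) (S : Finset (Fin K)) (hR : RichW W q1 q2 S) :
    ∃ z' z y0 y1 y2 : Fin K, Cons5 S ![z', z, y0, y1, y2] ∧ (y0 : ℕ) < y1 ∧ (y1 : ℕ) < y2 ∧
      W * q2 ≤ y0 ∧ (y2 : ℕ) + 1 < W * (q2 + 1) ∧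
      Rk (PbE_rho W f) z' z z y0 ∧ Rk (PbE_rho W f) z' z y0 y1 ∧ Rk (PbE_rho W f) z' z y1 y2 ∧
      Rk (PbE_rho W f) y0 y1 z y0 ∧ Rk (PbE_rho W f) y1 y2 z y0 := by
  obtain ⟨z', z, y0, y1, y2, y3, l1, l2, l3, l4, l5, m1, m2, m3, m4, m5, m6, hc, e1, e2, e3⟩ :=
    h1 K W q1 q2 S hR
  have hq : q1 < q2 := hR.1
  have l1' : (z' : ℕ) < z := l1
  have l2' : (z : ℕ) < y0 := l2
  have l3' : (y0 : ℕ) < y1 := l3
  have l4' : (y1 : ℕ) < y2 := l4
  have l5' : (y2 : ℕ) < y3 := l5
  have hWq : 1 ≤ W * q2 := Nat.mul_pos hW (by omega)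
  have hm5 : W * (q2 + 1) = W * q2 + W := by ring
  have lo : ∀ x : ℕ, (z' : ℕ) ≤ x → x < z → PbE_rho W f x < (W + 1) * q2 := fun x _ hx =>
    PbE_lo f hW hf (by omega)
  have ins : ∀ x : ℕ, (y0 : ℕ) ≤ x → x < y2 →
      (W + 1) * q2 ≤ PbE_rho W f x ∧ PbE_rho W f x < (W + 1) * q2 + W := by
    intro x hx1 hx2
    rw [PbE_in f (by omega : W * q2 ≤ x) (by omega)]
    have := hf (x - W * q2) (by omega)
    omega
  have bd : PbE_rho W f (W * q2 - 1) = (W + 1) * q2 + W := PbE_bd f hW (by omega)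
  refine ⟨z', z, y0, y1, y2, ⟨?_, ?_, ?_⟩, l3', l4', e2, by omega, ?_, ?_, ?_, ?_, ?_⟩
  · rw [Fin.strictMono_iff_lt_succ]
    intro i
    fin_cases i
    · exact l1
    · exact l2
    · exact l3
    · exact l4
  · intro i
    fin_cases i
    · exact m1
    · exact m2
    · exact m3
    · exact m4
    · exact m5
  · intro x hx hx1 hx2
    have hx1' : z' < x := hx1
    have hx2' : x < y2 := hx2
    rcases hc x hx hx1' (lt_trans hx2' l5) with h | h | h | h
    · exact Or.inl h
    · exact Or.inr (Or.inl h)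
    · exact Or.inr (Or.inr h)
    · exact absurd h (ne_of_lt hx2')
  · refine ⟨W * q2 - 1, by omega, by omega, fun x hx1 hx2 => ?_⟩
    have := lo x hx1 hx2
    rw [bd]
    omega
  · refine ⟨(y0 : ℕ), le_rfl, l3', fun x hx1 hx2 => ?_⟩
    have h2 := lo x hx1 hx2
    have h3 := (ins y0 le_rfl (by omega)).1
    omega
  · refine ⟨(y1 : ℕ), le_rfl, l4', fun x hx1 hx2 => ?_⟩
    have h2 := lo x hx1 hx2
    have h3 := (ins y1 (by omega) l4').1
    omega
  · refine ⟨W * q2 - 1, by omega, by omega, fun x hx1 hx2 => ?_⟩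
    have := (ins x hx1 (by omega)).2
    rw [bd]
    omega
  · refine ⟨W * q2 - 1, by omega, by omega, fun x hx1 hx2 => ?_⟩
    have := (ins x (by omega) hx2).2
    rw [bd]
    omega

theorem tPbE (h1 : WnGStmt) : PbEStmt := by
  constructor
  · intro K W G hW hK
    refine ⟨PbE_rho W (fun r => r), ?_⟩
    intro q1 q2 S hq2 hR
    obtain ⟨z', z, y0, y1, y2, hs, l3, l4, e2, e3, R01, R02, R03, R21, R31⟩ :=
      PbE_core h1 K W (fun r => r) hW (fun r hr => hr) q1 q2 S hR
    have R23 : Rk (PbE_rho W (fun r => r)) y0 y1 y1 y2 := by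
      refine ⟨(y2 : ℕ) - 1, by omega, by omega, fun x hx1 hx2 => ?_⟩
      rw [PbE_in _ (by omega : W * q2 ≤ x) (by omega),
        PbE_in _ (by omega : W * q2 ≤ (y2 : ℕ) - 1) (by omega)]
      show (W + 1) * q2 + (x - W * q2) < (W + 1) * q2 + ((y2 : ℕ) - 1 - W * q2)
      omega
    refine ⟨![z', z, y0, y1, y2], hs, ?_⟩
    intro i j hv
    fin_cases i <;> fin_cases j
    · exact absurd hv (by decide)
    · exact R01
    · exact R02
    · exact R03
    · exact absurd hv (by decide)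
    · exact absurd hv (by decide)
    · exact absurd hv (by decide)
    · exact absurd hv (by decide)
    · exact absurd hv (by decide)
    · exact R21
    · exact absurd hv (by decide)
    · exact R23
    · exact absurd hv (by decide)
    · exact R31
    · exact absurd hv (by decide)
    · exact absurd hv (by decide)
  · intro K W G hW hK
    refine ⟨PbE_rho W (fun r => W - 1 - r), ?_⟩
    intro q1 q2 S hq2 hR
    obtain ⟨z', z, y0, y1, y2, hs, l3, l4, e2, e3, R01, R02, R03, R21, R31⟩ :=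
      PbE_core h1 K W (fun r => W - 1 - r) hW
        (fun r _ => by
          show W - 1 - r < W
          omega) q1 q2 S hR
    have hm5 : W * (q2 + 1) = W * q2 + W := by ring
    have R32 : Rk (PbE_rho W (fun r => W - 1 - r)) y1 y2 y0 y1 := by
      refine ⟨(y0 : ℕ), le_rfl, l3, fun x hx1 hx2 => ?_⟩
      rw [PbE_in _ (by omega : W * q2 ≤ x) (by omega),
        PbE_in _ e2 (by omega)]
      show (W + 1) * q2 + (W - 1 - (x - W * q2)) < (W + 1) * q2 + (W - 1 - ((y0 : ℕ) - W * q2))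
      omega
    refine ⟨![z', z, y0, y1, y2], hs, ?_⟩
    intro i j hv
    fin_cases i <;> fin_cases j
    · exact absurd hv (by decide)
    · exact R01
    · exact R02
    · exact R03
    · exact absurd hv (by decide)
    · exact absurd hv (by decide)
    · exact absurd hv (by decide)
    · exact absurd hv (by decide)
    · exact absurd hv (by decide)
    · exact R21
    · exact absurd hv (by decide)
    · exact absurd hv (by decide)
    · exact absurd hv (by decide)
    · exact R31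
    · exact R32
    · exact absurd hv (by decide)

end Pool.Agent.Lib.RU
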