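import Pool.Agent.Lib.RU.SpecW

/-!
Project SO, part W, module RcW: two rich groups with four elements each (helper6).
-/

set_option autoImplicit false

namespace Pool.Agent.Lib.RU

open Finset

private theorem RcW_four {g n q : ℕ} {S : Finset (Fin (g * g * n))} {H : Finset (Fin (g * g))}
    (hg : 0 < g) (hH : ∀ i ∈ H, (i : ℕ) / g = q ∧ ∃ t : Fin n, finProdFinEquiv (i, t) ∈ S)
    (hc : 4 ≤ H.card) : ∃ x0 x1 x2 x3 : Fin (g * g * n),
    x0 ∈ S ∧ x1 ∈ S ∧ x2 ∈ S ∧ x3 ∈ S ∧ x0 < x1 ∧ x1 < x2 ∧ x2 < x3 ∧ g * n * q ≤ x0 ∧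
      (x3 : ℕ) < g * n * (q + 1) := by
  obtain ⟨T, hT, hT4⟩ := Finset.exists_subset_card_eq hc
  have hmem : ∀ k : Fin 4, ∃ t : Fin n, finProdFinEquiv (T.orderEmbOfFin hT4 k, t) ∈ S := fun k =>
    (hH _ (hT (Finset.orderEmbOfFin_mem T hT4 k))).2
  choose t ht using hmem
  have hlt : ∀ k l : Fin 4, k < l →
      finProdFinEquiv (T.orderEmbOfFin hT4 k, t k) < finProdFinEquiv (T.orderEmbOfFin hT4 l, t l) := by
    intro k l hkl
    have h1 : T.orderEmbOfFin hT4 k < T.orderEmbOfFin hT4 l := (T.orderEmbOfFin hT4).lt_iff_lt.2 hkl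
    have h2 : (T.orderEmbOfFin hT4 k : ℕ) + 1 ≤ (T.orderEmbOfFin hT4 l : ℕ) := h1
    have h3 := Nat.mul_le_mul_left n h2
    have h4 := (t k).2
    rw [Fin.lt_def, finProdFinEquiv_apply_val, finProdFinEquiv_apply_val]
    dsimp only
    rw [Nat.mul_add, Nat.mul_one] at h3
    omega
  refine ⟨_, _, _, _, ht 0, ht 1, ht 2, ht 3, hlt 0 1 (by decide), hlt 1 2 (by decide),
    hlt 2 3 (by decide), ?_, ?_⟩
  · have h1 := (hH _ (hT (Finset.orderEmbOfFin_mem T hT4 0))).1
    have h2 : g * q ≤ (T.orderEmbOfFin hT4 0 : ℕ) := by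
      rw [← h1]
      exact Nat.mul_div_le _ _
    have h3 := Nat.mul_le_mul_left n h2
    rw [finProdFinEquiv_apply_val]
    dsimp only
    have h4 : g * n * q = n * (g * q) := by ring
    omega
  · have h1 := (hH _ (hT (Finset.orderEmbOfFin_mem T hT4 3))).1
    have h2 : (T.orderEmbOfFin hT4 3 : ℕ) + 1 ≤ g * (q + 1) := by
      rw [← h1]
      exact Nat.lt_mul_div_succ _ hg
    have h3 := Nat.mul_le_mul_left n h2
    rw [finProdFinEquiv_apply_val]
    dsimp only
    have h4 : g * n * (q + 1) = n * (g * (q + 1)) := by ring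
    have h5 := (t 3).2
    rw [Nat.mul_add, Nat.mul_one] at h3
    omega

private theorem RcW_gen {g n : ℕ} {S : Finset (Fin (g * g * n))} {H : Finset (Fin (g * g))}
    (hg : 0 < g) (hH : ∀ i ∈ H, ∃ t : Fin n, finProdFinEquiv (i, t) ∈ S)
    (hc : 4 * g < H.card) :
    ∃ q1 q2 : ℕ, q1 < q2 ∧ q2 < g ∧ (∀ q, q = q1 ∨ q = q2 → ∃ x0 x1 x2 x3 : Fin (g * g * n),
      x0 ∈ S ∧ x1 ∈ S ∧ x2 ∈ S ∧ x3 ∈ S ∧ x0 < x1 ∧ x1 < x2 ∧ x2 < x3 ∧ g * n * q ≤ x0 ∧
        (x3 : ℕ) < g * n * (q + 1)) := by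
  classical
  have hmap : ∀ i ∈ H, (i : ℕ) / g ∈ Finset.range g := fun i _ => by
    rw [Finset.mem_range]
    exact Nat.div_lt_of_lt_mul i.2
  have hsum := Finset.card_eq_sum_card_fiberwise hmap
  have hle : ∀ q, (H.filter fun i : Fin (g * g) => (i : ℕ) / g = q).card ≤ g := by
    intro q
    have h1 : ((H.filter fun i : Fin (g * g) => (i : ℕ) / g = q).image fun i : Fin (g * g) => (i : ℕ)) ⊆
        Finset.Ico (g * q) (g * q + g) := by
      intro x hx
      obtain ⟨i, hi, rfl⟩ := Finset.mem_image.1 hx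
      have h2 := (Finset.mem_filter.1 hi).2
      rw [Finset.mem_Ico, ← h2]
      constructor
      · exact Nat.mul_div_le _ _
      · have := Nat.lt_mul_div_succ (i : ℕ) hg
        rw [Nat.mul_add, Nat.mul_one] at this
        exact this
    have h3 := Finset.card_le_card h1
    rw [Finset.card_image_of_injective _ Fin.val_injective, Nat.card_Ico] at h3
    omega
  set R := (Finset.range g).filter fun q => 4 ≤ (H.filter fun i : Fin (g * g) => (i : ℕ) / g = q).card with hR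
  have hRc : 1 < R.card := by
    by_contra hcon
    have h1 : ∑ q ∈ Finset.range g, (H.filter fun i : Fin (g * g) => (i : ℕ) / g = q).card ≤
        ∑ q ∈ Finset.range g, (3 + if q ∈ R then g else 0) := by
      refine Finset.sum_le_sum fun q hq => ?_
      by_cases hqR : q ∈ R
      · rw [if_pos hqR]
        have := hle q
        omega
      · rw [if_neg hqR]
        have h2 : ¬ 4 ≤ (H.filter fun i : Fin (g * g) => (i : ℕ) / g = q).card := fun h =>
          hqR (by rw [hR]; exact Finset.mem_filter.2 ⟨hq, h⟩)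
        omega
    have h3 : ∑ q ∈ Finset.range g, (3 + if q ∈ R then g else 0) = g * 3 + R.card * g := by
      rw [Finset.sum_add_distrib, Finset.sum_const, Finset.card_range, smul_eq_mul,
        Finset.sum_ite_mem, Finset.sum_const, smul_eq_mul]
      have h4 : Finset.range g ∩ R = R := by
        rw [hR]
        exact Finset.inter_eq_right.2 (Finset.filter_subset _ _)
      rw [h4]
    have h5 : R.card * g ≤ 1 * g := Nat.mul_le_mul_right g (by omega)
    omega
  obtain ⟨a, ha, b, hb, hab⟩ := Finset.one_lt_card.1 hRc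
  have hrich : ∀ q ∈ R, ∃ x0 x1 x2 x3 : Fin (g * g * n),
      x0 ∈ S ∧ x1 ∈ S ∧ x2 ∈ S ∧ x3 ∈ S ∧ x0 < x1 ∧ x1 < x2 ∧ x2 < x3 ∧ g * n * q ≤ x0 ∧
        (x3 : ℕ) < g * n * (q + 1) := by
    intro q hq
    rw [hR, Finset.mem_filter] at hq
    exact RcW_four hg (fun i hi => ⟨(Finset.mem_filter.1 hi).2, hH i (Finset.mem_filter.1 hi).1⟩) hq.2
  have hlt : ∀ q ∈ R, q < g := fun q hq => by
    rw [hR, Finset.mem_filter, Finset.mem_range] at hq
    exact hq.1
  rcases Nat.lt_or_gt_of_ne hab with h | h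
  · refine ⟨a, b, h, hlt b hb, fun q hq => ?_⟩
    rcases hq with rfl | rfl
    · exact hrich _ ha
    · exact hrich _ hb
  · refine ⟨b, a, h, hlt a ha, fun q hq => ?_⟩
    rcases hq with rfl | rfl
    · exact hrich _ hb
    · exact hrich _ ha

theorem tRcW : RcWStmt := by
  intro n S _ hh
  have hg : 0 < gM := by norm_num [gM]
  unfold Hits at hh
  refine RcW_gen (H := Finset.univ.filter fun i : Fin (gM * gM) =>
    ∃ t : Fin n, finProdFinEquiv (i, t) ∈ S) hg (fun i hi => (Finset.mem_filter.1 hi).2) ?_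
  have h1 : ((gM * gM : ℕ) : ℝ) / 10 ^ 6 = 25000000 := by norm_num [gM]
  rw [h1] at hh
  have h2 : (25000000 : ℕ) ≤ (Finset.univ.filter fun i : Fin (gM * gM) =>
      ∃ t : Fin n, finProdFinEquiv (i, t) ∈ S).card := by exact_mod_cast hh
  have h3 : 4 * gM = 20000000 := by norm_num [gM]
  rw [h3]
  exact lt_of_lt_of_le (by norm_num) h2

end Pool.Agent.Lib.RU
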