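import Pool.Agent.Lib.RU.SpecX

/-!
PROJECT TO, consequences (helper82): the twelve orders of four consecutive gaps contain the six orders of three
consecutive gaps and the eight words of three comparisons.
-/

set_option autoImplicit false

namespace Pool.Agent.Lib.RU

open Finset

/-- from an order of four gaps to an order of three gaps -/
private theorem ToC_three (v : Fin 4 → ℕ) (u : Fin 3 → ℕ) (hu : ∀ i j : Fin 3, u i < u j → v i.castSucc < v j.castSucc)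
    (h : Ord4 v) : ∀ (C ε : ℝ), 0 < ε → ∃ c : ℝ, 0 < c ∧ ∃ N0 : ℕ, ∀ N : ℕ, N0 ≤ N →
      c * N ≤ ((ord3 N C ε u).card : ℝ) := by
  intro C ε hε
  obtain ⟨c, hc, N0, hN⟩ := h C ε hε
  refine ⟨c, hc, N0, fun N hN0 => (hN N hN0).trans ?_⟩
  rw [Nat.cast_le]
  apply Finset.card_le_card
  intro n hn
  rw [ord4, Finset.mem_filter] at hn
  rw [ord3, Finset.mem_filter]
  refine ⟨hn.1, fun i j hij => ?_, ?_⟩
  · have h1 := hn.2.1 i.castSucc j.castSucc (hu i j hij)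
    simpa using h1
  · refine le_trans ?_ hn.2.2
    rw [Nat.cast_le]
    omega

/-- from an order of four gaps to a word of three comparisons -/
private theorem ToC_word (v : Fin 4 → ℕ) (w : Fin 3 → Bool)
    (hw : ∀ i : Fin 3, (w i = true → v i.castSucc < v i.succ) ∧ (w i = false → v i.succ < v i.castSucc))
    (h : Ord4 v) : ∀ (C ε : ℝ), 0 < ε → ∃ c : ℝ, 0 < c ∧ ∃ N0 : ℕ, ∀ N : ℕ, N0 ≤ N →
      c * N ≤ ((word3 N C ε w).card : ℝ) := by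
  intro C ε hε
  obtain ⟨c, hc, N0, hN⟩ := h C ε hε
  refine ⟨c, hc, N0, fun N hN0 => (hN N hN0).trans ?_⟩
  rw [Nat.cast_le]
  apply Finset.card_le_card
  intro n hn
  rw [ord4, Finset.mem_filter] at hn
  rw [word3, Finset.mem_filter]
  refine ⟨hn.1, fun i => ⟨fun hi => ?_, fun hi => ?_⟩, hn.2.2⟩
  · have h1 := hn.2.1 i.castSucc i.succ ((hw i).1 hi)
    simpa [add_assoc] using h1
  · have h1 := hn.2.1 i.succ i.castSucc ((hw i).2 hi)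
    simpa [add_assoc] using h1

/-- a vector with three entries -/
private theorem ToC_vec (v : Fin 3 → ℕ) (a b c : ℕ) (h0 : v 0 = a) (h1 : v 1 = b) (h2 : v 2 = c) :
    v = ![a, b, c] := by
  funext i
  fin_cases i
  · exact h0
  · exact h1
  · exact h2

/-- all six orders of three consecutive gaps -/
theorem toSix (a : Ord4 ![0, 1, 2, 3]) (b : Ord4 ![0, 3, 2, 1]) (c : Ord4 ![1, 0, 3, 2]) (d : Ord4 ![2, 3, 1, 0])
    (e : Ord4 ![3, 0, 1, 2]) (f : Ord4 ![3, 2, 1, 0]) : SoStmt := by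
  intro σ
  have a0 : (σ 0 : ℕ) < 3 := (σ 0).isLt
  have a1 : (σ 1 : ℕ) < 3 := (σ 1).isLt
  have a2 : (σ 2 : ℕ) < 3 := (σ 2).isLt
  have n01 : (σ 0 : ℕ) ≠ (σ 1 : ℕ) := fun h => absurd (σ.injective (Fin.ext h)) (by decide)
  have n02 : (σ 0 : ℕ) ≠ (σ 2 : ℕ) := fun h => absurd (σ.injective (Fin.ext h)) (by decide)
  have n12 : (σ 1 : ℕ) ≠ (σ 2 : ℕ) := fun h => absurd (σ.injective (Fin.ext h)) (by decide)
  have hall : ((σ 0 : ℕ) = 0 ∧ (σ 1 : ℕ) = 1 ∧ (σ 2 : ℕ) = 2) ∨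
      ((σ 0 : ℕ) = 0 ∧ (σ 1 : ℕ) = 2 ∧ (σ 2 : ℕ) = 1) ∨
      ((σ 0 : ℕ) = 1 ∧ (σ 1 : ℕ) = 0 ∧ (σ 2 : ℕ) = 2) ∨
      ((σ 0 : ℕ) = 1 ∧ (σ 1 : ℕ) = 2 ∧ (σ 2 : ℕ) = 0) ∨
      ((σ 0 : ℕ) = 2 ∧ (σ 1 : ℕ) = 0 ∧ (σ 2 : ℕ) = 1) ∨
      ((σ 0 : ℕ) = 2 ∧ (σ 1 : ℕ) = 1 ∧ (σ 2 : ℕ) = 0) := by
    omega
  rcases hall with ⟨e0, e1, e2⟩ | ⟨e0, e1, e2⟩ | ⟨e0, e1, e2⟩ | ⟨e0, e1, e2⟩ | ⟨e0, e1, e2⟩ |
    ⟨e0, e1, e2⟩
  · rw [ToC_vec (fun i => (σ i : ℕ)) 0 1 2 e0 e1 e2]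
    exact ToC_three _ _ (by decide) a
  · rw [ToC_vec (fun i => (σ i : ℕ)) 0 2 1 e0 e1 e2]
    exact ToC_three _ _ (by decide) b
  · rw [ToC_vec (fun i => (σ i : ℕ)) 1 0 2 e0 e1 e2]
    exact ToC_three _ _ (by decide) c
  · rw [ToC_vec (fun i => (σ i : ℕ)) 1 2 0 e0 e1 e2]
    exact ToC_three _ _ (by decide) d
  · rw [ToC_vec (fun i => (σ i : ℕ)) 2 0 1 e0 e1 e2]
    exact ToC_three _ _ (by decide) e
  · rw [ToC_vec (fun i => (σ i : ℕ)) 2 1 0 e0 e1 e2]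
    exact ToC_three _ _ (by decide) f

/-- a word with three letters -/
private theorem ToC_wvec (w : Fin 3 → Bool) (a b c : Bool) (h0 : w 0 = a) (h1 : w 1 = b) (h2 : w 2 = c) :
    w = ![a, b, c] := by
  funext i
  fin_cases i
  · exact h0
  · exact h1
  · exact h2

/-- all eight words of three comparisons -/
theorem toWords (h1 : Ord4 ![0, 1, 2, 3]) (h2 : Ord4 ![3, 2, 1, 0]) (h3 : Ord4 ![2, 1, 0, 3])
    (h4 : Ord4 ![3, 0, 1, 2]) (h5 : Ord4 ![0, 1, 3, 2]) (h6 : Ord4 ![1, 0, 3, 2]) (h7 : Ord4 ![2, 3, 1, 0])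
    (h8 : Ord4 ![2, 3, 0, 1]) : SwStmt := by
  intro w
  rcases ha : w 0 with _ | _ <;> rcases hb : w 1 with _ | _ <;> rcases hc : w 2 with _ | _ <;>
    rw [ToC_wvec w _ _ _ ha hb hc]
  · exact ToC_word _ _ (by decide) h2
  · exact ToC_word _ _ (by decide) h3
  · exact ToC_word _ _ (by decide) h6
  · exact ToC_word _ _ (by decide) h4
  · exact ToC_word _ _ (by decide) h7
  · exact ToC_word _ _ (by decide) h8
  · exact ToC_word _ _ (by decide) h5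
  · exact ToC_word _ _ (by decide) h1

end Pool.Agent.Lib.RU
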