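import Pool.Agent.Lib.RU.SpecX

/-!
PROJECT TO, module ToX: assembly for one order (adapted from SoU, helper85).
-/

set_option autoImplicit false

namespace Pool.Agent.Lib.RU

open Finset

theorem tToX (h1 : BkUStmt) (h2 : LwQStmt) (h3 : CoQStmt) (h4 : GePStmt) (h5 : RcWStmt)
    (h6 : FrWStmt) : ToXStmt := by
  intro v hv C ε hε
  have hg : 1 ≤ gM := by
    unfold gM
    norm_num
  have hgg : 1 ≤ gM * gM := Nat.one_le_iff_ne_zero.mpr (Nat.mul_ne_zero (by omega) (by omega))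
  obtain ⟨n, hn, hMk⟩ := h1 (gM * gM) hgg
  have hK : 1 ≤ gM * gM * n :=
    Nat.one_le_iff_ne_zero.mpr (Nat.mul_ne_zero (by omega) (by omega))
  have hW : 1 ≤ gM * n := Nat.one_le_iff_ne_zero.mpr (Nat.mul_ne_zero (by omega) (by omega))
  have hKW : gM * gM * n = gM * n * gM := by ring
  obtain ⟨ρ, hρ⟩ := hv (gM * gM * n) (gM * n) gM hW hKW
  have hCo := h3 (gM * gM * n) (Hits (gM * gM) n) hK (h2 _ _ hK hMk)
  refine h6 (gM * gM * n) (Hits (gM * gM) n) v ρ C ε hK hε hCo (h4 _ C ρ hK) ?_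
  intro S hS
  obtain ⟨q1, q2, hq, hq2, hr⟩ := h5 n S hn hS
  exact hρ q1 q2 S hq2 ⟨hq, hr⟩

end Pool.Agent.Lib.RU
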