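import Pool.Agent.Lib.RU.SpecW

/-!
PROJECT SO part W, module WnG (helper81, after WnF of helper89): the window at the beginning of the second rich
group, six elements.
-/

set_option autoImplicit false

namespace Pool.Agent.Lib.RU

open Finset

/-- the smallest element of a set with a property -/
private theorem WnG_min {K : ℕ} (S : Finset (Fin K)) (p : Fin K → Prop) (h : ∃ x ∈ S, p x) :
    ∃ y ∈ S, p y ∧ ∀ x ∈ S, p x → y ≤ x := by
  classical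
  obtain ⟨x, hx, hpx⟩ := h
  have hne : (S.filter p).Nonempty := ⟨x, mem_filter.2 ⟨hx, hpx⟩⟩
  have hm := mem_filter.1 (Finset.min'_mem (S.filter p) hne)
  exact ⟨(S.filter p).min' hne, hm.1, hm.2, fun z hz hpz => Finset.min'_le _ _ (mem_filter.2 ⟨hz, hpz⟩)⟩

/-- the largest element of a set with a property -/
private theorem WnG_max {K : ℕ} (S : Finset (Fin K)) (p : Fin K → Prop) (h : ∃ x ∈ S, p x) :
    ∃ y ∈ S, p y ∧ ∀ x ∈ S, p x → x ≤ y := by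
  classical
  obtain ⟨x, hx, hpx⟩ := h
  have hne : (S.filter p).Nonempty := ⟨x, mem_filter.2 ⟨hx, hpx⟩⟩
  have hm := mem_filter.1 (Finset.max'_mem (S.filter p) hne)
  exact ⟨(S.filter p).max' hne, hm.1, hm.2, fun z hz hpz => Finset.le_max' _ _ (mem_filter.2 ⟨hz, hpz⟩)⟩

theorem tWnG : WnGStmt := by
  intro K W q1 q2 S hR
  obtain ⟨hq, hR⟩ := hR
  obtain ⟨a0, a1, a2, a3, ha0, ha1, ha2, ha3, ha01, ha12, ha23, -, ha3W⟩ := hR q1 (Or.inl rfl)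
  obtain ⟨b0, b1, b2, b3, hb0, hb1, hb2, hb3, hb01, hb12, hb23, hbW, hb3W⟩ := hR q2 (Or.inr rfl)
  have hWW : W * (q1 + 1) ≤ W * q2 := Nat.mul_le_mul_left _ hq
  have ha01' : (a0 : ℕ) < a1 := ha01
  have ha12' : (a1 : ℕ) < a2 := ha12
  have ha23' : (a2 : ℕ) < a3 := ha23
  have hb01' : (b0 : ℕ) < b1 := hb01
  have hb12' : (b1 : ℕ) < b2 := hb12
  have hb23' : (b2 : ℕ) < b3 := hb23
  -- y0
  obtain ⟨y0, hy0, hy0W, hy0m⟩ := WnG_min S (fun x => W * q2 ≤ (x : ℕ)) ⟨b0, hb0, hbW⟩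
  have hy0b : (y0 : ℕ) ≤ b0 := hy0m b0 hb0 hbW
  -- y1
  obtain ⟨y1, hy1, hy01, hy1m⟩ := WnG_min S (fun x => y0 < x) ⟨b1, hb1, by
    show (y0 : ℕ) < b1
    omega⟩
  have hy01' : (y0 : ℕ) < y1 := hy01
  have hy1b : (y1 : ℕ) ≤ b1 := hy1m b1 hb1 (by
    show (y0 : ℕ) < b1
    omega)
  -- y2
  obtain ⟨y2, hy2, hy12, hy2m⟩ := WnG_min S (fun x => y1 < x) ⟨b2, hb2, by
    show (y1 : ℕ) < b2
    omega⟩
  have hy12' : (y1 : ℕ) < y2 := hy12
  have hy2b : (y2 : ℕ) ≤ b2 := hy2m b2 hb2 (by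
    show (y1 : ℕ) < b2
    omega)
  -- y3
  obtain ⟨y3, hy3, hy23, hy3m⟩ := WnG_min S (fun x => y2 < x) ⟨b3, hb3, by
    show (y2 : ℕ) < b3
    omega⟩
  have hy23' : (y2 : ℕ) < y3 := hy23
  have hy3b : (y3 : ℕ) ≤ b3 := hy3m b3 hb3 (by
    show (y2 : ℕ) < b3
    omega)
  -- z
  obtain ⟨z, hz, hzy, hzm⟩ := WnG_max S (fun x => x < y0) ⟨a3, ha3, by
    show (a3 : ℕ) < y0
    omega⟩
  have hzy' : (z : ℕ) < y0 := hzy
  have ha3z : (a3 : ℕ) ≤ z := hzm a3 ha3 (by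
    show (a3 : ℕ) < y0
    omega)
  have hzW : (z : ℕ) < W * q2 := by
    by_contra hcon
    have h1 : (y0 : ℕ) ≤ z := hy0m z hz (not_lt.1 hcon)
    omega
  -- z'
  obtain ⟨z', hz', hzz, hz'm⟩ := WnG_max S (fun x => x < z) ⟨a2, ha2, by
    show (a2 : ℕ) < z
    omega⟩
  refine ⟨z', z, y0, y1, y2, y3, hzz, hzy, hy01, hy12, hy23, hz', hz, hy0, hy1, hy2, hy3, ?_, hzW,
    hy0W, by omega⟩
  intro x hx hx1 hx2
  have hx1' : (z' : ℕ) < x := hx1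
  have hx2' : (x : ℕ) < y3 := hx2
  rcases lt_trichotomy (x : ℕ) z with h | h | h
  · have h1 : (x : ℕ) ≤ z' := hz'm x hx h
    omega
  · exact Or.inl (Fin.ext h)
  · right
    rcases lt_trichotomy (x : ℕ) y0 with h2 | h2 | h2
    · have h1 : (x : ℕ) ≤ z := hzm x hx h2
      omega
    · exact Or.inl (Fin.ext h2)
    · right
      have h3 : (y1 : ℕ) ≤ x := hy1m x hx h2
      rcases Nat.lt_or_ge (y1 : ℕ) x with h4 | h4
      · right
        have h5 : (y2 : ℕ) ≤ x := hy2m x hx h4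
        rcases Nat.lt_or_ge (y2 : ℕ) x with h6 | h6
        · have h7 : (y3 : ℕ) ≤ x := hy3m x hx h6
          omega
        · exact Fin.ext (le_antisymm h6 h5)
      · exact Or.inl (Fin.ext (le_antisymm h4 h3))

end Pool.Agent.Lib.RU
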