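import Pool.Agent.Lib.RU.SpecW

/-! Project SO, part W: the window of six elements at the end of the first rich group. -/

set_option autoImplicit false

namespace Pool.Agent.Lib.RU

open Finset

private theorem WnM_max {K : ℕ} (S : Finset (Fin K)) (P : Fin K → Prop) (x0 : Fin K)
    (h0 : x0 ∈ S) (h1 : P x0) : ∃ p ∈ S, P p ∧ x0 ≤ p ∧ ∀ x ∈ S, P x → x ≤ p := by
  classical
  have hne : (S.filter P).Nonempty := ⟨x0, Finset.mem_filter.2 ⟨h0, h1⟩⟩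
  have hp := Finset.mem_filter.1 (Finset.max'_mem _ hne)
  exact ⟨(S.filter P).max' hne, hp.1, hp.2,
    Finset.le_max' _ _ (Finset.mem_filter.2 ⟨h0, h1⟩),
    fun x hx hPx => Finset.le_max' _ _ (Finset.mem_filter.2 ⟨hx, hPx⟩)⟩

private theorem WnM_min {K : ℕ} (S : Finset (Fin K)) (P : Fin K → Prop) (x0 : Fin K)
    (h0 : x0 ∈ S) (h1 : P x0) : ∃ p ∈ S, P p ∧ p ≤ x0 ∧ ∀ x ∈ S, P x → p ≤ x := by
  classical
  have hne : (S.filter P).Nonempty := ⟨x0, Finset.mem_filter.2 ⟨h0, h1⟩⟩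
  have hp := Finset.mem_filter.1 (Finset.min'_mem _ hne)
  exact ⟨(S.filter P).min' hne, hp.1, hp.2,
    Finset.min'_le _ _ (Finset.mem_filter.2 ⟨h0, h1⟩),
    fun x hx hPx => Finset.min'_le _ _ (Finset.mem_filter.2 ⟨hx, hPx⟩)⟩

theorem tWnM : WnMStmt := by
  intro K W q1 q2 S hR
  obtain ⟨hq, hg⟩ := hR
  obtain ⟨x0, x1, x2, x3, hx0, hx1, hx2, hx3, h01, h12, h23, hlo, hhi⟩ := hg q1 (Or.inl rfl)
  obtain ⟨y0, y1, -, -, hy0, hy1, -, -, hy01, -, -, hylo, -⟩ := hg q2 (Or.inr rfl)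
  have hW : W * (q1 + 1) ≤ W * q2 := Nat.mul_le_mul_left W hq
  obtain ⟨b, hbS, hbW, hb3, hbmax⟩ :=
    WnM_max S (fun x => (x : ℕ) < W * (q1 + 1)) x3 hx3 hhi
  obtain ⟨a, haS, hab, ha2, hamax⟩ :=
    WnM_max S (fun x => x < b) x2 hx2 (lt_of_lt_of_le h23 hb3)
  obtain ⟨a', ha'S, ha'a, ha'1, ha'max⟩ :=
    WnM_max S (fun x => x < a) x1 hx1 (lt_of_lt_of_le h12 ha2)
  obtain ⟨c, hcS, hca', hc0, hcmax⟩ :=
    WnM_max S (fun x => x < a') x0 hx0 (lt_of_lt_of_le h01 ha'1)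
  have hby0 : b < y0 := by
    rw [Fin.lt_def]
    omega
  obtain ⟨b', hb'S, hbb', hb'y, hb'min⟩ := WnM_min S (fun x => b < x) y0 hy0 hby0
  obtain ⟨b'', hb''S, hb'b'', hb''y, hb''min⟩ :=
    WnM_min S (fun x => b' < x) y1 hy1 (lt_of_le_of_lt hb'y hy01)
  have hb'W : W * (q1 + 1) ≤ (b' : ℕ) := by
    by_contra hcon
    exact absurd (hbmax b' hb'S (not_le.1 hcon)) (not_le.2 hbb')
  refine ⟨c, a', a, b, b', b'', hca', ha'a, hab, hbb', hb'b'', hcS, ha'S, haS, hbS, hb'S, hb''S,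
    ?_, le_trans hlo (Fin.le_def.1 hc0), hbW, hb'W⟩
  intro x hxS hcx hxb
  rcases lt_trichotomy x a' with h | h | h
  · exact absurd (hcmax x hxS h) (not_le.2 hcx)
  · exact Or.inl h
  rcases lt_trichotomy x a with h' | h' | h'
  · exact absurd (ha'max x hxS h') (not_le.2 h)
  · exact Or.inr (Or.inl h')
  rcases lt_trichotomy x b with h'' | h'' | h''
  · exact absurd (hamax x hxS h'') (not_le.2 h')
  · exact Or.inr (Or.inr (Or.inl h''))
  rcases lt_trichotomy x b' with h3 | h3 | h3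
  · exact absurd (hb'min x hxS h'') (not_le.2 h3)
  · exact Or.inr (Or.inr (Or.inr h3))
  · exact absurd (hb''min x hxS h3) (not_le.2 hxb)

end Pool.Agent.Lib.RU
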