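import Pool.Agent.Lib.RU.AllV
import Pool.Agent.Lib.RU.BkC
import Pool.Agent.Lib.RU.BkU
import Pool.Agent.Lib.RU.LwQ
import Pool.Agent.Lib.RU.CoQ
import Pool.Agent.Lib.RU.GeP
import Pool.Agent.Lib.RU.RcW
import Pool.Agent.Lib.RU.WnM
import Pool.Agent.Lib.RU.WnG
import Pool.Agent.Lib.RU.PbA
import Pool.Agent.Lib.RU.PbB
import Pool.Agent.Lib.RU.PbC
import Pool.Agent.Lib.RU.PbD
import Pool.Agent.Lib.RU.PbE
import Pool.Agent.Lib.RU.PbF
import Pool.Agent.Lib.RU.WiW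
import Pool.Agent.Lib.RU.FrW
import Pool.Agent.Lib.RU.ToX
import Pool.Agent.Lib.RU.ToC

/-!
PROJECT TO (helper82, helper7): composition, the twelve orders of four consecutive gaps.
-/

set_option autoImplicit false

namespace Pool.Agent.Lib.RU.T

open Pool.Agent.Lib.MP_9f2731_nt.GP
open Pool.Agent.Lib.MP_9f2731_nt.QL
open Pool.Agent.Lib.MP_9f2731_nt.CG
open Pool.Agent.Lib.BE

theorem zBkU : BkUStmt := tBkU aTnC tBkC aMaC aMbC tMhC aUpC aPrC aMgR (tMeU Ma.aPfB)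
theorem zLwQ : LwQStmt := tLwQ aBfU aVhU (tAlU tApU)
theorem zCoQ : CoQStmt := tCoQ aUpU (tSgU tTmU)
theorem zToX : ToXStmt := tToX zBkU zLwQ zCoQ tGeP tRcW (tFrW tWiW)

theorem o1234 : Ord4 ![0, 1, 2, 3] := zToX _ (tPbA tWnM).2.1
theorem o1243 : Ord4 ![0, 1, 3, 2] := zToX _ (tPbC tWnM).1
theorem o1423 : Ord4 ![0, 3, 1, 2] := zToX _ (tPbE tWnG).1
theorem o1432 : Ord4 ![0, 3, 2, 1] := zToX _ (tPbE tWnG).2
theorem o2143 : Ord4 ![1, 0, 3, 2] := zToX _ (tPbC tWnM).2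
theorem o2341 : Ord4 ![1, 2, 3, 0] := zToX _ (tPbF tWnM).1
theorem o3214 : Ord4 ![2, 1, 0, 3] := zToX _ (tPbA tWnM).1
theorem o3241 : Ord4 ![2, 1, 3, 0] := zToX _ (tPbF tWnM).2
theorem o3412 : Ord4 ![2, 3, 0, 1] := zToX _ (tPbD tWnG).2
theorem o3421 : Ord4 ![2, 3, 1, 0] := zToX _ (tPbD tWnG).1
theorem o4123 : Ord4 ![3, 0, 1, 2] := zToX _ (tPbB tWnG)
theorem o4321 : Ord4 ![3, 2, 1, 0] := zToX _ (tPbA tWnM).2.2

/-- all six orders of three consecutive gaps -/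
theorem six : SoStmt := toSix o1234 o1432 o2143 o3421 o4123 o4321

/-- all eight words of three comparisons -/
theorem words : SwStmt := toWords o1234 o4321 o3214 o4123 o1243 o2143 o3421 o3412

end Pool.Agent.Lib.RU.T
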