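import Pool.Agent.Lib.RU.Spec

/-!
PROJECT RU, module ApU: product formula for the number of the admissible classes.
-/

set_option autoImplicit false

namespace Pool.Agent.Lib.RU

open Finset
open Pool.Agent.Lib.MP_9f2731_nt.GP
open Pool.Agent.Lib.MP_9f2731_nt.GP.Sv
open Pool.Agent.Lib.MP_9f2731_nt.QL
open Pool.Agent.Lib.MP_9f2731_nt.QL.Sw
open Pool.Agent.Lib.MP_9f2731_nt.CG
open Pool.Agent.Lib.MP_9f2731_nt.CG.Ma
open Pool.Agent.Lib.MP_9f2731_nt.CG.Mf
open Pool.Agent.Lib.BE

private theorem ApU_cop {m a b c : ℕ} (h : a ≡ b [MOD m]) :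
    (a + c).Coprime m ↔ (b + c).Coprime m := by
  have h1 : a + c ≡ b + c [MOD m] := Nat.ModEq.add_right c h
  have h2 := h1.gcd_eq
  unfold Nat.Coprime
  rw [h2]

private theorem ApU_mul (k : ℕ) (h : Fin k → ℕ) (m n : ℕ) (hm : m ≠ 0) (hn : n ≠ 0)
    (co : m.Coprime n) :
    ((range (m * n)).filter (fun ν => ∀ j, (ν + h j).Coprime (m * n))).card =
      ((range m).filter (fun ν => ∀ j, (ν + h j).Coprime m)).card *
        ((range n).filter (fun ν => ∀ j, (ν + h j).Coprime n)).card := by
  rw [← Finset.card_product]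
  refine Finset.card_bij (fun ν _ => (ν % m, ν % n)) ?_ ?_ ?_
  · intro ν hν
    obtain ⟨_, h2⟩ := Finset.mem_filter.mp hν
    rw [Finset.mem_product, Finset.mem_filter, Finset.mem_filter, Finset.mem_range,
      Finset.mem_range]
    refine ⟨⟨Nat.mod_lt _ (Nat.pos_of_ne_zero hm), fun j => ?_⟩,
      ⟨Nat.mod_lt _ (Nat.pos_of_ne_zero hn), fun j => ?_⟩⟩
    · exact (ApU_cop (Nat.mod_modEq ν m)).mpr (Nat.Coprime.coprime_mul_right_right (h2 j))
    · exact (ApU_cop (Nat.mod_modEq ν n)).mpr (Nat.Coprime.coprime_mul_left_right (h2 j))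
  · intro a ha b hb hab
    have ha' := Finset.mem_range.mp (Finset.mem_filter.mp ha).1
    have hb' := Finset.mem_range.mp (Finset.mem_filter.mp hb).1
    have h1 : a ≡ b [MOD m] := congrArg Prod.fst hab
    have h2 : a ≡ b [MOD n] := congrArg Prod.snd hab
    have h3 : a ≡ b [MOD m * n] := (Nat.modEq_and_modEq_iff_modEq_mul co).mp ⟨h1, h2⟩
    exact Nat.ModEq.eq_of_lt_of_lt h3 ha' hb'
  · rintro ⟨a, b⟩ hab
    rw [Finset.mem_product, Finset.mem_filter, Finset.mem_filter, Finset.mem_range,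
      Finset.mem_range] at hab
    obtain ⟨⟨ha, ha2⟩, ⟨hb, hb2⟩⟩ := hab
    have ha' : a < m := ha
    have hb' : b < n := hb
    have hx := (Nat.chineseRemainder co a b).2
    have hlt := Nat.chineseRemainder_lt_mul co a b hm hn
    refine ⟨(Nat.chineseRemainder co a b : ℕ), ?_, ?_⟩
    · rw [Finset.mem_filter, Finset.mem_range]
      refine ⟨hlt, fun j => ?_⟩
      exact Nat.Coprime.mul_right ((ApU_cop hx.1).mpr (ha2 j)) ((ApU_cop hx.2).mpr (hb2 j))
    · refine Prod.ext ?_ ?_
      · have h1 : (Nat.chineseRemainder co a b : ℕ) % m = a % m := hx.1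
        show (Nat.chineseRemainder co a b : ℕ) % m = a
        rw [h1, Nat.mod_eq_of_lt ha']
      · have h1 : (Nat.chineseRemainder co a b : ℕ) % n = b % n := hx.2
        show (Nat.chineseRemainder co a b : ℕ) % n = b
        rw [h1, Nat.mod_eq_of_lt hb']

private theorem ApU_prime (k : ℕ) (h : Fin k → ℕ) (p : ℕ) (hp : p.Prime) :
    ((range p).filter (fun ν => ∀ j, (ν + h j).Coprime p)).card =
      ((range p).filter (fun ν => ∀ j, ¬ p ∣ ν + h j)).card := by
  congr 1
  refine Finset.filter_congr fun ν _ => ?_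
  refine forall_congr' fun j => ?_
  rw [Nat.coprime_comm, Nat.Prime.coprime_iff_not_dvd hp]

theorem tApU : ApUStmt := by
  intro k V h
  induction V using Nat.recOnPosPrimePosCoprime with
  | prime_pow p n hp hn =>
    intro hs
    have h1 : n = 1 := by
      by_contra hne
      have h2 : 2 ≤ n := by omega
      have h3 : p * p ∣ p ^ n := by
        rw [← sq]
        exact pow_dvd_pow p h2
      exact hp.one_lt.ne' (Nat.isUnit_iff.mp (hs p h3))
    rw [h1, pow_one, hp.primeFactors, Finset.prod_singleton]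
    exact ApU_prime k h p hp
  | zero =>
    intro hs
    exact absurd hs not_squarefree_zero
  | one =>
    intro _
    simp
  | coprime a b ha hb co iha ihb =>
    intro hs
    have ha0 : a ≠ 0 := by omega
    have hb0 : b ≠ 0 := by omega
    rw [ApU_mul k h a b ha0 hb0 co, iha (hs.of_mul_left), ihb (hs.of_mul_right),
      Nat.primeFactors_mul ha0 hb0, Finset.prod_union co.disjoint_primeFactors]

end Pool.Agent.Lib.RU
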