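import Pool.Agent.Lib.RU.Spec

/-!
Module AuU: the number of the admissible classes, upper bound.
-/

set_option autoImplicit false

namespace Pool.Agent.Lib.RU

open Finset
open Pool.Agent.Lib.MP_9f2731_nt.GP Pool.Agent.Lib.MP_9f2731_nt.GP.Sv Pool.Agent.Lib.MP_9f2731_nt.QL
  Pool.Agent.Lib.MP_9f2731_nt.QL.Sw Pool.Agent.Lib.MP_9f2731_nt.CG Pool.Agent.Lib.MP_9f2731_nt.CG.Ma
  Pool.Agent.Lib.MP_9f2731_nt.CG.Mf Pool.Agent.Lib.BE

/-- The product of the differences is not zero. -/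
private theorem AuU_ne {k : ℕ} (h : Fin k → ℕ) (hh : Function.Injective h) : Del h ≠ 0 := by
  unfold Del
  rw [Finset.prod_ne_zero_iff]
  rintro ⟨i, j⟩ hq
  simp only [mem_filter, mem_univ, true_and] at hq
  intro h0
  have h1 : h i = h j := Nat.eq_of_dist_eq_zero h0
  exact hq.ne (hh h1)

/-- The differences divide the product. -/
private theorem AuU_dvd {k : ℕ} (h : Fin k → ℕ) (i j : Fin k) (hij : i ≠ j) :
    Nat.dist (h i) (h j) ∣ Del h := by
  unfold Del
  rcases lt_or_gt_of_ne hij with hlt | hlt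
  · exact Finset.dvd_prod_of_mem (fun q : Fin k × Fin k => Nat.dist (h q.1) (h q.2))
      (show (i, j) ∈ _ by simpa using hlt)
  · rw [Nat.dist_comm]
    exact Finset.dvd_prod_of_mem (fun q : Fin k × Fin k => Nat.dist (h q.1) (h q.2))
      (show (j, i) ∈ _ by simpa using hlt)

/-- The classes modulo a prime which does not divide a difference. -/
private theorem AuU_cnt {k : ℕ} (h : Fin k → ℕ) (p : ℕ) (hp : p.Prime) (hd : ¬ p ∣ Del h) :
    ((range p).filter (fun ν => ∀ j, ¬ p ∣ ν + h j)).card + k ≤ p := by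
  classical
  have hp0 : 0 < p := hp.pos
  have hf1 : ∀ j : Fin k, (p - h j % p) % p < p := fun j => Nat.mod_lt _ hp0
  have hf2 : ∀ j : Fin k, p ∣ (p - h j % p) % p + h j := by
    intro j
    rw [Nat.dvd_iff_mod_eq_zero, Nat.mod_add_mod, Nat.add_mod]
    have h1 : h j % p < p := Nat.mod_lt _ hp0
    rcases Nat.eq_zero_or_pos (h j % p) with h2 | h2
    · simp [h2]
    · have h3 : (p - h j % p) % p = p - h j % p := Nat.mod_eq_of_lt (by omega)
      rw [h3, Nat.sub_add_cancel h1.le, Nat.mod_self]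
  have hf3 : Function.Injective fun j : Fin k => (p - h j % p) % p := by
    intro i j hij
    by_contra hne
    apply hd
    refine dvd_trans ?_ (AuU_dvd h i j hne)
    have h1 := hf2 i
    have h2 := hf2 j
    have hij' : (p - h i % p) % p = (p - h j % p) % p := hij
    rw [hij'] at h1
    have e1 : Nat.dist (h i) (h j) =
        Nat.dist ((p - h j % p) % p + h i) ((p - h j % p) % p + h j) := by
      rw [Nat.dist_add_add_left]
    rw [e1]
    unfold Nat.dist
    exact dvd_add (Nat.dvd_sub h1 h2) (Nat.dvd_sub h2 h1)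
  have hsub : (univ : Finset (Fin k)).image (fun j : Fin k => (p - h j % p) % p) ⊆
      (range p).filter (fun ν => ¬ ∀ j, ¬ p ∣ ν + h j) := by
    intro ν hν
    obtain ⟨j, _, rfl⟩ := Finset.mem_image.1 hν
    simp only [mem_filter, mem_range]
    exact ⟨hf1 j, fun hall => hall j (hf2 j)⟩
  have hk : k ≤ ((range p).filter (fun ν => ¬ ∀ j, ¬ p ∣ ν + h j)).card := by
    have h1 := Finset.card_le_card hsub
    rwa [Finset.card_image_of_injective _ hf3, Finset.card_univ, Fintype.card_fin] at h1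
  have htot : ((range p).filter (fun ν => ∀ j, ¬ p ∣ ν + h j)).card +
      ((range p).filter (fun ν => ¬ ∀ j, ¬ p ∣ ν + h j)).card = p := by
    rw [Finset.card_filter_add_card_filter_not, card_range]
  omega

/-- The quotient `n / φ(n)`. -/
private theorem AuU_phi (n : ℕ) :
    ((n.totient : ℕ) : ℝ) = n * ∏ p ∈ n.primeFactors, (1 - (p : ℝ)⁻¹) := by
  have h1 := congrArg (fun x : ℚ => (x : ℝ)) (Nat.totient_eq_mul_prod_factors n)
  push_cast at h1
  exact h1

theorem tAuU (h1 : ApUStmt) : AuUStmt := by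
  classical
  intro k V h hk hV hh
  have hV0 : V ≠ 0 := hV.ne_zero
  have hD0 : Del h ≠ 0 := AuU_ne h hh
  have hVR : (V : ℝ) ≠ 0 := by exact_mod_cast hV0
  have hDR : (Del h : ℝ) ≠ 0 := by exact_mod_cast hD0
  rw [h1 k V h hV]
  have hpos : ∀ p : ℕ, p.Prime → 0 < 1 - (p : ℝ)⁻¹ ∧ 1 - (p : ℝ)⁻¹ ≤ 1 := by
    intro p hp
    have h2 : (1 : ℝ) < p := by exact_mod_cast hp.one_lt
    have h3 : (p : ℝ)⁻¹ < 1 := inv_lt_one_of_one_lt₀ h2
    have h4 : 0 < (p : ℝ)⁻¹ := by positivity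
    constructor <;> linarith
  have eV : (V : ℝ) * ((V.totient : ℝ) / V) ^ k =
      ∏ p ∈ V.primeFactors, ((p : ℝ) * (1 - (p : ℝ)⁻¹) ^ k) := by
    rw [Finset.prod_mul_distrib, Finset.prod_pow, AuU_phi V, mul_div_cancel_left₀ _ hVR]
    congr 1
    have h2 := Nat.prod_primeFactors_of_squarefree hV
    calc (V : ℝ) = ((∏ p ∈ V.primeFactors, p : ℕ) : ℝ) := by rw [h2]
      _ = _ := by rw [Nat.cast_prod]
  have eD : ((Del h : ℝ) / (Del h).totient) ^ k =
      ∏ p ∈ (Del h).primeFactors, ((1 - (p : ℝ)⁻¹)⁻¹) ^ k := by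
    rw [Finset.prod_pow, AuU_phi (Del h), Finset.prod_inv_distrib]
    congr 1
    rw [div_mul_eq_div_div, div_self hDR, one_div]
  have hfac : ∀ p ∈ V.primeFactors,
      (((range p).filter (fun ν => ∀ j, ¬ p ∣ ν + h j)).card : ℝ) ≤
        ((p : ℝ) * (1 - (p : ℝ)⁻¹) ^ k) *
          (if p ∈ (Del h).primeFactors then ((1 - (p : ℝ)⁻¹)⁻¹) ^ k else 1) := by
    intro p hp
    have hpp : p.Prime := Nat.prime_of_mem_primeFactors hp
    obtain ⟨hq0, hq1⟩ := hpos p hpp
    by_cases hd : p ∈ (Del h).primeFactors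
    · rw [if_pos hd, mul_assoc, ← mul_pow, mul_inv_cancel₀ hq0.ne', one_pow, mul_one]
      have h2 : ((range p).filter (fun ν => ∀ j, ¬ p ∣ ν + h j)).card ≤ p := by
        refine (Finset.card_filter_le _ _).trans ?_
        rw [card_range]
      exact_mod_cast h2
    · rw [if_neg hd, mul_one]
      have hd' : ¬ p ∣ Del h := fun h2 => hd (Nat.mem_primeFactors.2 ⟨hpp, h2, hD0⟩)
      have h2 := AuU_cnt h p hpp hd'
      have h3 : (((range p).filter (fun ν => ∀ j, ¬ p ∣ ν + h j)).card : ℝ) + k ≤ p := by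
        exact_mod_cast h2
      have hpR : (0 : ℝ) < p := by exact_mod_cast hpp.pos
      have h4 : 1 + (k : ℝ) * (-(p : ℝ)⁻¹) ≤ (1 + -(p : ℝ)⁻¹) ^ k :=
        one_add_mul_le_pow (by linarith) k
      have h5 : (p : ℝ) * (1 + (k : ℝ) * (-(p : ℝ)⁻¹)) = p - k := by
        field_simp
        ring
      have h6 : (p : ℝ) * (1 + (k : ℝ) * (-(p : ℝ)⁻¹)) ≤ p * (1 + -(p : ℝ)⁻¹) ^ k :=
        mul_le_mul_of_nonneg_left h4 hpR.le
      rw [← sub_eq_add_neg] at h6
      linarith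
  have hsplit : ∏ p ∈ V.primeFactors,
      (if p ∈ (Del h).primeFactors then ((1 - (p : ℝ)⁻¹)⁻¹) ^ k else 1) ≤
      ∏ p ∈ (Del h).primeFactors, ((1 - (p : ℝ)⁻¹)⁻¹) ^ k := by
    rw [← Finset.prod_filter]
    have hss : V.primeFactors.filter (fun p => p ∈ (Del h).primeFactors) ⊆
        (Del h).primeFactors := fun p hp => (Finset.mem_filter.1 hp).2
    rw [← Finset.prod_sdiff hss]
    have hge : ∀ p ∈ (Del h).primeFactors, 1 ≤ ((1 - (p : ℝ)⁻¹)⁻¹) ^ k := by
      intro p hp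
      obtain ⟨hq0, hq1⟩ := hpos p (Nat.prime_of_mem_primeFactors hp)
      exact one_le_pow₀ ((one_le_inv₀ hq0).2 hq1)
    have h2 : 1 ≤ ∏ p ∈ (Del h).primeFactors \
        V.primeFactors.filter (fun p => p ∈ (Del h).primeFactors), ((1 - (p : ℝ)⁻¹)⁻¹) ^ k := by
      have h4 := Finset.prod_le_prod (s := (Del h).primeFactors \
        V.primeFactors.filter (fun p => p ∈ (Del h).primeFactors)) (f := fun _ : ℕ => (1 : ℝ))
        (g := fun p : ℕ => ((1 - (p : ℝ)⁻¹)⁻¹) ^ k) (fun _ _ => zero_le_one)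
        (fun p hp => hge p (Finset.mem_sdiff.1 hp).1)
      rwa [Finset.prod_const_one] at h4
    have h3 : 0 ≤ ∏ p ∈ V.primeFactors.filter (fun p => p ∈ (Del h).primeFactors),
        ((1 - (p : ℝ)⁻¹)⁻¹) ^ k := by
      apply Finset.prod_nonneg
      intro p hp
      exact zero_le_one.trans (hge p (hss hp))
    exact le_mul_of_one_le_left h3 h2
  rw [eV, eD]
  push_cast
  calc ∏ p ∈ V.primeFactors, (((range p).filter (fun ν => ∀ j, ¬ p ∣ ν + h j)).card : ℝ)
      ≤ ∏ p ∈ V.primeFactors, (((p : ℝ) * (1 - (p : ℝ)⁻¹) ^ k) *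
          (if p ∈ (Del h).primeFactors then ((1 - (p : ℝ)⁻¹)⁻¹) ^ k else 1)) :=
        Finset.prod_le_prod (fun p _ => Nat.cast_nonneg _) hfac
    _ = (∏ p ∈ V.primeFactors, ((p : ℝ) * (1 - (p : ℝ)⁻¹) ^ k)) *
          ∏ p ∈ V.primeFactors,
            (if p ∈ (Del h).primeFactors then ((1 - (p : ℝ)⁻¹)⁻¹) ^ k else 1) :=
        Finset.prod_mul_distrib
    _ ≤ _ := by
        apply mul_le_mul_of_nonneg_left hsplit
        apply Finset.prod_nonneg
        intro p hp
        obtain ⟨hq0, _⟩ := hpos p (Nat.prime_of_mem_primeFactors hp)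
        exact mul_nonneg (Nat.cast_nonneg _) (pow_nonneg hq0.le _)

end Pool.Agent.Lib.RU
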