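import Pool.Agent.Lib.RU.SpecV

set_option autoImplicit false

namespace Pool.Agent.Lib.RU

open Finset

theorem tRuV (h1 : FrVStmt) (h2 : GeVStmt) : RuVStmt := by
  intro r C ε hε
  obtain ⟨K, hK, hF⟩ := h1 r
  obtain ⟨δ, M0, hδ, hG⟩ := h2 K C hK
  obtain ⟨c1, hc1, N1, hN1⟩ := hF δ M0 C (fun x y => C * x < y) ε hδ hε (fun M hM => (hG M hM).1)
  obtain ⟨c2, hc2, N2, hN2⟩ := hF δ M0 C (fun x y => C * y < x) ε hδ hε (fun M hM => (hG M hM).2)
  refine ⟨min c1 c2, lt_min hc1 hc2, max N1 N2, ?_⟩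
  intro N hN
  have hN0 : (0 : ℝ) ≤ N := Nat.cast_nonneg N
  constructor
  · exact le_trans (mul_le_mul_of_nonneg_right (min_le_left _ _) hN0) (hN1 N ((le_max_left _ _).trans hN))
  · exact le_trans (mul_le_mul_of_nonneg_right (min_le_right _ _) hN0) (hN2 N ((le_max_right _ _).trans hN))

end Pool.Agent.Lib.RU
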