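import Pool.Agent.Lib.RU.Spec

/-!
PROJECT RU, module SgU (helper56): the mean over the injective tuples of the powers of Del h / phi(Del h)
is bounded.
-/

set_option autoImplicit false

namespace Pool.Agent.Lib.RU

open Finset
open Pool.Agent.Lib.MP_9f2731_nt.GP
open Pool.Agent.Lib.MP_9f2731_nt.CG
open Pool.Agent.Lib.BE

private lemma SgU_one_le (n : ℕ) (hn : n ≠ 0) : 1 ≤ (n : ℝ) / n.totient := by
  have h1 : (0 : ℝ) < n.totient := by
    exact_mod_cast Nat.totient_pos.2 (Nat.pos_of_ne_zero hn)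
  rw [le_div_iff₀ h1, one_mul]
  exact_mod_cast Nat.totient_le n

private lemma SgU_mul (a b : ℕ) (ha : a ≠ 0) (hb : b ≠ 0) :
    ((a * b : ℕ) : ℝ) / (a * b).totient ≤ ((a : ℝ) / a.totient) * ((b : ℝ) / b.totient) := by
  have h1 : (0 : ℝ) < a.totient := by
    exact_mod_cast Nat.totient_pos.2 (Nat.pos_of_ne_zero ha)
  have h2 : (0 : ℝ) < b.totient := by
    exact_mod_cast Nat.totient_pos.2 (Nat.pos_of_ne_zero hb)
  have h3 : (a.totient : ℝ) * b.totient ≤ (a * b).totient := by
    exact_mod_cast Nat.totient_super_multiplicative a b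
  rw [div_mul_div_comm]
  push_cast
  exact div_le_div_of_nonneg_left (by positivity) (mul_pos h1 h2) h3

private lemma SgU_prod {ι : Type*} (s : Finset ι) (g : ι → ℕ) (hg : ∀ x ∈ s, g x ≠ 0) :
    ((∏ x ∈ s, g x : ℕ) : ℝ) / (∏ x ∈ s, g x).totient ≤ ∏ x ∈ s, ((g x : ℝ) / (g x).totient) := by
  classical
  induction s using Finset.induction_on with
  | empty => simp
  | insert a s ha ih =>
    rw [Finset.prod_insert ha, Finset.prod_insert ha]
    have h1 : g a ≠ 0 := hg a (Finset.mem_insert_self _ _)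
    have h2 : ∀ x ∈ s, g x ≠ 0 := fun x hx => hg x (Finset.mem_insert_of_mem hx)
    have h3 : (∏ x ∈ s, g x) ≠ 0 := Finset.prod_ne_zero_iff.2 h2
    refine (SgU_mul _ _ h1 h3).trans ?_
    exact mul_le_mul_of_nonneg_left (ih h2) (by positivity)

private lemma SgU_pow {ι : Type*} (s : Finset ι) (hs : s.Nonempty) (F : ι → ℝ) (hF : ∀ x ∈ s, 1 ≤ F x)
    (q : ℕ) : (∏ x ∈ s, F x) ^ q ≤ ∑ x ∈ s, (F x) ^ (s.card * q) := by
  obtain ⟨x0, hx0, hmax⟩ := Finset.exists_max_image s F hs
  have h1 : ∏ x ∈ s, F x ≤ F x0 ^ s.card := by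
    calc ∏ x ∈ s, F x ≤ ∏ _x ∈ s, F x0 :=
          Finset.prod_le_prod (fun x hx => by linarith [hF x hx]) (fun x hx => hmax x hx)
      _ = F x0 ^ s.card := by rw [Finset.prod_const]
  have h0 : 0 ≤ ∏ x ∈ s, F x := Finset.prod_nonneg (fun x hx => by linarith [hF x hx])
  calc (∏ x ∈ s, F x) ^ q ≤ (F x0 ^ s.card) ^ q := pow_le_pow_left₀ h0 h1 q
    _ = F x0 ^ (s.card * q) := by rw [← pow_mul]
    _ ≤ ∑ x ∈ s, (F x) ^ (s.card * q) :=
        Finset.single_le_sum (f := fun x => (F x) ^ (s.card * q))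
          (fun x hx => pow_nonneg (by linarith [hF x hx]) _) hx0

private lemma SgU_line (G : ℕ → ℝ) (hG : ∀ n, 0 ≤ G n) (M a : ℕ) (ha : a ∈ Icc 1 M) :
    ∑ b ∈ (Icc 1 M).filter (fun b => b ≠ a), G (Nat.dist b a) ≤ 2 * ∑ n ∈ Icc 1 M, G n := by
  classical
  rw [Finset.mem_Icc] at ha
  have h1 : (Icc 1 M).filter (fun b => b ≠ a) =
      (Icc 1 M).filter (fun b => b < a) ∪ (Icc 1 M).filter (fun b => a < b) := by
    ext b
    simp only [Finset.mem_filter, Finset.mem_union, Finset.mem_Icc]
    omega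
  have h2 : Disjoint ((Icc 1 M).filter (fun b => b < a)) ((Icc 1 M).filter (fun b => a < b)) := by
    rw [Finset.disjoint_left]
    intro b hb hb'
    simp only [Finset.mem_filter, Finset.mem_Icc] at hb hb'
    omega
  rw [h1, Finset.sum_union h2, two_mul]
  have h3 : ∑ b ∈ (Icc 1 M).filter (fun b => b < a), G (Nat.dist b a) ≤ ∑ n ∈ Icc 1 M, G n := by
    have e1 : ∑ b ∈ (Icc 1 M).filter (fun b => b < a), G (Nat.dist b a) =
        ∑ n ∈ ((Icc 1 M).filter (fun b => b < a)).image (fun b => Nat.dist b a), G n := by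
      rw [Finset.sum_image]
      intro b hb b' hb' hbb
      simp only [Finset.coe_filter, Finset.mem_Icc, Set.mem_ofPred_eq] at hb hb'
      simp only [Nat.dist] at hbb
      omega
    rw [e1]
    refine Finset.sum_le_sum_of_subset_of_nonneg ?_ (fun n _ _ => hG n)
    intro n hn
    simp only [Finset.mem_image, Finset.mem_filter, Finset.mem_Icc, Nat.dist] at hn ⊢
    omega
  have h4 : ∑ b ∈ (Icc 1 M).filter (fun b => a < b), G (Nat.dist b a) ≤ ∑ n ∈ Icc 1 M, G n := by
    have e1 : ∑ b ∈ (Icc 1 M).filter (fun b => a < b), G (Nat.dist b a) =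
        ∑ n ∈ ((Icc 1 M).filter (fun b => a < b)).image (fun b => Nat.dist b a), G n := by
      rw [Finset.sum_image]
      intro b hb b' hb' hbb
      simp only [Finset.coe_filter, Finset.mem_Icc, Set.mem_ofPred_eq] at hb hb'
      simp only [Nat.dist] at hbb
      omega
    rw [e1]
    refine Finset.sum_le_sum_of_subset_of_nonneg ?_ (fun n _ _ => hG n)
    intro n hn
    simp only [Finset.mem_image, Finset.mem_filter, Finset.mem_Icc, Nat.dist] at hn ⊢
    omega
  linarith

private lemma SgU_pair (k M : ℕ) (G : ℕ → ℝ) (hG : ∀ n, 0 ≤ G n) (i j : Fin k) (hij : i ≠ j)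
    (S : Finset (Fin k → ℕ)) (hS : ∀ h ∈ S, Function.Injective h ∧ ∀ l, h l ∈ Icc 1 M) :
    ∑ h ∈ S, G (Nat.dist (h i) (h j)) * M ≤ 2 * (∑ n ∈ Icc 1 M, G n) * (M : ℝ) ^ k := by
  classical
  set t : Finset (Fin k → ℕ) := Fintype.piFinset (fun l => if l = i then ({1} : Finset ℕ) else Icc 1 M)
    with ht
  have hmap : ∀ h ∈ S, Function.update h i 1 ∈ t := by
    intro h hh
    rw [ht, Fintype.mem_piFinset]
    intro l
    by_cases hl : l = i
    · subst hl
      simp
    · rw [if_neg hl, Function.update_of_ne hl]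
      exact (hS h hh).2 l
  have hcard : (t.card : ℝ) * M = (M : ℝ) ^ k := by
    have e1 : t.card * M = M ^ k := by
      rw [ht, Fintype.card_piFinset, ← Finset.mul_prod_erase Finset.univ _ (Finset.mem_univ i)]
      have e2 : ∏ l ∈ Finset.univ.erase i, (if l = i then ({1} : Finset ℕ) else Icc 1 M).card =
          ∏ _l ∈ (Finset.univ : Finset (Fin k)).erase i, M := by
        refine Finset.prod_congr rfl (fun l hl => ?_)
        rw [if_neg (Finset.ne_of_mem_erase hl)]
        simp
      rw [e2, if_pos rfl, Finset.card_singleton, one_mul, mul_comm,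
        Finset.mul_prod_erase Finset.univ (fun _ : Fin k => M) (Finset.mem_univ i), Finset.prod_const]
      simp
    exact_mod_cast e1
  have hin : ∀ y ∈ t, ∑ h ∈ S with Function.update h i 1 = y, G (Nat.dist (h i) (h j)) ≤
      2 * ∑ n ∈ Icc 1 M, G n := by
    intro y hy
    have hyj : y j ∈ Icc 1 M := by
      rw [ht, Fintype.mem_piFinset] at hy
      have := hy j
      rwa [if_neg (Ne.symm hij)] at this
    have e0 : ∑ h ∈ S with Function.update h i 1 = y, G (Nat.dist (h i) (h j)) =
        ∑ h ∈ S with Function.update h i 1 = y, G (Nat.dist (h i) (y j)) := by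
      refine Finset.sum_congr rfl (fun h hh => ?_)
      have h2 := (Finset.mem_filter.1 hh).2
      have h3 : y j = h j := by
        rw [← h2, Function.update_of_ne (Ne.symm hij)]
      rw [h3]
    have e1 : ∑ h ∈ S with Function.update h i 1 = y, G (Nat.dist (h i) (y j)) =
        ∑ b ∈ (S.filter (fun h => Function.update h i 1 = y)).image (fun h => h i),
          G (Nat.dist b (y j)) := by
      rw [Finset.sum_image]
      intro h hh h' hh' hb
      have h2 := (Finset.mem_filter.1 (Finset.mem_coe.1 hh)).2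
      have h3 := (Finset.mem_filter.1 (Finset.mem_coe.1 hh')).2
      funext l
      by_cases hl : l = i
      · subst hl
        exact hb
      · have h4 : Function.update h i 1 l = Function.update h' i 1 l := by rw [h2, h3]
        rwa [Function.update_of_ne hl, Function.update_of_ne hl] at h4
    rw [e0, e1]
    refine le_trans (Finset.sum_le_sum_of_subset_of_nonneg ?_ (fun n _ _ => hG _))
      (SgU_line G hG M (y j) hyj)
    intro b hb
    rw [Finset.mem_image] at hb
    obtain ⟨h, hh, hhb⟩ := hb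
    have h1 := (Finset.mem_filter.1 hh).1
    have h2 := (Finset.mem_filter.1 hh).2
    have h3 : y j = h j := by
      rw [← h2, Function.update_of_ne (Ne.symm hij)]
    rw [Finset.mem_filter]
    refine ⟨?_, ?_⟩
    · rw [← hhb]
      exact (hS h h1).2 i
    · rw [← hhb, h3]
      exact fun he => hij ((hS h h1).1 he)
  have hsum : ∑ h ∈ S, G (Nat.dist (h i) (h j)) ≤ t.card * (2 * ∑ n ∈ Icc 1 M, G n) := by
    rw [← Finset.sum_fiberwise_of_maps_to hmap]
    refine le_trans (Finset.sum_le_card_nsmul _ _ _ hin) ?_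
    rw [nsmul_eq_mul]
  rw [← Finset.sum_mul]
  have hM0 : (0 : ℝ) ≤ M := Nat.cast_nonneg M
  calc (∑ h ∈ S, G (Nat.dist (h i) (h j))) * M ≤ t.card * (2 * ∑ n ∈ Icc 1 M, G n) * M :=
        mul_le_mul_of_nonneg_right hsum hM0
    _ = 2 * (∑ n ∈ Icc 1 M, G n) * ((t.card : ℝ) * M) := by ring
    _ = 2 * (∑ n ∈ Icc 1 M, G n) * (M : ℝ) ^ k := by rw [hcard]

theorem tSgU (h1 : TmUStmt) : SgUStmt := by
  classical
  intro k q
  set I : Finset (Fin k × Fin k) := (univ : Finset (Fin k × Fin k)).filter (fun x => x.1 < x.2) with hI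
  rcases Finset.eq_empty_or_nonempty I with hE | hN
  · refine ⟨1, one_pos, fun M => ?_⟩
    have hD : ∀ h : Fin k → ℕ, Del h = 1 := by
      intro h
      unfold Del
      rw [← hI, hE, Finset.prod_empty]
    have e1 : ∀ h ∈ (Fintype.piFinset (fun _ : Fin k => Icc 1 M)).filter (fun h => Function.Injective h),
        ((Del h : ℝ) / (Del h).totient) ^ q ≤ 1 := by
      intro h _
      rw [hD h]
      simp
    refine le_trans (Finset.sum_le_card_nsmul _ _ _ e1) ?_
    rw [nsmul_eq_mul, mul_one, one_mul]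
    have e2 : ((Fintype.piFinset (fun _ : Fin k => Icc 1 M)).filter
        (fun h => Function.Injective h)).card ≤ M ^ k := by
      refine le_trans (Finset.card_filter_le _ _) ?_
      rw [Fintype.card_piFinset]
      simp
    exact_mod_cast e2
  · obtain ⟨C, hC, hT⟩ := h1 (I.card * q)
    refine ⟨I.card * (2 * C), by
      have : (0 : ℝ) < I.card := by exact_mod_cast hN.card_pos
      positivity, fun M => ?_⟩
    rcases Nat.eq_zero_or_pos M with hM | hM
    · subst hM
      have e1 : (Fintype.piFinset (fun _ : Fin k => Icc 1 0)).filter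
          (fun h => Function.Injective h) = ∅ := by
        rw [Finset.eq_empty_iff_forall_notMem]
        intro h hh
        obtain ⟨x, _⟩ := hN
        have h2 := Fintype.mem_piFinset.1 (Finset.mem_filter.1 hh).1 x.1
        simp at h2
      rw [e1, Finset.sum_empty]
      positivity
    have hMR : (0 : ℝ) < M := by exact_mod_cast hM
    set S := (Fintype.piFinset (fun _ : Fin k => Icc 1 M)).filter (fun h => Function.Injective h) with hS
    have hS' : ∀ h ∈ S, Function.Injective h ∧ ∀ l, h l ∈ Icc 1 M := by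
      intro h hh
      rw [hS, Finset.mem_filter] at hh
      exact ⟨hh.2, fun l => Fintype.mem_piFinset.1 hh.1 l⟩
    set G : ℕ → ℝ := fun n => ((n : ℝ) / n.totient) ^ (I.card * q) with hGd
    have hG : ∀ n, 0 ≤ G n := fun n => by
      rw [hGd]
      positivity
    have step1 : ∀ h ∈ S, ((Del h : ℝ) / (Del h).totient) ^ q ≤ ∑ x ∈ I, G (Nat.dist (h x.1) (h x.2)) := by
      intro h hh
      have hinj := (hS' h hh).1
      have hne : ∀ x ∈ I, Nat.dist (h x.1) (h x.2) ≠ 0 := by
        intro x hx h0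
        have hx' : x.1 < x.2 := (Finset.mem_filter.1 hx).2
        exact (ne_of_lt hx') (hinj (Nat.eq_of_dist_eq_zero h0))
      have e1 : (Del h : ℝ) / (Del h).totient ≤
          ∏ x ∈ I, ((Nat.dist (h x.1) (h x.2) : ℝ) / (Nat.dist (h x.1) (h x.2)).totient) := by
        unfold Del
        exact SgU_prod I (fun x => Nat.dist (h x.1) (h x.2)) hne
      refine le_trans (pow_le_pow_left₀ (by positivity) e1 q) ?_
      exact SgU_pow I hN (fun x => (Nat.dist (h x.1) (h x.2) : ℝ) / (Nat.dist (h x.1) (h x.2)).totient)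
        (fun x hx => SgU_one_le _ (hne x hx)) q
    have step2 : ∀ x ∈ I, ∑ h ∈ S, G (Nat.dist (h x.1) (h x.2)) ≤ 2 * C * (M : ℝ) ^ k := by
      intro x hx
      have hx' : x.1 < x.2 := (Finset.mem_filter.1 hx).2
      have e1 := SgU_pair k M G hG x.1 x.2 (ne_of_lt hx') S hS'
      rw [← Finset.sum_mul] at e1
      have e2 := hT M
      have e3 : 2 * (∑ n ∈ Icc 1 M, G n) * (M : ℝ) ^ k ≤ 2 * (C * M) * (M : ℝ) ^ k := by
        refine mul_le_mul_of_nonneg_right ?_ (by positivity)
        exact mul_le_mul_of_nonneg_left e2 (by norm_num)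
      have e4 : (∑ h ∈ S, G (Nat.dist (h x.1) (h x.2))) * M ≤ (2 * C * (M : ℝ) ^ k) * M := by
        calc _ ≤ _ := e1
          _ ≤ _ := e3
          _ = (2 * C * (M : ℝ) ^ k) * M := by ring
      exact le_of_mul_le_mul_right e4 hMR
    calc ∑ h ∈ S, ((Del h : ℝ) / (Del h).totient) ^ q
        ≤ ∑ h ∈ S, ∑ x ∈ I, G (Nat.dist (h x.1) (h x.2)) := Finset.sum_le_sum step1
      _ = ∑ x ∈ I, ∑ h ∈ S, G (Nat.dist (h x.1) (h x.2)) := Finset.sum_comm
      _ ≤ ∑ _x ∈ I, 2 * C * (M : ℝ) ^ k := Finset.sum_le_sum step2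
      _ = I.card * (2 * C) * (M : ℝ) ^ k := by
          rw [Finset.sum_const, nsmul_eq_mul]
          ring

end Pool.Agent.Lib.RU
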