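import Pool.Agent.Lib.RU.Spec

set_option autoImplicit false

namespace Pool.Agent.Lib.RU

open Finset
open Pool.Agent.Lib.MP_9f2731_nt.GP Pool.Agent.Lib.MP_9f2731_nt.GP.Sv Pool.Agent.Lib.MP_9f2731_nt.QL
open Pool.Agent.Lib.MP_9f2731_nt.QL.Sw Pool.Agent.Lib.MP_9f2731_nt.CG Pool.Agent.Lib.MP_9f2731_nt.CG.Ma
open Pool.Agent.Lib.MP_9f2731_nt.CG.Mf Pool.Agent.Lib.BE

private lemma TmU_pow (q : ℕ) (x : ℝ) (h0 : 0 ≤ x) (h1 : x ≤ 1) :
    (1 + x) ^ q ≤ 1 + (2 ^ q - 1) * x := by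
  induction q with
  | zero => simp
  | succ q ih =>
    have hq : (1 : ℝ) ≤ 2 ^ q := one_le_pow₀ (by norm_num)
    have hx : 0 ≤ (1 + x : ℝ) := by linarith
    calc (1 + x) ^ (q + 1) = (1 + x) ^ q * (1 + x) := pow_succ _ _
      _ ≤ (1 + (2 ^ q - 1) * x) * (1 + x) := mul_le_mul_of_nonneg_right ih hx
      _ = 1 + x + (2 ^ q - 1) * x + (2 ^ q - 1) * (x * x) := by ring
      _ ≤ 1 + x + (2 ^ q - 1) * x + (2 ^ q - 1) * x := by
          have h2 : x * x ≤ x := by nlinarith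
          have h3 := mul_le_mul_of_nonneg_left h2 (by linarith : (0 : ℝ) ≤ 2 ^ q - 1)
          linarith
      _ = 1 + (2 ^ (q + 1) - 1) * x := by ring

private lemma TmU_pr (q p : ℕ) (hp : p.Prime) :
    ((p : ℝ) / ((p : ℝ) - 1)) ^ q ≤ 1 + 2 ^ (q + 1) / (p : ℝ) := by
  have h2 : (2 : ℝ) ≤ p := by exact_mod_cast hp.two_le
  have hp1 : (0 : ℝ) < (p : ℝ) - 1 := by linarith
  have hp0 : (0 : ℝ) < (p : ℝ) := by linarith
  have he : (p : ℝ) / ((p : ℝ) - 1) = 1 + 1 / ((p : ℝ) - 1) := by field_simp; ring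
  have hx0 : 0 ≤ 1 / ((p : ℝ) - 1) := by positivity
  have hx1 : 1 / ((p : ℝ) - 1) ≤ 1 := by
    rw [div_le_one hp1]; linarith
  have hx2 : 1 / ((p : ℝ) - 1) ≤ 2 / (p : ℝ) := by
    rw [div_le_div_iff₀ hp1 hp0]; linarith
  have hq : (0 : ℝ) < 2 ^ q := by positivity
  rw [he]
  calc (1 + 1 / ((p : ℝ) - 1)) ^ q ≤ 1 + (2 ^ q - 1) * (1 / ((p : ℝ) - 1)) := TmU_pow q _ hx0 hx1
    _ ≤ 1 + 2 ^ q * (1 / ((p : ℝ) - 1)) := by nlinarith
    _ ≤ 1 + 2 ^ q * (2 / (p : ℝ)) := by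
        have := mul_le_mul_of_nonneg_left hx2 hq.le
        linarith
    _ = 1 + 2 ^ (q + 1) / (p : ℝ) := by rw [pow_succ]; ring

private lemma TmU_tot (n : ℕ) (hn : 1 ≤ n) :
    (n : ℝ) / n.totient = ∏ p ∈ n.primeFactors, (p : ℝ) / ((p : ℝ) - 1) := by
  have h := Nat.totient_mul_prod_primeFactors n
  have hc : (n.totient : ℝ) * ∏ p ∈ n.primeFactors, (p : ℝ) =
      n * ∏ p ∈ n.primeFactors, ((p : ℝ) - 1) := by
    have h' := congrArg (Nat.cast : ℕ → ℝ) h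
    push_cast at h'
    rw [h']
    congr 1
    refine Finset.prod_congr rfl (fun p hp => ?_)
    have hp1 : 1 ≤ p := (Nat.prime_of_mem_primeFactors hp).one_lt.le
    rw [Nat.cast_sub hp1, Nat.cast_one]
  have ht : (0 : ℝ) < n.totient := by exact_mod_cast Nat.totient_pos.2 hn
  have hP : (0 : ℝ) < ∏ p ∈ n.primeFactors, ((p : ℝ) - 1) := by
    refine Finset.prod_pos (fun p hp => ?_)
    have h2 : (2 : ℝ) ≤ p := by exact_mod_cast (Nat.prime_of_mem_primeFactors hp).two_le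
    linarith
  rw [Finset.prod_div_distrib, div_eq_div_iff ht.ne' hP.ne', ← hc]
  ring

private lemma TmU_one (q n : ℕ) (hn : 1 ≤ n) :
    ((n : ℝ) / n.totient) ^ q ≤ ∏ p ∈ n.primeFactors, (1 + 2 ^ (q + 1) / (p : ℝ)) := by
  rw [TmU_tot n hn, ← Finset.prod_pow]
  refine Finset.prod_le_prod (fun p hp => ?_) (fun p hp => TmU_pr q p (Nat.prime_of_mem_primeFactors hp))
  have h2 : (2 : ℝ) ≤ p := by exact_mod_cast (Nat.prime_of_mem_primeFactors hp).two_le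
  have : (0 : ℝ) < (p : ℝ) - 1 := by linarith
  positivity

private lemma TmU_cnt (M : ℕ) (s : Finset ℕ) :
    (((Icc 1 M).filter (fun n => s ⊆ n.primeFactors)).card : ℝ) ≤ M * ∏ p ∈ s, (1 / (p : ℝ)) := by
  have hsub : (Icc 1 M).filter (fun n => s ⊆ n.primeFactors) ⊆
      (Ioc 0 M).filter (fun n => (∏ p ∈ s, p) ∣ n) := by
    intro n hn
    rw [mem_filter, mem_Icc] at hn
    rw [mem_filter, mem_Ioc]
    refine ⟨⟨by omega, hn.1.2⟩, ?_⟩
    exact (Finset.prod_dvd_prod_of_subset s n.primeFactors (fun p => p) hn.2).trans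
      (Nat.prod_primeFactors_dvd n)
  have hc := Finset.card_le_card hsub
  rw [Nat.Ioc_filter_dvd_card_eq_div] at hc
  have h1 : ((M / (∏ p ∈ s, p) : ℕ) : ℝ) ≤ (M : ℝ) / ((∏ p ∈ s, p : ℕ) : ℝ) := Nat.cast_div_le
  calc (((Icc 1 M).filter (fun n => s ⊆ n.primeFactors)).card : ℝ)
      ≤ ((M / (∏ p ∈ s, p) : ℕ) : ℝ) := by exact_mod_cast hc
    _ ≤ (M : ℝ) / ((∏ p ∈ s, p : ℕ) : ℝ) := h1
    _ = M * ∏ p ∈ s, (1 / (p : ℝ)) := by
        push_cast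
        rw [Finset.prod_div_distrib, Finset.prod_const_one]
        ring

private lemma TmU_sum (c : ℝ) (hc : 0 ≤ c) (M : ℕ) :
    ∑ n ∈ Icc 1 M, ∏ p ∈ n.primeFactors, (1 + c / (p : ℝ)) ≤
      M * Real.exp (c * ∑' n : ℕ, 1 / (n : ℝ) ^ 2) := by
  classical
  set P : Finset ℕ := (Icc 1 M).filter Nat.Prime with hP
  have hsubP : ∀ n ∈ Icc 1 M, n.primeFactors ⊆ P := by
    intro n hn p hp
    rw [mem_Icc] at hn
    have hpp := Nat.prime_of_mem_primeFactors hp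
    have hpn := Nat.le_of_dvd (by omega) (Nat.dvd_of_mem_primeFactors hp)
    rw [hP, mem_filter, mem_Icc]
    exact ⟨⟨hpp.one_lt.le, by omega⟩, hpp⟩
  have h1 : ∀ n ∈ Icc 1 M, ∏ p ∈ n.primeFactors, (1 + c / (p : ℝ)) =
      ∑ s ∈ P.powerset, if s ⊆ n.primeFactors then ∏ p ∈ s, (c / (p : ℝ)) else 0 := by
    intro n hn
    rw [Finset.prod_one_add, ← Finset.sum_filter]
    refine Finset.sum_congr ?_ (fun _ _ => rfl)
    ext s
    rw [mem_powerset, mem_filter, mem_powerset]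
    exact ⟨fun h => ⟨h.trans (hsubP n hn), h⟩, fun h => h.2⟩
  rw [Finset.sum_congr rfl h1, Finset.sum_comm]
  have h2 : ∀ s ∈ P.powerset, (∑ n ∈ Icc 1 M, if s ⊆ n.primeFactors then ∏ p ∈ s, (c / (p : ℝ)) else 0) ≤
      M * ∏ p ∈ s, (c / (p : ℝ) ^ 2) := by
    intro s _
    have hnn : 0 ≤ ∏ p ∈ s, (c / (p : ℝ)) := Finset.prod_nonneg (fun p _ => by positivity)
    rw [← Finset.sum_filter, Finset.sum_const, nsmul_eq_mul]
    calc _ ≤ (M * ∏ p ∈ s, (1 / (p : ℝ))) * ∏ p ∈ s, (c / (p : ℝ)) :=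
          mul_le_mul_of_nonneg_right (TmU_cnt M s) hnn
      _ = M * ∏ p ∈ s, (c / (p : ℝ) ^ 2) := by
          rw [mul_assoc, ← Finset.prod_mul_distrib]
          congr 1
          refine Finset.prod_congr rfl (fun p _ => ?_)
          rw [div_mul_div_comm, one_mul, pow_two]
  refine (Finset.sum_le_sum h2).trans ?_
  rw [← Finset.mul_sum, ← Finset.prod_one_add]
  refine mul_le_mul_of_nonneg_left ?_ (Nat.cast_nonneg M)
  have hsm : Summable (fun n : ℕ => 1 / (n : ℝ) ^ 2) := Real.summable_one_div_nat_pow.2 (by norm_num)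
  calc ∏ p ∈ P, (1 + c / (p : ℝ) ^ 2) ≤ ∏ p ∈ P, Real.exp (c / (p : ℝ) ^ 2) := by
        refine Finset.prod_le_prod (fun p _ => by positivity) (fun p _ => ?_)
        have := Real.add_one_le_exp (c / (p : ℝ) ^ 2)
        linarith
    _ = Real.exp (∑ p ∈ P, c / (p : ℝ) ^ 2) := (Real.exp_sum P _).symm
    _ ≤ Real.exp (c * ∑' n : ℕ, 1 / (n : ℝ) ^ 2) := by
        refine Real.exp_le_exp.2 ?_
        have h3 : ∑ p ∈ P, c / (p : ℝ) ^ 2 = c * ∑ p ∈ P, 1 / (p : ℝ) ^ 2 := by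
          rw [Finset.mul_sum]
          refine Finset.sum_congr rfl (fun p _ => ?_)
          ring
        rw [h3]
        exact mul_le_mul_of_nonneg_left (hsm.sum_le_tsum P (fun n _ => by positivity)) hc

theorem tTmU : TmUStmt := by
  intro q
  refine ⟨Real.exp (2 ^ (q + 1) * ∑' n : ℕ, 1 / (n : ℝ) ^ 2), Real.exp_pos _, fun M => ?_⟩
  calc ∑ n ∈ Icc 1 M, ((n : ℝ) / n.totient) ^ q
      ≤ ∑ n ∈ Icc 1 M, ∏ p ∈ n.primeFactors, (1 + 2 ^ (q + 1) / (p : ℝ)) :=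
        Finset.sum_le_sum (fun n hn => TmU_one q n (mem_Icc.1 hn).1)
    _ ≤ M * Real.exp (2 ^ (q + 1) * ∑' n : ℕ, 1 / (n : ℝ) ^ 2) := TmU_sum _ (by positivity) M
    _ = Real.exp (2 ^ (q + 1) * ∑' n : ℕ, 1 / (n : ℝ) ^ 2) * M := mul_comm _ _

end Pool.Agent.Lib.RU
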