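import Pool.Agent.Lib.RU.Spec

/-!
PROJECT RU (MP_3d1556_nt), module UbU (helper67): upper bound for rough values.
-/

set_option autoImplicit false

namespace Pool.Agent.Lib.RU

open Finset
open Pool.Agent.Lib.MP_9f2731_nt.GP
open Pool.Agent.Lib.MP_9f2731_nt.GP.Sv
open Pool.Agent.Lib.MP_9f2731_nt.QL
open Pool.Agent.Lib.MP_9f2731_nt.QL.Sw
open Pool.Agent.Lib.MP_9f2731_nt.CG
open Pool.Agent.Lib.MP_9f2731_nt.CG.Ma
open Pool.Agent.Lib.MP_9f2731_nt.CG.Mf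
open Pool.Agent.Lib.BE

/-- the profile -/
private noncomputable def UbU_P (β : ℝ) : Pf where
  co := ![1, 0, 0]
  be := ![β, 0, 0]

private theorem UbU_im (β : ℝ) : im (UbU_P β) = β ^ 2 := by
  unfold im UbU_P
  simp [Fin.sum_univ_three]

private theorem UbU_ip (β : ℝ) (hβ : 0 < β) : 0 < ip (UbU_P β) (UbU_P β) := by
  have h : ip (UbU_P β) (UbU_P β) = 4 * (β ^ 2 * (3 * β - β) / 6) := by
    unfold ip UbU_P Ee
    simp [Fin.sum_univ_three]
  rw [h]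
  have h2 : (0 : ℝ) < β ^ 2 * (3 * β - β) := by
    have h3 : 3 * β - β = 2 * β := by ring
    rw [h3]
    positivity
  linarith

private theorem UbU_be (β : ℝ) (hβ : 0 ≤ β) (s : Fin 3) : 0 ≤ (UbU_P β).be s ∧ (UbU_P β).be s ≤ β := by
  fin_cases s <;> simp [UbU_P, hβ]

private theorem UbU_vda (k : ℕ) (β : ℝ) (hk : 1 ≤ k) (hβ : 0 < β) (hkβ : k * β ≤ 1) :
    Vda (fun _ : Fin 1 => UbU_P β) (fun _ : Fin 1 => β) (univ : Finset (Fin k → Fin 1)) where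
  hK := hk
  be := fun _ s => UbU_be β hβ.le s
  one := fun _ => by
    have h1 : (1 : ℝ) ≤ k := by exact_mod_cast hk
    nlinarith
  simp := fun v _ => by
    rw [sum_const, card_univ, Fintype.card_fin, nsmul_eq_mul]
    exact hkβ
  pos := by
    unfold Iq
    refine Finset.sum_pos (fun v _ => Finset.sum_pos (fun u _ => Finset.prod_pos fun j _ => ?_) ?_) ?_
    · exact UbU_ip β hβ
    · exact univ_nonempty
    · exact univ_nonempty

private theorem UbU_AF (W : ℕ) (R y : ℝ) (f : ℕ → ℝ) (n : ℕ) (hS : Sup y f)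
    (hr : ∀ p : ℕ, p.Prime → p ∣ n → y < (p : ℝ)) : AF W R f n = f 1 := by
  unfold AF
  rw [Finset.sum_eq_single 1]
  · have h1 : ind 1 n = 1 := by
      unfold ind
      rw [if_pos (one_dvd n)]
    rw [h1]
    simp
  · intro d hd hd1
    by_cases hdn : d ∣ n
    · obtain ⟨p, hp, hpd⟩ := Nat.exists_prime_and_dvd hd1
      have hd0 : 0 < d := Nat.pos_of_mem_divisors hd
      have h2 : y < (d : ℝ) := by
        refine (hr p hp (hpd.trans hdn)).trans_le ?_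
        exact_mod_cast Nat.le_of_dvd hd0 hpd
      rw [hS d (Or.inr h2), mul_zero]
    · have h1 : ind d n = 0 := by
        unfold ind
        rw [if_neg hdn]
      rw [h1, mul_zero, zero_mul]
  · intro h
    exact absurd (Nat.one_mem_divisors.2 PqV_ne) h

/-- the parameters are large -/
private theorem UbU_large : ∃ X0 : ℝ, ∀ X : ℕ, X0 ≤ X →
    1 ≤ Real.log (RR X) ∧ 1 ≤ RR X ∧ (X : ℝ) ^ ((3 : ℝ) / 5) ≤ X ∧ (1 : ℝ) ≤ X := by
  have t2 : Filter.Tendsto (fun X : ℕ => RR X) Filter.atTop Filter.atTop :=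
    (tendsto_rpow_atTop (by norm_num : (0 : ℝ) < 1 / 5)).comp tendsto_natCast_atTop_atTop
  have t3 : Filter.Tendsto (fun X : ℕ => Real.log (RR X)) Filter.atTop Filter.atTop :=
    Real.tendsto_log_atTop.comp t2
  obtain ⟨N0, hN0⟩ := Filter.eventually_atTop.1 ((t3.eventually_ge_atTop 1).and (t2.eventually_ge_atTop 1))
  refine ⟨max N0 1, fun X hX => ?_⟩
  obtain ⟨h1, h2⟩ := hN0 X (Nat.cast_le.1 ((le_max_left _ _).trans hX))
  have hX1 : (1 : ℝ) ≤ X := (le_max_right _ _).trans hX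
  refine ⟨h1, h2, ?_, hX1⟩
  calc (X : ℝ) ^ ((3 : ℝ) / 5) ≤ (X : ℝ) ^ (1 : ℝ) := Real.rpow_le_rpow_of_exponent_le hX1 (by norm_num)
    _ = X := Real.rpow_one _

private theorem UbU_tot {V p : ℕ} (hV : 1 ≤ V) (hp : p.Prime) (h : ¬ p ∣ V) :
    dlV V ≤ 2 * dlV (V * p) := by
  have hc : V.Coprime p := ((Nat.Prime.coprime_iff_not_dvd hp).2 h).symm
  unfold dlV
  rw [Nat.totient_mul hc, Nat.totient_prime hp]
  have hV0 : (0 : ℝ) < V := by exact_mod_cast hV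
  have hp2 : (2 : ℝ) ≤ p := by exact_mod_cast hp.two_le
  have hp0 : (0 : ℝ) < p := by linarith
  have ht : (0 : ℝ) ≤ V.totient := Nat.cast_nonneg _
  push_cast [Nat.cast_sub hp.one_le]
  rw [div_le_iff₀ hV0]
  have e : 2 * ((V.totient : ℝ) * ((p : ℝ) - 1) / (V * p)) * V = 2 * (V.totient : ℝ) * (((p : ℝ) - 1) / p) := by
    field_simp
  rw [e]
  have h2 : (1 : ℝ) / 2 ≤ ((p : ℝ) - 1) / p := by
    rw [le_div_iff₀ hp0]
    linarith
  nlinarith

theorem tUbU (h1 : MaRStmt) (h2 : PfBStmt) : UbUStmt := by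
  classical
  intro k κ hk hκ hκ5
  have hk0 : (0 : ℝ) < k := by exact_mod_cast hk
  have hk1 : (1 : ℝ) ≤ k := by exact_mod_cast hk
  obtain ⟨β, hβ⟩ : ∃ β : ℝ, β = 5 * κ / k := ⟨_, rfl⟩
  have hβ0 : 0 < β := by
    rw [hβ]
    positivity
  have hkβ : k * β = 5 * κ := by
    rw [hβ]
    field_simp
  have hkβ1 : k * β ≤ 1 := by
    rw [hkβ]
    linarith
  have hv := UbU_vda k β hk hβ0 hkβ1
  obtain ⟨XL, hL⟩ := UbU_large
  obtain ⟨XM, hM⟩ := h1 k 1 (fun _ => UbU_P β) (fun _ => β) univ hv 1 one_pos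
  obtain ⟨I, hI⟩ : ∃ I : ℝ, I = Iq (fun _ : Fin 1 => UbU_P β) (univ : Finset (Fin k → Fin 1)) := ⟨_, rfl⟩
  rw [← hI] at hM
  have hI0 : 0 < I := by
    rw [hI]
    exact hv.pos
  refine ⟨(I + 2) * (10 / β ^ 4) ^ k, max XM XL, by positivity, ?_⟩
  intro X w V p0 a c hX hSt
  obtain ⟨hlog, hR1, hXX, hX1⟩ := hL X ((le_max_right _ _).trans hX)
  have hX0 : (0 : ℝ) < X := by linarith
  have hM1 := hM X w V p0 1 0 a c ((le_max_left _ _).trans hX) hSt (Or.inl rfl)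
  have hfil : (Icc 1 X).filter (fun b => b ≡ 0 [MOD 1]) = Icc 1 X :=
    Finset.filter_true_of_mem fun b _ => Nat.modEq_one
  rw [hfil, Nat.cast_one, div_one, mul_one] at hM1
  obtain ⟨L, hLd⟩ : ∃ L : ℝ, L = Real.log (RR X) := ⟨_, rfl⟩
  rw [← hLd] at hlog
  have hL0 : 0 < L := by linarith
  have hPok : Pok (UbU_P β) := fun s =>
    ⟨(UbU_be β hβ0.le s).1, (UbU_be β hβ0.le s).2.trans (by nlinarith)⟩
  have hP1 : pfn (UbU_P β) (RR X) 1 = L ^ 2 * β ^ 2 := by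
    rw [(h2 (UbU_P β) (RR X) hR1 hPok).2.2, UbU_im, hLd]
  have hSup : Sup (RR X ^ β) (pfn (UbU_P β) (RR X)) :=
    (h2 (UbU_P β) (RR X) hR1 hPok).2.1 β fun s => (UbU_be β hβ0.le s).2
  -- the level is below X ^ κ
  have hRk : RR X ^ β ≤ (X : ℝ) ^ κ := by
    unfold RR
    rw [← Real.rpow_mul hX0.le]
    refine Real.rpow_le_rpow_of_exponent_le hX1 ?_
    have h3 : β ≤ 5 * κ := by
      rw [← hkβ]
      exact le_mul_of_one_le_left hβ0.le hk1
    linarith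
  obtain ⟨B, hB⟩ : ∃ B : Finset ℕ, B = (Icc 1 X).filter (fun b => ∀ j, Rgh ((X : ℝ) ^ κ) (a j * b + c j)) :=
    ⟨_, rfl⟩
  have hWW : ∀ b ∈ B, WWC (V * p0) X (fun _ : Fin 1 => UbU_P β) (univ : Finset (Fin k → Fin 1)) a c b =
      (L ^ 2 * β ^ 2) ^ k := by
    intro b hb
    rw [hB] at hb
    have hb2 := (mem_filter.1 hb).2
    unfold WWC
    rw [Fintype.sum_unique]
    have h3 : ∀ j : Fin k, AF (V * p0) (RR X) (pfn (UbU_P β) (RR X)) (a j * b + c j) = L ^ 2 * β ^ 2 := by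
      intro j
      rw [UbU_AF (V * p0) (RR X) (RR X ^ β) _ _ hSup fun p hp hpn => hRk.trans_lt (hb2 j p hp hpn), hP1]
    rw [Finset.prod_congr rfl fun j _ => h3 j, prod_const, card_univ, Fintype.card_fin]
  have hsum : (B.card : ℝ) * ((L ^ 2 * β ^ 2) ^ k) ^ 2 ≤
      ∑ b ∈ Icc 1 X, WWC (V * p0) X (fun _ : Fin 1 => UbU_P β) (univ : Finset (Fin k → Fin 1)) a c b ^ 2 := by
    have e1 : ∑ b ∈ B, WWC (V * p0) X (fun _ : Fin 1 => UbU_P β) (univ : Finset (Fin k → Fin 1)) a c b ^ 2 =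
        (B.card : ℝ) * ((L ^ 2 * β ^ 2) ^ k) ^ 2 := by
      rw [sum_congr rfl fun b hb => by rw [hWW b hb], sum_const, nsmul_eq_mul]
    rw [← e1]
    refine sum_le_sum_of_subset_of_nonneg ?_ (fun _ _ _ => sq_nonneg _)
    rw [hB]
    exact filter_subset _ _
  have hVp : 1 ≤ V * p0 := Nat.mul_pos hSt.hV hSt.hp.pos
  have hd0 : 0 < dlV (V * p0) := dlV_pos hVp
  have hd1 : dlV (V * p0) ≤ 1 := dlV_le_one _
  obtain ⟨G, hG⟩ : ∃ G : ℝ, G = GG (V * p0) X := ⟨_, rfl⟩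
  rw [← hG] at hM1
  have hG' : G = L ^ 3 / dlV (V * p0) := by
    rw [hG, hLd]
    rfl
  have hG1 : 1 ≤ G := by
    rw [hG', le_div_iff₀ hd0, one_mul]
    exact hd1.trans (one_le_pow₀ hlog)
  have hGk1 : 1 ≤ G ^ k := one_le_pow₀ hG1
  have hXG : (X : ℝ) ≤ X * G ^ k := le_mul_of_one_le_right hX0.le hGk1
  have hmain : (B.card : ℝ) * ((L ^ 2 * β ^ 2) ^ k) ^ 2 ≤ (I + 2) * (X * G ^ k) := by
    have h5 := (abs_le.1 hM1).2
    have h6 : (X : ℝ) * (G ^ k * I) = I * (X * G ^ k) := by ring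
    rw [h6] at h5
    linarith
  -- the modulus
  have hdV := UbU_tot hSt.hV hSt.hp hSt.hpV
  have hV0 : (0 : ℝ) < V := by exact_mod_cast hSt.hV
  have hdV0 : 0 < dlV V := dlV_pos hSt.hV
  have hlX : Real.log X = 5 * L := by
    rw [hLd]
    unfold RR
    rw [Real.log_rpow hX0]
    ring
  have hVt : (V : ℝ) / V.totient = 1 / dlV V := by
    unfold dlV
    rw [one_div_div]
  have hG2 : G ≤ 2 * L ^ 3 * (1 / dlV V) := by
    rw [hG', div_le_iff₀ hd0]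
    have h7 : 2 * L ^ 3 * (1 / dlV V) * dlV (V * p0) = L ^ 3 * ((2 * dlV (V * p0)) / dlV V) := by
      field_simp
    rw [h7]
    have h8 : 1 ≤ (2 * dlV (V * p0)) / dlV V := by
      rw [le_div_iff₀ hdV0, one_mul]
      exact hdV
    exact le_mul_of_one_le_right (by positivity) h8
  have hG0 : 0 ≤ G := by linarith
  have hGk : G ^ k ≤ (2 * L ^ 3 * (1 / dlV V)) ^ k := pow_le_pow_left₀ hG0 hG2 k
  have hfin : (B.card : ℝ) * (L ^ 4 * β ^ 4) ^ k ≤ (I + 2) * (X * (2 * L ^ 3 * (1 / dlV V)) ^ k) := by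
    have e2 : ((L ^ 2 * β ^ 2) ^ k) ^ 2 = (L ^ 4 * β ^ 4) ^ k := by
      rw [← pow_mul, mul_comm k 2, pow_mul]
      congr 1
      ring
    rw [← e2]
    refine hmain.trans ?_
    gcongr
  rw [← hB, hVt, hlX]
  have hpos : 0 < (L ^ 4 * β ^ 4) ^ k := by positivity
  refine le_of_mul_le_mul_right (hfin.trans (le_of_eq ?_)) hpos
  have e3 : ∀ A D E : ℝ, (I + 2) * A ^ k * D ^ k * X * E ^ k = (I + 2) * (X * (A * D * E) ^ k) := by
    intro A D E
    rw [mul_pow, mul_pow]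
    ring
  rw [e3]
  congr 3
  field_simp
  norm_num

end Pool.Agent.Lib.RU
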