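import Pool.Agent.Lib.RU.Spec

/-!
Module UpU: the upper bound for rough tuples.
-/

set_option autoImplicit false

namespace Pool.Agent.Lib.RU

open Finset
open Pool.Agent.Lib.MP_9f2731_nt.GP Pool.Agent.Lib.MP_9f2731_nt.GP.Sv Pool.Agent.Lib.MP_9f2731_nt.QL
  Pool.Agent.Lib.MP_9f2731_nt.QL.Sw Pool.Agent.Lib.MP_9f2731_nt.CG Pool.Agent.Lib.MP_9f2731_nt.CG.Ma
  Pool.Agent.Lib.MP_9f2731_nt.CG.Mf Pool.Agent.Lib.BE

private theorem UpU_del {k : ℕ} {h : Fin k → ℕ} (hi : Function.Injective h) :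
    1 ≤ (Del h : ℝ) / (Del h).totient := by
  have h0 : Del h ≠ 0 := by
    unfold Del
    refine Finset.prod_ne_zero_iff.2 ?_
    intro q hq hd
    rw [Finset.mem_filter] at hq
    have := hi (Nat.eq_of_dist_eq_zero hd)
    exact absurd this (ne_of_lt hq.2)
  have h1 : 0 < (Del h).totient := Nat.totient_pos.2 (Nat.pos_of_ne_zero h0)
  rw [le_div_iff₀ (by exact_mod_cast h1), one_mul]
  exact_mod_cast Nat.totient_le _

open Classical in
private theorem UpU_count {k : ℕ} (h : Fin k → ℕ) (Y V X : ℕ) (zY zX : ℝ) (hV : 1 ≤ V)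
    (hX : X = 2 * Y / V) (hz : zX ≤ zY) (hp : ∀ p : ℕ, p.Prime → p ∣ V → (p : ℝ) ≤ zY) :
    ((Icc 1 (2 * Y)).filter (fun N => ∀ j, Rgh zY (N + h j))).card ≤ V +
      ∑ ν ∈ (range V).filter (fun ν => ∀ j, (ν + h j).Coprime V),
        ((Icc 1 X).filter (fun b => ∀ j, Rgh zX (V * b + (ν + h j)))).card := by
  have hsub : (Icc 1 (2 * Y)).filter (fun N => ∀ j, Rgh zY (N + h j)) ⊆ range V ∪
      ((range V).filter (fun ν => ∀ j, (ν + h j).Coprime V)).biUnion (fun ν =>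
        ((Icc 1 X).filter (fun b => ∀ j, Rgh zX (V * b + (ν + h j)))).image
          (fun b => V * b + ν)) := by
    intro N hN
    rw [mem_filter, mem_Icc] at hN
    obtain ⟨⟨hN1, hN2⟩, hN3⟩ := hN
    rw [mem_union]
    rcases Nat.lt_or_ge N V with h1 | h1
    · left
      exact mem_range.2 h1
    · right
      have e : V * (N / V) + N % V = N := Nat.div_add_mod N V
      have e' : ∀ j, V * (N / V) + (N % V + h j) = N + h j := fun j => by
        rw [← add_assoc, e]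
      refine mem_biUnion.2 ⟨N % V, mem_filter.2 ⟨mem_range.2 (Nat.mod_lt _ hV), fun j => ?_⟩,
        mem_image.2 ⟨N / V, mem_filter.2 ⟨mem_Icc.2 ⟨(Nat.one_le_div_iff hV).2 h1, ?_⟩,
          fun j p hp1 hp2 => ?_⟩, e⟩⟩
      · by_contra hc
        obtain ⟨p, hp1, hp2, hp3⟩ := Nat.Prime.not_coprime_iff_dvd.1 hc
        have h4 : p ∣ N + h j := by
          rw [← e' j]
          exact dvd_add (hp3.mul_right _) hp2
        have h5 := hN3 j p hp1 h4
        exact absurd (hp p hp1 hp3) (not_le.2 h5)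
      · rw [hX]
        exact Nat.div_le_div_right hN2
      · rw [e' j] at hp2
        exact lt_of_le_of_lt hz (hN3 j p hp1 hp2)
  refine (card_le_card hsub).trans ((card_union_le _ _).trans ?_)
  rw [card_range]
  exact Nat.add_le_add_left (card_biUnion_le.trans (sum_le_sum fun ν _ => card_image_le)) V

private theorem UpU_ev (k : ℕ) (κ : ℝ) (hκ : 0 < κ) : ∃ Y1 : ℝ, ∀ Y : ℝ, Y1 ≤ Y →
    Real.log Y ≤ Y ^ κ ∧ Real.log Y ^ (3 * k) ≤ Y := by
  have e1 := (isLittleO_log_rpow_atTop hκ).bound (one_pos)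
  have e2 := (Real.isLittleO_pow_log_id_atTop (n := 3 * k)).bound (one_pos)
  obtain ⟨Y1, hY1⟩ := Filter.eventually_atTop.1 (e1.and (e2.and (Filter.eventually_ge_atTop (1 : ℝ))))
  refine ⟨Y1, fun Y hY => ?_⟩
  obtain ⟨a1, a2, a3⟩ := hY1 Y hY
  rw [one_mul] at a1 a2
  have hY0 : 0 ≤ Y := by linarith
  refine ⟨?_, ?_⟩
  · have := (le_abs_self _).trans a1
    rwa [Real.norm_of_nonneg (Real.rpow_nonneg hY0 _)] at this
  · have := (le_abs_self _).trans a2
    rwa [id, Real.norm_of_nonneg hY0] at this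

open Classical in
theorem tUpU (h1 : UbUStmt) (h2 : VhUStmt) (h3 : AuUStmt) : UpUStmt := by
  intro k κ hk hκ hκ5
  obtain ⟨C1, X01, hC1, H1⟩ := h1 k κ hk hκ hκ5
  obtain ⟨Y02, H2⟩ := h2 k 1 one_pos
  obtain ⟨Y1, hY1⟩ := UpU_ev k κ hκ
  refine ⟨1 + C1 * 2 ^ (k + 1), max (max Y02 Y1) (max (X01 ^ 2) 3), by positivity, ?_⟩
  intro Y h hY hi hh
  have hYa : Y02 ≤ Y := ((le_max_left _ _).trans (le_max_left _ _)).trans hY
  have hYb : Y1 ≤ Y := ((le_max_right _ _).trans (le_max_left _ _)).trans hY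
  have hYc : X01 ^ 2 ≤ Y := ((le_max_left _ _).trans (le_max_right _ _)).trans hY
  have hYd : (3 : ℝ) ≤ Y := ((le_max_right _ _).trans (le_max_right _ _)).trans hY
  obtain ⟨b1, b2⟩ := hY1 Y hYb
  obtain ⟨hV2, hVs, -, -, hVp, hV3, hX'⟩ := H2 Y 2 h hYa Nat.prime_two hi hh
  obtain ⟨V, hVdef⟩ : ∃ V : ℕ, V = Vh (wx Y) 2 h := ⟨_, rfl⟩
  rw [← hVdef] at hV2 hVs hVp hV3 hX'
  obtain ⟨X, hX⟩ : ∃ X : ℕ, X = 2 * Y / V := ⟨_, rfl⟩
  have hV1 : 1 ≤ V := by omega
  have hY3 : 3 ≤ Y := by exact_mod_cast hYd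
  have hV0' : (0 : ℝ) < V := by exact_mod_cast hV1
  have hVV : V ^ 2 ≤ Y := by nlinarith [Nat.pow_le_pow_right hV1 (show 2 ≤ 3 by norm_num)]
  have hVY : V ≤ Y := by nlinarith
  have hXY : X ≤ Y := by
    rw [hX]
    calc 2 * Y / V ≤ 2 * Y / 2 := Nat.div_le_div_left hV2 (by norm_num)
      _ = Y := by omega
  have hXV : Y ≤ X * V := by
    have e1 : V * (2 * Y / V) + 2 * Y % V = 2 * Y := Nat.div_add_mod _ _
    have e2 : 2 * Y % V < V := Nat.mod_lt _ hV1
    rw [← hX] at e1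
    nlinarith
  have hX2 : Y ≤ X ^ 2 := by
    have e1 : Y ^ 2 ≤ X ^ 2 * Y := by
      calc Y ^ 2 ≤ (X * V) ^ 2 := Nat.pow_le_pow_left hXV 2
        _ = X ^ 2 * V ^ 2 := by ring
        _ ≤ X ^ 2 * Y := Nat.mul_le_mul_left _ hVV
    have e2 : Y * Y ≤ X ^ 2 * Y := by rw [← pow_two]; exact e1
    exact Nat.le_of_mul_le_mul_right e2 (by omega)
  have hX01 : X01 ≤ X := by
    by_contra hc
    have hc := not_le.1 hc
    have e1 : (Y : ℝ) ≤ (X : ℝ) ^ 2 := by exact_mod_cast hX2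
    have e2 : (0 : ℝ) ≤ X := Nat.cast_nonneg _
    nlinarith
  obtain ⟨-, hSt⟩ := hX' X hX2 hXY
  have hYp : (0 : ℝ) < Y := by linarith
  have hXp : (1 : ℝ) ≤ X := by
    have : 1 ≤ X := by
      rcases Nat.eq_zero_or_pos X with h0 | h0
      · rw [h0] at hX2
        omega
      · exact h0
    exact_mod_cast this
  have hlY : 0 < Real.log Y := Real.log_pos (by linarith)
  have hlX : Real.log Y / 2 ≤ Real.log X := by
    have e1 : (Y : ℝ) ≤ (X : ℝ) ^ 2 := by exact_mod_cast hX2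
    have e2 := Real.log_le_log hYp e1
    rw [Real.log_pow] at e2
    push_cast at e2
    linarith
  have hlX0 : 0 < Real.log X := by linarith
  have hXr : (X : ℝ) ≤ 2 * Y / V := by
    rw [hX]
    have := @Nat.cast_div_le ℝ _ _ _ (2 * Y) V
    push_cast at this
    exact this
  set D : ℝ := (Del h : ℝ) / (Del h).totient with hD
  have hD1 : 1 ≤ D := UpU_del hi
  have hDk : 1 ≤ D ^ k := one_le_pow₀ hD1
  have hφ : (0 : ℝ) < V.totient := by exact_mod_cast Nat.totient_pos.2 hV1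
  -- the count
  have hc1 := UpU_count h Y V X ((Y : ℝ) ^ κ) ((X : ℝ) ^ κ) hV1 hX
    (Real.rpow_le_rpow (Nat.cast_nonneg _) (by exact_mod_cast hXY) hκ.le)
    (fun p hp hpV => (hVp p hp hpV).trans b1)
  have hc2 : ∀ ν : ℕ, (((Icc 1 X).filter (fun b => ∀ j, Rgh ((X : ℝ) ^ κ) (V * b + (ν + h j)))).card : ℝ)
      ≤ C1 * (((V : ℝ) / V.totient) / Real.log X) ^ k * X := fun ν =>
    H1 X (wx Y) V 2 (fun _ => V) (fun j => ν + h j) hX01 (hSt ν)
  have hG := h3 k V h hk hVs hi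
  rw [← hD] at hG
  have hc3 : (((Icc 1 (2 * Y)).filter (fun N => ∀ j, Rgh ((Y : ℝ) ^ κ) (N + h j))).card : ℝ) ≤
      V + (V * ((V.totient : ℝ) / V) ^ k * D ^ k) * (C1 * (((V : ℝ) / V.totient) / Real.log X) ^ k * X) := by
    have e1 : (((Icc 1 (2 * Y)).filter (fun N => ∀ j, Rgh ((Y : ℝ) ^ κ) (N + h j))).card : ℝ) ≤
        V + ∑ ν ∈ (range V).filter (fun ν => ∀ j, (ν + h j).Coprime V),
        (((Icc 1 X).filter (fun b => ∀ j, Rgh ((X : ℝ) ^ κ) (V * b + (ν + h j)))).card : ℝ) := by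
      exact_mod_cast hc1
    refine e1.trans (add_le_add_right ?_ _)
    refine (Finset.sum_le_sum fun ν _ => hc2 ν).trans ?_
    rw [Finset.sum_const, nsmul_eq_mul]
    exact mul_le_mul_of_nonneg_right hG (by positivity)
  have hc4 : (V * ((V.totient : ℝ) / V) ^ k * D ^ k) *
      (C1 * (((V : ℝ) / V.totient) / Real.log X) ^ k * X) ≤
      C1 * 2 ^ (k + 1) * (D ^ k * (Y / Real.log Y ^ k)) := by
    have e1 : (V * ((V.totient : ℝ) / V) ^ k * D ^ k) *
        (C1 * (((V : ℝ) / V.totient) / Real.log X) ^ k * X) =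
        (C1 * D ^ k) * ((V * X) * (1 / Real.log X) ^ k) := by
      have : ((V.totient : ℝ) / V) ^ k * (((V : ℝ) / V.totient) / Real.log X) ^ k =
          (1 / Real.log X) ^ k := by
        rw [← mul_pow]
        congr 1
        field_simp
      calc (V * ((V.totient : ℝ) / V) ^ k * D ^ k) *
          (C1 * (((V : ℝ) / V.totient) / Real.log X) ^ k * X) =
          (C1 * D ^ k) * ((V * X) *
            (((V.totient : ℝ) / V) ^ k * (((V : ℝ) / V.totient) / Real.log X) ^ k)) := by ring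
        _ = _ := by rw [this]
    rw [e1]
    have e2 : (V : ℝ) * X ≤ 2 * Y := by
      rw [le_div_iff₀ hV0'] at hXr
      linarith
    have e3 : (1 / Real.log X) ^ k ≤ (2 / Real.log Y) ^ k := by
      refine pow_le_pow_left₀ (by positivity) ?_ k
      rw [div_le_div_iff₀ hlX0 hlY]
      linarith
    calc (C1 * D ^ k) * ((V * X) * (1 / Real.log X) ^ k) ≤
        (C1 * D ^ k) * ((2 * Y) * (2 / Real.log Y) ^ k) := by
          refine mul_le_mul_of_nonneg_left ?_ (by positivity)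
          exact mul_le_mul e2 e3 (by positivity) (by positivity)
      _ = _ := by
          rw [div_pow]
          ring
  have hc5 : (V : ℝ) ≤ D ^ k * (Y / Real.log Y ^ k) := by
    have e1 : (V : ℝ) * Real.log Y ^ k ≤ Y := by
      have e2 : ((V : ℝ) * Real.log Y ^ k) ^ 3 ≤ (Y : ℝ) ^ 3 := by
        have e3 : (V : ℝ) ^ 3 ≤ Y := by
          have : V ^ 3 ≤ Y := by omega
          exact_mod_cast this
        calc ((V : ℝ) * Real.log Y ^ k) ^ 3 = (V : ℝ) ^ 3 * Real.log Y ^ (3 * k) := by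
              rw [mul_pow, ← pow_mul, mul_comm k 3]
          _ ≤ (Y : ℝ) * Y := mul_le_mul e3 b2 (by positivity) hYp.le
          _ ≤ (Y : ℝ) ^ 3 := by nlinarith
      exact (pow_le_pow_iff_left₀ (by positivity) hYp.le (by norm_num)).1 e2
    have e2 : (V : ℝ) ≤ Y / Real.log Y ^ k := by
      rw [le_div_iff₀ (by positivity)]
      exact e1
    calc (V : ℝ) ≤ 1 * (Y / Real.log Y ^ k) := by rw [one_mul]; exact e2
      _ ≤ D ^ k * (Y / Real.log Y ^ k) := mul_le_mul_of_nonneg_right hDk (by positivity)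
  calc _ ≤ V + (V * ((V.totient : ℝ) / V) ^ k * D ^ k) *
        (C1 * (((V : ℝ) / V.totient) / Real.log X) ^ k * X) := hc3
    _ ≤ D ^ k * (Y / Real.log Y ^ k) + C1 * 2 ^ (k + 1) * (D ^ k * (Y / Real.log Y ^ k)) :=
        add_le_add hc5 hc4
    _ = _ := by ring

end Pool.Agent.Lib.RU
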