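import Pool.Agent.Lib.RU.Spec

/-!
PROJECT RU, module VaU (helper92): the modulus, exact part
-/

set_option autoImplicit false

namespace Pool.Agent.Lib.RU

open Finset
open Pool.Agent.Lib.MP_9f2731_nt.GP Pool.Agent.Lib.MP_9f2731_nt.GP.Sv
open Pool.Agent.Lib.MP_9f2731_nt.QL Pool.Agent.Lib.MP_9f2731_nt.QL.Sw
open Pool.Agent.Lib.MP_9f2731_nt.CG Pool.Agent.Lib.MP_9f2731_nt.CG.Ma Pool.Agent.Lib.MP_9f2731_nt.CG.Mf
open Pool.Agent.Lib.BE

private theorem VaU_dvd (s : Finset ℕ) (hs : ∀ q ∈ s, q.Prime) (p : ℕ) (hp : p.Prime) :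
    p ∣ ∏ q ∈ s, q ↔ p ∈ s := by
  constructor
  · intro h
    obtain ⟨q, hq, hpq⟩ := (Prime.dvd_finset_prod_iff hp.prime _).mp h
    rwa [(Nat.prime_dvd_prime_iff_eq hp (hs q hq)).mp hpq]
  · intro h
    exact Finset.dvd_prod_of_mem _ h

private theorem VaU_sqf (s : Finset ℕ) : (∀ q ∈ s, q.Prime) → Squarefree (∏ q ∈ s, q) := by
  classical
  induction s using Finset.induction_on with
  | empty => intro _; simp
  | insert p s hps ih =>
    intro hs
    rw [Finset.prod_insert hps]
    have hp : p.Prime := hs p (Finset.mem_insert_self _ _)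
    have hs' : ∀ q ∈ s, q.Prime := fun q hq => hs q (Finset.mem_insert_of_mem hq)
    have hc : Nat.Coprime p (∏ q ∈ s, q) := by
      rw [Nat.Prime.coprime_iff_not_dvd hp, VaU_dvd s hs' p hp]
      exact hps
    exact (Nat.squarefree_mul hc).mpr ⟨hp.squarefree, ih hs'⟩

private theorem VaU_dist (a b B : ℕ) (hab : a ≠ b) (ha : a ≤ B) (hb : b ≤ B) :
    0 < Nat.dist a b ∧ Nat.dist a b ≤ B := by
  unfold Nat.dist
  omega

theorem tVaU : VaUStmt := by
  classical
  intro k w p0 B h hp0 hinj hB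
  obtain ⟨s, hs⟩ : ∃ s : Finset ℕ, s =
    ((range (w + 1)).filter Nat.Prime ∪ (Del h).primeFactors).erase p0 := ⟨_, rfl⟩
  have hV : Vh w p0 h = ∏ p ∈ s, p := by rw [hs]; rfl
  have hne : ∀ q : Fin k × Fin k, q.1 < q.2 → h q.1 ≠ h q.2 := fun q hq he => hq.ne (hinj he)
  have hDel : Del h ≠ 0 := by
    unfold Del
    rw [Finset.prod_ne_zero_iff]
    intro q hq
    exact (VaU_dist _ _ B (hne q (Finset.mem_filter.mp hq).2) (hB _).2 (hB _).2).1.ne'
  have hsp : ∀ q ∈ s, q.Prime := by
    intro q hq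
    rw [hs, Finset.mem_erase, Finset.mem_union, Finset.mem_filter] at hq
    rcases hq.2 with h1 | h1
    · exact h1.2
    · exact Nat.prime_of_mem_primeFactors h1
  have hpB : ∀ p : ℕ, p ∈ (Del h).primeFactors → p ≤ B := by
    intro p hp
    have hpp := Nat.prime_of_mem_primeFactors hp
    have hpd := Nat.dvd_of_mem_primeFactors hp
    unfold Del at hpd
    obtain ⟨q, hq, hpq⟩ := (Prime.dvd_finset_prod_iff hpp.prime _).mp hpd
    obtain ⟨h1, h2⟩ := VaU_dist _ _ B (hne q (Finset.mem_filter.mp hq).2) (hB q.1).2 (hB q.2).2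
    exact (Nat.le_of_dvd h1 hpq).trans h2
  have hdv : ∀ i j : Fin k, i ≠ j → Nat.dist (h i) (h j) ∣ Del h := by
    intro i j hij
    unfold Del
    rcases lt_or_gt_of_ne hij with h1 | h1
    · exact Finset.dvd_prod_of_mem (fun q : Fin k × Fin k => Nat.dist (h q.1) (h q.2))
        (a := (i, j)) (Finset.mem_filter.mpr ⟨Finset.mem_univ _, h1⟩)
    · rw [Nat.dist_comm]
      exact Finset.dvd_prod_of_mem (fun q : Fin k × Fin k => Nat.dist (h q.1) (h q.2))
        (a := (j, i)) (Finset.mem_filter.mpr ⟨Finset.mem_univ _, h1⟩)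
  have hmem : ∀ p : ℕ, p.Prime → p ≠ p0 → (p ≤ w ∨ p ∣ Del h) → p ∈ s := by
    intro p hp hne hor
    rw [hs, Finset.mem_erase, Finset.mem_union, Finset.mem_filter, Finset.mem_range]
    refine ⟨hne, ?_⟩
    rcases hor with h1 | h1
    · exact Or.inl ⟨by omega, hp⟩
    · exact Or.inr (Nat.mem_primeFactors.mpr ⟨hp, h1, hDel⟩)
  have hpos : 0 < ∏ p ∈ s, p := Finset.prod_pos fun p hp => (hsp p hp).pos
  rw [hV]
  refine ⟨hpos, VaU_sqf s hsp, ?_, ?_, ?_, ?_, ?_, ?_⟩
  · rw [VaU_dvd s hsp p0 hp0, hs]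
    exact Finset.notMem_erase _ _
  · intro p hp hpd
    rw [VaU_dvd s hsp p hp, hs, Finset.mem_erase, Finset.mem_union, Finset.mem_filter,
      Finset.mem_range] at hpd
    rcases hpd.2 with h1 | h1
    · left; omega
    · right; exact hpB p h1
  · intro p hp hpw
    rcases eq_or_ne p p0 with h1 | h1
    · rw [h1]; exact Dvd.intro_left _ rfl
    · exact Dvd.dvd.mul_right ((VaU_dvd s hsp p hp).mpr (hmem p hp h1 (Or.inl hpw))) _
  · intro p hp hpd i j hij hd
    apply hpd
    rcases eq_or_ne p p0 with h1 | h1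
    · rw [h1]; exact Dvd.intro_left _ rfl
    · exact Dvd.dvd.mul_right ((VaU_dvd s hsp p hp).mpr
        (hmem p hp h1 (Or.inr (hd.trans (hdv i j hij))))) _
  · have hA : ∏ p ∈ (range (w + 1)).filter Nat.Prime, p ≤ 4 ^ w := primorial_le_four_pow w
    have hD : ∏ p ∈ (Del h).primeFactors, p ≤ Del h :=
      Nat.le_of_dvd (Nat.pos_of_ne_zero hDel) (Nat.prod_primeFactors_dvd _)
    have hDB : Del h ≤ B ^ (k ^ 2) := by
      unfold Del
      have h1 : ∏ q ∈ (univ : Finset (Fin k × Fin k)).filter (fun q => q.1 < q.2),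
          Nat.dist (h q.1) (h q.2) ≤
          B ^ ((univ : Finset (Fin k × Fin k)).filter (fun q => q.1 < q.2)).card :=
        Finset.prod_le_pow_card _ _ _ fun q hq =>
          (VaU_dist _ _ B (hne q (Finset.mem_filter.mp hq).2) (hB q.1).2 (hB q.2).2).2
      refine h1.trans ?_
      rcases Nat.eq_zero_or_pos k with hk | hk
      · subst hk
        simp
      · have hB1 : 1 ≤ B := (hB ⟨0, hk⟩).1.trans (hB ⟨0, hk⟩).2
        apply Nat.pow_le_pow_right hB1
        refine (Finset.card_filter_le _ _).trans ?_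
        rw [Finset.card_univ, Fintype.card_prod, Fintype.card_fin, sq]
    have hU : ∏ p ∈ s, p ≤ ∏ p ∈ (range (w + 1)).filter Nat.Prime ∪ (Del h).primeFactors, p := by
      rw [hs]
      apply Finset.prod_le_prod_of_subset_of_one_le'
      · exact Finset.erase_subset _ _
      · intro q hq _
        rw [Finset.mem_union, Finset.mem_filter] at hq
        rcases hq with h1 | h1
        · exact h1.2.one_le
        · exact (Nat.prime_of_mem_primeFactors h1).one_le
    have hI : 1 ≤ ∏ p ∈ (range (w + 1)).filter Nat.Prime ∩ (Del h).primeFactors, p := by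
      apply Finset.one_le_prod'
      intro q hq
      exact (Nat.prime_of_mem_primeFactors (Finset.mem_inter.mp hq).2).one_le
    have hUI := Finset.prod_union_inter (s₁ := (range (w + 1)).filter Nat.Prime)
      (s₂ := (Del h).primeFactors) (f := fun p : ℕ => p)
    calc ∏ p ∈ s, p ≤ ∏ p ∈ (range (w + 1)).filter Nat.Prime ∪ (Del h).primeFactors, p := hU
      _ ≤ (∏ p ∈ (range (w + 1)).filter Nat.Prime ∪ (Del h).primeFactors, p) *
          ∏ p ∈ (range (w + 1)).filter Nat.Prime ∩ (Del h).primeFactors, p :=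
          Nat.le_mul_of_pos_right _ hI
      _ = (∏ p ∈ (range (w + 1)).filter Nat.Prime, p) * ∏ p ∈ (Del h).primeFactors, p := hUI
      _ ≤ 4 ^ w * B ^ (k ^ 2) := Nat.mul_le_mul hA (hD.trans hDB)
  · have hprim : primorial w = ∏ p ∈ (range (w + 1)).filter Nat.Prime, p := rfl
    have hsub : ∏ p ∈ ((range (w + 1)).filter Nat.Prime).erase p0, p ≤ ∏ p ∈ s, p := by
      apply Finset.prod_le_prod_of_subset_of_one_le'
      · rw [hs]
        exact Finset.erase_subset_erase _ Finset.subset_union_left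
      · intro q hq _
        exact (hsp q hq).one_le
    rw [hprim]
    by_cases hmem0 : p0 ∈ (range (w + 1)).filter Nat.Prime
    · rw [← Finset.mul_prod_erase _ _ hmem0, mul_comm]
      refine Nat.mul_le_mul hsub ?_
      have := Finset.mem_range.mp (Finset.mem_filter.mp hmem0).1
      omega
    · rw [Finset.erase_eq_of_notMem hmem0] at hsub
      exact hsub.trans (Nat.le_mul_of_pos_right _ (Nat.succ_pos w))

end Pool.Agent.Lib.RU
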