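import Pool.Agent.Lib.RU.Spec
import Mathlib.NumberTheory.Chebyshev

/-!
# RU, module VhU: the modulus, sizes and StC
-/

set_option autoImplicit false

namespace Pool.Agent.Lib.RU

open Finset
open Pool.Agent.Lib.MP_9f2731_nt.GP
open Pool.Agent.Lib.MP_9f2731_nt.CG
open Pool.Agent.Lib.MP_9f2731_nt.CG.Mf
open Pool.Agent.Lib.BE

/-- powers against the exponential function -/
private theorem VhU_pow (k : ℕ) {b c : ℝ} (hb : 0 < b) (hc : 0 < c) :
    ∃ Y : ℝ, 0 ≤ Y ∧ ∀ y : ℝ, Y ≤ y → y ^ k ≤ c * Real.exp (b * y) := by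
  have h := (isLittleO_pow_exp_pos_mul_atTop k hb).bound hc
  obtain ⟨Y, hY⟩ := Filter.eventually_atTop.1 h
  refine ⟨max Y 0, le_max_right _ _, fun y hy => ?_⟩
  have h1 := hY y (le_trans (le_max_left _ _) hy)
  rw [Real.norm_eq_abs, Real.norm_eq_abs, abs_of_pos (Real.exp_pos _)] at h1
  exact (le_abs_self _).trans h1

private theorem VhU_theta (w : ℕ) (y : ℝ) (hy : 20 ≤ y) (h1 : y ^ 4 - 1 ≤ (w : ℝ)) (h2 : (w : ℝ) ≤ y ^ 4) :
    y + 1 + Real.log ((w : ℝ) + 1) ≤ Real.log (primorial w) := by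
  have h3 := Chebyshev.theta_ge w
  rw [Chebyshev.theta_eq_log_primorial, Nat.floor_natCast] at h3
  refine le_trans ?_ h3
  have hy0 : 0 < y := by linarith
  have hw1 : 1 ≤ (w : ℝ) := by
    have : (20 : ℝ) ^ 4 ≤ y ^ 4 := pow_le_pow_left₀ (by norm_num) hy 4
    linarith
  have hly : Real.log y ≤ y := by
    have := Real.log_le_sub_one_of_pos hy0
    linarith
  have hsq : Real.sqrt w ≤ y ^ 2 := by
    apply Real.sqrt_le_iff.2
    refine ⟨by positivity, ?_⟩
    calc (w : ℝ) ≤ y ^ 4 := h2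
      _ = (y ^ 2) ^ 2 := by ring
  have hlw : Real.log w ≤ 4 * y := by
    calc Real.log w ≤ Real.log (y ^ 4) := Real.log_le_log (by linarith) h2
      _ = 4 * Real.log y := by rw [Real.log_pow]; norm_num
      _ ≤ 4 * y := by linarith
  have hlw0 : 0 ≤ Real.log w := Real.log_nonneg hw1
  have hlw1 : Real.log ((w : ℝ) + 1) ≤ 4 * y + 1 := by
    have e1 : (w : ℝ) + 1 ≤ 2 * w := by linarith
    have e2 : Real.log ((w : ℝ) + 1) ≤ Real.log (2 * w) := Real.log_le_log (by linarith) e1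
    rw [Real.log_mul (by norm_num) (by linarith)] at e2
    have := Real.log_two_lt_d9
    linarith
  have hl2 := Real.log_two_gt_d9
  have hmain : 2 * Real.sqrt w * Real.log w ≤ 8 * y ^ 3 := by
    calc 2 * Real.sqrt w * Real.log w ≤ 2 * y ^ 2 * (4 * y) := by
          apply mul_le_mul (by linarith) hlw hlw0 (by positivity)
      _ = 8 * y ^ 3 := by ring
  have hwl : (y ^ 4 - 1) * (1 / 2) ≤ w * Real.log 2 := by
    have e1 : 0 ≤ y ^ 4 - 1 := by
      have : (20 : ℝ) ^ 4 ≤ y ^ 4 := pow_le_pow_left₀ (by norm_num) hy 4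
      linarith
    apply mul_le_mul h1 (by linarith) (by norm_num) (by linarith)
  have hbig : 20 * y ^ 3 ≤ y ^ 4 := by
    have : y ^ 4 = y * y ^ 3 := by ring
    rw [this]
    apply mul_le_mul_of_nonneg_right hy (by positivity)
  have hy3 : 400 * y ≤ y ^ 3 := by
    have e1 : y ^ 3 = y ^ 2 * y := by ring
    rw [e1]
    apply mul_le_mul_of_nonneg_right _ hy0.le
    have : (20 : ℝ) ^ 2 ≤ y ^ 2 := pow_le_pow_left₀ (by norm_num) hy 2
    linarith
  linarith

theorem tVhU (h0 : VaUStmt) : VhUStmt := by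
  intro k ε1 hε
  obtain ⟨ck, hck⟩ : ∃ ck : ℝ, ck = (k : ℝ) ^ 2 + 2 := ⟨_, rfl⟩
  have hck2 : 2 ≤ ck := by rw [hck]; nlinarith [sq_nonneg (k : ℝ)]
  obtain ⟨Y1, hY1, h1⟩ := VhU_pow 48 (b := 1 / 4) (c := 1 / (ck + 1) ^ 12) (by norm_num) (by positivity)
  obtain ⟨Y2, hY2, h2⟩ := VhU_pow 4 (b := ε1 / 2) (c := 1 / ck) (by positivity) (by positivity)
  obtain ⟨Y3, hY3, h3⟩ := VhU_pow 4 (b := 1) (c := 1 / (3 * ck + 3)) (by norm_num) (by positivity)
  obtain ⟨T, hT⟩ : ∃ T : ℝ, T = 20 + Y1 + Y2 + Y3 := ⟨_, rfl⟩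
  refine ⟨Real.exp (Real.exp T), fun Y p0 h hY hp0 hinj hh => ?_⟩
  have hlogY : Real.exp T ≤ Real.log Y := by
    rw [Real.le_log_iff_exp_le (lt_of_lt_of_le (Real.exp_pos _) hY)]
    exact hY
  have hlpos : 0 < Real.log Y := lt_of_lt_of_le (Real.exp_pos _) hlogY
  have hYpos : (0 : ℝ) < Y := lt_of_lt_of_le (Real.exp_pos _) hY
  have hTy : T ≤ Real.log (Real.log Y) := by
    rw [Real.le_log_iff_exp_le hlpos]
    exact hlogY
  obtain ⟨y, hydef⟩ : ∃ y : ℝ, y = Real.log (Real.log Y) := ⟨_, rfl⟩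
  rw [← hydef] at hTy
  have hexp : Real.exp y = Real.log Y := by rw [hydef]; exact Real.exp_log hlpos
  have hy20 : 20 ≤ y := by linarith
  have hy0 : 0 < y := by linarith
  have hyy : y ≤ y ^ 4 := by
    have e3 : 1 ≤ y ^ 3 := one_le_pow₀ (by linarith)
    calc y = y * 1 := (mul_one y).symm
      _ ≤ y * y ^ 3 := by gcongr
      _ = y ^ 4 := by ring
  have hwx : wx Y = ⌊y ^ 4⌋₊ := by rw [hydef]; rfl
  have hwle : (wx Y : ℝ) ≤ y ^ 4 := by
    rw [hwx]
    exact Nat.floor_le (by positivity)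
  have hwge : y ^ 4 - 1 ≤ (wx Y : ℝ) := by
    rw [hwx]
    exact (Nat.sub_one_lt_floor _).le
  obtain ⟨B, hB⟩ : ∃ B : ℕ, B = ⌊Real.log Y⌋₊ := ⟨_, rfl⟩
  have hBle : (B : ℝ) ≤ Real.log Y := by rw [hB]; exact Nat.floor_le hlpos.le
  have hB1 : 1 ≤ B := by
    rw [hB]
    apply Nat.le_floor
    rw [Nat.cast_one]
    refine le_trans ?_ hlogY
    exact Real.one_le_exp (by linarith)
  obtain ⟨a1, a2, a3, a4, a5, a6, a7, a8⟩ := h0 k (wx Y) p0 B h hp0 hinj
    (fun j => ⟨(hh j).1, by rw [hB]; exact Nat.le_floor (hh j).2⟩)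
  obtain ⟨V, hV⟩ : ∃ V : ℕ, V = Vh (wx Y) p0 h := ⟨_, rfl⟩
  rw [← hV] at a1 a2 a3 a4 a5 a6 a7 a8 ⊢
  have hV0 : (0 : ℝ) < V := by exact_mod_cast a1
  have hlV0 : 0 ≤ Real.log V := Real.log_nonneg (by exact_mod_cast a1)
  have hB0 : (0 : ℝ) < B := by exact_mod_cast hB1
  have hlogB : Real.log B ≤ y := by
    rw [hydef]
    exact Real.log_le_log hB0 hBle
  have hlV : Real.log V ≤ ck * y ^ 4 := by
    have e1 : Real.log V ≤ Real.log ((4 ^ (wx Y) * B ^ (k ^ 2) : ℕ) : ℝ) :=
      Real.log_le_log hV0 (by exact_mod_cast a7)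
    have e2 : Real.log ((4 ^ (wx Y) * B ^ (k ^ 2) : ℕ) : ℝ) =
        (wx Y : ℝ) * Real.log 4 + ((k ^ 2 : ℕ) : ℝ) * Real.log B := by
      push_cast
      rw [Real.log_mul (by positivity) (by positivity), Real.log_pow, Real.log_pow]
      push_cast
      ring
    have e3 : Real.log 4 ≤ 2 := by
      have h4 : (4 : ℝ) = 2 ^ 2 := by norm_num
      rw [h4, Real.log_pow]
      have := Real.log_two_lt_d9
      push_cast
      linarith
    have e4 : (wx Y : ℝ) * Real.log 4 ≤ y ^ 4 * 2 := by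
      apply mul_le_mul hwle e3 (Real.log_nonneg (by norm_num)) (by positivity)
    have e5 : ((k ^ 2 : ℕ) : ℝ) * Real.log B ≤ (k : ℝ) ^ 2 * y ^ 4 := by
      push_cast
      apply mul_le_mul_of_nonneg_left (hlogB.trans hyy) (by positivity)
    rw [e2] at e1
    rw [hck]
    linarith
  have hVy : y + 1 ≤ Real.log V := by
    have e1 := VhU_theta (wx Y) y hy20 hwge hwle
    have e2 : Real.log (primorial (wx Y)) ≤ Real.log ((V * (wx Y + 1) : ℕ) : ℝ) := by
      apply Real.log_le_log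
      · exact_mod_cast primorial_pos _
      · exact_mod_cast a8
    have e3 : Real.log ((V * (wx Y + 1) : ℕ) : ℝ) = Real.log V + Real.log ((wx Y : ℝ) + 1) := by
      push_cast
      exact Real.log_mul hV0.ne' (by positivity)
    rw [e3] at e2
    linarith
  have hVbig : Real.log Y ≤ V := by
    rw [← hexp]
    calc Real.exp y ≤ Real.exp (Real.log V) := Real.exp_le_exp.2 (by linarith)
      _ = V := Real.exp_log hV0
  have hV2 : 2 ≤ V := by
    have e1 : (2 : ℝ) ≤ V := by
      refine le_trans ?_ hVbig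
      rw [← hexp]
      have := Real.add_one_le_exp y
      linarith
    exact_mod_cast e1
  have h3y := h3 y (by linarith)
  rw [one_mul, hexp] at h3y
  have hcy : (3 * ck + 3) * y ^ 4 ≤ Real.log Y := by
    have e1 : (0 : ℝ) < 3 * ck + 3 := by linarith
    calc (3 * ck + 3) * y ^ 4 ≤ (3 * ck + 3) * (1 / (3 * ck + 3) * Real.log Y) :=
          mul_le_mul_of_nonneg_left h3y e1.le
      _ = Real.log Y := by field_simp
  have hy4 : 1 ≤ y ^ 4 := by linarith
  have hy4l : y ^ 4 ≤ Real.log Y := by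
    have e1 : 0 ≤ ck * y ^ 4 := by positivity
    linarith
  refine ⟨hV2, a2, a3, ?_, ?_, ?_, ?_⟩
  · intro j
    have := (hh j).2.trans hVbig
    exact_mod_cast this
  · intro p hp hpd
    rcases a4 p hp hpd with h4 | h4
    · have e1 : (p : ℝ) ≤ (wx Y : ℝ) := by exact_mod_cast h4
      linarith
    · have e1 : (p : ℝ) ≤ (B : ℝ) := by exact_mod_cast h4
      linarith
  · have e1 : Real.log ((8 * V ^ 3 : ℕ) : ℝ) ≤ Real.log Y := by
      push_cast
      rw [Real.log_mul (by norm_num) (by positivity), Real.log_pow]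
      have e2 : Real.log 8 ≤ 3 := by
        have h4 : (8 : ℝ) = 2 ^ 3 := by norm_num
        rw [h4, Real.log_pow]
        have := Real.log_two_lt_d9
        push_cast
        linarith
      push_cast
      linarith
    have e2 := (Real.log_le_log_iff (by positivity) hYpos).1 e1
    exact_mod_cast e2
  · intro X hYX hXY
    have hXr : (Y : ℝ) ≤ (X : ℝ) ^ 2 := by exact_mod_cast hYX
    have hX0 : (0 : ℝ) < X := by
      rcases (Nat.cast_nonneg X : (0 : ℝ) ≤ X).eq_or_lt with e | e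
      · exfalso
        rw [← e] at hXr
        norm_num at hXr
        rw [hXr] at hYpos
        norm_num at hYpos
      · exact e
    have hlX1 : Real.log Y ≤ 2 * Real.log X := by
      have e1 := Real.log_le_log hYpos hXr
      rw [Real.log_pow] at e1
      push_cast at e1
      exact e1
    have hlX2 : Real.log X ≤ Real.log Y := Real.log_le_log hX0 (by exact_mod_cast hXY)
    have hlX : Real.exp (1 / 2 * y) ≤ Real.log X := by
      have e1 : Real.exp y = Real.exp (1 / 2 * y) * Real.exp (1 / 2 * y) := by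
        rw [← Real.exp_add]
        congr 1
        ring
      have e2 : 2 ≤ Real.exp (1 / 2 * y) := by
        have := Real.add_one_le_exp (1 / 2 * y)
        linarith
      have e3 : 2 * Real.exp (1 / 2 * y) ≤ Real.exp y := by
        rw [e1]
        exact mul_le_mul_of_nonneg_right e2 (Real.exp_pos _).le
      linarith
    have hlXpos : 0 < Real.log X := lt_of_lt_of_le (Real.exp_pos _) hlX
    have hllX : 1 / 2 * y ≤ Real.log (Real.log X) := by
      rw [Real.le_log_iff_exp_le hlXpos]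
      exact hlX
    have hllX2 : Real.log (Real.log X) ≤ y := by
      rw [hydef]
      exact Real.log_le_log hlXpos hlX2
    refine ⟨?_, fun ν => ?_⟩
    · have e1 : (Real.log X) ^ ε1 = Real.exp (Real.log (Real.log X) * ε1) := by
        rw [Real.rpow_def_of_pos hlXpos]
      have e2 : Real.exp (ε1 / 2 * y) ≤ (Real.log X) ^ ε1 := by
        rw [e1]
        apply Real.exp_le_exp.2
        have := mul_le_mul_of_nonneg_right hllX hε.le
        linarith
      have e3 := h2 y (by linarith)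
      refine le_trans hlV (le_trans ?_ e2)
      calc ck * y ^ 4 ≤ ck * (1 / ck * Real.exp (ε1 / 2 * y)) :=
            mul_le_mul_of_nonneg_left e3 (by linarith)
        _ = Real.exp (ε1 / 2 * y) := by field_simp
    · refine ⟨hp0, a3, a1, ?_, ?_, a5, ?_, ?_, fun _ => dvd_rfl, fun _ => a1⟩
      · have e1 : (Real.log (Real.log X)) ^ 2 ≤ y ^ 2 :=
          pow_le_pow_left₀ (by linarith) hllX2 2
        have e2 : y ^ 2 + 1 ≤ y ^ 4 := by nlinarith [sq_nonneg (y ^ 2 - 1), sq_nonneg (y - 2)]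
        linarith
      · have e1 : (1 + Real.log V) ^ 12 ≤ ((ck + 1) * y ^ 4) ^ 12 := by
          apply pow_le_pow_left₀ (by linarith)
          linarith
        have e2 := h1 y (by linarith)
        have e3 : Real.exp (1 / 4 * y) ≤ Real.sqrt (Real.log X) := by
          apply Real.le_sqrt_of_sq_le
          have e4 : Real.exp (1 / 4 * y) ^ 2 = Real.exp (1 / 2 * y) := by
            rw [sq, ← Real.exp_add]
            congr 1
            ring
          rw [e4]
          exact hlX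
        have e5 : (0 : ℝ) < (ck + 1) ^ 12 := by positivity
        calc (1 + Real.log V) ^ 12 ≤ ((ck + 1) * y ^ 4) ^ 12 := e1
          _ = (ck + 1) ^ 12 * y ^ 48 := by ring
          _ ≤ (ck + 1) ^ 12 * (1 / (ck + 1) ^ 12 * Real.exp (1 / 4 * y)) :=
            mul_le_mul_of_nonneg_left e2 e5.le
          _ = Real.exp (1 / 4 * y) := by field_simp
          _ ≤ Real.sqrt (Real.log X) := e3
      · intro j p hp hpd hdiv
        exact hpd (hdiv.mul_right _)
      · intro i j hij p hp hpd hdiv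
        rw [Nat.dist_mul_left, Nat.dist_add_add_left] at hdiv
        rcases (Nat.Prime.dvd_mul hp).mp hdiv with h4 | h4
        · exact hpd (h4.mul_right _)
        · exact a6 p hp hpd j i hij.symm h4

end Pool.Agent.Lib.RU
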