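import Pool.Agent.Lib.RU.SpecV

/-!
PROJECT RU, module WiV (helper56, after module WiU of helper73): one window with isolation.
-/

set_option autoImplicit false

namespace Pool.Agent.Lib.RU

open Finset

/-- the number of primes in the window -/
private theorem WiV_count (K M N m : ℕ) (h : Fin K → ℕ) (hh : StrictMono h)
    (h1 : ∀ j, 1 ≤ h j ∧ h j ≤ M)
    (h3 : m + 1 ≤ (univ.filter (fun j => (N + h j).Prime)).card) :
    Nat.primeCounting N + (m + 1) ≤ Nat.count Nat.Prime (N + M + 1) := by
  have e1 : N + M + 1 = (N + 1) + M := by ring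
  have e2 : Nat.count Nat.Prime (N + M + 1) =
      Nat.primeCounting N + Nat.count (fun k => Nat.Prime (N + 1 + k)) M := by
    rw [e1, Nat.count_add]
    rfl
  have e3 : (univ.filter (fun j : Fin K => (N + h j).Prime)).card ≤
      Nat.count (fun k => Nat.Prime (N + 1 + k)) M := by
    rw [Nat.count_eq_card_filter_range]
    refine Finset.card_le_card_of_injOn (fun j => h j - 1) ?_ ?_
    · intro j hj
      rw [Finset.mem_coe, Finset.mem_filter] at hj
      rw [Finset.mem_coe, Finset.mem_filter, Finset.mem_range]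
      have h4 := h1 j
      have e5 : h j - 1 < M := by omega
      have e4 : N + 1 + (h j - 1) = N + h j := by omega
      refine ⟨e5, ?_⟩
      show Nat.Prime (N + 1 + (h j - 1))
      rw [e4]
      exact hj.2
    · intro j _ j' _ hjj
      have h4 := h1 j
      have h5 := h1 j'
      simp only at hjj
      exact hh.injective (by omega)
  omega

theorem tWiV : WiVStmt := by
  intro K M N m C Rel h hN hh h1 h2 hC h3 h4
  have hinf : (Set.ofPred Nat.Prime).Infinite := Nat.infinite_setOfPred_prime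
  obtain ⟨P, hP⟩ : ∃ P : ℕ → ℕ, P = fun i => Nat.nth Nat.Prime (Nat.primeCounting N + i) :=
    ⟨_, rfl⟩
  have hPi : ∀ i, Nat.nth Nat.Prime (Nat.primeCounting N + i) = P i := fun i => by rw [hP]
  have hmono : StrictMono P := by
    intro i j hij
    rw [← hPi i, ← hPi j]
    exact Nat.nth_strictMono hinf (by omega)
  have hlow : N < P 0 := by
    have h5 : N + 1 ≤ Nat.nth Nat.Prime (Nat.count Nat.Prime (N + 1)) :=
      (Nat.count_le_iff_le_nth hinf).1 le_rfl
    rw [← hPi 0, Nat.add_zero]
    exact h5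
  have hcnt := WiV_count K M N m h hh h1 h3
  obtain ⟨s, hs⟩ : ∃ s, Nat.count Nat.Prime (N + M + 1) = Nat.primeCounting N + (s + 1) :=
    ⟨Nat.count Nat.Prime (N + M + 1) - Nat.primeCounting N - 1, by omega⟩
  have hms : m ≤ s := by omega
  have hπ : 1 ≤ Nat.primeCounting N := by
    have h5 : Nat.primeCounting 2 ≤ Nat.primeCounting N := Nat.monotone_primeCounting hN
    have h6 : Nat.primeCounting 2 = 1 := by decide
    omega
  obtain ⟨n, hn⟩ : ∃ n, n + 1 = Nat.primeCounting N := ⟨Nat.primeCounting N - 1, by omega⟩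
  have hup : P s ≤ N + M := by
    rw [← hPi s]
    have h6 := (Nat.lt_nth_iff_count_lt hinf).1
      (show Nat.primeCounting N + s < Nat.count Nat.Prime (N + M + 1) by omega)
    omega
  have hup1 : N + M + 1 ≤ P (s + 1) := by
    rw [← hPi (s + 1), ← hs]
    exact (Nat.count_le_iff_le_nth hinf).1 le_rfl
  have hpn : Nat.nth Nat.Prime n ≤ N := by
    have h5 : n < Nat.count Nat.Prime (N + 1) := by
      have h6 : Nat.count Nat.Prime (N + 1) = Nat.primeCounting N := rfl
      omega
    have h6 := (Nat.lt_nth_iff_count_lt hinf).1 h5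
    omega
  have hprime : ∀ i, (P i).Prime := by
    intro i
    rw [← hPi i]
    exact Nat.nth_mem_of_infinite hinf _
  have hex : ∀ i, i ≤ s → ∃ j, N + h j = P i := by
    intro i hi
    have h5 : P 0 ≤ P i := hmono.monotone (Nat.zero_le i)
    have h6 : P i ≤ P s := hmono.monotone hi
    obtain ⟨j, hj⟩ := h4 (P i - N) (by omega) (by omega) (by
      have e : N + (P i - N) = P i := by omega
      rw [e]
      exact hprime i)
    exact ⟨j, by omega⟩
  have hgp : ∀ i, gp (n + 1 + i) = P (i + 1) - P i := by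
    intro i
    unfold gp
    rw [hn, hPi i, add_assoc, hPi (i + 1)]
  have h0s : P 0 ≤ P s := hmono.monotone (Nat.zero_le _)
  have hsum : ∑ i ∈ range s, gp (n + 1 + i) = P s - P 0 := by
    have e1 : ∑ i ∈ range s, gp (n + 1 + i) = ∑ i ∈ range s, (P (i + 1) - P i) :=
      Finset.sum_congr rfl fun i _ => hgp i
    rw [e1, Finset.sum_range_tsub hmono.monotone]
  obtain ⟨j0, hj0⟩ := hex 0 (Nat.zero_le _)
  obtain ⟨js, hjs⟩ := hex s le_rfl
  have hle : h j0 ≤ h js := by omega
  have hsumR : ((∑ i ∈ range s, gp (n + 1 + i) : ℕ) : ℝ) = (h js : ℝ) - h j0 := by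
    rw [hsum, ← hj0, ← hjs]
    have h6 : N + h js - (N + h j0) = h js - h j0 := by omega
    rw [h6, Nat.cast_sub hle]
  have hP0 : Nat.nth Nat.Prime (n + 1) = P 0 := by
    have h5 := hPi 0
    rw [Nat.add_zero] at h5
    rw [hn, h5]
  refine ⟨s, n, hms, hn, ?_, ?_, ?_, ?_, ?_, ?_⟩
  · rw [hP0]
    exact hlow
  · rw [hP0]
    omega
  · intro i hi1 his
    obtain ⟨i, rfl⟩ : ∃ i', i = i' + 1 := ⟨i - 1, by omega⟩
    obtain ⟨a, ha⟩ := hex i (by omega)
    obtain ⟨b, hb⟩ := hex (i + 1) (by omega)
    obtain ⟨c, hc⟩ := hex (i + 2) (by omega)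
    have hab0 : P i < P (i + 1) := hmono (by omega)
    have hbc0 : P (i + 1) < P (i + 2) := hmono (by omega)
    have hab : a < b := hh.lt_iff_lt.1 (by omega)
    have hbc : b < c := hh.lt_iff_lt.1 (by omega)
    have h5 := h2 a b c hab hbc
    have e1 : ((gp (n + (i + 1)) : ℕ) : ℝ) = (h b : ℝ) - h a := by
      have h7 : n + (i + 1) = n + 1 + i := by omega
      rw [h7, hgp i, ← ha, ← hb]
      have h6 : N + h b - (N + h a) = h b - h a := by omega
      rw [h6, Nat.cast_sub (by omega)]
    have e2 : ((gp (n + (i + 1) + 1) : ℕ) : ℝ) = (h c : ℝ) - h b := by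
      have h7 : n + (i + 1) + 1 = n + 1 + (i + 1) := by omega
      rw [h7, hgp (i + 1)]
      have h8 : i + 1 + 1 = i + 2 := by omega
      rw [h8, ← hb, ← hc]
      have h6 : N + h c - (N + h b) = h c - h b := by omega
      rw [h6, Nat.cast_sub (by omega)]
    rw [e1, e2]
    exact h5
  · rw [hsum]
    omega
  · rw [hsumR]
    have h5 := (hC j0 js j0).1
    have h6 : h j0 ≤ gp n := by
      unfold gp
      rw [hP0]
      omega
    have h7 : (h j0 : ℝ) ≤ gp n := by exact_mod_cast h6
    exact lt_of_lt_of_le h5 h7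
  · rw [hsumR]
    have h5 := (hC j0 js js).2
    have h6 : M ≤ h js + gp (n + s + 1) := by
      have h7 : n + s + 1 = n + 1 + s := by omega
      rw [h7, hgp s]
      omega
    have h7 : (M : ℝ) ≤ h js + gp (n + s + 1) := by exact_mod_cast h6
    linarith

end Pool.Agent.Lib.RU
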