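import Pool.Agent.Lib.BE.AllR
import Pool.Agent.Lib.RU.BfU
import Pool.Agent.Lib.RU.MeU
import Pool.Agent.Lib.RU.MkU
import Pool.Agent.Lib.RU.UbU
import Pool.Agent.Lib.RU.VaU
import Pool.Agent.Lib.RU.VhU
import Pool.Agent.Lib.RU.ApU
import Pool.Agent.Lib.RU.AlU
import Pool.Agent.Lib.RU.AuU
import Pool.Agent.Lib.RU.TmU
import Pool.Agent.Lib.RU.SgU
import Pool.Agent.Lib.RU.LwU
import Pool.Agent.Lib.RU.UpU
import Pool.Agent.Lib.RU.CoU
import Pool.Agent.Lib.RU.GeV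
import Pool.Agent.Lib.RU.WiV
import Pool.Agent.Lib.RU.FrV
import Pool.Agent.Lib.RU.RuV

/-!
PROJECT RU (helper82): composition of the modules, final form (isolated monotone clusters).
-/

set_option autoImplicit false

namespace Pool.Agent.Lib.RU

open Pool.Agent.Lib.MP_9f2731_nt.GP
open Pool.Agent.Lib.MP_9f2731_nt.QL
open Pool.Agent.Lib.MP_9f2731_nt.CG
open Pool.Agent.Lib.BE

theorem aBfU : BfUStmt := tBfU Bq.aExG aApC aBsC
theorem aMaR : MaRStmt := tMaR aS1C Ma.aPfB Mf.aMfT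
theorem aMkU : MkUStmt := tMkU Mv.mvAll aMaR aMbC aMgR (tMeU Ma.aPfB) tMhC
theorem aVhU : VhUStmt := tVhU tVaU
theorem aLwU : LwUStmt := tLwU aBfU aMkU aVhU (tAlU tApU)
theorem aUpU : UpUStmt := tUpU (tUbU aMaR Ma.aPfB) aVhU (tAuU tApU)
theorem aCoU : CoUStmt := tCoU aLwU aUpU (tSgU tTmU)

/-- THEOREM RU, final form -/
theorem rvAll : RvStmt := tRuV (tFrV aCoU tWiV) tGeV

end Pool.Agent.Lib.RU
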