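import Pool.Agent.Lib.RU.SpecV

set_option autoImplicit false

namespace Pool.Agent.Lib.RU

open Finset

namespace GeVM

/-- the tuple without dilation -/
def ee {K : ℕ} (c T : ℕ) (t : Fin K → ℕ) (j : Fin K) : ℕ := (c + 3) ^ ((j : ℕ) + 1) * T + t j

theorem core {K : ℕ} (c T : ℕ) (t : Fin K → ℕ) (ht : ∀ j, t j < T) :
    (∀ i j, i < j → ee c T t i < ee c T t j) ∧
    (∀ i j k, i < j → j < k → (c + 1) * ee c T t j < ee c T t k + c * ee c T t i) ∧
    ∀ j, 0 < ee c T t j ∧ ee c T t j < 2 * (c + 3) ^ K * T := by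
  obtain ⟨P, hP⟩ : ∃ P : Fin K → ℕ, P = fun j : Fin K => (c + 3) ^ ((j : ℕ) + 1) * T := ⟨_, rfl⟩
  have hP1 : ∀ j, T ≤ P j := by
    intro j
    rw [hP]
    exact Nat.le_mul_of_pos_left T (by positivity)
  have hP2 : ∀ i j : Fin K, i < j → (c + 3) * P i ≤ P j := by
    intro i j hij
    rw [hP]
    have h1 : (i : ℕ) + 1 + 1 ≤ (j : ℕ) + 1 := by
      have : (i : ℕ) < j := hij
      omega
    calc (c + 3) * ((c + 3) ^ ((i : ℕ) + 1) * T) = (c + 3) ^ ((i : ℕ) + 1 + 1) * T := by
          rw [pow_succ (c + 3) ((i : ℕ) + 1)]; ring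
      _ ≤ (c + 3) ^ ((j : ℕ) + 1) * T :=
          Nat.mul_le_mul_right _ (Nat.pow_le_pow_right (by omega) h1)
  have hP3 : ∀ j : Fin K, P j ≤ (c + 3) ^ K * T := by
    intro j
    rw [hP]
    exact Nat.mul_le_mul_right _ (Nat.pow_le_pow_right (by omega) (by have := j.2; omega))
  have he : ∀ j, ee c T t j = P j + t j := by intro j; rw [hP]; rfl
  refine ⟨?_, ?_, ?_⟩
  · intro i j hij
    rw [he, he]
    have h1 := hP1 i
    have h2 := hP2 i j hij
    have h3 := ht i
    nlinarith
  · intro i j k hij hjk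
    rw [he, he, he]
    have h1 := hP1 i
    have h2 := hP2 j k hjk
    have h3 := ht j
    have h4 := hP1 j
    have h5 : c * t j ≤ c * P i := Nat.mul_le_mul_left _ (by omega)
    nlinarith [Nat.zero_le (c * t i), Nat.zero_le (t k)]
  · intro j
    rw [he]
    have h1 := hP1 j
    have h2 := hP3 j
    have h3 := ht j
    constructor
    · omega
    · nlinarith

/-- the bounds for tuples in (A W, (A + 1) W) -/
theorem bd {K : ℕ} (c W M : ℕ) (C : ℝ) (hC : |C| ≤ c) (hW : (2 * (c + 1) + 1) * W ≤ M)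
    (h : Fin K → ℕ) (h1 : ∀ j, (c + 1) * W < h j ∧ h j < (c + 2) * W) (i j k : Fin K) :
    C * ((h j : ℝ) - h i) < h k ∧ C * ((h j : ℝ) - h i) < M - h k := by
  have a1 : ∀ j, ((c : ℝ) + 1) * W < h j ∧ (h j : ℝ) < ((c : ℝ) + 2) * W := by
    intro j
    have := h1 j
    constructor
    · exact_mod_cast this.1
    · exact_mod_cast this.2
  have a2 : (2 * ((c : ℝ) + 1) + 1) * W ≤ M := by exact_mod_cast hW
  have a3 : |(h j : ℝ) - h i| ≤ W := by
    have b1 := a1 i
    have b2 := a1 j
    rw [abs_le]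
    constructor <;> nlinarith
  have a4 : C * ((h j : ℝ) - h i) ≤ c * W := by
    calc C * ((h j : ℝ) - h i) ≤ |C * ((h j : ℝ) - h i)| := le_abs_self _
      _ = |C| * |(h j : ℝ) - h i| := abs_mul _ _
      _ ≤ c * W := mul_le_mul hC a3 (abs_nonneg _) (by positivity)
  have b3 := a1 k
  have hW0 : (0 : ℝ) ≤ W := by positivity
  constructor <;> nlinarith

theorem floor_half (M q : ℕ) (hq : 0 < q) (hM : q ≤ M) : (M : ℝ) / (2 * q) ≤ ((M / q : ℕ) : ℝ) := by
  have h1 : 1 ≤ M / q := (Nat.one_le_div_iff hq).2 hM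
  have h2 : M < q * (M / q + 1) := Nat.lt_mul_div_succ M hq
  have h3 : M ≤ 2 * q * (M / q) := by nlinarith
  have hq' : (0 : ℝ) < 2 * q := by positivity
  rw [div_le_iff₀ hq']
  have h4 : (M : ℝ) ≤ 2 * q * ((M / q : ℕ) : ℝ) := by exact_mod_cast h3
  linarith

end GeVM

open GeVM in
theorem tGeV : GeVStmt := by
  intro K C hK
  obtain ⟨c, hc⟩ : ∃ c : ℕ, |C| ≤ c := exists_nat_ge _
  obtain ⟨F, hF⟩ : ∃ F, F = K.factorial := ⟨_, rfl⟩
  have hF1 : 0 < F := by rw [hF]; exact Nat.factorial_pos K
  obtain ⟨q, hq⟩ : ∃ q, q = (2 * (c + 1) + 1) * (2 * F * (c + 3) ^ K) := ⟨_, rfl⟩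
  have hq1 : 0 < q := by rw [hq]; positivity
  refine ⟨(1 / (2 * q)) ^ K, q, by positivity, fun M hM => ?_⟩
  obtain ⟨T, hT⟩ : ∃ T, T = M / q := ⟨_, rfl⟩
  have hT1 : 1 ≤ T := by rw [hT]; exact (Nat.one_le_div_iff hq1).2 hM
  obtain ⟨W, hW⟩ : ∃ W, W = 2 * F * (c + 3) ^ K * T := ⟨_, rfl⟩
  have hWM : (2 * (c + 1) + 1) * W ≤ M := by
    have h1 : (2 * (c + 1) + 1) * W = q * T := by rw [hW, hq]; ring
    rw [h1, hT]
    exact Nat.mul_div_le M q
  have hFW : F ∣ W := ⟨2 * (c + 3) ^ K * T, by rw [hW]; ring⟩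
  have hcard : ((1 : ℝ) / (2 * q)) ^ K * (M : ℝ) ^ K ≤ (T : ℝ) ^ K := by
    rw [← mul_pow]
    apply pow_le_pow_left₀ (by positivity)
    have := floor_half M q hq1 hM
    rw [← hT] at this
    calc (1 : ℝ) / (2 * q) * M = M / (2 * q) := by ring
      _ ≤ T := this
  obtain ⟨S, hS⟩ : ∃ S : Finset (Fin K → ℕ), S = Fintype.piFinset (fun _ : Fin K => range T) :=
    ⟨_, rfl⟩
  have hSm : ∀ t ∈ S, ∀ j, t j < T := by
    intro t ht j
    rw [hS, Fintype.mem_piFinset] at ht
    exact Finset.mem_range.1 (ht j)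
  have hSc : (S.card : ℝ) = (T : ℝ) ^ K := by
    rw [hS, Fintype.card_piFinset_const, card_range]
    push_cast
    rfl
  have hFe : ∀ t ∈ S, ∀ j, 0 < F * ee c T t j ∧ F * ee c T t j < W := by
    intro t ht j
    obtain ⟨h1, h2⟩ := (core c T t (hSm t ht)).2.2 j
    constructor
    · positivity
    · calc F * ee c T t j < F * (2 * (c + 3) ^ K * T) := Nat.mul_lt_mul_of_pos_left h2 hF1
        _ = W := by rw [hW]; ring
  have hrel : ∀ t ∈ S, ∀ i j k : Fin K, i < j → j < k →
      C * ((F : ℝ) * ee c T t j - F * ee c T t i) < F * ee c T t k - F * ee c T t j := by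
    intro t ht i j k hij hjk
    have h1 := (core c T t (hSm t ht)).1 i j hij
    have h2 := (core c T t (hSm t ht)).2.1 i j k hij hjk
    have h1' : (ee c T t i : ℝ) < ee c T t j := by exact_mod_cast h1
    have h2' : ((c : ℝ) + 1) * ee c T t j < ee c T t k + c * ee c T t i := by exact_mod_cast h2
    have h3 : C * ((ee c T t j : ℝ) - ee c T t i) ≤ c * ((ee c T t j : ℝ) - ee c T t i) :=
      mul_le_mul_of_nonneg_right (le_trans (le_abs_self C) hc) (by linarith)
    have h4 : C * ((ee c T t j : ℝ) - ee c T t i) < ee c T t k - ee c T t j := by linarith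
    have hF2 : (0 : ℝ) < F := by exact_mod_cast hF1
    have h5 := mul_lt_mul_of_pos_left h4 hF2
    calc C * ((F : ℝ) * ee c T t j - F * ee c T t i)
        = F * (C * ((ee c T t j : ℝ) - ee c T t i)) := by ring
      _ < F * (ee c T t k - ee c T t j) := h5
      _ = _ := by ring
  constructor
  · -- first family
    obtain ⟨H, hH⟩ : ∃ H : (Fin K → ℕ) → (Fin K → ℕ), H = fun t j =>
      (c + 1) * W + F * ee c T t j := ⟨_, rfl⟩
    refine ⟨S.image H, ?_, ?_⟩
    · rw [Finset.card_image_of_injOn, hSc]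
      · exact hcard
      · intro t ht t' ht' htt
        funext j
        have h1 := congrFun htt j
        rw [hH] at h1
        simp only at h1
        have h2 : F * ee c T t j = F * ee c T t' j := by omega
        have h3 := Nat.eq_of_mul_eq_mul_left hF1 h2
        unfold ee at h3
        omega
    · intro h hh
      rw [Finset.mem_image] at hh
      obtain ⟨t, ht, rfl⟩ := hh
      have hv : ∀ j, H t j = (c + 1) * W + F * ee c T t j := by intro j; rw [hH]
      have hb : ∀ j, (c + 1) * W < H t j ∧ H t j < (c + 2) * W := by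
        intro j
        obtain ⟨h1, h2⟩ := hFe t ht j
        rw [hv]
        constructor
        · omega
        · have : (c + 2) * W = (c + 1) * W + W := by ring
          omega
      refine ⟨?_, ?_, ?_, ?_⟩
      · intro i j hij
        rw [hv, hv]
        have h1 := (core c T t (hSm t ht)).1 i j hij
        have h2 := Nat.mul_lt_mul_of_pos_left h1 hF1
        omega
      · intro j
        have h1 := hb j
        have h2 : (c + 2) * W ≤ (2 * (c + 1) + 1) * W := Nat.mul_le_mul_right _ (by omega)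
        refine ⟨by omega, by omega, ?_⟩
        rw [hv, ← hF]
        exact dvd_add (dvd_mul_of_dvd_right hFW _) (dvd_mul_right _ _)
      · intro i j k hij hjk
        have h1 := hrel t ht i j k hij hjk
        rw [hv, hv, hv]
        push_cast
        calc C * (((c : ℝ) + 1) * W + F * ee c T t j - (((c : ℝ) + 1) * W + F * ee c T t i))
            = C * ((F : ℝ) * ee c T t j - F * ee c T t i) := by ring
          _ < F * ee c T t k - F * ee c T t j := h1
          _ = _ := by ring
      · intro i j k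
        exact bd c W M C hc hWM (H t) hb i j k
  · -- mirror images
    obtain ⟨H, hH⟩ : ∃ H : (Fin K → ℕ) → (Fin K → ℕ), H = fun t j =>
      (c + 2) * W - F * ee c T t (Fin.rev j) := ⟨_, rfl⟩
    have hle : ∀ t ∈ S, ∀ j, F * ee c T t j < (c + 2) * W := by
      intro t ht j
      have h1 := (hFe t ht j).2
      have h2 : (c + 2) * W = (c + 1) * W + W := by ring
      omega
    refine ⟨S.image H, ?_, ?_⟩
    · rw [Finset.card_image_of_injOn, hSc]
      · exact hcard
      · intro t ht t' ht' htt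
        funext j
        have h1 := congrFun htt (Fin.rev j)
        rw [hH] at h1
        simp only [Fin.rev_rev] at h1
        have h4 := hle t ht j
        have h5 := hle t' ht' j
        have h2 : F * ee c T t j = F * ee c T t' j := by omega
        have h3 := Nat.eq_of_mul_eq_mul_left hF1 h2
        unfold ee at h3
        omega
    · intro h hh
      rw [Finset.mem_image] at hh
      obtain ⟨t, ht, rfl⟩ := hh
      have hv : ∀ j, H t j = (c + 2) * W - F * ee c T t (Fin.rev j) := by intro j; rw [hH]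
      have hvr : ∀ j, (H t j : ℝ) = ((c : ℝ) + 2) * W - F * ee c T t (Fin.rev j) := by
        intro j
        rw [hv, Nat.cast_sub (hle t ht _).le]
        push_cast
        ring
      have hb : ∀ j, (c + 1) * W < H t j ∧ H t j < (c + 2) * W := by
        intro j
        obtain ⟨h1, h2⟩ := hFe t ht (Fin.rev j)
        rw [hv]
        have h3 : (c + 2) * W = (c + 1) * W + W := by ring
        constructor <;> omega
      refine ⟨?_, ?_, ?_, ?_⟩
      · intro i j hij
        rw [hv, hv]
        have h0 : Fin.rev j < Fin.rev i := Fin.rev_lt_rev.2 hij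
        have h1 := (core c T t (hSm t ht)).1 _ _ h0
        have h2 := Nat.mul_lt_mul_of_pos_left h1 hF1
        have h3 := hle t ht (Fin.rev i)
        have h4 := hle t ht (Fin.rev j)
        omega
      · intro j
        have h1 := hb j
        have h2 : (c + 2) * W ≤ (2 * (c + 1) + 1) * W := Nat.mul_le_mul_right _ (by omega)
        refine ⟨by omega, by omega, ?_⟩
        rw [hv, ← hF]
        exact Nat.dvd_sub (dvd_mul_of_dvd_right hFW _) (dvd_mul_right _ _)
      · intro i j k hij hjk
        have h1 := hrel t ht (Fin.rev k) (Fin.rev j) (Fin.rev i) (Fin.rev_lt_rev.2 hjk)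
          (Fin.rev_lt_rev.2 hij)
        simp only [hvr]
        calc C * (((c : ℝ) + 2) * W - F * ee c T t (Fin.rev k) -
              (((c : ℝ) + 2) * W - F * ee c T t (Fin.rev j)))
            = C * ((F : ℝ) * ee c T t (Fin.rev j) - F * ee c T t (Fin.rev k)) := by ring
          _ < F * ee c T t (Fin.rev i) - F * ee c T t (Fin.rev j) := h1
          _ = _ := by ring
      · intro i j k
        exact bd c W M C hc hWM (H t) hb i j k

end Pool.Agent.Lib.RU
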