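import Pool.Agent.Lib.RU.SpecQ

set_option autoImplicit false

namespace Pool.Agent.Lib.RU

open Finset
open Pool.Agent.Lib.MP_9f2731_nt.GP Pool.Agent.Lib.MP_9f2731_nt.GP.Sv
  Pool.Agent.Lib.MP_9f2731_nt.QL Pool.Agent.Lib.MP_9f2731_nt.QL.Sw Pool.Agent.Lib.MP_9f2731_nt.CG
  Pool.Agent.Lib.MP_9f2731_nt.CG.Ma Pool.Agent.Lib.MP_9f2731_nt.CG.Mf Pool.Agent.Lib.BE

private theorem PaA_213 (P : Fin 3 → Fin 3 → Prop) (h1 : P 1 0) (h2 : P 1 2) (h3 : P 0 2) :
    ∀ i j : Fin 3, (![1, 0, 2] : Fin 3 → ℕ) i < (![1, 0, 2] : Fin 3 → ℕ) j → P i j := by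
  intro i j h
  fin_cases i <;> fin_cases j <;>
    first | exact absurd h (by decide) | exact h1 | exact h2 | exact h3

private theorem PaA_123 (P : Fin 3 → Fin 3 → Prop) (h1 : P 0 1) (h2 : P 0 2) (h3 : P 1 2) :
    ∀ i j : Fin 3, (![0, 1, 2] : Fin 3 → ℕ) i < (![0, 1, 2] : Fin 3 → ℕ) j → P i j := by
  intro i j h
  fin_cases i <;> fin_cases j <;>
    first | exact absurd h (by decide) | exact h1 | exact h2 | exact h3

private theorem PaA_321 (P : Fin 3 → Fin 3 → Prop) (h1 : P 2 1) (h2 : P 2 0) (h3 : P 1 0) :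
    ∀ i j : Fin 3, (![2, 1, 0] : Fin 3 → ℕ) i < (![2, 1, 0] : Fin 3 → ℕ) j → P i j := by
  intro i j h
  fin_cases i <;> fin_cases j <;>
    first | exact absurd h (by decide) | exact h1 | exact h2 | exact h3

private theorem PaA_cons {K : ℕ} (S : Finset (Fin K)) (a' a b b' b'' : Fin K) (h1 : a' < a)
    (h2 : a < b) (h3 : b < b') (h4 : b' < b'') (s1 : a' ∈ S) (s2 : a ∈ S) (s3 : b ∈ S)
    (s4 : b' ∈ S) (h : ∀ x ∈ S, a' < x → x < b'' → x = a ∨ x = b ∨ x = b') :
    Cons4 S ![a', a, b, b'] := by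
  refine ⟨?_, ?_, ?_⟩
  · rw [Fin.strictMono_iff_lt_succ]
    intro i
    fin_cases i
    · exact h1
    · exact h2
    · exact h3
  · intro i
    fin_cases i
    · exact s1
    · exact s2
    · exact s3
    · exact s4
  · intro x hx hx0 hx3
    have hx0' : a' < x := hx0
    have hx3' : x < b' := hx3
    rcases h x hx hx0' (hx3'.trans h4) with h5 | h5 | h5
    · exact Or.inl h5
    · exact Or.inr h5
    · rw [h5] at hx3'
      exact absurd hx3' (lt_irrefl _)

theorem tPaA (h1 : WnLStmt) : PaAStmt := by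
  refine ⟨?_, ?_, ?_⟩
  · intro K W G hW hK
    refine ⟨fun x => if x % W = W - 1 then K + x / W else W - 1 - x % W,
      fun q1 q2 S hq2 hS => ?_⟩
    obtain ⟨a', a, b, b', b'', e1, e2, e3, e4, m1, m2, m3, m4, m5, hx, w1, w2, w3⟩ :=
      h1 K W q1 q2 S hS
    refine ⟨![a', a, b, b'], PaA_cons S a' a b b' b'' e1 e2 e3 e4 m1 m2 m3 m4 hx, ?_⟩
    have hWK : W ≤ K := by
      rw [hK]
      exact Nat.le_mul_of_pos_right W (by omega)
    have e1' : (a' : ℕ) < a := e1
    have e2' : (a : ℕ) < b := e2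
    have e3' : (b : ℕ) < b' := e3
    -- the values of ρ on [a', b)
    have hρ : ∀ x : ℕ, (a' : ℕ) ≤ x → x < b →
        (if x % W = W - 1 then K + x / W else W - 1 - x % W) = W - 1 - (x - W * q1) ∧
          x - W * q1 < W - 1 := by
      intro x hx1 hx2
      obtain ⟨d, hd⟩ : ∃ d, x = W * q1 + d := ⟨x - W * q1, by omega⟩
      have hdW : d < W - 1 := by
        rw [Nat.mul_add, Nat.mul_one] at w2
        omega
      have hmod : x % W = d := by
        rw [hd, Nat.mul_add_mod]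
        exact Nat.mod_eq_of_lt (by omega)
      rw [hmod, if_neg (by omega)]
      constructor <;> omega
    have hy : (if (W * (q1 + 1) - 1) % W = W - 1 then K + (W * (q1 + 1) - 1) / W
        else W - 1 - (W * (q1 + 1) - 1) % W) ≥ W := by
      have hmod : (W * (q1 + 1) - 1) % W = W - 1 := by
        have h5 : W * (q1 + 1) - 1 = W * q1 + (W - 1) := by
          rw [Nat.mul_add, Nat.mul_one]
          omega
        rw [h5, Nat.mul_add_mod]
        exact Nat.mod_eq_of_lt (by omega)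
      rw [if_pos hmod]
      exact le_trans hWK (Nat.le_add_right _ _)
    have hlast : ∀ i j : ℕ, (a' : ℕ) ≤ i → j ≤ b →
        Rk (fun x => if x % W = W - 1 then K + x / W else W - 1 - x % W) i j b b' := by
      intro i j hi hj
      refine ⟨W * (q1 + 1) - 1, by omega, by omega, fun x hx1 hx2 => ?_⟩
      obtain ⟨h6, h7⟩ := hρ x (by omega) (by omega)
      show (if x % W = W - 1 then K + x / W else W - 1 - x % W) < _
      rw [h6]
      refine lt_of_lt_of_le ?_ hy
      omega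
    refine PaA_213 (fun i j => Rk _ (![a', a, b, b'] i.castSucc : Fin K)
      (![a', a, b, b'] i.succ : Fin K) (![a', a, b, b'] j.castSucc : Fin K)
      (![a', a, b, b'] j.succ : Fin K)) ?_ ?_ ?_
    · show Rk _ (a : ℕ) (b : ℕ) (a' : ℕ) (a : ℕ)
      refine ⟨a', le_refl _, e1', fun x hx1 hx2 => ?_⟩
      obtain ⟨h6, h7⟩ := hρ x (by omega) hx2
      obtain ⟨h8, h9⟩ := hρ a' (le_refl _) (by omega)
      show (if x % W = W - 1 then K + x / W else W - 1 - x % W) <
        (if (a' : ℕ) % W = W - 1 then K + (a' : ℕ) / W else W - 1 - (a' : ℕ) % W)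
      rw [h6, h8]
      omega
    · exact hlast a b (by omega) (le_refl _)
    · exact hlast a' a (le_refl _) (by omega)
  · intro K W G hW hK
    refine ⟨fun x => x, fun q1 q2 S hq2 hS => ?_⟩
    obtain ⟨a', a, b, b', b'', e1, e2, e3, e4, m1, m2, m3, m4, m5, hx, w1, w2, w3⟩ :=
      h1 K W q1 q2 S hS
    refine ⟨![a', a, b, b'], PaA_cons S a' a b b' b'' e1 e2 e3 e4 m1 m2 m3 m4 hx, ?_⟩
    have e1' : (a' : ℕ) < a := e1
    have e2' : (a : ℕ) < b := e2
    have e3' : (b : ℕ) < b' := e3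
    have key : ∀ i j k l : ℕ, j ≤ k → k < l → Rk (fun x => x) i j k l := by
      intro i j k l hjk hkl
      exact ⟨l - 1, by omega, by omega, fun x hx1 hx2 => by
        show x < l - 1
        omega⟩
    refine PaA_123 (fun i j => Rk _ (![a', a, b, b'] i.castSucc : Fin K)
      (![a', a, b, b'] i.succ : Fin K) (![a', a, b, b'] j.castSucc : Fin K)
      (![a', a, b, b'] j.succ : Fin K)) ?_ ?_ ?_
    · exact key a' a a b (le_refl _) e2'
    · exact key a' a b b' (by omega) e3'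
    · exact key a b b b' (le_refl _) e3'
  · intro K W G hW hK
    refine ⟨fun x => K - x, fun q1 q2 S hq2 hS => ?_⟩
    obtain ⟨a', a, b, b', b'', e1, e2, e3, e4, m1, m2, m3, m4, m5, hx, w1, w2, w3⟩ :=
      h1 K W q1 q2 S hS
    refine ⟨![a', a, b, b'], PaA_cons S a' a b b' b'' e1 e2 e3 e4 m1 m2 m3 m4 hx, ?_⟩
    have e1' : (a' : ℕ) < a := e1
    have e2' : (a : ℕ) < b := e2
    have e3' : (b : ℕ) < b' := e3
    have f1 : (a' : ℕ) < K := a'.2
    have f2 : (a : ℕ) < K := a.2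
    have key : ∀ i j k l : ℕ, k < i → k < l → k < K → Rk (fun x => K - x) i j k l := by
      intro i j k l hki hkl hkK
      exact ⟨k, le_refl _, hkl, fun x hx1 hx2 => by
        show K - x < K - k
        omega⟩
    refine PaA_321 (fun i j => Rk _ (![a', a, b, b'] i.castSucc : Fin K)
      (![a', a, b, b'] i.succ : Fin K) (![a', a, b, b'] j.castSucc : Fin K)
      (![a', a, b, b'] j.succ : Fin K)) ?_ ?_ ?_
    · exact key b b' a b e2' e2' f2
    · exact key b b' a' a (by omega) e1' f1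
    · exact key a b a' a e1' e1' f1

end Pool.Agent.Lib.RU
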