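import Pool.Agent.Lib.RU.SpecQ

/-!
PROJECT SO, module PaB: the pattern 312.
-/

set_option autoImplicit false

namespace Pool.Agent.Lib.RU

open Finset

private def PaB_rho (K W x : ℕ) : ℕ := if x % W = W - 1 then K + x / W else x % W

private theorem PaB_mod (W q r : ℕ) (h : r < W) : (W * q + r) % W = r ∧ (W * q + r) / W = q := by
  have hW : 0 < W := by omega
  refine ⟨?_, ?_⟩
  · rw [Nat.mul_add_mod, Nat.mod_eq_of_lt h]
  · rw [Nat.mul_add_div hW, Nat.div_eq_of_lt h, Nat.add_zero]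

private theorem PaB_in (K W q x : ℕ) (h1 : W * q ≤ x) (h2 : x + 1 < W * (q + 1)) :
    PaB_rho K W x = x - W * q := by
  have e : W * (q + 1) = W * q + W := by ring
  obtain ⟨r, rfl⟩ : ∃ r, x = W * q + r := ⟨x - W * q, by omega⟩
  have hr : r < W := by omega
  obtain ⟨m1, m2⟩ := PaB_mod W q r hr
  unfold PaB_rho
  rw [m1, if_neg (by omega)]
  omega

private theorem PaB_end (K W q : ℕ) (hW : 1 ≤ W) (hq : 1 ≤ q) :
    PaB_rho K W (W * q - 1) = K + (q - 1) := by
  obtain ⟨p, rfl⟩ : ∃ p, q = p + 1 := ⟨q - 1, by omega⟩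
  have e : W * (p + 1) - 1 = W * p + (W - 1) := by
    have : W * (p + 1) = W * p + W := by ring
    omega
  obtain ⟨m1, m2⟩ := PaB_mod W p (W - 1) (by omega)
  unfold PaB_rho
  rw [e, m1, m2, if_pos rfl]
  omega

theorem tPaB (h1 : WnFStmt) : PaBStmt := by
  intro K W G hW hK
  refine ⟨PaB_rho K W, fun q1 q2 S hq2 hR => ?_⟩
  obtain ⟨z', z, y0, y1, y2, a1, a2, a3, a4, b1, b2, b3, b4, b5, hin, c1, c2, c3⟩ :=
    h1 K W q1 q2 S hR
  have a1' : (z' : ℕ) < z := a1
  have a2' : (z : ℕ) < y0 := a2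
  have a3' : (y0 : ℕ) < y1 := a3
  have a4' : (y1 : ℕ) < y2 := a4
  have hWK : W ≤ K := by
    rw [hK]
    exact Nat.le_mul_of_pos_right W (by omega)
  have hq1 : 1 ≤ q2 := by
    rcases Nat.eq_zero_or_pos q2 with h0 | h0
    · rw [h0] at c1
      simp at c1
    · exact h0
  have e : W * (q2 + 1) = W * q2 + W := by ring
  have key : ∀ x : ℕ, (y0 : ℕ) ≤ x → x < y2 → PaB_rho K W x = x - W * q2 := by
    intro x hx1 hx2
    exact PaB_in K W q2 x (by omega) (by omega)
  have hend : PaB_rho K W (W * q2 - 1) = K + (q2 - 1) := PaB_end K W q2 hW hq1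
  refine ⟨![z, y0, y1, y2], ⟨?_, ?_, ?_⟩, ?_⟩
  · refine Fin.strictMono_iff_lt_succ.2 fun i => ?_
    fin_cases i
    · exact a2
    · exact a3
    · exact a4
  · intro i
    fin_cases i
    · exact b2
    · exact b3
    · exact b4
    · exact b5
  · intro x hx hx1 hx2
    have hx1' : z < x := hx1
    have hx2' : x < y2 := hx2
    rcases hin x hx (a1.trans hx1') hx2' with h | h | h
    · exact absurd h (ne_of_gt hx1')
    · exact Or.inl h
    · exact Or.inr h
  · have r10 : Rk (PaB_rho K W) y0 y1 z y0 := by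
      refine ⟨W * q2 - 1, by omega, by omega, fun x hx1 hx2 => ?_⟩
      rw [hend, key x hx1 (by omega)]
      omega
    have r12 : Rk (PaB_rho K W) y0 y1 y1 y2 := by
      refine ⟨y2 - 1, by omega, by omega, fun x hx1 hx2 => ?_⟩
      rw [key x hx1 (by omega), key (y2 - 1) (by omega) (by omega)]
      omega
    have r20 : Rk (PaB_rho K W) y1 y2 z y0 := by
      refine ⟨W * q2 - 1, by omega, by omega, fun x hx1 hx2 => ?_⟩
      rw [hend, key x (by omega) hx2]
      omega
    intro i j hij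
    fin_cases i <;> fin_cases j <;> first
      | exact r10
      | exact r12
      | exact r20
      | exact absurd hij (by simp)

end Pool.Agent.Lib.RU
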