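import Pool.Agent.Lib.RU.SpecQ

/-!
PROJECT SO, module PaC: the order 132 is forced.
-/

set_option autoImplicit false

namespace Pool.Agent.Lib.RU

open Finset

private theorem PaC_div {W q x : ℕ} (h1 : W * q ≤ x) (h2 : x < W * (q + 1)) : x / W = q := by
  have hW : 0 < W := by
    rcases Nat.eq_zero_or_pos W with h | h
    · subst h
      omega
    · exact h
  apply le_antisymm
  · have h3 : x / W < q + 1 := by
      rw [Nat.div_lt_iff_lt_mul hW]
      linarith [mul_comm W (q + 1)]
    omega
  · rw [Nat.le_div_iff_mul_le hW]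
    linarith [mul_comm W q]

theorem tPaC (h1 : WnLStmt) : PaCStmt := by
  intro K W G hW hK
  refine ⟨fun x => if x % W = W - 1 then K + G - x / W else x / W, ?_⟩
  intro q1 q2 S hq2 hR
  obtain ⟨a', a, b, b', b'', l1, l2, l3, l4, m1, m2, m3, m4, m5, hc, e1, e2, e3⟩ :=
    h1 K W q1 q2 S hR
  have hq1 : q1 < q2 := hR.1
  have hGK : G ≤ K := by
    rw [hK]
    exact Nat.le_mul_of_pos_left G hW
  have l1' : (a' : ℕ) < a := l1
  have l2' : (a : ℕ) < b := l2
  have l3' : (b : ℕ) < b' := l3
  have l4' : (b' : ℕ) < b'' := l4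
  have hb'' : (b'' : ℕ) < K := b''.2
  have hmul : W * (q1 + 1) = W * q1 + W := by ring
  -- values on the first gap
  have v1 : ∀ x : ℕ, (a : ℕ) ≤ x → x < b →
      (if x % W = W - 1 then K + G - x / W else x / W) = q1 := by
    intro x hx1 hx2
    have hd : x / W = q1 := PaC_div (by omega) (by omega)
    have hm : x % W ≠ W - 1 := by
      intro hm
      have h3 := Nat.div_add_mod x W
      rw [hd, hm] at h3
      omega
    rw [if_neg hm, hd]
  -- the value at the end of the group
  have v2 : (if (W * q1 + (W - 1)) % W = W - 1 then K + G - (W * q1 + (W - 1)) / W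
      else (W * q1 + (W - 1)) / W) = K + G - q1 := by
    have hm : (W * q1 + (W - 1)) % W = W - 1 := by
      rw [Nat.mul_add_mod]
      exact Nat.mod_eq_of_lt (by omega)
    have hd : (W * q1 + (W - 1)) / W = q1 := PaC_div (by omega) (by omega)
    rw [if_pos hm, hd]
  -- bounds after the group
  have hdiv : ∀ x : ℕ, (b' : ℕ) ≤ x → x < b'' → q1 + 1 ≤ x / W ∧ x / W < G := by
    intro x hx1 hx2
    constructor
    · rw [Nat.le_div_iff_mul_le (by omega)]
      linarith [mul_comm W (q1 + 1)]
    · rw [Nat.div_lt_iff_lt_mul (by omega)]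
      linarith [mul_comm W G]
  have R01 : Rk (fun x => if x % W = W - 1 then K + G - x / W else x / W) (a : ℕ) (b : ℕ)
      (b : ℕ) (b' : ℕ) := by
    refine ⟨W * q1 + (W - 1), by omega, by omega, ?_⟩
    intro x hx1 hx2
    show (if x % W = W - 1 then K + G - x / W else x / W) < _
    rw [v1 x hx1 hx2]
    show q1 < (if (W * q1 + (W - 1)) % W = W - 1 then K + G - (W * q1 + (W - 1)) / W
      else (W * q1 + (W - 1)) / W)
    rw [v2]
    omega
  have R02 : Rk (fun x => if x % W = W - 1 then K + G - x / W else x / W) (a : ℕ) (b : ℕ)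
      (b' : ℕ) (b'' : ℕ) := by
    refine ⟨(b' : ℕ), le_rfl, l4', ?_⟩
    intro x hx1 hx2
    show (if x % W = W - 1 then K + G - x / W else x / W) < _
    rw [v1 x hx1 hx2]
    show q1 < (if (b' : ℕ) % W = W - 1 then K + G - (b' : ℕ) / W else (b' : ℕ) / W)
    obtain ⟨h3, h4⟩ := hdiv b' le_rfl l4'
    split_ifs
    · omega
    · omega
  have R21 : Rk (fun x => if x % W = W - 1 then K + G - x / W else x / W) (b' : ℕ) (b'' : ℕ)
      (b : ℕ) (b' : ℕ) := by
    refine ⟨W * q1 + (W - 1), by omega, by omega, ?_⟩
    intro x hx1 hx2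
    show (if x % W = W - 1 then K + G - x / W else x / W) <
      (if (W * q1 + (W - 1)) % W = W - 1 then K + G - (W * q1 + (W - 1)) / W
      else (W * q1 + (W - 1)) / W)
    rw [v2]
    obtain ⟨h3, h4⟩ := hdiv x hx1 hx2
    split_ifs
    · omega
    · omega
  refine ⟨![a, b, b', b''], ⟨?_, ?_, ?_⟩, ?_⟩
  · rw [Fin.strictMono_iff_lt_succ]
    intro i
    fin_cases i
    · exact l2
    · exact l3
    · exact l4
  · intro i
    fin_cases i
    · exact m2
    · exact m3
    · exact m4
    · exact m5
  · intro x hx hx1 hx2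
    have hx1' : a < x := hx1
    have hx2' : x < b'' := hx2
    rcases hc x hx (lt_trans l1 hx1') hx2' with h | h | h
    · exact absurd h (ne_of_gt hx1')
    · left
      exact h
    · right
      exact h
  · intro i j hv
    fin_cases i <;> fin_cases j
    · exact absurd hv (by decide)
    · exact R01
    · exact R02
    · exact absurd hv (by decide)
    · exact absurd hv (by decide)
    · exact absurd hv (by decide)
    · exact absurd hv (by decide)
    · exact R21
    · exact absurd hv (by decide)

end Pool.Agent.Lib.RU
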