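import Pool.Agent.Lib.RU.SpecQ

/-!
PROJECT SO, module PaD: the order 231 is forced.
-/

set_option autoImplicit false

namespace Pool.Agent.Lib.RU

open Finset

private theorem PaD_div {W q x : ℕ} (h1 : W * q ≤ x) (h2 : x < W * (q + 1)) : x / W = q := by
  have hW : 0 < W := by
    rcases Nat.eq_zero_or_pos W with h | h
    · subst h
      omega
    · exact h
  apply le_antisymm
  · have h3 : x / W < q + 1 := by
      rw [Nat.div_lt_iff_lt_mul hW]
      linarith [mul_comm W (q + 1)]
    omega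
  · rw [Nat.le_div_iff_mul_le hW]
    linarith [mul_comm W q]

theorem tPaD (h1 : WnFStmt) : PaDStmt := by
  intro K W G hW hK
  obtain ⟨ρ, hρ⟩ : ∃ ρ : ℕ → ℕ, ∀ x, ρ x = if x % W = W - 1 then K + 1 + x / W else G - x / W :=
    ⟨_, fun _ => rfl⟩
  refine ⟨ρ, ?_⟩
  intro q1 q2 S hq2 hR
  obtain ⟨z', z, y0, y1, y2, l1, l2, l3, l4, m1, m2, m3, m4, m5, hc, e1, e2, e3⟩ :=
    h1 K W q1 q2 S hR
  have hq1 : q1 < q2 := hR.1
  have hGK : G ≤ K := by
    rw [hK]
    exact Nat.le_mul_of_pos_left G hW
  have l1' : (z' : ℕ) < z := l1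
  have l2' : (z : ℕ) < y0 := l2
  have l3' : (y0 : ℕ) < y1 := l3
  have l4' : (y1 : ℕ) < y2 := l4
  have hmul : W * (q2 + 1) = W * q2 + W := by ring
  obtain ⟨p, rfl⟩ : ∃ p, q2 = p + 1 := ⟨q2 - 1, by omega⟩
  have hmul2 : W * (p + 1) = W * p + W := by ring
  -- values on the last gap
  have A1 : ∀ x : ℕ, (y0 : ℕ) ≤ x → x < y1 → ρ x = G - (p + 1) := by
    intro x hx1 hx2
    have hd : x / W = p + 1 := PaD_div (by omega) (by omega)
    have hm : x % W ≠ W - 1 := by
      intro hm
      have h3 := Nat.div_add_mod x W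
      rw [hd, hm] at h3
      omega
    rw [hρ, if_neg hm, hd]
  -- the value at the end of the previous group
  have A2 : ρ (W * p + (W - 1)) = K + (p + 1) := by
    have hm : (W * p + (W - 1)) % W = W - 1 := by
      rw [Nat.mul_add_mod]
      exact Nat.mod_eq_of_lt (by omega)
    have hd : (W * p + (W - 1)) / W = p := PaD_div (by omega) (by omega)
    rw [hρ, if_pos hm, hd]
    omega
  -- before
  have A3 : ∀ x : ℕ, x < z → ρ x < K + (p + 1) := by
    intro x hx
    rw [hρ]
    split_ifs with hm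
    · have h3 := Nat.div_add_mod x W
      rw [hm] at h3
      have h4 : x / W < p := by
        by_contra h
        have h5 : W * p ≤ W * (x / W) := Nat.mul_le_mul_left W (not_lt.1 h)
        omega
      omega
    · have h5 : G - x / W ≤ G := Nat.sub_le _ _
      omega
  have A4 : G - (p + 1) < ρ z' := by
    have h4 : (z' : ℕ) / W < p + 1 := by
      rw [Nat.div_lt_iff_lt_mul (by omega)]
      linarith [mul_comm W (p + 1)]
    rw [hρ]
    generalize (z' : ℕ) / W = j at h4 ⊢
    split_ifs
    · omega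
    · omega
  have R20 : Rk ρ (y0 : ℕ) (y1 : ℕ) (z' : ℕ) (z : ℕ) := by
    refine ⟨(z' : ℕ), le_rfl, l1', fun x hx1 hx2 => ?_⟩
    rw [A1 x hx1 hx2]
    exact A4
  have R21 : Rk ρ (y0 : ℕ) (y1 : ℕ) (z : ℕ) (y0 : ℕ) := by
    refine ⟨W * p + (W - 1), by omega, by omega, fun x hx1 hx2 => ?_⟩
    rw [A1 x hx1 hx2, A2]
    omega
  have R01 : Rk ρ (z' : ℕ) (z : ℕ) (z : ℕ) (y0 : ℕ) := by
    refine ⟨W * p + (W - 1), by omega, by omega, fun x hx1 hx2 => ?_⟩
    rw [A2]
    exact A3 x hx2
  refine ⟨![z', z, y0, y1], ⟨?_, ?_, ?_⟩, ?_⟩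
  · rw [Fin.strictMono_iff_lt_succ]
    intro i
    fin_cases i
    · exact l1
    · exact l2
    · exact l3
  · intro i
    fin_cases i
    · exact m1
    · exact m2
    · exact m3
    · exact m4
  · intro x hx hx1 hx2
    have hx1' : z' < x := hx1
    have hx2' : x < y1 := hx2
    rcases hc x hx hx1' (lt_trans hx2' l4) with h | h | h
    · left
      exact h
    · right
      exact h
    · exact absurd h (ne_of_lt hx2')
  · intro i j hv
    fin_cases i <;> fin_cases j
    · exact absurd hv (by decide)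
    · exact R01
    · exact absurd hv (by decide)
    · exact absurd hv (by decide)
    · exact absurd hv (by decide)
    · exact absurd hv (by decide)
    · exact R20
    · exact R21
    · exact absurd hv (by decide)

end Pool.Agent.Lib.RU
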