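import Pool.Agent.Lib.RU.SpecQ

set_option autoImplicit false

namespace Pool.Agent.Lib.RU

open Finset
open Pool.Agent.Lib.MP_9f2731_nt.GP
open Pool.Agent.Lib.MP_9f2731_nt.GP.Sv
open Pool.Agent.Lib.MP_9f2731_nt.CG
open Pool.Agent.Lib.MP_9f2731_nt.CG.Ma
open Pool.Agent.Lib.MP_9f2731_nt.CG.Mf
open Pool.Agent.Lib.BE

private lemma RcP_fib (g : ℕ) (hg : 0 < g) (H : Finset (Fin (g * g))) (q : ℕ) :
    (H.filter (fun i : Fin (g * g) => (i : ℕ) / g = q)).card ≤ g := by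
  have hinj : Set.InjOn (fun i : Fin (g * g) => (i : ℕ) % g)
      (H.filter (fun i : Fin (g * g) => (i : ℕ) / g = q) : Finset (Fin (g * g))) := by
    intro a ha b hb hab
    have ha' := (Finset.mem_filter.mp (Finset.mem_coe.mp ha)).2
    have hb' := (Finset.mem_filter.mp (Finset.mem_coe.mp hb)).2
    have hab' : (a : ℕ) % g = (b : ℕ) % g := hab
    apply Fin.ext
    have h1 := Nat.div_add_mod (a : ℕ) g
    have h2 := Nat.div_add_mod (b : ℕ) g
    rw [ha'] at h1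
    rw [hb'] at h2
    rw [← h1, ← h2, hab']
  rw [← Finset.card_image_of_injOn hinj]
  calc _ ≤ (Finset.range g).card := by
        apply Finset.card_le_card
        intro x hx
        obtain ⟨a, _, rfl⟩ := Finset.mem_image.mp hx
        exact Finset.mem_range.mpr (Nat.mod_lt _ hg)
    _ = g := Finset.card_range g

private lemma RcP_rich (g : ℕ) (hg : 0 < g) (H : Finset (Fin (g * g))) (h : 4 * g ≤ H.card) :
    ∃ q1 q2 : ℕ, q1 < q2 ∧ q2 < g ∧ 3 ≤ (H.filter (fun i : Fin (g * g) => (i : ℕ) / g = q1)).card ∧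
      3 ≤ (H.filter (fun i : Fin (g * g) => (i : ℕ) / g = q2)).card := by
  classical
  obtain ⟨f, hf⟩ : ∃ f : ℕ → ℕ, ∀ q, f q = (H.filter (fun i : Fin (g * g) => (i : ℕ) / g = q)).card :=
    ⟨_, fun _ => rfl⟩
  have hsum : H.card = ∑ q ∈ Finset.range g, f q := by
    rw [Finset.card_eq_sum_card_fiberwise (f := fun i : Fin (g * g) => (i : ℕ) / g)
      (t := Finset.range g)]
    · exact Finset.sum_congr rfl (fun q _ => (hf q).symm)
    · intro i _
      exact Finset.mem_coe.mpr (Finset.mem_range.mpr (Nat.div_lt_of_lt_mul i.2))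
  have hle : ∀ q ∈ Finset.range g, f q ≤ 2 + (if 3 ≤ f q then g else 0) := by
    intro q _
    by_cases h3 : 3 ≤ f q
    · rw [if_pos h3]
      have h4 := RcP_fib g hg H q
      rw [← hf q] at h4
      omega
    · rw [if_neg h3]
      omega
  have h2 : 1 < ((Finset.range g).filter (fun q => 3 ≤ f q)).card := by
    by_contra hc
    have hc' : ((Finset.range g).filter (fun q => 3 ≤ f q)).card ≤ 1 := not_lt.mp hc
    have h5 : H.card ≤ g * 2 + ((Finset.range g).filter (fun q => 3 ≤ f q)).card * g := by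
      rw [hsum]
      refine le_trans (Finset.sum_le_sum hle) (le_of_eq ?_)
      rw [Finset.sum_add_distrib, Finset.sum_const, Finset.card_range, ← Finset.sum_filter,
        Finset.sum_const, smul_eq_mul, smul_eq_mul]
    have h6 : ((Finset.range g).filter (fun q => 3 ≤ f q)).card * g ≤ 1 * g :=
      Nat.mul_le_mul_right g hc'
    omega
  obtain ⟨a, ha, b, hb, hab⟩ := Finset.one_lt_card.mp h2
  have ha1 := Finset.mem_range.mp (Finset.mem_filter.mp ha).1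
  have ha2 := (Finset.mem_filter.mp ha).2
  have hb1 := Finset.mem_range.mp (Finset.mem_filter.mp hb).1
  have hb2 := (Finset.mem_filter.mp hb).2
  rw [hf] at ha2 hb2
  rcases lt_or_gt_of_ne hab with hlt | hlt
  · exact ⟨a, b, hlt, hb1, ha2, hb2⟩
  · exact ⟨b, a, hlt, ha1, hb2, ha2⟩

private lemma RcP_three (g n : ℕ) (hg : 0 < g) (S : Finset (Fin (g * g * n)))
    (H : Finset (Fin (g * g))) (hH : ∀ i ∈ H, ∃ t : Fin n, finProdFinEquiv (i, t) ∈ S) (q : ℕ)
    (h : 3 ≤ (H.filter (fun i : Fin (g * g) => (i : ℕ) / g = q)).card) :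
    ∃ x0 x1 x2 : Fin (g * g * n), x0 ∈ S ∧ x1 ∈ S ∧ x2 ∈ S ∧
      x0 < x1 ∧ x1 < x2 ∧ g * n * q ≤ x0 ∧ (x2 : ℕ) < g * n * (q + 1) := by
  obtain ⟨F, hF⟩ : ∃ F : Finset (Fin (g * g)), F = H.filter (fun i : Fin (g * g) => (i : ℕ) / g = q) := ⟨_, rfl⟩
  rw [← hF] at h
  have hmem : ∀ k : Fin F.card, F.orderEmbOfFin rfl k ∈ F := fun k => F.orderEmbOfFin_mem rfl k
  obtain ⟨i0, e0⟩ : ∃ i, i = F.orderEmbOfFin rfl (⟨0, by omega⟩ : Fin F.card) := ⟨_, rfl⟩
  obtain ⟨i1, e1⟩ : ∃ i, i = F.orderEmbOfFin rfl (⟨1, by omega⟩ : Fin F.card) := ⟨_, rfl⟩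
  obtain ⟨i2, e2⟩ : ∃ i, i = F.orderEmbOfFin rfl (⟨2, by omega⟩ : Fin F.card) := ⟨_, rfl⟩
  have h01 : i0 < i1 := by
    rw [e0, e1]
    exact (F.orderEmbOfFin rfl).strictMono (Fin.mk_lt_mk.mpr (by omega))
  have h12 : i1 < i2 := by
    rw [e1, e2]
    exact (F.orderEmbOfFin rfl).strictMono (Fin.mk_lt_mk.mpr (by omega))
  have m0 : i0 ∈ F := by rw [e0]; exact hmem _
  have m1 : i1 ∈ F := by rw [e1]; exact hmem _
  have m2 : i2 ∈ F := by rw [e2]; exact hmem _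
  rw [hF] at m0 m1 m2
  obtain ⟨t0, s0⟩ := hH i0 (Finset.mem_filter.mp m0).1
  obtain ⟨t1, s1⟩ := hH i1 (Finset.mem_filter.mp m1).1
  obtain ⟨t2, s2⟩ := hH i2 (Finset.mem_filter.mp m2).1
  have d0 := (Finset.mem_filter.mp m0).2
  have d2 := (Finset.mem_filter.mp m2).2
  have key : ∀ (i j : Fin (g * g)) (t u : Fin n), i < j →
      (finProdFinEquiv (i, t) : Fin (g * g * n)) < finProdFinEquiv (j, u) := by
    intro i j t u hij
    rw [Fin.lt_def, finProdFinEquiv_apply_val, finProdFinEquiv_apply_val]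
    have h1 : (i : ℕ) + 1 ≤ j := hij
    have h2 : n * ((i : ℕ) + 1) ≤ n * (j : ℕ) := Nat.mul_le_mul_left n h1
    have h3 := t.2
    have h4 : n * ((i : ℕ) + 1) = n * (i : ℕ) + n := by ring
    show (t : ℕ) + n * (i : ℕ) < (u : ℕ) + n * (j : ℕ)
    omega
  refine ⟨finProdFinEquiv (i0, t0), finProdFinEquiv (i1, t1), finProdFinEquiv (i2, t2), s0, s1, s2,
    key i0 i1 t0 t1 h01, key i1 i2 t1 t2 h12, ?_, ?_⟩
  · rw [finProdFinEquiv_apply_val]
    have h1 : q * g ≤ (i0 : ℕ) := by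
      rw [← d0]
      exact Nat.div_mul_le_self _ _
    have h2 : n * (q * g) ≤ n * (i0 : ℕ) := Nat.mul_le_mul_left n h1
    have h3 : g * n * q = n * (q * g) := by ring
    show g * n * q ≤ (t0 : ℕ) + n * (i0 : ℕ)
    omega
  · rw [finProdFinEquiv_apply_val]
    have h1 : (i2 : ℕ) < g * (q + 1) := by
      rw [← d2]
      exact Nat.lt_mul_div_succ _ hg
    have h2 : n * ((i2 : ℕ) + 1) ≤ n * (g * (q + 1)) := Nat.mul_le_mul_left n h1
    have h3 : g * n * (q + 1) = n * (g * (q + 1)) := by ring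
    have h4 : n * ((i2 : ℕ) + 1) = n * (i2 : ℕ) + n := by ring
    have h5 := t2.2
    show (t2 : ℕ) + n * (i2 : ℕ) < g * n * (q + 1)
    omega

private lemma RcP_num (c : ℕ) (h : ((gN * gN : ℕ) : ℝ) / 10 ^ 6 ≤ (c : ℝ)) : 4 * gN ≤ c := by
  have h1 : ((4 * gN : ℕ) : ℝ) ≤ (c : ℝ) := by
    refine le_trans (le_of_eq ?_) h
    simp only [gN]
    norm_num
  exact_mod_cast h1

theorem tRcP : RcPStmt := by
  classical
  intro n S _ hS
  have hg : 0 < gN := by
    simp only [gN]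
    norm_num
  obtain ⟨H, hH⟩ : ∃ H : Finset (Fin (gN * gN)), H =
      univ.filter (fun i : Fin (gN * gN) => ∃ t : Fin n, finProdFinEquiv (i, t) ∈ S) := ⟨_, rfl⟩
  have hcard : ((gN * gN : ℕ) : ℝ) / 10 ^ 6 ≤ (H.card : ℝ) := by
    unfold Hits at hS
    rw [hH]
    refine le_trans hS (le_of_eq ?_)
    congr 2
  obtain ⟨q1, q2, h12, h2, r1, r2⟩ := RcP_rich gN hg H (RcP_num _ hcard)
  have hmem : ∀ i ∈ H, ∃ t : Fin n, finProdFinEquiv (i, t) ∈ S := by
    intro i hi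
    rw [hH] at hi
    exact (Finset.mem_filter.mp hi).2
  refine ⟨q1, q2, h12, h2, ?_⟩
  rintro q (rfl | rfl)
  · exact RcP_three gN n hg S H hmem q r1
  · exact RcP_three gN n hg S H hmem q r2

end Pool.Agent.Lib.RU
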