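import Pool.Agent.Lib.RU.SpecQ

/-!
PROJECT SO, module SoU: assembly.
-/

set_option autoImplicit false

namespace Pool.Agent.Lib.RU

open Finset
open Pool.Agent.Lib.MP_9f2731_nt.GP Pool.Agent.Lib.MP_9f2731_nt.GP.Sv Pool.Agent.Lib.MP_9f2731_nt.QL Pool.Agent.Lib.MP_9f2731_nt.QL.Sw Pool.Agent.Lib.MP_9f2731_nt.CG Pool.Agent.Lib.MP_9f2731_nt.CG.Ma Pool.Agent.Lib.MP_9f2731_nt.CG.Mf Pool.Agent.Lib.BE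

/-- a vector with three entries -/
private theorem SoU_vec (v : Fin 3 → ℕ) (a b c : ℕ) (h0 : v 0 = a) (h1 : v 1 = b) (h2 : v 2 = c) :
    v = ![a, b, c] := by
  funext i
  fin_cases i
  · exact h0
  · exact h1
  · exact h2

/-- every order of three gaps is forced -/
private theorem SoU_forc (h6 : PaAStmt) (h7 : PaBStmt) (h8 : PaCStmt) (h9 : PaDStmt)
    (σ : Equiv.Perm (Fin 3)) : Forc (fun i => (σ i : ℕ)) := by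
  have a0 : (σ 0 : ℕ) < 3 := (σ 0).isLt
  have a1 : (σ 1 : ℕ) < 3 := (σ 1).isLt
  have a2 : (σ 2 : ℕ) < 3 := (σ 2).isLt
  have n01 : (σ 0 : ℕ) ≠ (σ 1 : ℕ) := fun h => absurd (σ.injective (Fin.ext h)) (by decide)
  have n02 : (σ 0 : ℕ) ≠ (σ 2 : ℕ) := fun h => absurd (σ.injective (Fin.ext h)) (by decide)
  have n12 : (σ 1 : ℕ) ≠ (σ 2 : ℕ) := fun h => absurd (σ.injective (Fin.ext h)) (by decide)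
  obtain ⟨p1, p2, p3⟩ := h6
  have hall : ((σ 0 : ℕ) = 0 ∧ (σ 1 : ℕ) = 1 ∧ (σ 2 : ℕ) = 2) ∨
      ((σ 0 : ℕ) = 0 ∧ (σ 1 : ℕ) = 2 ∧ (σ 2 : ℕ) = 1) ∨
      ((σ 0 : ℕ) = 1 ∧ (σ 1 : ℕ) = 0 ∧ (σ 2 : ℕ) = 2) ∨
      ((σ 0 : ℕ) = 1 ∧ (σ 1 : ℕ) = 2 ∧ (σ 2 : ℕ) = 0) ∨
      ((σ 0 : ℕ) = 2 ∧ (σ 1 : ℕ) = 0 ∧ (σ 2 : ℕ) = 1) ∨
      ((σ 0 : ℕ) = 2 ∧ (σ 1 : ℕ) = 1 ∧ (σ 2 : ℕ) = 0) := by
    omega
  rcases hall with ⟨e0, e1, e2⟩ | ⟨e0, e1, e2⟩ | ⟨e0, e1, e2⟩ | ⟨e0, e1, e2⟩ | ⟨e0, e1, e2⟩ |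
    ⟨e0, e1, e2⟩
  · rw [SoU_vec (fun i => (σ i : ℕ)) 0 1 2 e0 e1 e2]
    exact p2
  · rw [SoU_vec (fun i => (σ i : ℕ)) 0 2 1 e0 e1 e2]
    exact h8
  · rw [SoU_vec (fun i => (σ i : ℕ)) 1 0 2 e0 e1 e2]
    exact p1
  · rw [SoU_vec (fun i => (σ i : ℕ)) 1 2 0 e0 e1 e2]
    exact h9
  · rw [SoU_vec (fun i => (σ i : ℕ)) 2 0 1 e0 e1 e2]
    exact h7
  · rw [SoU_vec (fun i => (σ i : ℕ)) 2 1 0 e0 e1 e2]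
    exact p3

theorem tSoU (h1 : BkUStmt) (h2 : LwQStmt) (h3 : CoQStmt) (h4 : GePStmt) (h5 : RcPStmt)
    (h6 : PaAStmt) (h7 : PaBStmt) (h8 : PaCStmt) (h9 : PaDStmt) (h10 : FrPStmt) : SoUStmt := by
  intro σ C ε hε
  have hg : 1 ≤ gN := by
    unfold gN
    norm_num
  have hgg : 1 ≤ gN * gN := Nat.one_le_iff_ne_zero.mpr (Nat.mul_ne_zero (by omega) (by omega))
  obtain ⟨n, hn, hMk⟩ := h1 (gN * gN) hgg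
  have hK : 1 ≤ gN * gN * n :=
    Nat.one_le_iff_ne_zero.mpr (Nat.mul_ne_zero (by omega) (by omega))
  have hW : 1 ≤ gN * n := Nat.one_le_iff_ne_zero.mpr (Nat.mul_ne_zero (by omega) (by omega))
  have hKW : gN * gN * n = gN * n * gN := by ring
  obtain ⟨ρ, hρ⟩ := SoU_forc h6 h7 h8 h9 σ (gN * gN * n) (gN * n) gN hW hKW
  have hCo := h3 (gN * gN * n) (Hits (gN * gN) n) hK (h2 _ _ hK hMk)
  refine h10 (gN * gN * n) (Hits (gN * gN) n) (fun i => (σ i : ℕ)) ρ C ε hK hε hCo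
    (h4 _ C ρ hK) ?_
  intro S hS
  obtain ⟨q1, q2, hq, hq2, hr⟩ := h5 n S hn hS
  exact hρ q1 q2 S hq2 ⟨hq, hr⟩

end Pool.Agent.Lib.RU
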