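import Pool.Agent.Lib.RU.SpecW

/-!
PROJECT SO, part W, module SoW: assembly of the eight words.
-/

set_option autoImplicit false

namespace Pool.Agent.Lib.RU

open Finset
open Pool.Agent.Lib.MP_9f2731_nt.GP Pool.Agent.Lib.MP_9f2731_nt.GP.Sv Pool.Agent.Lib.MP_9f2731_nt.QL Pool.Agent.Lib.MP_9f2731_nt.QL.Sw Pool.Agent.Lib.MP_9f2731_nt.CG Pool.Agent.Lib.MP_9f2731_nt.CG.Ma Pool.Agent.Lib.MP_9f2731_nt.CG.Mf Pool.Agent.Lib.BE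

/-- the order v has the word w -/
private def SoW_ok (v : Fin 4 → ℕ) (w : Fin 3 → Bool) : Prop :=
  ∀ i : Fin 3, (w i = true → v i.castSucc < v i.succ) ∧ (w i = false → v i.succ < v i.castSucc)

private theorem SoW_mk (v : Fin 4 → ℕ) (w : Fin 3 → Bool)
    (h0 : (w 0 = true → v 0 < v 1) ∧ (w 0 = false → v 1 < v 0))
    (h1 : (w 1 = true → v 1 < v 2) ∧ (w 1 = false → v 2 < v 1))
    (h2 : (w 2 = true → v 2 < v 3) ∧ (w 2 = false → v 3 < v 2)) : SoW_ok v w := by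
  intro i
  fin_cases i
  · exact h0
  · exact h1
  · exact h2

/-- every word is the word of a forced order -/
private theorem SoW_forc (h6 : PbAStmt) (h7 : PbBStmt) (h8 : PbCStmt) (h9 : PbDStmt)
    (w : Fin 3 → Bool) : ∃ v : Fin 4 → ℕ, ForcW v ∧ SoW_ok v w := by
  obtain ⟨a1, a2, a3⟩ := h6
  obtain ⟨c1, c2⟩ := h8
  obtain ⟨d1, d2⟩ := h9
  have b1 := h7
  cases e0 : w 0 <;> cases e1 : w 1 <;> cases e2 : w 2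
  · refine ⟨_, a3, SoW_mk _ w ⟨?_, ?_⟩ ⟨?_, ?_⟩ ⟨?_, ?_⟩⟩ <;> simp [e0, e1, e2]
  · refine ⟨_, a1, SoW_mk _ w ⟨?_, ?_⟩ ⟨?_, ?_⟩ ⟨?_, ?_⟩⟩ <;> simp [e0, e1, e2]
  · refine ⟨_, c2, SoW_mk _ w ⟨?_, ?_⟩ ⟨?_, ?_⟩ ⟨?_, ?_⟩⟩ <;> simp [e0, e1, e2]
  · refine ⟨_, b1, SoW_mk _ w ⟨?_, ?_⟩ ⟨?_, ?_⟩ ⟨?_, ?_⟩⟩ <;> simp [e0, e1, e2]
  · refine ⟨_, d1, SoW_mk _ w ⟨?_, ?_⟩ ⟨?_, ?_⟩ ⟨?_, ?_⟩⟩ <;> simp [e0, e1, e2]
  · refine ⟨_, d2, SoW_mk _ w ⟨?_, ?_⟩ ⟨?_, ?_⟩ ⟨?_, ?_⟩⟩ <;> simp [e0, e1, e2]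
  · refine ⟨_, c1, SoW_mk _ w ⟨?_, ?_⟩ ⟨?_, ?_⟩ ⟨?_, ?_⟩⟩ <;> simp [e0, e1, e2]
  · refine ⟨_, a2, SoW_mk _ w ⟨?_, ?_⟩ ⟨?_, ?_⟩ ⟨?_, ?_⟩⟩ <;> simp [e0, e1, e2]

private theorem SoW_sub (N : ℕ) (C ε : ℝ) (v : Fin 4 → ℕ) (w : Fin 3 → Bool) (h : SoW_ok v w) :
    ord4 N C ε v ⊆ word3 N C ε w := by
  intro n hn
  unfold ord4 at hn
  unfold word3
  rw [Finset.mem_filter] at hn ⊢
  obtain ⟨hn1, hn2, hn3⟩ := hn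
  refine ⟨hn1, fun i => ⟨fun hi => ?_, fun hi => ?_⟩, hn3⟩
  · have h1 := hn2 i.castSucc i.succ ((h i).1 hi)
    rw [Fin.val_castSucc, Fin.val_succ, ← Nat.add_assoc] at h1
    exact h1
  · have h1 := hn2 i.succ i.castSucc ((h i).2 hi)
    rw [Fin.val_castSucc, Fin.val_succ, ← Nat.add_assoc] at h1
    exact h1

theorem tSoW (h1 : BkUStmt) (h2 : LwQStmt) (h3 : CoQStmt) (h4 : GePStmt) (h5 : RcWStmt)
    (h6 : PbAStmt) (h7 : PbBStmt) (h8 : PbCStmt) (h9 : PbDStmt) (h10 : FrWStmt) : SoWStmt := by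
  intro w C ε hε
  obtain ⟨v, hv, hvw⟩ := SoW_forc h6 h7 h8 h9 w
  have hg : 1 ≤ gM := by
    unfold gM
    norm_num
  have hgg : 1 ≤ gM * gM := Nat.one_le_iff_ne_zero.mpr (Nat.mul_ne_zero (by omega) (by omega))
  obtain ⟨n, hn, hMk⟩ := h1 (gM * gM) hgg
  have hK : 1 ≤ gM * gM * n :=
    Nat.one_le_iff_ne_zero.mpr (Nat.mul_ne_zero (by omega) (by omega))
  have hW : 1 ≤ gM * n := Nat.one_le_iff_ne_zero.mpr (Nat.mul_ne_zero (by omega) (by omega))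
  have hKW : gM * gM * n = gM * n * gM := by ring
  obtain ⟨ρ, hρ⟩ := hv (gM * gM * n) (gM * n) gM hW hKW
  have hCo := h3 (gM * gM * n) (Hits (gM * gM) n) hK (h2 _ _ hK hMk)
  obtain ⟨c, hc, N0, hN⟩ := h10 (gM * gM * n) (Hits (gM * gM) n) v ρ C ε hK hε hCo
    (h4 _ C ρ hK) (by
      intro S hS
      obtain ⟨q1, q2, hq, hq2, hr⟩ := h5 n S hn hS
      exact hρ q1 q2 S hq2 ⟨hq, hr⟩)
  refine ⟨c, hc, N0, fun N hN0 => (hN N hN0).trans ?_⟩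
  exact_mod_cast Finset.card_le_card (SoW_sub N C ε v w hvw)

end Pool.Agent.Lib.RU
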