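import Pool.Agent.Lib.BE.SpecR

/-!
PROJECT RU (note 5432, helper82): a positive proportion of monotone runs of prime gaps (MP_3d1556_nt).

RULES. Module X: file Pool/Agent/Lib/RU/X.lean, first line `import Pool.Agent.Lib.RU.Spec` (plus already proved files of
Lib/BE, CG/Ma, CG/Mf, QL, GP if a private lemma is needed; copy private lemmas instead if possible), then `set_option
autoImplicit false`, `namespace Pool.Agent.Lib.RU`, `open Finset`, `open Pool.Agent.Lib.MP_9f2731_nt.GP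
Pool.Agent.Lib.MP_9f2731_nt.GP.Sv Pool.Agent.Lib.MP_9f2731_nt.QL Pool.Agent.Lib.MP_9f2731_nt.QL.Sw
Pool.Agent.Lib.MP_9f2731_nt.CG Pool.Agent.Lib.MP_9f2731_nt.CG.Ma Pool.Agent.Lib.MP_9f2731_nt.CG.Mf Pool.Agent.Lib.BE`,
auxiliary lemmas private with names starting with X_, final theorem `theorem tX : XStmt`; the statements listed under
Uses are HYPOTHESES of tX, in this order: `theorem tX (h1 : AStmt) (h2 : BStmt) : XStmt`. All modules are independent.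
No congr!, no convert!, no straight double quotes.
-/

set_option autoImplicit false

namespace Pool.Agent.Lib.RU

open Finset
open Pool.Agent.Lib.MP_9f2731_nt.GP
open Pool.Agent.Lib.MP_9f2731_nt.CG
open Pool.Agent.Lib.MP_9f2731_nt.CG.Mf
open Pool.Agent.Lib.BE

/-- the product of the differences -/
def Del {k : ℕ} (h : Fin k → ℕ) : ℕ :=
  ∏ q ∈ (univ : Finset (Fin k × Fin k)).filter (fun q => q.1 < q.2), Nat.dist (h q.1) (h q.2)

/-- the modulus: the product of the primes p ≤ w and of the primes p dividing a difference, without p0 -/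
def Vh (w p0 : ℕ) {k : ℕ} (h : Fin k → ℕ) : ℕ :=
  ∏ p ∈ ((range (w + 1)).filter Nat.Prime ∪ (Del h).primeFactors).erase p0, p

/-- Module BfU (port of BE/C/BfC.lean, the same p0 for all X in [sqrt Y, Y]). Uses: QL.Pw.ExGStmt, ApCStmt, BsCStmt (as tBfC; import Pool.Agent.Lib.BE.SpecC, open also Pool.Agent.Lib.BV, QL.Pw, CG.Bq). Proof. c3 from ExG; apply ApC and BsC with c3/8. p0 from ExG for y' = yX Y = (log Y)^(1/100). For X with Y ≤ X^2, X ≤ Y: log X ≤ log Y ≤ 2 log X, so yX X ≤ yX Y ≤ 2 yX X,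
and for q1 with log q1 ≤ yX X: c3/(yX Y)^3 ≤ ‖L(1, χ1)‖, (c3/8)/(yX X)^3 ≤ c3/(yX Y)^3. The rest is the proof of BfC for X (X ≥ sqrt Y is large). -/
def BfUStmt : Prop :=
  ∃ ε1 : ℝ, 0 < ε1 ∧ ∀ w1 : ℕ, ∃ Y0 : ℝ, ∀ Y : ℕ, Y0 ≤ Y → ∃ p0 : ℕ, p0.Prime ∧ w1 < p0 ∧
    ∀ X : ℕ, Y ≤ X ^ 2 → X ≤ Y → ∀ q c : ℕ, 1 ≤ q → ¬ p0 ∣ q → Real.log q ≤ (Real.log X) ^ ε1 →
      1 ≤ c → c ≤ 4 * q → c.Coprime q → BvC X p0 q c

/-- Module MeU (port of CG/Mf/MfE.lean, written by helper82). Uses: CG.Ma.PfBStmt. -/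
def MeUStmt : Prop := ∀ (K r : ℕ) (P : Fin r → Pf) (bd : Fin r → ℝ) (𝒜 : Finset (Fin K → Fin r)),
  Vda P bd 𝒜 → ∀ κ : ℝ, 0 < κ → ∃ C3 X0 : ℝ, 0 < C3 ∧ ∀ (X V p0 b : ℕ) (a c : Fin K → ℕ), X0 ≤ X →
  (∀ j, a j ≤ X ∧ 1 ≤ c j ∧ c j ≤ X) → b ∈ Icc 1 X → (∀ j, Rgh ((X : ℝ) ^ κ) (a j * b + c j)) →
  WWC (V * p0) X P 𝒜 a c b ^ 2 ≤ C3 * (Real.log (RR X) ^ (4 * K))

open Classical in
/-- Module MkU (port of CG/Mf/MfF.lean with L = K). Uses: VarLStmt, MaRStmt, MbCStmt, MgRStmt, MeUStmt, MhCStmt. Proof. As pMfF for the forms a j b + c j, L = K (all forms carry primes): MaR with P0 = 1 in the place of MfA, MbC for MfB, MgR for MfG (same shape, its last hypothesis is hc), MhC for MfH, WWC for WW, BpC for Bp. -/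
def MkUStmt : Prop := ∀ m : ℕ, ∃ K : ℕ, 1 ≤ K ∧ ∃ (κ c0 : ℝ) (w1 : ℕ) (X0 : ℝ), 0 < κ ∧ 0 < c0 ∧
  ∀ (X w V p0 : ℕ) (a c : Fin K → ℕ), X0 ≤ X → w1 < p0 → StC X w V p0 a c → (∀ l, BvC X p0 (a l) (c l)) →
  (∀ l, (c l).Coprime V ∧ ¬ p0 ∣ a l) → (∀ j, a j ≤ X ∧ 1 ≤ c j ∧ c j ≤ X) →
  c0 * (((V : ℝ) / V.totient) / Real.log X) ^ K * X ≤
    (((Icc 1 X).filter (fun b => (∀ j, Rgh ((X : ℝ) ^ κ) (a j * b + c j)) ∧
      m + 1 ≤ (univ.filter (fun j : Fin K => (a j * b + c j).Prime)).card)).card : ℝ)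

open Classical in
/-- Module UbU (120 lines; upper bound for rough values; compare BE/B/UpC.lean). Uses: MaRStmt, CG.Ma.PfBStmt. Proof. Profile P with co = ![4/β^2, 0, 0] (or ![1, 0, 0]), be = ![β, 0, 0], β = 5 κ ≤ 1, but Vda.simp needs k β ≤ 1: take β = 5 κ / k. r = 1, 𝒜 = univ, bd = β; ip P P = 4 Ee β β > 0, im P = β^2 > 0. If all prime factors of n = a j b + c j are > X^κ ≥ R^β (R = X^(1/5), n ≥ 1),
every d > 1 dividing n is > R^β, so pfn P R d = 0 (PfB) and AF (V p0) R (pfn P R) n = pfn P R 1 = (log R)^2 im P (the term d = 1). So WWC^2 = ((log R)^2 im P)^(2k) on these b. MaR with P0 = 1, η = 1: the sum of WWC^2 is ≤ X G^k (Iq + 1) + X^(3/5) ≤ X G^k (Iq + 2) for X large (G ≥ 1), G = (log R)^3/dlV (V p0), dlV (V p0) ≥ dlV V/2, log R = (log X)/5.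
n ≥ 1 because a j b ≥ 1 (StC.ha1, b ≥ 1). -/
def UbUStmt : Prop := ∀ (k : ℕ) (κ : ℝ), 1 ≤ k → 0 < κ → κ ≤ 1 / 5 → ∃ C X0 : ℝ, 0 < C ∧
  ∀ (X w V p0 : ℕ) (a c : Fin k → ℕ), X0 ≤ X → StC X w V p0 a c →
  (((Icc 1 X).filter (fun b => ∀ j, Rgh ((X : ℝ) ^ κ) (a j * b + c j))).card : ℝ) ≤
    C * (((V : ℝ) / V.totient) / Real.log X) ^ k * X

/-- Module VaU (100 lines; the modulus, exact part). Uses: nothing. Proof. The prime factors of V are exactly the elements of the set in the definition (product of different primes: Nat.primeFactors_prod or Finset.prod and Prime.dvd_finset_prod_iff; Finset.prod of different primes is squarefree, e.g. Finset.squarefree_prod_of_pairwise_isCoprime). A prime p dividing Del h divides some dist (h i) (h j) with i < j, 0 < dist < B (h injective), so p ≤ B; conversely dist (h i) (h j) divides Del h for i < j (Finset.dvd_prod_of_mem; Nat.dist_comm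 for i > j), and Del h ≠ 0.
V ≤ primorial w * ∏ of the prime factors of Del h ≤ 4^w * Del h (primorial_le_4_pow, Nat.prod_primeFactors_dvd), Del h ≤ B^(number of pairs) ≤ B^(k^2). primorial w = the product over (range (w+1)).filter Nat.Prime: erasing p0 divides it by p0 ≤ w or by 1. -/
def VaUStmt : Prop := ∀ (k w p0 B : ℕ) (h : Fin k → ℕ), p0.Prime → Function.Injective h →
  (∀ j, 1 ≤ h j ∧ h j ≤ B) →
  1 ≤ Vh w p0 h ∧ Squarefree (Vh w p0 h) ∧ ¬ p0 ∣ Vh w p0 h ∧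
  (∀ p : ℕ, p.Prime → p ∣ Vh w p0 h → p ≤ w ∨ p ≤ B) ∧
  (∀ p : ℕ, p.Prime → p ≤ w → p ∣ Vh w p0 h * p0) ∧
  (∀ p : ℕ, p.Prime → ¬ p ∣ Vh w p0 h * p0 → ∀ i j, i ≠ j → ¬ p ∣ Nat.dist (h i) (h j)) ∧
  Vh w p0 h ≤ 4 ^ w * B ^ (k ^ 2) ∧ primorial w ≤ Vh w p0 h * (w + 1)

/-- Module VhU (150 lines; the modulus; compare BE/E/VwC.lean, StE.lean). Uses: VaU. Proof. V = Vh (wx Y) p0 h, B = ⌊log Y⌋₊, y = loglog Y, wx Y = ⌊y^4⌋₊ (BE/SpecE). log V ≤ 2 y^4 + k^2 y, which is smaller than every positive power of log X ≥ (log Y)/2 = exp(y)/2 for Y large (so also (1 + log V)^12 ≤ sqrt (log X) and 8 V^3 ≤ Y).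
h j ≤ log Y = exp y ≤ V and 2 ≤ V: log (primorial (wx Y)) = θ(wx Y) ≥ wx Y/4 (Chebyshev.theta_eq_log_primorial, Chebyshev.theta_ge), so V ≥ exp(y^4/8)/(y^4 + 2) ≥ exp y. p ∣ V: p ≤ wx Y ≤ y^4 ≤ log Y or p ≤ B. X ≥ sqrt Y gives 0 ≤ loglog X ≤ y: StC.hw. StC: the other fields from VaU (dist (V c_k) (V c_j) = V dist (h k) (h j) up to order, p prime: Nat.Prime.dvd_mul; Nat.dist_mul_left, Nat.dist_add_add_left). -/
def VhUStmt : Prop := ∀ (k : ℕ) (ε1 : ℝ), 0 < ε1 → ∃ Y0 : ℝ, ∀ (Y p0 : ℕ) (h : Fin k → ℕ), Y0 ≤ Y → p0.Prime →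
  Function.Injective h → (∀ j, 1 ≤ h j ∧ (h j : ℝ) ≤ Real.log Y) →
  2 ≤ Vh (wx Y) p0 h ∧ Squarefree (Vh (wx Y) p0 h) ∧ ¬ p0 ∣ Vh (wx Y) p0 h ∧ (∀ j, h j ≤ Vh (wx Y) p0 h) ∧
  (∀ p : ℕ, p.Prime → p ∣ Vh (wx Y) p0 h → (p : ℝ) ≤ Real.log Y) ∧ 8 * Vh (wx Y) p0 h ^ 3 ≤ Y ∧
  ∀ X : ℕ, Y ≤ X ^ 2 → X ≤ Y → Real.log (Vh (wx Y) p0 h) ≤ (Real.log X) ^ ε1 ∧
    ∀ ν : ℕ, StC X (wx Y) (Vh (wx Y) p0 h) p0 (fun _ : Fin k => Vh (wx Y) p0 h) (fun j => ν + h j)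

/-- Module ApU (80 lines; product formula). Uses: nothing. Proof. Induction on the number of prime factors (V = p V', p not dividing V'; Nat.chineseRemainder / ZMod.chineseRemainder: ν ↦ (ν mod p, ν mod V') is a bijection of range (p V') with range p × range V'; the conditions depend only on ν mod p and ν mod V'), or GP.Sv.S_Crt. -/
def ApUStmt : Prop := ∀ (k V : ℕ) (h : Fin k → ℕ), Squarefree V →
  ((range V).filter (fun ν => ∀ j, (ν + h j).Coprime V)).card =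
    ∏ p ∈ V.primeFactors, ((range p).filter (fun ν => ∀ j, ¬ p ∣ ν + h j)).card

/-- Module AlU (120 lines; lower bound). Uses: ApU. Proof. V (φ(V)/V)^K = the product over p | V of p (1 - 1/p)^K. p ≤ K: all h j ≡ 0 mod p (p ∣ K!), the factor is p - 1 ≥ p (1 - 1/p)^K. p > K: at most K classes are excluded, the factor is ≥ p - K ≥ p (1 - 1/p)^K (1 - K^2/p^2) (Bernoulli: (1 - x)^K (1 + K x) ≤ 1, i.e. (1 - 1/p)^K ≤ 1/(1 + K/p), and (1 - K/p)(1 + K/p) = 1 - K^2/p^2).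
The product of 1 - K^2/p^2 over any finite set of integers p > K is ≥ c = (K!)^2/(2K)! (at least the product over K < n ≤ N, which is (N-K)! (N+K)! (K!)^2/((2K)! (N!)^2), by induction on N; (N-K)! (N+K)! ≥ (N!)^2; or any other positive lower bound, e.g. ∏ (1 - x_n) ≥ exp(-C ∑ 1/n^2)). -/
def AlUStmt : Prop := ∀ K : ℕ, 1 ≤ K → ∃ c0 : ℝ, 0 < c0 ∧ ∀ (V : ℕ) (h : Fin K → ℕ), Squarefree V →
  (∀ j, K.factorial ∣ h j) →
  c0 * (V * ((V.totient : ℝ) / V) ^ K) ≤ (((range V).filter (fun ν => ∀ j, (ν + h j).Coprime V)).card : ℝ)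

/-- Module AuU (100 lines; upper bound). Uses: ApU. Proof. Del h ≠ 0. p ∤ Del h: the k classes of - h j mod p are different, the factor is p - k ≤ p (1 - 1/p)^k (Bernoulli; if k > p it is 0). p ∣ Del h: the factor is ≤ p - 1 = p (1 - 1/p)^k (1 - 1/p)^(1-k) ≤ p (1 - 1/p)^k (p/(p-1))^k. The product of p/(p-1) over the p ∣ V, p ∣ Del h is ≤ Del h/φ(Del h) (Nat.totient_eq_mul_prod_factors or Nat.totient_mul_prod_primeFactors). -/
def AuUStmt : Prop := ∀ (k V : ℕ) (h : Fin k → ℕ), 1 ≤ k → Squarefree V → Function.Injective h →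
  (((range V).filter (fun ν => ∀ j, (ν + h j).Coprime V)).card : ℝ) ≤
    V * ((V.totient : ℝ) / V) ^ k * ((Del h : ℝ) / (Del h).totient) ^ k

/-- Module TmU (120 lines; moments of n/φ(n)). Uses: nothing. Proof. n/φ(n) = ∏ (1 + 1/(p-1)) ≤ ∏_{p ∣ n} (1 + 2/p), so (n/φ(n))^q ≤ ∏_{p ∣ n} (1 + c/p) with c = 2^q q-ish ((1 + x)^q ≤ 1 + (2^q) x for 0 ≤ x ≤ 1) = ∑_{d ∣ n squarefree} c^ω(d)/d; the sum over n ≤ M is ≤ M ∑_d c^ω(d)/d^2 ≤ M ∏_{p ≤ M} (1 + c/p^2) ≤ M exp(c ∑ 1/p^2). Or an induction: any proof. -/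
def TmUStmt : Prop := ∀ q : ℕ, ∃ C : ℝ, 0 < C ∧ ∀ M : ℕ, ∑ n ∈ Icc 1 M, ((n : ℝ) / n.totient) ^ q ≤ C * M

open Classical in
/-- Module SgU (120 lines; mean over the tuples). Uses: TmU. Proof. Del h/φ(Del h) ≤ the product over i < j of n/φ(n), n = dist (h i) (h j) (φ(a b) ≥ φ(a) φ(b), Nat.totient_super_multiplicative). With B = the number of pairs (k ≤ 1: Del h = 1, the sum is ≤ M^k) the q-th power is ≤ ∑_{i<j} (n/φ(n))^(q B) (all factors are ≥ 1: the product of B factors is ≤ the B-th power of the largest one).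
For fixed i < j the sum over h : Fin k → Icc 1 M with h i ≠ h j of (n/φ(n))^(qB) is M^(k-2) times the sum over pairs a ≠ b in Icc 1 M (or: sum over all coordinates, fix all coordinates except i; for fixed a = h j the sum over b = h i ≠ a is ≤ 2 ∑_{n ≤ M}), so it is ≤ 2 C M^k. -/
def SgUStmt : Prop := ∀ k q : ℕ, ∃ C : ℝ, 0 < C ∧ ∀ M : ℕ,
  ∑ h ∈ (Fintype.piFinset (fun _ : Fin k => Icc 1 M)).filter (fun h => Function.Injective h),
    ((Del h : ℝ) / (Del h).totient) ^ q ≤ C * (M : ℝ) ^ k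

open Classical in
/-- Module LwU (180 lines; many windows with m + 1 primes and rough values). Uses: BfU, MkU, VhU, AlU. Proof. K, κ', c0, w1 from MkU; κ = min (κ'/2) (1/5); ε1 from BfU. Y large: p0 from BfU (> w1), V = Vh (wx Y) p0 h, X = Y / V (VhU: Y ≤ X^2 since V^2 * 4 ≤ Y, X ≤ Y, 2 V ≤ X). For ν < V with all ν + h j prime to V: c j = ν + h j satisfies 1 ≤ c j ≤ 2 V ≤ 4 V, BvC by BfU; MkU: at least c0 ((V/φ(V))/log X)^K X of the b.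
N = V b + ν ≤ V X + V ≤ 2 Y, N + h j = V b + (ν + h j); X^κ' ≥ Y^(κ'/2) ≥ Y^κ. Different (b, ν), ν < V, give different N. AlU: the number of the ν is ≥ c1 V (φ(V)/V)^K; X ≥ Y/(2V), log X ≤ log Y. -/
def LwUStmt : Prop := ∀ m : ℕ, ∃ K : ℕ, 1 ≤ K ∧ ∃ κ c0 Y0 : ℝ, 0 < κ ∧ κ ≤ 1 / 5 ∧ 0 < c0 ∧
  ∀ (Y : ℕ) (h : Fin K → ℕ), Y0 ≤ Y → Function.Injective h →
  (∀ j, 1 ≤ h j ∧ (h j : ℝ) ≤ Real.log Y ∧ K.factorial ∣ h j) →
  c0 * (Y / Real.log Y ^ K) ≤ (((Icc 1 (2 * Y)).filter (fun N => (∀ j, Rgh ((Y : ℝ) ^ κ) (N + h j)) ∧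
    m + 1 ≤ (univ.filter (fun j : Fin K => (N + h j).Prime)).card)).card : ℝ)

open Classical in
/-- Module UpU (180 lines; upper bound for rough tuples). Uses: UbU, VhU, AuU. Proof. p0 any prime (e.g. 2), V = Vh (wx Y) p0 h, X = 2 Y / V (V ≥ 2: X ≤ Y; Y ≤ X^2; X ≥ Y/V ≥ sqrt Y, log X ≥ (log Y)/2, X ≤ 2Y/V). N = V b + ν, ν = N % V, b = N / V ≤ X. b = 0: at most V ≤ Y^(1/3) of the N. b ≥ 1: if some ν + h j is not prime to V then N + h j has a prime factor p ∣ V, p ≤ log Y < Y^κ (Y large): not rough.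
Otherwise UbU (Rgh (Y^κ) implies Rgh (X^κ), X ≤ Y): at most C ((V/φ(V))/log X)^k X of the b. Sum over ν: AuU. V ≤ Y^(1/3) ≤ Y/(log Y)^k for Y large, Del h/φ ≥ 1. -/
def UpUStmt : Prop := ∀ (k : ℕ) (κ : ℝ), 1 ≤ k → 0 < κ → κ ≤ 1 / 5 → ∃ C Y0 : ℝ, 0 < C ∧
  ∀ (Y : ℕ) (h : Fin k → ℕ), Y0 ≤ Y → Function.Injective h → (∀ j, 1 ≤ h j ∧ (h j : ℝ) ≤ Real.log Y) →
  (((Icc 1 (2 * Y)).filter (fun N => ∀ j, Rgh ((Y : ℝ) ^ κ) (N + h j))).card : ℝ) ≤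
    C * (((Del h : ℝ) / (Del h).totient) ^ k * (Y / Real.log Y ^ k))

open Classical in
/-- Module CoU (200 lines; most windows contain exactly K rough numbers). Uses: LwU, UpU, SgU. Proof. K, κ, c0 from LwU; C2 from UpU for k = K + 1 and κ; C4 from SgU for k = q = K + 1; C3 = C2 C4; η0 = min 1 (δ c0/(2 C3)). z = Y^κ, R(N) = the t ∈ Icc 1 M with Rgh z (N + t), A(h) = the filter of LwU, M ≤ η log Y. (1) ∑_{h ∈ 𝓗} card A(h) ≥ δ c0 M^K Y/(log Y)^K. (2) If N ∈ A(h) and R(N) ≠ image of h, there is t ∈ R(N) outside the image of h: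
N is counted by the injective h' = Fin.cons t h : Fin (K+1) → Icc 1 M; (h, t) ↦ h' is injective, so the sum over h of the number of these N is ≤ ∑_{h'} C2 (Del h'/φ)^(K+1) Y/(log Y)^(K+1) ≤ C3 M^(K+1) Y/(log Y)^(K+1) ≤ C3 η M^K Y/(log Y)^K. (3) So ∑_{h ∈ 𝓗} card {N ∈ A(h) : R(N) = image h} ≥ (δ c0/2) M^K Y/(log Y)^K ≥ c' Y with c' = (δ c0/2) (η/2)^K
(M ≥ (η/2) log Y for Y large), and every N belongs to at most one h. (4) Remove the N ≤ z ≤ Y^(1/5) ≤ (c'/2) Y. For N > z and N + t prime, t ∈ Icc 1 M: N + t > z is z-rough, so t ∈ R(N) = image h. c = c'/2. -/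
def CoUStmt : Prop := ∀ m : ℕ, ∃ K : ℕ, 1 ≤ K ∧ ∀ δ : ℝ, 0 < δ → ∃ η0 : ℝ, 0 < η0 ∧ ∀ η : ℝ, 0 < η → η ≤ η0 →
  ∃ c Y0 : ℝ, 0 < c ∧ ∀ (Y M : ℕ) (𝓗 : Finset (Fin K → ℕ)), Y0 ≤ Y → M = ⌊η * Real.log Y⌋₊ →
  (∀ h ∈ 𝓗, Function.Injective h ∧ ∀ j, 1 ≤ h j ∧ h j ≤ M ∧ K.factorial ∣ h j) →
  (∀ h ∈ 𝓗, ∀ h' ∈ 𝓗, univ.image h = univ.image h' → h = h') → δ * (M : ℝ) ^ K ≤ (𝓗.card : ℝ) →
  c * Y ≤ (((Icc 1 (2 * Y)).filter (fun N => ∃ h ∈ 𝓗, m + 1 ≤ (univ.filter (fun j => (N + h j).Prime)).card ∧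
    ∀ t, 1 ≤ t → t ≤ M → (N + t).Prime → ∃ j, h j = t)).card : ℝ)

/-- a family of tuples in [1, M] with the relation Rel between the differences x = h j - h i, y = h k - h j -/
def Fam (K M : ℕ) (δ : ℝ) (Rel : ℝ → ℝ → Prop) (𝓗 : Finset (Fin K → ℕ)) : Prop :=
  δ * (M : ℝ) ^ K ≤ (𝓗.card : ℝ) ∧ ∀ h ∈ 𝓗, StrictMono h ∧ (∀ j, 1 ≤ h j ∧ h j ≤ M ∧ K.factorial ∣ h j) ∧
    ∀ i j k, i < j → j < k → Rel ((h j : ℝ) - h i) ((h k : ℝ) - h j)

/-- Module GeU (120 lines; geometry). Uses: nothing. Proof. D = ⌈|C|⌉ + 3, T = M / (2 K! D^K) (M large: T ≥ 1, T ≥ M/(4 K! D^K)). First family: h j = K! (D^(j+1) T + t j), t : Fin K → range T (T^K tuples, injective in t). For i < j < k: (h j - h i)/K! ≤ D^(j+1) T + (T - 1) - D^(i+1) T ≤ D^(j+1) T and (h k - h j)/K! ≥ D^(k+1) T - D^(j+1) T - (T - 1) ≥ (D - 1) D^(j+1) T - T > |C| D^(j+1) T.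
Second family: the mirror images 2 K! D^K T - h (K-1-j) (all ≥ 1 because h ≤ K! (D^K T + T - 1) < 2 K! D^K T; divisible by K!). δ = (4 K! D^K)^(-K). -/
def GeUStmt : Prop := ∀ (K : ℕ) (C : ℝ), 1 ≤ K → ∃ (δ : ℝ) (M0 : ℕ), 0 < δ ∧ ∀ M : ℕ, M0 ≤ M →
  (∃ 𝓗, Fam K M δ (fun x y => C * x < y) 𝓗) ∧ ∃ 𝓗, Fam K M δ (fun x y => C * y < x) 𝓗

/-- prime gaps -/
noncomputable def gp (n : ℕ) : ℕ := Nat.nth Nat.Prime (n + 1) - Nat.nth Nat.Prime n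

/-- Module WiU (120 lines; one window). Uses: nothing. Proof. n = Nat.primeCounting N = the number of primes ≤ N, so p_n, p_(n+1), … (p = Nat.nth Nat.Prime) are the primes > N in order (Nat.nth_count, Nat.lt_nth_iff_count_lt). All primes of (N, N + M] are N + h j, and at least r + 2 of the N + h j are prime, so p_n, …, p_(n+r+1) ≤ N + M: p_(n+i) = N + h (j_i) with j_0 < … < j_(r+1) (h strictly monotone). gp (n+i) = h (j_(i+1)) - h (j_i). The sum of the gaps is p_(n+r+1) - p_n < M. -/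
def WiUStmt : Prop := ∀ (K M N r : ℕ) (Rel : ℝ → ℝ → Prop) (h : Fin K → ℕ), StrictMono h →
  (∀ j, 1 ≤ h j ∧ h j ≤ M) → (∀ i j k, i < j → j < k → Rel ((h j : ℝ) - h i) ((h k : ℝ) - h j)) →
  r + 2 ≤ (univ.filter (fun j => (N + h j).Prime)).card →
  (∀ t, 1 ≤ t → t ≤ M → (N + t).Prime → ∃ j, h j = t) →
  N < Nat.nth Nat.Prime (Nat.primeCounting N) ∧ Nat.nth Nat.Prime (Nat.primeCounting N) ≤ N + M ∧
  (∀ i < r, Rel (gp (Nat.primeCounting N + i)) (gp (Nat.primeCounting N + i + 1))) ∧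
  ∑ i ∈ range (r + 1), gp (Nat.primeCounting N + i) ≤ M

open Classical in
/-- the runs of r consecutive comparisons of the gaps, of total length at most ε log N -/
noncomputable def runs (r N : ℕ) (ε : ℝ) (Rel : ℝ → ℝ → Prop) : Finset ℕ :=
  (range N).filter (fun n => (∀ i < r, Rel (gp (n + i)) (gp (n + i + 1))) ∧
    ((∑ i ∈ range (r + 1), gp (n + i) : ℕ) : ℝ) ≤ ε * Real.log N)

open Classical in
/-- Module FrU (150 lines; from windows to indices, for one family). Uses: CoU, WiU. Proof. K from CoU for m = r + 1. Given δ, M0: η = min (η0) (ε/4) (and ≤ 1), c, Y0 from CoU. N large: Y = ⌊c1 N log N⌋ with an absolute c1 ≤ 1 such that π(2Y) < N (Chebyshev upper bound), Y ≤ N^2, M = ⌊η log Y⌋ ≤ 2 η log N ≤ ε log N, M ≥ M0, M ≥ 1. Two strictly monotone h with the same image are equal.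
CoU: ≥ c Y windows N' ≤ 2Y; N' ↦ n = primeCounting N' ≤ π(2Y) < N maps into the runs (WiU), and N' ∈ [p_n - M, p_n): at most M windows for each n (card_le_mul_card_image or similar). So the number of n is ≥ c Y/M ≥ c Y/(η log Y) ≥ c' N. -/
def FrUStmt : Prop := ∀ r : ℕ, ∃ K : ℕ, 1 ≤ K ∧ ∀ (δ : ℝ) (M0 : ℕ) (Rel : ℝ → ℝ → Prop) (ε : ℝ), 0 < δ → 0 < ε →
  (∀ M : ℕ, M0 ≤ M → ∃ 𝓗, Fam K M δ Rel 𝓗) →
  ∃ c : ℝ, 0 < c ∧ ∃ N0 : ℕ, ∀ N : ℕ, N0 ≤ N → c * N ≤ ((runs r N ε Rel).card : ℝ)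

/-- THEOREM RU -/
def RuStmt : Prop := ∀ (r : ℕ) (C ε : ℝ), 0 < ε → ∃ c : ℝ, 0 < c ∧ ∃ N0 : ℕ, ∀ N : ℕ, N0 ≤ N →
  c * N ≤ ((runs r N ε (fun x y => C * x < y)).card : ℝ) ∧
  c * N ≤ ((runs r N ε (fun x y => C * y < x)).card : ℝ)

/-- Module RuU (40 lines). Uses: FrU, GeU. Proof. K from FrU, δ and M0 from GeU; the minimum of the two c, the maximum of the two N0. -/
def RuUStmt : Prop := RuStmt

end Pool.Agent.Lib.RU
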