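import Pool.Agent.Lib.RU.SpecX

/-!
PROJECT KO (note 5552; helper81, helper82, helper7): twelve orders of k consecutive gaps for every k ≥ 3. Same rules as
RU/SpecQ.lean; first line `import Pool.Agent.Lib.RU.SpecK`, file Pool/Agent/Lib/RU/X.lean, final theorem `theorem tX : XStmt`,
the statements listed under Uses are hypotheses, in this order. No congr!, no convert!, no straight double quotes.
-/

set_option autoImplicit false

namespace Pool.Agent.Lib.RU

open Finset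

/-- the number of bins in a group, and the number of groups -/
def gK (k : ℕ) : ℕ := (k + 1) * 1000000

/-- the elements of S in the group q (the positions W q, …, W (q + 1) - 1) -/
def grp {K : ℕ} (W q : ℕ) (S : Finset (Fin K)) : Finset (Fin K) :=
  S.filter (fun x => W * q ≤ (x : ℕ) ∧ (x : ℕ) < W * (q + 1))

/-- two rich groups -/
def RichK {K : ℕ} (k W q1 q2 : ℕ) (S : Finset (Fin K)) : Prop :=
  q1 < q2 ∧ k ≤ (grp W q1 S).card ∧ k ≤ (grp W q2 S).card

/-- Module RcK (100 lines; compare RcW). Uses: nothing. Proof. g = gK k, H = the hit bins (card ≥ g g/10^6 = (k+1) g > k g), the group of the bin i is i / g < g. At most g bins in a group (RcW_gen). If at most one group has ≥ k hit bins, H.card ≤ (k - 1) g + g. For a group q with ≥ k hit bins: choose t with finProdFinEquiv (i, t) ∈ S for the hit bins i; the map i ↦ finProdFinEquiv (i, t i) is injective, and its values t + n i lie in the positions [g n q, g n (q+1)). -/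
def RcKStmt : Prop := ∀ (k n : ℕ) (S : Finset (Fin (gK k * gK k * n))), 1 ≤ k → 1 ≤ n → Hits (gK k * gK k) n S →
  ∃ q1 q2 : ℕ, q2 < gK k ∧ RichK k (gK k * n) q1 q2 S

/-- s 0, …, s k are consecutive elements of S -/
def ConsK {K k : ℕ} (S : Finset (Fin K)) (s : Fin (k + 1) → Fin K) : Prop :=
  StrictMono s ∧ (∀ i, s i ∈ S) ∧ ∀ x ∈ S, s 0 < x → x < s (Fin.last k) → ∃ i, x = s i

/-- Module WnK (120 lines; the window at the beginning of the second rich group). Uses: nothing. Proof. e = S.orderEmbOfFin rfl; for every T: e j < T ↔ j < (S.filter (· < T)).card (the j with e j < T are an initial segment of Fin S.card, mapped onto S.filter (· < T)). n1 = (S.filter (· < W q2)).card ≥ k (contains grp W q1 S), (S.filter (· < W (q2+1))).card ≥ n1 + k. s i = e (n1 - 2 + i), i < k + 2. -/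
def WnKStmt : Prop := ∀ (k K W q1 q2 : ℕ) (S : Finset (Fin K)), 2 ≤ k → RichK k W q1 q2 S →
  ∃ s : Fin (k + 1 + 1) → Fin K, ConsK S s ∧ (s 1 : ℕ) < W * q2 ∧
    ∀ i : Fin (k + 1 + 1), 2 ≤ (i : ℕ) → W * q2 ≤ (s i : ℕ) ∧ (s i : ℕ) < W * (q2 + 1)

/-- the rank function ρ at the group q: everything before the boundary W q - 1 and inside the group q is below the boundary; everything before the boundary is below (lo) resp. above the inside of q; the inside of q is increasing (inc) resp. decreasing -/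
def Geo (lo inc : Bool) (W q : ℕ) (ρ : ℕ → ℕ) : Prop :=
  (∀ p, p + 1 < W * q → ρ p < ρ (W * q - 1)) ∧
  (∀ p, W * q ≤ p → p + 1 < W * (q + 1) → ρ p < ρ (W * q - 1)) ∧
  (∀ p p', p + 1 < W * q → W * q ≤ p' → p' + 1 < W * (q + 1) →
    (lo = true → ρ p < ρ p') ∧ (lo = false → ρ p' < ρ p)) ∧
  (∀ p p', W * q ≤ p → p < p' → p' + 1 < W * (q + 1) → (inc = true → ρ p < ρ p') ∧ (inc = false → ρ p' < ρ p))

/-- Module GoK (100 lines; the four geometries, see PbE, PbD). Uses: nothing. Proof. b = p / W, r = p % W, the boundary is r = W - 1. lo: ρ p = (W+1) (b+1) + W on the boundaries, (W+1) b + (r or W - 1 - r) otherwise. Not lo: ρ p = K + W + 1 + b on the boundaries, W (G - b) + (r or W - 1 - r) otherwise. -/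
def GoKStmt : Prop := ∀ (K W G : ℕ) (lo inc : Bool), 1 ≤ W → K = W * G →
  ∃ ρ : ℕ → ℕ, ∀ q, 1 ≤ q → q < G → Geo lo inc W q ρ

/-- the order v of k consecutive gaps is forced -/
def ForcK (k : ℕ) (v : Fin k → ℕ) : Prop := ∀ (K W G : ℕ), 1 ≤ W → K = W * G → ∃ ρ : ℕ → ℕ,
  ∀ (q1 q2 : ℕ) (S : Finset (Fin K)), q2 < G → RichK k W q1 q2 S → ∃ s : Fin (k + 1) → Fin K, ConsK S s ∧
    ∀ i j : Fin k, v i < v j → Rk ρ (s i.castSucc) (s i.succ) (s j.castSucc) (s j.succ)

/-- k 1 2 … k-1 -/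
def oA (k : ℕ) (i : Fin k) : ℕ := if (i : ℕ) = 0 then k else i
/-- k k-1 … 1 -/
def oB (k : ℕ) (i : Fin k) : ℕ := k - i
/-- 1 k 2 … k-1 -/
def oC (k : ℕ) (i : Fin k) : ℕ := if (i : ℕ) = 0 then 1 else if (i : ℕ) = 1 then k else i
/-- 1 k k-1 … 2 -/
def oD (k : ℕ) (i : Fin k) : ℕ := if (i : ℕ) = 0 then 1 else k + 1 - i
/-- k-1 k 1 … k-2 -/
def oE (k : ℕ) (i : Fin k) : ℕ := if (i : ℕ) = 0 then k - 1 else if (i : ℕ) = 1 then k else i - 1
/-- k-1 k k-2 … 1 -/
def oF (k : ℕ) (i : Fin k) : ℕ := if (i : ℕ) = 0 then k - 1 else if (i : ℕ) = 1 then k else k - i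

/-- Module PeK (200 lines). Uses: WnK, GoK. Proof. s : Fin (k+2) → Fin K from WnK; u a = s a (extended by 0 to ℕ), the gap a is [u a, u (a+1)), a ≤ k. Gap 0 lies before the boundary W q2 - 1, gap 1 contains it, the gaps a ≥ 2 lie inside q2 (all positions p with W q2 ≤ p, p + 1 < W (q2+1)). Write a < b for Rk ρ (u a) (u (a+1)) (u b) (u (b+1)). a < 1 for all a ≠ 1 (y = W q2 - 1). inc: a < b for 2 ≤ a < b (y = u (b+1) - 1); dec: a < b for 2 ≤ b < a (y = u b). lo: 0 < b for b ≥ 2 (y = u b). Not lo: a < 0 for a ≥ 2 (y = u 0).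
oC, oD, oE, oF: the window s ∘ Fin.castSucc (gaps 0 … k-1) with (lo, inc) = (true, true), (true, false), (false, true), (false, false). oA, oB: the window s ∘ Fin.succ (gaps 1 … k) with (true, true), (true, false). In each case v i < v j leaves only the pairs above (split_ifs, omega). -/
def PeKStmt : Prop := ∀ k, 3 ≤ k → ForcK k (oA k) ∧ ForcK k (oB k) ∧ ForcK k (oC k) ∧ ForcK k (oD k) ∧
  ForcK k (oE k) ∧ ForcK k (oF k)

/-- Module MiK (120 lines; mirror image). Uses: nothing. Proof. ρ from the hypothesis for the same K, W, G, and ρ' x = ρ (K - 2 - x). S' = S.image Fin.rev; x ∈ grp W q S ↔ Fin.rev x ∈ grp W (G - 1 - q) S' (q < G), so RichK k W (G - 1 - q2) (G - 1 - q1) S'. s' from the hypothesis, s i = Fin.rev (s' (Fin.rev i)); (Fin.rev i).castSucc = Fin.rev i.succ, (Fin.rev i).succ = Fin.rev i.castSucc. The position y in [s' a, s' b) corresponds to K - 2 - y in [s …, s …) (y ≤ K - 2, because y < s' b ≤ K - 1). -/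
def MiKStmt : Prop := ∀ (k : ℕ) (v : Fin k → ℕ), ForcK k v → ForcK k (fun i => v (Fin.rev i))

/-- Module WiK (130 lines; compare WiW). Uses: nothing. Proof. n = Nat.count Nat.Prime (N + h (s 0)); by induction on i ≤ k: Nat.nth Nat.Prime (n + i) = N + h (s i) (WiW_next). The sum of the gaps is Nat.nth Nat.Prime (n + k) - Nat.nth Nat.Prime n = h (s k) - h (s 0). -/
def WiKStmt : Prop := ∀ (k K M N : ℕ) (h : Fin K → ℕ) (s : Fin (k + 1) → Fin K), StrictMono h →
  (∀ j, 1 ≤ h j ∧ h j ≤ M) → (∀ t, 1 ≤ t → t ≤ M → (N + t).Prime → ∃ j, h j = t) →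
  ConsK (univ.filter (fun j : Fin K => (N + h j).Prime)) s →
  ∃ n : ℕ, N < Nat.nth Nat.Prime n ∧ Nat.nth Nat.Prime n ≤ N + M ∧
    (∀ i : Fin k, (gp (n + i) : ℝ) = (h (s i.succ) : ℝ) - h (s i.castSucc)) ∧ ∑ i ∈ range k, gp (n + i) ≤ M

open Classical in
/-- the n < N for which the gaps n, …, n + k - 1 have the order v, with ratios > C, and length at most ε log N -/
noncomputable def ordK (k N : ℕ) (C ε : ℝ) (v : Fin k → ℕ) : Finset ℕ :=
  (range N).filter (fun n => (∀ i j : Fin k, v i < v j → C * gp (n + i) < gp (n + j)) ∧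
    ((∑ i ∈ range k, gp (n + i) : ℕ) : ℝ) ≤ ε * Real.log N)

/-- Module FrK (170 lines; copy of FrW). Uses: WiK. -/
def FrKStmt : Prop := ∀ (k K : ℕ) (Q : Finset (Fin K) → Prop) (v : Fin k → ℕ) (ρ : ℕ → ℕ) (C ε : ℝ), 1 ≤ K → 0 < ε →
  Co K Q → (∃ (δ : ℝ) (M0 : ℕ), 0 < δ ∧ ∀ M : ℕ, M0 ≤ M → ∃ 𝓗, FamR K M δ C ρ 𝓗) →
  (∀ S, Q S → ∃ s : Fin (k + 1) → Fin K, ConsK S s ∧ ∀ i j : Fin k, v i < v j →
    Rk ρ (s i.castSucc) (s i.succ) (s j.castSucc) (s j.succ)) →
  ∃ c : ℝ, 0 < c ∧ ∃ N0 : ℕ, ∀ N : ℕ, N0 ≤ N → c * N ≤ ((ordK k N C ε v).card : ℝ)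

/-- THEOREM KO for one order -/
def OrdK (k : ℕ) (v : Fin k → ℕ) : Prop := ∀ (C ε : ℝ), 0 < ε → ∃ c : ℝ, 0 < c ∧ ∃ N0 : ℕ, ∀ N : ℕ, N0 ≤ N →
  c * N ≤ ((ordK k N C ε v).card : ℝ)

/-- Module ToK (60 lines; copy of ToX). Uses: BkU, LwQ, CoQ, GeP, RcK, FrK. -/
def ToKStmt : Prop := ∀ (k : ℕ) (v : Fin k → ℕ), 1 ≤ k → ForcK k v → OrdK k v

end Pool.Agent.Lib.RU
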