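import Pool.Agent.Lib.RU.SpecV

/-!
PROJECT SO (note 5510, helper7): all six orders of three consecutive prime gaps (MP_3d1556_nt), on the machinery of RU.

RULES. Module X: file Pool/Agent/Lib/RU/X.lean, first line `import Pool.Agent.Lib.RU.SpecQ` (plus already proved files if a
private lemma is needed; copy private lemmas instead if possible), then `set_option autoImplicit false`, `namespace
Pool.Agent.Lib.RU`, `open Finset`, `open Pool.Agent.Lib.MP_9f2731_nt.GP Pool.Agent.Lib.MP_9f2731_nt.GP.Sv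
Pool.Agent.Lib.MP_9f2731_nt.QL Pool.Agent.Lib.MP_9f2731_nt.QL.Sw Pool.Agent.Lib.MP_9f2731_nt.CG
Pool.Agent.Lib.MP_9f2731_nt.CG.Ma Pool.Agent.Lib.MP_9f2731_nt.CG.Mf Pool.Agent.Lib.BE`, auxiliary lemmas private with names
starting with X_, final theorem `theorem tX : XStmt`; the statements listed under Uses are HYPOTHESES of tX, in this order.
All modules are independent. No congr!, no convert!, no straight double quotes.
-/

set_option autoImplicit false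

namespace Pool.Agent.Lib.RU

open Finset
open Pool.Agent.Lib.MP_9f2731_nt.GP
open Pool.Agent.Lib.MP_9f2731_nt.GP.Sv
open Pool.Agent.Lib.MP_9f2731_nt.CG
open Pool.Agent.Lib.MP_9f2731_nt.CG.Ma
open Pool.Agent.Lib.MP_9f2731_nt.CG.Mf
open Pool.Agent.Lib.BE

open Classical in
/-- Module BkC (150 lines; combinatorial). Uses: nothing. Proof. Copy BE/R/BiR.lean (tBiR). With E b = the number of the bins i with b ∈ B i t for some t, and G = the b ∈ 𝓡 with m/10^6 ≤ E b: as there, ∑_{𝓑} W E ≥ m Z T 3/(2 10^6) (the lemmas BiR_bin, BiR_num, hbin), and ∑_{𝓑} W E ≤ (m/10^6) ∑_{𝓑} W + m ∑_{𝓑 \ 𝓡} W + m ∑_G W (E ≤ m), ∑_{𝓑} W ≤ Z (T + ε) ≤ Z T (1 + 10^(-4)). So ∑_G W ≥ Z T (1.5 - 1.0001 - 0.01)/10^6 ≥ Z T/10^7. -/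
def BkCStmt : Prop := ∀ (m n : ℕ) (𝓑 𝓡 : Finset ℕ) (W : ℕ → ℝ) (B : Fin m → Fin n → Finset ℕ) (Z T α ε : ℝ),
  1 ≤ m → 1 ≤ n → 0 < Z → 0 < T → 0 < α → (∀ b, 0 ≤ W b) → 𝓡 ⊆ 𝓑 → (∀ i t, B i t ⊆ 𝓑) →
  (m : ℝ) ≤ m * n * α → m * n * α ≤ 3 * (m : ℝ) → ε = T / (10 ^ 4 * (m * n ^ 2)) →
  ∑ b ∈ 𝓑, W b ≤ Z * (T + ε) → ∑ b ∈ 𝓑 \ 𝓡, W b ≤ Z * (T / 10 ^ 8) →
  (∀ i t, Z * (α * T / 100 - ε) ≤ ∑ b ∈ B i t, W b ∧ ∑ b ∈ B i t, W b ≤ Z * (3 * α * T + ε)) →
  (∀ i t t', t ≠ t' → ∑ b ∈ B i t ∩ B i t', W b ≤ Z * (8 * α ^ 2 * T + ε)) →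
  Z * T / 10 ^ 7 ≤ ∑ b ∈ 𝓡.filter (fun b => (m : ℝ) / 10 ^ 6 ≤
    ((univ.filter (fun i : Fin m => ∃ t, b ∈ B i t)).card : ℝ)), W b

open Classical in
/-- at least m/10^6 of the m bins (blocks of n consecutive positions) contain an element of S -/
def Hits (m n : ℕ) (S : Finset (Fin (m * n))) : Prop :=
  (m : ℝ) / 10 ^ 6 ≤ ((univ.filter (fun i : Fin m => ∃ t : Fin n, finProdFinEquiv (i, t) ∈ S)).card : ℝ)

open Classical in
/-- many b with rough values and the condition Q on the set of the places with a prime -/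
def Mk (K : ℕ) (Q : Finset (Fin K) → Prop) : Prop := ∃ (κ c0 : ℝ) (w1 : ℕ) (X0 : ℝ), 0 < κ ∧ 0 < c0 ∧
  ∀ (X w V p0 : ℕ) (a c : Fin K → ℕ), X0 ≤ X → w1 < p0 → StC X w V p0 a c → (∀ l, BvC X p0 (a l) (c l)) →
  (∀ l, (c l).Coprime V ∧ ¬ p0 ∣ a l) → (∀ j, a j ≤ X ∧ 1 ≤ c j ∧ c j ≤ X) →
  c0 * (((V : ℝ) / V.totient) / Real.log X) ^ K * X ≤
    (((Icc 1 X).filter (fun b => (∀ j, Rgh ((X : ℝ) ^ κ) (a j * b + c j)) ∧
      Q (univ.filter (fun j : Fin K => (a j * b + c j).Prime)))).card : ℝ)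

/-- Module BkU (250 lines; count version of Maynard-Tao in bins). Uses: TnCStmt, BkC, MaCStmt, MbCStmt, MhCStmt, UpCStmt, PrCStmt, MgRStmt, MeU. Proof. Copy BE/R/CmR.lean (tCmR), BkC in the place of BiR: with 𝓡 = the b ∈ Icc 1 X with all values X^κ-rough, the weight of the b ∈ 𝓡 with m/10^6 hit bins is ≥ Z T/10^7, Z = X GG (V p0) X^(m n); b ∈ BpC X (a l) (c l) implies (a l b + c l).Prime. On 𝓡 the weight is ≤ C3 (log R)^(4 m n) (MeU), so the number is ≥ Z T/(10^7 C3 (log R)^(4 m n)).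
Finish as in MkU.lean: (V/φ V)/log X (log R)^4 ≤ GG (V p0) X (copy MkU_fin_step and hbase). -/
def BkUStmt : Prop := ∀ m : ℕ, 1 ≤ m → ∃ n : ℕ, 1 ≤ n ∧ Mk (m * n) (Hits m n)

open Classical in
/-- many windows -/
def Lw (K : ℕ) (Q : Finset (Fin K) → Prop) : Prop := ∃ κ c0 Y0 : ℝ, 0 < κ ∧ κ ≤ 1 / 5 ∧ 0 < c0 ∧
  ∀ (Y : ℕ) (h : Fin K → ℕ), Y0 ≤ Y → Function.Injective h →
  (∀ j, 1 ≤ h j ∧ (h j : ℝ) ≤ Real.log Y ∧ K.factorial ∣ h j) →
  c0 * (Y / Real.log Y ^ K) ≤ (((Icc 1 (2 * Y)).filter (fun N => (∀ j, Rgh ((Y : ℝ) ^ κ) (N + h j)) ∧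
    Q (univ.filter (fun j : Fin K => (N + h j).Prime)))).card : ℝ)

/-- Module LwQ (180 lines; port of LwU.lean). Uses: BfU, VhU, AlU. Proof. Copy tLwU with `Q (univ.filter (fun j => ..Prime))` in the place of `m + 1 ≤ (univ.filter (fun j => ..Prime)).card` (the proof only rewrites inside the filter; K and the constants come from Mk K Q). -/
def LwQStmt : Prop := ∀ (K : ℕ) (Q : Finset (Fin K) → Prop), 1 ≤ K → Mk K Q → Lw K Q

open Classical in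
/-- most windows contain no other primes -/
def Co (K : ℕ) (Q : Finset (Fin K) → Prop) : Prop := ∀ δ : ℝ, 0 < δ → ∃ η0 : ℝ, 0 < η0 ∧ ∀ η : ℝ, 0 < η → η ≤ η0 →
  ∃ c Y0 : ℝ, 0 < c ∧ ∀ (Y M : ℕ) (𝓗 : Finset (Fin K → ℕ)), Y0 ≤ Y → M = ⌊η * Real.log Y⌋₊ →
  (∀ h ∈ 𝓗, Function.Injective h ∧ ∀ j, 1 ≤ h j ∧ h j ≤ M ∧ K.factorial ∣ h j) →
  (∀ h ∈ 𝓗, ∀ h' ∈ 𝓗, univ.image h = univ.image h' → h = h') → δ * (M : ℝ) ^ K ≤ (𝓗.card : ℝ) →
  c * Y ≤ (((Icc 1 (2 * Y)).filter (fun N => ∃ h ∈ 𝓗, Q (univ.filter (fun j => (N + h j).Prime)) ∧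
    ∀ t, 1 ≤ t → t ≤ M → (N + t).Prime → ∃ j, h j = t)).card : ℝ)

/-- Module CoQ (200 lines; port of CoU.lean). Uses: UpU, SgU. Proof. Copy tCoU with `Q (univ.filter (fun j => ..Prime))` in the place of `m + 1 ≤ (univ.filter (fun j => ..Prime)).card`; LwU is replaced by the hypothesis Lw K Q. -/
def CoQStmt : Prop := ∀ (K : ℕ) (Q : Finset (Fin K) → Prop), 1 ≤ K → Lw K Q → Co K Q

/-- some gap in [k, l) has a larger rank than all gaps in [i, j) -/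
def Rk (ρ : ℕ → ℕ) (i j k l : ℕ) : Prop := ∃ y, k ≤ y ∧ y < l ∧ ∀ x, i ≤ x → x < j → ρ x < ρ y

/-- a family of tuples with the differences ordered by the rank function ρ of the gaps -/
def FamR (K M : ℕ) (δ C : ℝ) (ρ : ℕ → ℕ) (𝓗 : Finset (Fin K → ℕ)) : Prop :=
  δ * (M : ℝ) ^ K ≤ (𝓗.card : ℝ) ∧ ∀ h ∈ 𝓗, StrictMono h ∧ (∀ j, 1 ≤ h j ∧ h j ≤ M ∧ K.factorial ∣ h j) ∧
    ∀ i j k l : Fin K, i < j → k < l → Rk ρ i j k l → C * ((h j : ℝ) - h i) < (h l : ℝ) - h k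

/-- Module GeP (150 lines; geometry; compare GeU.lean). Uses: nothing. Proof. D = ⌈|C|⌉₊ (K + 1) + 3, A j = D + ∑_{x < j} D^(ρ x + 1), T = M / (K! (A K + 1)) (M large: T ≥ 1, T ≥ M/(2 K! (A K + 1))), h j = K! (T A j + t j), t : Fin K → range T (T^K tuples, injective in t), δ = (2 K! (A K + 1))^(-K). A (j+1) - A j ≥ D ≥ 2: strictly monotone; h j ≤ K! T (A K + 1) ≤ M.
With R = the maximum of ρ on [i, j) (nonempty): (h j - h i)/K! ≤ T ∑_{i ≤ x < j} D^(ρ x + 1) + T ≤ T (K D^(R+1) + 1) and, y from Rk, ρ y ≥ R + 1: (h l - h k)/K! ≥ T D^(ρ y + 1) - T ≥ T (D^(R+2) - 1); |C| (K D^(R+1) + 1) < D^(R+2) - 1. -/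
def GePStmt : Prop := ∀ (K : ℕ) (C : ℝ) (ρ : ℕ → ℕ), 1 ≤ K → ∃ (δ : ℝ) (M0 : ℕ), 0 < δ ∧ ∀ M : ℕ, M0 ≤ M →
  ∃ 𝓗, FamR K M δ C ρ 𝓗

/-- the number of bins in a group, and the number of groups -/
def gN : ℕ := 4000000

/-- Module RcP (120 lines; two rich groups). Uses: nothing. Proof. m = gN gN bins, the group of the position x is x / (gN n), the group of the bin i is i / gN (finProdFinEquiv (i, t) = t + n i, its group is i / gN). A group is rich if at least 3 of its bins are hit. If at most one group is rich, the number of the hit bins is ≤ 2 gN + gN (Finset.card_eq_sum_card_fiberwise), but it is ≥ gN gN/10^6 = 4 gN. Three hit bins i0 < i1 < i2 of a group give x0 < x1 < x2 in S. -/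
def RcPStmt : Prop := ∀ (n : ℕ) (S : Finset (Fin (gN * gN * n))), 1 ≤ n → Hits (gN * gN) n S →
  ∃ q1 q2 : ℕ, q1 < q2 ∧ q2 < gN ∧ (∀ q, q = q1 ∨ q = q2 → ∃ x0 x1 x2 : Fin (gN * gN * n), x0 ∈ S ∧ x1 ∈ S ∧ x2 ∈ S ∧
    x0 < x1 ∧ x1 < x2 ∧ gN * n * q ≤ x0 ∧ (x2 : ℕ) < gN * n * (q + 1))

/-- s 0, …, s 3 are consecutive elements of S -/
def Cons4 {K : ℕ} (S : Finset (Fin K)) (s : Fin 4 → Fin K) : Prop :=
  StrictMono s ∧ (∀ i, s i ∈ S) ∧ ∀ x ∈ S, s 0 < x → x < s 3 → x = s 1 ∨ x = s 2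

/-- two rich groups (the conclusion of RcP) with groups of W positions -/
def Rich {K : ℕ} (W q1 q2 : ℕ) (S : Finset (Fin K)) : Prop :=
  q1 < q2 ∧ ∀ q, q = q1 ∨ q = q2 → ∃ x0 x1 x2 : Fin K, x0 ∈ S ∧ x1 ∈ S ∧ x2 ∈ S ∧
    x0 < x1 ∧ x1 < x2 ∧ W * q ≤ x0 ∧ (x2 : ℕ) < W * (q + 1)

/-- Module WnL (120 lines; the window at the end of the first rich group). Uses: nothing. Proof. s1 .. : b = the largest element of S below W (q1 + 1), a, a' the two elements of S before b (all ≥ W q1, because the group contains three elements of S), b', b'' the two next elements of S (≥ W (q1 + 1); they exist because of the group q2 > q1). Use S.orderEmbOfFin, or repeatedly the maximum of the elements below / the minimum of the elements above. -/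
def WnLStmt : Prop := ∀ (K W q1 q2 : ℕ) (S : Finset (Fin K)), Rich W q1 q2 S →
  ∃ a' a b b' b'' : Fin K, a' < a ∧ a < b ∧ b < b' ∧ b' < b'' ∧ a' ∈ S ∧ a ∈ S ∧ b ∈ S ∧ b' ∈ S ∧ b'' ∈ S ∧
    (∀ x ∈ S, a' < x → x < b'' → x = a ∨ x = b ∨ x = b') ∧ W * q1 ≤ a' ∧ (b : ℕ) < W * (q1 + 1) ∧ W * (q1 + 1) ≤ b'

/-- Module WnF (120 lines; the window at the beginning of the second rich group, mirror image of WnL). Uses: nothing. Proof. y0 = the smallest element of S which is ≥ W q2, y1, y2 the next ones, z, z' the previous ones (z' < z < y0; z < W q2, they exist because of the group q1 < q2). -/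
def WnFStmt : Prop := ∀ (K W q1 q2 : ℕ) (S : Finset (Fin K)), Rich W q1 q2 S →
  ∃ z' z y0 y1 y2 : Fin K, z' < z ∧ z < y0 ∧ y0 < y1 ∧ y1 < y2 ∧ z' ∈ S ∧ z ∈ S ∧ y0 ∈ S ∧ y1 ∈ S ∧ y2 ∈ S ∧
    (∀ x ∈ S, z' < x → x < y2 → x = z ∨ x = y0 ∨ x = y1) ∧ (z : ℕ) < W * q2 ∧ W * q2 ≤ y0 ∧ (y2 : ℕ) < W * (q2 + 1)

/-- the pattern with the order (v 0, v 1, v 2) is forced (v k = the rank of the k-th gap: v k < v l means that the k-th gap is smaller than the l-th) -/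
def Forc (v : Fin 3 → ℕ) : Prop := ∀ (K W G : ℕ), 1 ≤ W → K = W * G → ∃ ρ : ℕ → ℕ, ∀ (q1 q2 : ℕ) (S : Finset (Fin K)),
  q2 < G → Rich W q1 q2 S → ∃ s : Fin 4 → Fin K, Cons4 S s ∧ ∀ i j : Fin 3, v i < v j →
    Rk ρ (s i.castSucc) (s i.succ) (s j.castSucc) (s j.succ)

/-- Module PaA (150 lines). Uses: WnL. Proof. Window a', a, b, b'. 213 (v = ![1, 0, 2]): ρ x = K + x / W if x % W = W - 1, W - 1 - x % W otherwise. For x in [a', b): x / W = q1, x % W < W - 1; ρ a' > ρ x for a' < x < b. The gap W (q1 + 1) - 1 in [b, b') has ρ ≥ K ≥ W > ρ x. 123: ρ x = x (the last gap of the later interval). 321: ρ x = K - x (the first gap of the earlier interval; ρ strictly decreasing on [0, K)). -/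
def PaAStmt : Prop := Forc ![1, 0, 2] ∧ Forc ![0, 1, 2] ∧ Forc ![2, 1, 0]

/-- Module PaB (80 lines). Uses: WnF. Proof. Window z, y0, y1, y2. ρ x = K + x / W if x % W = W - 1, x % W otherwise. The gap W q2 - 1 in [z, y0) has ρ ≥ K (q2 ≥ 1); the gap y2 - 1 has a larger ρ than all x in [y0, y1) (same group, x % W < W - 1). -/
def PaBStmt : Prop := Forc ![2, 0, 1]

/-- Module PaC (120 lines). Uses: WnL. Proof. Window a, b, b', b''. ρ x = K + G - x / W if x % W = W - 1, x / W otherwise. On [a, b): ρ = q1. The gap W (q1 + 1) - 1 in [b, b') has ρ = K + G - q1. Let q' = b' / W > q1. If b'' / W = q': on [b', b'') ρ = q' > q1, q' < G ≤ K + G - q1. Otherwise the gap W (q' + 1) - 1 in [b', b'') has ρ = K + G - q' > q1, and all x in [b', b'') have ρ x ≤ max (K + G - q') (x / W) < K + G - q1 (x / W < G ≤ K). -/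
def PaCStmt : Prop := Forc ![0, 2, 1]

/-- Module PaD (120 lines; mirror image of PaC). Uses: WnF. Proof. Window z', z, y0, y1. ρ x = K + 1 + x / W if x % W = W - 1, G - x / W otherwise. On [y0, y1): ρ = G - q2. The gap W q2 - 1 in [z, y0) has ρ = K + q2. Let q' = z / W < q2. If z' / W = q': on [z', z) ρ = G - q' > G - q2, ≤ G < K + q2. Otherwise the gap W q' - 1 in [z', z) has ρ = K + q' > G - q2, and all x in [z', z) have ρ x ≤ max (K + q') G < K + q2 (x % W = W - 1 and x < z give x / W < q'). -/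
def PaDStmt : Prop := Forc ![1, 2, 0]

/-- Module WiP (130 lines; one window; compare WiU.lean). Uses: nothing. Proof. n = the number of the primes < N + h (s 0) = Nat.count Nat.Prime (N + h (s 0)): Nat.nth Nat.Prime n = N + h (s 0) (Nat.nth_count). A prime p with N + h (s 0) < p < N + h (s 3) is N + t with t ≤ M, so t = h j, j ∈ S, s 0 < j < s 3, j = s 1 or s 2. So p_(n+i) = N + h (s i), i ≤ 3. -/
def WiPStmt : Prop := ∀ (K M N : ℕ) (h : Fin K → ℕ) (s : Fin 4 → Fin K), StrictMono h → (∀ j, 1 ≤ h j ∧ h j ≤ M) →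
  (∀ t, 1 ≤ t → t ≤ M → (N + t).Prime → ∃ j, h j = t) →
  Cons4 (univ.filter (fun j : Fin K => (N + h j).Prime)) s →
  ∃ n : ℕ, N < Nat.nth Nat.Prime n ∧ Nat.nth Nat.Prime n ≤ N + M ∧
    (∀ i : Fin 3, (gp (n + i) : ℝ) = (h (s i.succ) : ℝ) - h (s i.castSucc)) ∧ gp n + gp (n + 1) + gp (n + 2) ≤ M

open Classical in
/-- the n < N for which the gaps n, n + 1, n + 2 have the order v, with ratios > C, and length at most ε log N -/
noncomputable def ord3 (N : ℕ) (C ε : ℝ) (v : Fin 3 → ℕ) : Finset ℕ :=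
  (range N).filter (fun n => (∀ i j : Fin 3, v i < v j → C * gp (n + i) < gp (n + j)) ∧
    ((gp n + gp (n + 1) + gp (n + 2) : ℕ) : ℝ) ≤ ε * Real.log N)

/-- Module FrP (170 lines; from windows to indices; compare FrU.lean). Uses: WiP. Proof. η = min (η0) (ε/4) (and ≤ 1), η0 from Co for δ; c, Y0 from Co. N large: Y = ⌊c1 N log N⌋ as in tFrU, M = ⌊η log Y⌋ ≤ ε log N, M ≥ M0, M ≥ 1, family 𝓗 from the hypothesis (strictly monotone tuples with the same image are equal). For a window N' of Co with h: Q(S) gives s with Cons4 and Rk; WiP gives n with p_n in (N', N' + M], p_n ≤ 2Y + M, and gp (n + i) = h (s (i+1)) - h (s i), so C gp (n+i) < gp (n+j) for v i < v j.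
n < N as in tFrU (use π(2Y + M) < N or discard; the index of a prime ≤ 2Y + M ≤ 3Y; choose c1 so that π(3Y) < N). Each n belongs to at most M windows. -/
def FrPStmt : Prop := ∀ (K : ℕ) (Q : Finset (Fin K) → Prop) (v : Fin 3 → ℕ) (ρ : ℕ → ℕ) (C ε : ℝ), 1 ≤ K → 0 < ε →
  Co K Q → (∃ (δ : ℝ) (M0 : ℕ), 0 < δ ∧ ∀ M : ℕ, M0 ≤ M → ∃ 𝓗, FamR K M δ C ρ 𝓗) →
  (∀ S, Q S → ∃ s : Fin 4 → Fin K, Cons4 S s ∧ ∀ i j : Fin 3, v i < v j →
    Rk ρ (s i.castSucc) (s i.succ) (s j.castSucc) (s j.succ)) →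
  ∃ c : ℝ, 0 < c ∧ ∃ N0 : ℕ, ∀ N : ℕ, N0 ≤ N → c * N ≤ ((ord3 N C ε v).card : ℝ)

/-- THEOREM SO -/
def SoStmt : Prop := ∀ (σ : Equiv.Perm (Fin 3)) (C ε : ℝ), 0 < ε → ∃ c : ℝ, 0 < c ∧ ∃ N0 : ℕ, ∀ N : ℕ, N0 ≤ N →
  c * N ≤ ((ord3 N C ε (fun i => (σ i : ℕ))).card : ℝ)

/-- Module SoU (80 lines; assembly). Uses: BkU, LwQ, CoQ, GeP, RcP, PaA, PaB, PaC, PaD, FrP. Proof. Every σ has the values of one of the six vectors (fin_cases or decide). m = gN gN, n from BkU, K = m n = (gN n) gN; W = gN n, G = gN; Q = Hits m n; Mk → Lw → Co. ρ from Forc, GeP for ρ and C; Hits → Rich (RcP) → s. -/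
def SoUStmt : Prop := SoStmt

end Pool.Agent.Lib.RU
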