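import Pool.Agent.Lib.RU.Spec

/-!
PROJECT RU, part V (helper82): the final form, ISOLATED monotone clusters. Same rules as RU/Spec.lean; first line `import
Pool.Agent.Lib.RU.SpecV`.
-/

set_option autoImplicit false

namespace Pool.Agent.Lib.RU

open Finset

/-- a family of tuples in [1, M] with the relation Rel between consecutive differences, far from 0 and from M in comparison with the diameter of the tuple -/
def FamI (K M : ℕ) (δ C : ℝ) (Rel : ℝ → ℝ → Prop) (𝓗 : Finset (Fin K → ℕ)) : Prop :=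
  δ * (M : ℝ) ^ K ≤ (𝓗.card : ℝ) ∧ ∀ h ∈ 𝓗, StrictMono h ∧ (∀ j, 1 ≤ h j ∧ h j ≤ M ∧ K.factorial ∣ h j) ∧
    (∀ i j k, i < j → j < k → Rel ((h j : ℝ) - h i) ((h k : ℝ) - h j)) ∧
    ∀ i j k, C * ((h j : ℝ) - h i) < h k ∧ C * ((h j : ℝ) - h i) < M - h k

/-- Module GeV (130 lines; geometry; as GeU). Uses: nothing. Proof. D = ⌈|C|⌉ + 3, A = ⌈|C|⌉ + 1, T = M / ((2 A + 1) 2 K! D^K) (M large: T ≥ 1, T ≥ M/(2 (2 A + 1) 2 K! D^K)), W = 2 K! D^K T, so (2 A + 1) W ≤ M. First family: h j = A W + K! (D^(j+1) T + t j), t : Fin K → range T (T^K tuples, injective in t); ratios as in GeU; A W < h j < (A + 1) W, differences < W in absolute value, so C (h j - h i) ≤ |C| W < A W ≤ h k and ≤ M - h k.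
Second family: the mirror images (2 A + 1) W - h (K-1-j). δ = (2 (2 A + 1) 2 K! D^K)^(-K). -/
def GeVStmt : Prop := ∀ (K : ℕ) (C : ℝ), 1 ≤ K → ∃ (δ : ℝ) (M0 : ℕ), 0 < δ ∧ ∀ M : ℕ, M0 ≤ M →
  (∃ 𝓗, FamI K M δ C (fun x y => C * x < y) 𝓗) ∧ ∃ 𝓗, FamI K M δ C (fun x y => C * y < x) 𝓗

/-- Module WiV (130 lines; one window; as WiU). Uses: nothing. Proof. N ≥ 2: n + 1 = Nat.primeCounting N = the number of the primes ≤ N; p_n ≤ N < p_(n+1) (p = Nat.nth Nat.Prime). Let s + 1 ≥ m + 1 be the number of the primes in (N, N + M]; all of them are N + h j: p_(n+1+i) = N + h (j_i), 0 ≤ i ≤ s, j_0 < … < j_s (h strictly monotone), p_(n+s+2) > N + M. gp (n+1+i) = h (j_(i+1)) - h (j_i) for i < s; the sum of these is Σ = h (j_s) - h (j_0) ≤ M.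
gp n = p_(n+1) - p_n ≥ h (j_0) > C Σ, gp (n+s+1) = p_(n+s+2) - p_(n+s+1) > M - h (j_s) > C Σ. -/
def WiVStmt : Prop := ∀ (K M N m : ℕ) (C : ℝ) (Rel : ℝ → ℝ → Prop) (h : Fin K → ℕ), 2 ≤ N → StrictMono h →
  (∀ j, 1 ≤ h j ∧ h j ≤ M) → (∀ i j k, i < j → j < k → Rel ((h j : ℝ) - h i) ((h k : ℝ) - h j)) →
  (∀ i j k, C * ((h j : ℝ) - h i) < h k ∧ C * ((h j : ℝ) - h i) < M - h k) →
  m + 1 ≤ (univ.filter (fun j => (N + h j).Prime)).card →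
  (∀ t, 1 ≤ t → t ≤ M → (N + t).Prime → ∃ j, h j = t) →
  ∃ s n : ℕ, m ≤ s ∧ n + 1 = Nat.primeCounting N ∧ N < Nat.nth Nat.Prime (n + 1) ∧
    Nat.nth Nat.Prime (n + 1) ≤ N + M ∧ (∀ i, 1 ≤ i → i < s → Rel (gp (n + i)) (gp (n + i + 1))) ∧
    ∑ i ∈ range s, gp (n + 1 + i) ≤ M ∧
    C * ((∑ i ∈ range s, gp (n + 1 + i) : ℕ) : ℝ) < gp n ∧
    C * ((∑ i ∈ range s, gp (n + 1 + i) : ℕ) : ℝ) < gp (n + s + 1)

open Classical in
/-- the n < N such that for some s ≥ r the gaps n+1, …, n+s form an isolated cluster of length at most ε log N with the relation Rel between consecutive gaps -/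
noncomputable def clus (r N : ℕ) (C ε : ℝ) (Rel : ℝ → ℝ → Prop) : Finset ℕ :=
  (range N).filter (fun n => ∃ s, r ≤ s ∧ (∀ i, 1 ≤ i → i < s → Rel (gp (n + i)) (gp (n + i + 1))) ∧
    ((∑ i ∈ range s, gp (n + 1 + i) : ℕ) : ℝ) ≤ ε * Real.log N ∧
    C * ((∑ i ∈ range s, gp (n + 1 + i) : ℕ) : ℝ) < gp n ∧
    C * ((∑ i ∈ range s, gp (n + 1 + i) : ℕ) : ℝ) < gp (n + s + 1))

/-- Module FrV (150 lines; as FrU). Uses: CoU, WiV. Proof. As FrU with K from CoU for m = r, the index n = primeCounting N' - 1 for the window N' (N' ≥ 2 by discarding two windows; p_(n+1) is the first prime > N', so N' ∈ [p_(n+1) - M, p_(n+1)): at most M windows for each n). -/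
def FrVStmt : Prop := ∀ r : ℕ, ∃ K : ℕ, 1 ≤ K ∧ ∀ (δ : ℝ) (M0 : ℕ) (C : ℝ) (Rel : ℝ → ℝ → Prop) (ε : ℝ), 0 < δ →
  0 < ε → (∀ M : ℕ, M0 ≤ M → ∃ 𝓗, FamI K M δ C Rel 𝓗) →
  ∃ c : ℝ, 0 < c ∧ ∃ N0 : ℕ, ∀ N : ℕ, N0 ≤ N → c * N ≤ ((clus r N C ε Rel).card : ℝ)

/-- THEOREM RU, final form -/
def RvStmt : Prop := ∀ (r : ℕ) (C ε : ℝ), 0 < ε → ∃ c : ℝ, 0 < c ∧ ∃ N0 : ℕ, ∀ N : ℕ, N0 ≤ N →
  c * N ≤ ((clus r N C ε (fun x y => C * x < y)).card : ℝ) ∧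
  c * N ≤ ((clus r N C ε (fun x y => C * y < x)).card : ℝ)

/-- Module RuV (helper82). Uses: FrV, GeV. -/
def RuVStmt : Prop := RvStmt

end Pool.Agent.Lib.RU
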