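import Pool.Agent.Lib.RU.SpecQ

/-!
PROJECT SO, part W (helper7): four consecutive gaps, all eight words of three comparisons. Same rules as RU/SpecQ.lean;
first line `import Pool.Agent.Lib.RU.SpecW`. Every module is the variant with one more element of a landed (or nearly
landed) module of part Q: start from that file.
-/

set_option autoImplicit false

namespace Pool.Agent.Lib.RU

open Finset

/-- the number of bins in a group, and the number of groups -/
def gM : ℕ := 5000000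

/-- Module RcW (120 lines; variant of RcP). Uses: nothing. Proof. As RcP with groups of gM bins, rich = at least 4 bins are hit. If at most one group is rich, the number of the hit bins is ≤ 3 gM + gM, but it is ≥ gM gM/10^6 = 5 gM. -/
def RcWStmt : Prop := ∀ (n : ℕ) (S : Finset (Fin (gM * gM * n))), 1 ≤ n → Hits (gM * gM) n S →
  ∃ q1 q2 : ℕ, q1 < q2 ∧ q2 < gM ∧ (∀ q, q = q1 ∨ q = q2 → ∃ x0 x1 x2 x3 : Fin (gM * gM * n),
    x0 ∈ S ∧ x1 ∈ S ∧ x2 ∈ S ∧ x3 ∈ S ∧ x0 < x1 ∧ x1 < x2 ∧ x2 < x3 ∧ gM * n * q ≤ x0 ∧ (x3 : ℕ) < gM * n * (q + 1))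

/-- s 0, …, s 4 are consecutive elements of S -/
def Cons5 {K : ℕ} (S : Finset (Fin K)) (s : Fin 5 → Fin K) : Prop :=
  StrictMono s ∧ (∀ i, s i ∈ S) ∧ ∀ x ∈ S, s 0 < x → x < s 4 → x = s 1 ∨ x = s 2 ∨ x = s 3

/-- two rich groups with groups of W positions, four elements -/
def RichW {K : ℕ} (W q1 q2 : ℕ) (S : Finset (Fin K)) : Prop :=
  q1 < q2 ∧ ∀ q, q = q1 ∨ q = q2 → ∃ x0 x1 x2 x3 : Fin K, x0 ∈ S ∧ x1 ∈ S ∧ x2 ∈ S ∧ x3 ∈ S ∧
    x0 < x1 ∧ x1 < x2 ∧ x2 < x3 ∧ W * q ≤ x0 ∧ (x3 : ℕ) < W * (q + 1)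

/-- Module WnM (120 lines; variant of WnL: the window at the end of the first rich group). Uses: nothing. Proof. b = the largest element of S below W (q1 + 1), c'' < a' < a the three elements of S before b (all ≥ W q1, because the group contains four elements of S), b', b'' the two next elements of S. -/
def WnMStmt : Prop := ∀ (K W q1 q2 : ℕ) (S : Finset (Fin K)), RichW W q1 q2 S →
  ∃ c a' a b b' b'' : Fin K, c < a' ∧ a' < a ∧ a < b ∧ b < b' ∧ b' < b'' ∧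
    c ∈ S ∧ a' ∈ S ∧ a ∈ S ∧ b ∈ S ∧ b' ∈ S ∧ b'' ∈ S ∧
    (∀ x ∈ S, c < x → x < b'' → x = a' ∨ x = a ∨ x = b ∨ x = b') ∧
    W * q1 ≤ c ∧ (b : ℕ) < W * (q1 + 1) ∧ W * (q1 + 1) ≤ b'

/-- Module WnG (120 lines; variant of WnF: the window at the beginning of the second rich group). Uses: nothing. -/
def WnGStmt : Prop := ∀ (K W q1 q2 : ℕ) (S : Finset (Fin K)), RichW W q1 q2 S →
  ∃ z' z y0 y1 y2 y3 : Fin K, z' < z ∧ z < y0 ∧ y0 < y1 ∧ y1 < y2 ∧ y2 < y3 ∧
    z' ∈ S ∧ z ∈ S ∧ y0 ∈ S ∧ y1 ∈ S ∧ y2 ∈ S ∧ y3 ∈ S ∧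
    (∀ x ∈ S, z' < x → x < y3 → x = z ∨ x = y0 ∨ x = y1 ∨ x = y2) ∧
    (z : ℕ) < W * q2 ∧ W * q2 ≤ y0 ∧ (y3 : ℕ) < W * (q2 + 1)

/-- the order v of four consecutive gaps is forced -/
def ForcW (v : Fin 4 → ℕ) : Prop := ∀ (K W G : ℕ), 1 ≤ W → K = W * G → ∃ ρ : ℕ → ℕ, ∀ (q1 q2 : ℕ) (S : Finset (Fin K)),
  q2 < G → RichW W q1 q2 S → ∃ s : Fin 5 → Fin K, Cons5 S s ∧ ∀ i j : Fin 4, v i < v j →
    Rk ρ (s i.castSucc) (s i.succ) (s j.castSucc) (s j.succ)

/-- Module PbA (150 lines; variant of PaA). Uses: WnM. Proof. Window c, a', a, b, b'. 3214: ρ x = K + x / W if x % W = W - 1, W - 1 - x % W otherwise. 1234: ρ x = x. 4321: ρ x = K - x. -/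
def PbAStmt : Prop := ForcW ![2, 1, 0, 3] ∧ ForcW ![0, 1, 2, 3] ∧ ForcW ![3, 2, 1, 0]

/-- Module PbB (80 lines; variant of PaB). Uses: WnG. Proof. Window z, y0, y1, y2, y3. 4123: ρ x = K + x / W if x % W = W - 1, x % W otherwise. -/
def PbBStmt : Prop := ForcW ![3, 0, 1, 2]

/-- Module PbC (150 lines; variant of PaC). Uses: WnM. Proof. Window a', a, b, b', b''. The same ρ on the gaps with x % W = W - 1: K + G - x / W. 1243: ρ x = x otherwise (the gap b - 1 is larger than all gaps of [a', a), the gap of a group q' > q1 is larger than those of q1). 2143: ρ x = W (x / W) + (W - 1 - x % W) otherwise (values in [W q, W q + W - 1] for the group q; the gap a' is larger than all gaps of [a, b); b' is larger than both if b'' is in the group q' of b').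
In both cases: if b'' is in a later group than b', the gap W (q' + 1) - 1 in [b', b'') has ρ = K + G - q' > K and all x in [b', b'') have ρ x ≤ K + G - q' < K + G - q1 = ρ (W (q1 + 1) - 1). -/
def PbCStmt : Prop := ForcW ![0, 1, 3, 2] ∧ ForcW ![1, 0, 3, 2]

/-- Module PbD (150 lines; variant of PaD, mirror images of PbC). Uses: WnG. Proof. Window z', z, y0, y1, y2. On the gaps with x % W = W - 1: ρ x = K + W + 1 + x / W. 3421: ρ x = K - x otherwise. 3412: ρ x = W (G - x / W) + x % W otherwise (values in [W (G - q), W (G - q) + W - 1] for the group q, at most K + W - 1). Let q' = z / W < q2. If z' / W = q' the gap z' has a larger ρ than all gaps of [y0, y2); otherwise the gap W q' - 1 in [z', z) has. The gap W q2 - 1 in [z, y0) has ρ = K + W + q2, larger than all ρ on [z', z) (≤ K + W + q'). -/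
def PbDStmt : Prop := ForcW ![2, 3, 1, 0] ∧ ForcW ![2, 3, 0, 1]

/-- Module WiW (130 lines; variant of WiP). Uses: nothing. -/
def WiWStmt : Prop := ∀ (K M N : ℕ) (h : Fin K → ℕ) (s : Fin 5 → Fin K), StrictMono h → (∀ j, 1 ≤ h j ∧ h j ≤ M) →
  (∀ t, 1 ≤ t → t ≤ M → (N + t).Prime → ∃ j, h j = t) →
  Cons5 (univ.filter (fun j : Fin K => (N + h j).Prime)) s →
  ∃ n : ℕ, N < Nat.nth Nat.Prime n ∧ Nat.nth Nat.Prime n ≤ N + M ∧
    (∀ i : Fin 4, (gp (n + i) : ℝ) = (h (s i.succ) : ℝ) - h (s i.castSucc)) ∧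
    gp n + gp (n + 1) + gp (n + 2) + gp (n + 3) ≤ M

open Classical in
/-- the n < N for which the gaps n, …, n + 3 have the order v, with ratios > C, and length at most ε log N -/
noncomputable def ord4 (N : ℕ) (C ε : ℝ) (v : Fin 4 → ℕ) : Finset ℕ :=
  (range N).filter (fun n => (∀ i j : Fin 4, v i < v j → C * gp (n + i) < gp (n + j)) ∧
    ((gp n + gp (n + 1) + gp (n + 2) + gp (n + 3) : ℕ) : ℝ) ≤ ε * Real.log N)

/-- Module FrW (170 lines; variant of FrP). Uses: WiW. -/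
def FrWStmt : Prop := ∀ (K : ℕ) (Q : Finset (Fin K) → Prop) (v : Fin 4 → ℕ) (ρ : ℕ → ℕ) (C ε : ℝ), 1 ≤ K → 0 < ε →
  Co K Q → (∃ (δ : ℝ) (M0 : ℕ), 0 < δ ∧ ∀ M : ℕ, M0 ≤ M → ∃ 𝓗, FamR K M δ C ρ 𝓗) →
  (∀ S, Q S → ∃ s : Fin 5 → Fin K, Cons5 S s ∧ ∀ i j : Fin 4, v i < v j →
    Rk ρ (s i.castSucc) (s i.succ) (s j.castSucc) (s j.succ)) →
  ∃ c : ℝ, 0 < c ∧ ∃ N0 : ℕ, ∀ N : ℕ, N0 ≤ N → c * N ≤ ((ord4 N C ε v).card : ℝ)

open Classical in
/-- the n < N with the word w of three comparisons: C gp (n+i) < gp (n+i+1) if w i, C gp (n+i+1) < gp (n+i) otherwise -/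
noncomputable def word3 (N : ℕ) (C ε : ℝ) (w : Fin 3 → Bool) : Finset ℕ :=
  (range N).filter (fun n => (∀ i : Fin 3, (w i = true → C * gp (n + i) < gp (n + i + 1)) ∧
    (w i = false → C * gp (n + i + 1) < gp (n + i))) ∧
    ((gp n + gp (n + 1) + gp (n + 2) + gp (n + 3) : ℕ) : ℝ) ≤ ε * Real.log N)

/-- THEOREM SW: all eight words of three comparisons -/
def SwStmt : Prop := ∀ (w : Fin 3 → Bool) (C ε : ℝ), 0 < ε → ∃ c : ℝ, 0 < c ∧ ∃ N0 : ℕ, ∀ N : ℕ, N0 ≤ N →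
  c * N ≤ ((word3 N C ε w).card : ℝ)

/-- Module SoW (120 lines; assembly, variant of SoU). Uses: BkU, LwQ, CoQ, GeP, RcW, PbA, PbB, PbC, PbD, FrW. Proof. The eight orders 1234, 4321, 3214, 4123, 1243, 2143, 3421, 3412 have the eight words UUU, DDD, DDU, DUU, UUD, DUD, UDD, UDU (U = the next gap is larger, D = the next gap is smaller): for each w : Fin 3 → Bool choose v; ord4 N C ε v ⊆ word3 N C ε w (i = k, j = k + 1 in Fin 4). m = gM gM, n from BkU, K = m n, W = gM n, G = gM as in SoU. -/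
def SoWStmt : Prop := SwStmt

end Pool.Agent.Lib.RU
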