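import Pool.Agent.Lib.RU.SpecW

/-!
PROJECT TO (note 5541, helper82, with helper7): the four orders 1423, 1432, 3241, 2341 missing in part W, and the final form
TwelveOrders. Same rules as RU/SpecQ.lean; first line `import Pool.Agent.Lib.RU.SpecX`.
-/

set_option autoImplicit false

namespace Pool.Agent.Lib.RU

open Finset

/-- Module PbE (170 lines; compare PbD). Uses: WnG. Proof. THE INTERLEAVED GEOMETRY: the inside of a group is smaller than the boundary before it and larger than everything earlier. Window z', z, y0, y1, y2 (s = ![z', z, y0, y1, y2]). 1423 (v = ![0, 3, 1, 2]): ρ x = (W+1) (x/W + 1) + W if x % W = W - 1, (W+1) (x/W) + x % W otherwise. Gaps x in [y0, y2) lie inside the group q2 (x / W = q2, x % W < W - 1, because x < y2 < y3 < W (q2+1)): (W+1) q2 ≤ ρ x ≤ (W+1) q2 + W - 2, and the gap y2 - 1 has a larger ρ than all of [y0, y1).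
The gap W q2 - 1 in [z, y0) (z < W q2 ≤ y0, q2 ≥ 1; its group is q2 - 1) has ρ = (W+1) q2 + W. Gaps x in [z', z): x + 1 ≤ z < W q2, so x / W ≤ q2 - 1, and if x % W = W - 1 then x / W ≤ q2 - 2: ρ x < (W+1) q2 in both cases. 1432 (v = ![0, 3, 2, 1]): inside (W+1) (x/W) + (W - 1 - x % W); the gap y0 has a larger ρ than all of [y1, y2). Witnesses for [z', z) < others: y0, y1, W q2 - 1. W ≥ 4 because a group has four elements. -/
def PbEStmt : Prop := ForcW ![0, 3, 1, 2] ∧ ForcW ![0, 3, 2, 1]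

/-- Module PbF (170 lines; mirror image of PbE; compare PbC). Uses: WnM. Proof. Window a', a, b, b', b'' (s = ![a', a, b, b', b'']). The inside of a group is smaller than the boundary after it and larger than everything later: boundary ρ x = (W+1) (G - x/W) + W if x % W = W - 1; 2341 (v = ![1, 2, 3, 0]): inside (W+1) (G - x/W) + x % W; 3241 (v = ![2, 1, 3, 0]): inside (W+1) (G - x/W) + (W - 1 - x % W).
Gaps in [a', b) lie inside the group q1 (W q1 ≤ c < a', x < b < W (q1 + 1)); the gap b - 1 beats [a', a) (2341), the gap a' beats [a, b) (3241); all have ρ ≥ (W+1) (G - q1). The gap W (q1 + 1) - 1 in [b, b') has ρ = (W+1) (G - q1) + W. Gaps x in [b', b''): x / W ≥ q1 + 1, x / W < G (x < K), so ρ x ≤ (W+1) (G - q1 - 1) + W < (W+1) (G - q1). -/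
def PbFStmt : Prop := ForcW ![1, 2, 3, 0] ∧ ForcW ![2, 1, 3, 0]

/-- THEOREM TO for one order -/
def Ord4 (v : Fin 4 → ℕ) : Prop := ∀ (C ε : ℝ), 0 < ε → ∃ c : ℝ, 0 < c ∧ ∃ N0 : ℕ, ∀ N : ℕ, N0 ≤ N →
  c * N ≤ ((ord4 N C ε v).card : ℝ)

/-- Module ToX (80 lines; assembly for one order; adapt SoU.lean). Uses: BkU, LwQ, CoQ, GeP, RcW, FrW. -/
def ToXStmt : Prop := ∀ v : Fin 4 → ℕ, ForcW v → Ord4 v

end Pool.Agent.Lib.RU
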