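import Pool.Agent.Lib.RU.SpecW

/-!
PROJECT SO, module WiW: one window, five consecutive primes.
-/

set_option autoImplicit false

namespace Pool.Agent.Lib.RU

open Finset
open Pool.Agent.Lib.MP_9f2731_nt.GP Pool.Agent.Lib.MP_9f2731_nt.GP.Sv Pool.Agent.Lib.MP_9f2731_nt.QL
  Pool.Agent.Lib.MP_9f2731_nt.QL.Sw Pool.Agent.Lib.MP_9f2731_nt.CG Pool.Agent.Lib.MP_9f2731_nt.CG.Ma
  Pool.Agent.Lib.MP_9f2731_nt.CG.Mf Pool.Agent.Lib.BE

/-- the index of the next prime -/
private theorem WiW_next (a b : ℕ) (ha : a.Prime) (hab : a < b)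
    (hno : ∀ c, a < c → c < b → ¬ c.Prime) :
    Nat.count Nat.Prime b = Nat.count Nat.Prime a + 1 := by
  have h1 : Nat.count Nat.Prime (a + 1) = Nat.count Nat.Prime a + 1 := by
    rw [Nat.count_succ, if_pos ha]
  have h2 : ∀ d, a + 1 + d ≤ b → Nat.count Nat.Prime (a + 1 + d) = Nat.count Nat.Prime a + 1 := by
    intro d
    induction d with
    | zero =>
      intro _
      exact h1
    | succ d ih =>
      intro hd
      have h3 := ih (by omega)
      have h4 : a + 1 + (d + 1) = a + 1 + d + 1 := by omega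
      rw [h4, Nat.count_succ, if_neg (hno (a + 1 + d) (by omega) (by omega)), h3]
  have h5 := h2 (b - (a + 1)) (by omega)
  have h6 : a + 1 + (b - (a + 1)) = b := by omega
  rw [h6] at h5
  exact h5

theorem tWiW : WiWStmt := by
  intro K M N h s hh h1 h2 hC
  obtain ⟨hs, hS, hcons⟩ := hC
  have hp : ∀ i : Fin 5, (N + h (s i)).Prime := fun i => (Finset.mem_filter.1 (hS i)).2
  have hno : ∀ i : Fin 4, ∀ c, N + h (s i.castSucc) < c → c < N + h (s i.succ) →
      ¬ c.Prime := by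
    intro i c hc1 hc2 hcp
    have h3 := (h1 (s i.succ)).2
    obtain ⟨j, hj⟩ := h2 (c - N) (by omega) (by omega) (by
      have e : N + (c - N) = c := by omega
      rw [e]
      exact hcp)
    have hjN : N + h j = c := by omega
    have hj1 : s i.castSucc < j := hh.lt_iff_lt.1 (by omega)
    have hj2 : j < s i.succ := hh.lt_iff_lt.1 (by omega)
    have hjS : j ∈ univ.filter (fun j : Fin K => (N + h j).Prime) := by
      rw [Finset.mem_filter]
      refine ⟨Finset.mem_univ _, ?_⟩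
      rw [hjN]
      exact hcp
    have h0 : s 0 ≤ s i.castSucc := hs.monotone (Fin.zero_le _)
    have h3' : s i.succ ≤ s 4 := hs.monotone (Fin.le_last _)
    have hi := i.2
    rcases hcons j hjS (lt_of_le_of_lt h0 hj1) (lt_of_lt_of_le hj2 h3') with e | e | e
    · rw [e] at hj1 hj2
      have a1 := Fin.lt_def.1 (hs.lt_iff_lt.1 hj1)
      have a2 := Fin.lt_def.1 (hs.lt_iff_lt.1 hj2)
      have e1 : ((i.castSucc : Fin 5) : ℕ) = i := rfl
      have e2 : ((i.succ : Fin 5) : ℕ) = i + 1 := rfl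
      have e3 : ((1 : Fin 5) : ℕ) = 1 := rfl
      omega
    · rw [e] at hj1 hj2
      have a1 := Fin.lt_def.1 (hs.lt_iff_lt.1 hj1)
      have a2 := Fin.lt_def.1 (hs.lt_iff_lt.1 hj2)
      have e1 : ((i.castSucc : Fin 5) : ℕ) = i := rfl
      have e2 : ((i.succ : Fin 5) : ℕ) = i + 1 := rfl
      have e3 : ((2 : Fin 5) : ℕ) = 2 := rfl
      omega
    · rw [e] at hj1 hj2
      have a1 := Fin.lt_def.1 (hs.lt_iff_lt.1 hj1)
      have a2 := Fin.lt_def.1 (hs.lt_iff_lt.1 hj2)
      have e1 : ((i.castSucc : Fin 5) : ℕ) = i := rfl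
      have e2 : ((i.succ : Fin 5) : ℕ) = i + 1 := rfl
      have e3 : ((3 : Fin 5) : ℕ) = 3 := rfl
      omega
  have hlt : ∀ i : Fin 4, N + h (s i.castSucc) < N + h (s i.succ) := by
    intro i
    have h3 := hh (hs (Fin.castSucc_lt_succ (i := i)))
    omega
  have key : ∀ i : Fin 4, Nat.count Nat.Prime (N + h (s i.succ)) =
      Nat.count Nat.Prime (N + h (s i.castSucc)) + 1 := fun i =>
    WiW_next _ _ (hp _) (hlt i) (hno i)
  have k0 : Nat.count Nat.Prime (N + h (s 1)) = Nat.count Nat.Prime (N + h (s 0)) + 1 := key 0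
  have k1 : Nat.count Nat.Prime (N + h (s 2)) = Nat.count Nat.Prime (N + h (s 1)) + 1 := key 1
  have k2 : Nat.count Nat.Prime (N + h (s 3)) = Nat.count Nat.Prime (N + h (s 2)) + 1 := key 2
  have k3 : Nat.count Nat.Prime (N + h (s 4)) = Nat.count Nat.Prime (N + h (s 3)) + 1 := key 3
  obtain ⟨n, hn⟩ : ∃ n, n = Nat.count Nat.Prime (N + h (s 0)) := ⟨_, rfl⟩
  have g0 : Nat.nth Nat.Prime n = N + h (s 0) := by
    rw [hn]
    exact Nat.nth_count (hp 0)
  have g1 : Nat.nth Nat.Prime (n + 1) = N + h (s 1) := by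
    rw [hn, ← k0]
    exact Nat.nth_count (hp 1)
  have g2 : Nat.nth Nat.Prime (n + 2) = N + h (s 2) := by
    have e : n + 2 = Nat.count Nat.Prime (N + h (s 2)) := by omega
    rw [e]
    exact Nat.nth_count (hp 2)
  have g3 : Nat.nth Nat.Prime (n + 3) = N + h (s 3) := by
    have e : n + 3 = Nat.count Nat.Prime (N + h (s 3)) := by omega
    rw [e]
    exact Nat.nth_count (hp 3)
  have g4 : Nat.nth Nat.Prime (n + 4) = N + h (s 4) := by
    have e : n + 4 = Nat.count Nat.Prime (N + h (s 4)) := by omega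
    rw [e]
    exact Nat.nth_count (hp 4)
  have l0 : h (s 0) < h (s 1) := by
    have := hlt 0
    have e : N + h (s 0) < N + h (s 1) := this
    omega
  have l1 : h (s 1) < h (s 2) := by
    have := hlt 1
    have e : N + h (s 1) < N + h (s 2) := this
    omega
  have l2 : h (s 2) < h (s 3) := by
    have := hlt 2
    have e : N + h (s 2) < N + h (s 3) := this
    omega
  have l3 : h (s 3) < h (s 4) := by
    have := hlt 3
    have e : N + h (s 3) < N + h (s 4) := this
    omega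
  have p0 : gp n = h (s 1) - h (s 0) := by
    unfold gp
    rw [g0, g1]
    omega
  have p1 : gp (n + 1) = h (s 2) - h (s 1) := by
    unfold gp
    rw [show n + 1 + 1 = n + 2 from rfl, g1, g2]
    omega
  have p2 : gp (n + 2) = h (s 3) - h (s 2) := by
    unfold gp
    rw [show n + 2 + 1 = n + 3 from rfl, g2, g3]
    omega
  have p3 : gp (n + 3) = h (s 4) - h (s 3) := by
    unfold gp
    rw [show n + 3 + 1 = n + 4 from rfl, g3, g4]
    omega
  have b0 := h1 (s 0)
  have b4 := h1 (s 4)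
  refine ⟨n, by omega, by omega, ?_, by omega⟩
  intro i
  match i with
  | 0 =>
    show ((gp n : ℕ) : ℝ) = (h (s 1) : ℝ) - h (s 0)
    rw [p0, Nat.cast_sub l0.le]
  | 1 =>
    show ((gp (n + 1) : ℕ) : ℝ) = (h (s 2) : ℝ) - h (s 1)
    rw [p1, Nat.cast_sub l1.le]
  | 2 =>
    show ((gp (n + 2) : ℕ) : ℝ) = (h (s 3) : ℝ) - h (s 2)
    rw [p2, Nat.cast_sub l2.le]
  | 3 =>
    show ((gp (n + 3) : ℕ) : ℝ) = (h (s 4) : ℝ) - h (s 3)
    rw [p3, Nat.cast_sub l3.le]

end Pool.Agent.Lib.RU
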