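import Pool.Agent.Lib.RU.SpecQ

/-!
PROJECT SO, module WnL: the window at the end of the first rich group.
-/

set_option autoImplicit false

namespace Pool.Agent.Lib.RU

open Finset
open Pool.Agent.Lib.MP_9f2731_nt.GP
open Pool.Agent.Lib.MP_9f2731_nt.GP.Sv
open Pool.Agent.Lib.MP_9f2731_nt.QL
open Pool.Agent.Lib.MP_9f2731_nt.QL.Sw
open Pool.Agent.Lib.MP_9f2731_nt.CG
open Pool.Agent.Lib.MP_9f2731_nt.CG.Ma
open Pool.Agent.Lib.MP_9f2731_nt.CG.Mf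
open Pool.Agent.Lib.BE

open Classical in
private theorem WnL_max {K : ℕ} (S : Finset (Fin K)) (p : Fin K → Prop) (x : Fin K) (hx : x ∈ S)
    (hp : p x) : ∃ y ∈ S, p y ∧ x ≤ y ∧ ∀ z ∈ S, p z → z ≤ y := by
  have hne : (S.filter p).Nonempty := ⟨x, Finset.mem_filter.2 ⟨hx, hp⟩⟩
  have hm := Finset.mem_filter.1 (Finset.max'_mem _ hne)
  exact ⟨(S.filter p).max' hne, hm.1, hm.2, Finset.le_max' _ _ (Finset.mem_filter.2 ⟨hx, hp⟩),
    fun z hz h => Finset.le_max' _ _ (Finset.mem_filter.2 ⟨hz, h⟩)⟩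

open Classical in
private theorem WnL_min {K : ℕ} (S : Finset (Fin K)) (p : Fin K → Prop) (x : Fin K) (hx : x ∈ S)
    (hp : p x) : ∃ y ∈ S, p y ∧ y ≤ x ∧ ∀ z ∈ S, p z → y ≤ z := by
  have hne : (S.filter p).Nonempty := ⟨x, Finset.mem_filter.2 ⟨hx, hp⟩⟩
  have hm := Finset.mem_filter.1 (Finset.min'_mem _ hne)
  exact ⟨(S.filter p).min' hne, hm.1, hm.2, Finset.min'_le _ _ (Finset.mem_filter.2 ⟨hx, hp⟩),
    fun z hz h => Finset.min'_le _ _ (Finset.mem_filter.2 ⟨hz, h⟩)⟩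

theorem tWnL : WnLStmt := by
  intro K W q1 q2 S hR
  obtain ⟨hq, hR⟩ := hR
  obtain ⟨x0, x1, x2, hx0, hx1, hx2, h01, h12, hlo, hhi⟩ := hR q1 (Or.inl rfl)
  obtain ⟨y0, y1, y2, hy0, hy1, -, g01, -, glo, -⟩ := hR q2 (Or.inr rfl)
  have hW : W * (q1 + 1) ≤ W * q2 := Nat.mul_le_mul_left W hq
  obtain ⟨b, hb, hbp, hxb, hbm⟩ := WnL_max S (fun x => (x : ℕ) < W * (q1 + 1)) x2 hx2 hhi
  obtain ⟨a, ha, hab, hxa, ham⟩ := WnL_max S (fun x => x < b) x1 hx1 (lt_of_lt_of_le h12 hxb)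
  obtain ⟨a', ha', haa, hxa', ham'⟩ := WnL_max S (fun x => x < a) x0 hx0 (lt_of_lt_of_le h01 hxa)
  obtain ⟨b', hb', hbp', hyb', hbm'⟩ := WnL_min S (fun x => W * (q1 + 1) ≤ (x : ℕ)) y0 hy0
    (hW.trans glo)
  obtain ⟨b'', hb'', hbb'', -, hbm''⟩ := WnL_min S (fun x => b' < x) y1 hy1
    (lt_of_le_of_lt hyb' g01)
  have hbb' : b < b' := by
    rw [Fin.lt_def]
    exact lt_of_lt_of_le hbp hbp'
  refine ⟨a', a, b, b', b'', haa, hab, hbb', hbb'', ha', ha, hb, hb', hb'', ?_, ?_, hbp, hbp'⟩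
  · intro x hx h1 h2
    rcases lt_trichotomy x a with h3 | h3 | h3
    · exact absurd (ham' x hx h3) (not_le.2 h1)
    · exact Or.inl h3
    · rcases lt_trichotomy x b with h4 | h4 | h4
      · exact absurd (ham x hx h4) (not_le.2 h3)
      · exact Or.inr (Or.inl h4)
      · by_cases h5 : (x : ℕ) < W * (q1 + 1)
        · exact absurd (hbm x hx h5) (not_le.2 h4)
        · have h6 := hbm' x hx (not_lt.1 h5)
          rcases lt_or_eq_of_le h6 with h7 | h7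
          · exact absurd (hbm'' x hx h7) (not_le.2 h2)
          · exact Or.inr (Or.inr h7.symm)
  · exact hlo.trans hxa'

end Pool.Agent.Lib.RU
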